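import Pool.Agent.Lib.MP_4c13d6_pr.Defs

/-! Basic facts: expectation, windows. -/

open Finset

namespace Pool.Agent.Lib.MP_4c13d6_pr

variable {q : ℝ} {N : ℕ}

/-! ### coordinates -/

theorem val_lt {w : W N} {k : ℕ} (h : k < N) : val w k = w ⟨k, h⟩ := by simp [val, h]

theorem val_ge {w : W N} {k : ℕ} (h : N ≤ k) : val w k = false := by
  simp [val, Nat.not_lt.mpr h]

@[simp] theorem val_fin (w : W N) (i : Fin N) : val w i = w i := by simp [val]

@[ext] theorem ext_val {w v : W N} (h : ∀ k, k < N → val w k = val v k) : w = v := by
  funext i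
  have := h i i.isLt
  simpa using this

theorem val_ini (w : W (N + 1)) (k : ℕ) : val (ini w) k = if k < N then val w k else false := by
  unfold val ini
  split_ifs with h h2 <;> first | rfl | omega

theorem val_ini_lt {w : W (N + 1)} {k : ℕ} (h : k < N) : val (ini w) k = val w k := by
  rw [val_ini, if_pos h]

theorem val_tai (w : W (N + 1)) (k : ℕ) : val (tai w) k = val w (k + 1) := by
  unfold val tai
  split_ifs with h h2 h2 <;> first | rfl | omega

theorem val_app (w : W N) (b : Bool) (k : ℕ) :
    val (app w b) k = if k < N then val w k else (if k = N then b else false) := by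
  unfold val app
  split_ifs with h h2 h3
  · simp [Fin.snoc, h2]
  · subst h3; simp [Fin.snoc]
  · omega
  · omega
  · omega
  · rfl

theorem val_app_lt {w : W N} {b : Bool} {k : ℕ} (h : k < N) : val (app w b) k = val w k := by
  rw [val_app, if_pos h]

@[simp] theorem val_app_self (w : W N) (b : Bool) : val (app w b) N = b := by
  rw [val_app]; simp

@[simp] theorem val_con_zero (w : W N) (b : Bool) : val (con b w) 0 = b := by
  simp [val, con]

@[simp] theorem val_con_succ (w : W N) (b : Bool) (k : ℕ) : val (con b w) (k + 1) = val w k := by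
  unfold val con
  split_ifs with h h2 h2
  · exact Fin.cons_succ (α := fun _ => Bool) b w ⟨k, h2⟩
  · omega
  · omega
  · rfl

theorem val_psh (w : W N) (k : ℕ) :
    val (psh w) k = if k < N then (if k = 0 then true else val w (k - 1)) else false := by
  unfold psh
  by_cases h : k < N
  · simp [val, h]
  · simp [val, h]

theorem val_upd (w : W N) (i : Fin N) (b : Bool) (k : ℕ) :
    val (Function.update w i b) k = if k = i then b else val w k := by
  unfold val
  by_cases h : k < N
  · simp only [h, dite_true]
    by_cases h2 : k = i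
    · have : (⟨k, h⟩ : Fin N) = i := Fin.ext h2
      rw [this]; simp [h2]
    · rw [if_neg h2, Function.update_of_ne]
      intro h3; apply h2; rw [← h3]
  · have h2 : k ≠ i := by rintro rfl; exact h i.isLt
    simp [h, h2]

@[simp] theorem ini_app (w : W N) (b : Bool) : ini (app w b) = w := by
  ext k hk
  rw [val_ini_lt hk, val_app_lt hk]

theorem app_ini (w : W (N + 1)) : app (ini w) (val w N) = w := by
  ext k hk
  rw [val_app]
  split_ifs with h h2
  · rw [val_ini_lt h]
  · rw [h2]
  · omega

@[simp] theorem tai_con (w : W N) (b : Bool) : tai (con b w) = w := by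
  ext k hk
  rw [val_tai, val_con_succ]

theorem con_tai (w : W (N + 1)) : con (val w 0) (tai w) = w := by
  ext k hk
  cases k with
  | zero => simp
  | succ k => rw [val_con_succ, val_tai]

/-- the push of a window of `N+1` coordinates is `1` followed by its first `N` coordinates -/
theorem psh_eq_con (w : W (N + 1)) : psh w = con true (ini w) := by
  ext k hk
  rw [val_psh, if_pos hk]
  cases k with
  | zero => simp
  | succ k =>
    rw [val_con_succ, val_ini_lt (by omega)]
    simp

theorem psh_app (w : W N) (b : Bool) : psh (app w b) = con true w := by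
  rw [psh_eq_con, ini_app]

theorem ini_con (w : W (N + 1)) (b : Bool) : ini (con b w) = con b (ini w) := by
  ext k hk
  rw [val_ini_lt hk]
  cases k with
  | zero => simp
  | succ k => rw [val_con_succ, val_con_succ, val_ini_lt (by omega)]

theorem tai_app (w : W (N + 1)) (b : Bool) : tai (app w b) = app (tai w) b := by
  ext k hk
  rw [val_tai, val_app, val_app, val_tai]
  split_ifs <;> first | rfl | omega

theorem con_app (w : W N) (b c : Bool) : con b (app w c) = app (con b w) c := by
  ext k hk
  cases k with
  | zero => rw [val_app]; simp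
  | succ k =>
    rw [val_con_succ, val_app, val_app, val_con_succ]
    split_ifs <;> first | rfl | omega

/-! ### weights -/

theorem wt_nonneg (hq : 0 ≤ q) (hq1 : q ≤ 1) (w : W N) : 0 ≤ wt q w := by
  apply Finset.prod_nonneg
  intro i _
  split_ifs <;> linarith

theorem wt_pos (hq : 0 < q) (hq1 : q < 1) (w : W N) : 0 < wt q w := by
  apply Finset.prod_pos
  intro i _
  split_ifs <;> linarith

theorem wt_app (w : W N) (b : Bool) :
    wt q (app w b) = wt q w * (if b = true then q else 1 - q) := by
  unfold wt app
  rw [Fin.prod_univ_castSucc]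
  congr 1
  · apply Finset.prod_congr rfl
    intro i _
    rw [Fin.snoc_castSucc (α := fun _ => Bool)]
  · rw [Fin.snoc_last (α := fun _ => Bool)]

theorem wt_con (w : W N) (b : Bool) :
    wt q (con b w) = (if b = true then q else 1 - q) * wt q w := by
  unfold wt con
  rw [Fin.prod_univ_succ]
  congr 1

theorem wt_upd (w : W N) (i : Fin N) (b : Bool) :
    wt q (Function.update w i b) * (if w i = true then q else 1 - q)
      = wt q w * (if b = true then q else 1 - q) := by
  unfold wt
  rw [← Finset.mul_prod_erase _ _ (Finset.mem_univ i),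
    ← Finset.mul_prod_erase _ (fun j => if w j = true then q else 1 - q) (Finset.mem_univ i)]
  have : ∏ j ∈ Finset.univ.erase i, (if Function.update w i b j = true then q else 1 - q)
      = ∏ j ∈ Finset.univ.erase i, (if w j = true then q else 1 - q) := by
    apply Finset.prod_congr rfl
    intro j hj
    rw [Function.update_of_ne (Finset.ne_of_mem_erase hj)]
  rw [this]
  simp only [Function.update_self]
  ring

/-! ### expectation -/

theorem sum_app (h : W (N + 1) → ℝ) :
    ∑ w, h w = ∑ w : W N, (h (app w true) + h (app w false)) := by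
  have e : (∑ w : W (N + 1), h w) = ∑ p : Bool × W N, h (app p.2 p.1) := by
    apply (Fintype.sum_equiv (Fin.snocEquiv (fun _ : Fin (N + 1) => Bool)) _ _ _).symm
    intro p; rfl
  rw [e, Fintype.sum_prod_type_right]
  apply Finset.sum_congr rfl
  intro w _
  rw [Fintype.sum_bool]

theorem sum_con (h : W (N + 1) → ℝ) :
    ∑ w, h w = ∑ w : W N, (h (con true w) + h (con false w)) := by
  have e : (∑ w : W (N + 1), h w) = ∑ p : Bool × W N, h (con p.1 p.2) := by
    apply (Fintype.sum_equiv (Fin.consEquiv (fun _ : Fin (N + 1) => Bool)) _ _ _).symm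
    intro p; rfl
  rw [e, Fintype.sum_prod_type_right]
  apply Finset.sum_congr rfl
  intro w _
  rw [Fintype.sum_bool]

theorem Ex_app (g : W (N + 1) → ℝ) :
    Ex q g = Ex q (fun w => q * g (app w true) + (1 - q) * g (app w false)) := by
  unfold Ex
  rw [sum_app]
  apply Finset.sum_congr rfl
  intro w _
  rw [wt_app, wt_app]
  simp
  ring

theorem Ex_con (g : W (N + 1) → ℝ) :
    Ex q g = Ex q (fun w => q * g (con true w) + (1 - q) * g (con false w)) := by
  unfold Ex
  rw [sum_con]
  apply Finset.sum_congr rfl
  intro w _
  rw [wt_con, wt_con]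
  simp
  ring

theorem sum_wt (q : ℝ) (N : ℕ) : ∑ w : W N, wt q w = 1 := by
  induction N with
  | zero => simp [wt]
  | succ n ih =>
    rw [sum_app]
    have : ∀ w : W n, wt q (app w true) + wt q (app w false) = wt q w := by
      intro w; rw [wt_app, wt_app]; simp; ring
    simp_rw [this]
    exact ih

theorem Ex_const (c : ℝ) : Ex q (fun _ : W N => c) = c := by
  unfold Ex; rw [← Finset.sum_mul, sum_wt, one_mul]

theorem Ex_add (g h : W N → ℝ) : Ex q (fun w => g w + h w) = Ex q g + Ex q h := by
  unfold Ex; rw [← Finset.sum_add_distrib]; apply Finset.sum_congr rfl; intros; ring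

theorem Ex_sub (g h : W N → ℝ) : Ex q (fun w => g w - h w) = Ex q g - Ex q h := by
  unfold Ex; rw [← Finset.sum_sub_distrib]; apply Finset.sum_congr rfl; intros; ring

theorem Ex_neg (g : W N → ℝ) : Ex q (fun w => - g w) = - Ex q g := by
  unfold Ex; rw [← Finset.sum_neg_distrib]; apply Finset.sum_congr rfl; intros; ring

theorem Ex_mul_left (c : ℝ) (g : W N → ℝ) : Ex q (fun w => c * g w) = c * Ex q g := by
  unfold Ex; rw [Finset.mul_sum]; apply Finset.sum_congr rfl; intros; ring

theorem Ex_mul_right (c : ℝ) (g : W N → ℝ) : Ex q (fun w => g w * c) = Ex q g * c := by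
  unfold Ex; rw [Finset.sum_mul]; apply Finset.sum_congr rfl; intros; ring

theorem Ex_sum {ι : Type*} (t : Finset ι) (g : ι → W N → ℝ) :
    Ex q (fun w => ∑ i ∈ t, g i w) = ∑ i ∈ t, Ex q (g i) := by
  unfold Ex
  rw [Finset.sum_comm]
  apply Finset.sum_congr rfl
  intro w _
  rw [Finset.mul_sum]

theorem Ex_congr {g h : W N → ℝ} (e : ∀ w, g w = h w) : Ex q g = Ex q h := by
  have : g = h := funext e
  rw [this]

theorem Ex_nonneg (hq : 0 ≤ q) (hq1 : q ≤ 1) {g : W N → ℝ} (h : ∀ w, 0 ≤ g w) : 0 ≤ Ex q g :=
  Finset.sum_nonneg fun w _ => mul_nonneg (wt_nonneg hq hq1 w) (h w)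

theorem Ex_mono (hq : 0 ≤ q) (hq1 : q ≤ 1) {g h : W N → ℝ} (e : ∀ w, g w ≤ h w) :
    Ex q g ≤ Ex q h :=
  Finset.sum_le_sum fun w _ => mul_le_mul_of_nonneg_left (e w) (wt_nonneg hq hq1 w)

theorem abs_Ex_le (hq : 0 ≤ q) (hq1 : q ≤ 1) (g : W N → ℝ) : |Ex q g| ≤ Ex q (fun w => |g w|) := by
  unfold Ex
  refine (Finset.abs_sum_le_sum_abs _ _).trans (le_of_eq ?_)
  apply Finset.sum_congr rfl
  intro w _
  rw [abs_mul, abs_of_nonneg (wt_nonneg hq hq1 w)]

/-- resampling one coordinate does not change the expectation -/
theorem Ex_upd (hq : 0 < q) (hq1 : q < 1) (i : Fin N) (g : W N → ℝ) :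
    Ex q g = Ex q (fun w => q * g (Function.update w i true)
      + (1 - q) * g (Function.update w i false)) := by
  -- pair the sums according to the value at `i`
  have key : ∀ b : Bool, ∑ w : W N, wt q w * ((if b = true then q else 1 - q)
      * g (Function.update w i b)) = ∑ w : W N, if w i = b then wt q w * g w else 0 := by
    intro b
    have h1 : ∀ w : W N, wt q w * ((if b = true then q else 1 - q) * g (Function.update w i b))
        = wt q (Function.update w i b) * (if w i = true then q else 1 - q)
          * g (Function.update w i b) := by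
      intro w; rw [wt_upd]; ring
    simp_rw [h1]
    -- split over value of `w i`
    have h2 : ∀ w : W N, w i = b → (Function.update w i b) = w := by
      intro w hw; rw [← hw]; simp
    have inv : ∀ w : W N, Function.update (Function.update w i (!w i)) i (w i) = w := by
      intro w; simp
    have e1 : ∑ w : W N, wt q (Function.update w i b) * (if w i = true then q else 1 - q)
          * g (Function.update w i b)
        = (∑ w : W N, if w i = b then wt q w * (if b = true then q else 1 - q) * g w else 0)
          + ∑ w : W N, if w i = b then 0 else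
            wt q (Function.update w i b) * (if b = true then 1 - q else q)
              * g (Function.update w i b) := by
      rw [← Finset.sum_add_distrib]
      apply Finset.sum_congr rfl
      intro w _
      by_cases hw : w i = b
      · rw [if_pos hw, if_pos hw, h2 w hw, hw]; ring
      · rw [if_neg hw, if_neg hw, zero_add]
        congr 2
        cases b <;> cases hwi : w i <;> simp_all
    have e2 : (∑ w : W N, if w i = b then 0 else
            wt q (Function.update w i b) * (if b = true then 1 - q else q)
              * g (Function.update w i b))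
        = ∑ w : W N, if w i = b then wt q w * (if b = true then 1 - q else q) * g w else 0 := by
      apply Finset.sum_nbij' (fun w => Function.update w i (!w i))
        (fun w => Function.update w i (!w i))
      · simp
      · simp
      · intro w _; simp
      · intro w _; simp
      · intro w _
        by_cases hw : w i = b
        · rw [if_pos hw]
          have : ¬ (Function.update w i (!w i)) i = b := by
            simp only [Function.update_self]
            intro h; rw [← hw] at h; cases hwi : w i <;> simp_all
          rw [if_neg this]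
        · rw [if_neg hw]
          have hb : (!w i) = b := by
            cases b <;> cases hwi : w i <;> simp_all
          rw [hb, if_pos (Function.update_self i b w)]
    rw [e1, e2, ← Finset.sum_add_distrib]
    apply Finset.sum_congr rfl
    intro w _
    split_ifs <;> ring
  unfold Ex
  have k1 := key true
  have k2 := key false
  simp only [if_true] at k1
  have k2' : ∑ w : W N, wt q w * ((1 - q) * g (Function.update w i false))
      = ∑ w : W N, if w i = false then wt q w * g w else 0 := by
    simpa using k2
  have : ∀ w : W N, wt q w * (q * g (Function.update w i true)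
      + (1 - q) * g (Function.update w i false))
      = wt q w * (q * g (Function.update w i true))
        + wt q w * ((1 - q) * g (Function.update w i false)) := by intro w; ring
  simp_rw [this]
  rw [Finset.sum_add_distrib, k1, k2', ← Finset.sum_add_distrib]
  apply Finset.sum_congr rfl
  intro w _
  cases w i <;> simp

/-- Cauchy-Schwarz -/
theorem Ex_cs (hq : 0 ≤ q) (hq1 : q ≤ 1) (g h : W N → ℝ) :
    (Ex q (fun w => g w * h w)) ^ 2 ≤ Ex q (fun w => g w ^ 2) * Ex q (fun w => h w ^ 2) := by
  have := Finset.sum_mul_sq_le_sq_mul_sq Finset.univ (fun w : W N => √(wt q w) * g w)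
    (fun w => √(wt q w) * h w)
  unfold Ex
  have e : ∀ w : W N, √(wt q w) * g w * (√(wt q w) * h w) = wt q w * (g w * h w) := by
    intro w
    have := Real.mul_self_sqrt (wt_nonneg hq hq1 w)
    calc _ = (√(wt q w) * √(wt q w)) * (g w * h w) := by ring
      _ = _ := by rw [this]
  have e2 : ∀ (k : W N → ℝ) (w : W N), (√(wt q w) * k w) ^ 2 = wt q w * k w ^ 2 := by
    intro k w; rw [mul_pow, Real.sq_sqrt (wt_nonneg hq hq1 w)]
  simp_rw [e, e2] at this
  exact this

/-- Cauchy-Schwarz, square root form -/
theorem Ex_cs' (hq : 0 ≤ q) (hq1 : q ≤ 1) (g h : W N → ℝ) :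
    Ex q (fun w => g w * h w) ≤ √(Ex q (fun w => g w ^ 2)) * √(Ex q (fun w => h w ^ 2)) := by
  have h1 := Ex_cs hq hq1 g h
  rw [← Real.sqrt_mul (Ex_nonneg hq hq1 fun w => sq_nonneg _)]
  exact (le_abs_self _).trans (Real.abs_le_sqrt h1)

theorem Var_nonneg (hq : 0 ≤ q) (hq1 : q ≤ 1) (u : W N → ℝ) : 0 ≤ Var q u := by
  have := Ex_cs hq hq1 u (fun _ => 1)
  unfold Var
  simp only [mul_one, one_pow, Ex_const] at this
  linarith

end Pool.Agent.Lib.MP_4c13d6_pr
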