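import Pool.Agent.Lib.MP_4c13d6_pr.FDefs

/-! Part III: the FA-1f chain on `m` sites `0, ..., m-1` with boundary sites `-1` and `m`. -/

open Finset

namespace Pool.Agent.Lib.MP_4c13d6_pr

/-- extended configuration: `bL` at site `-1`, `bR` at site `m` -/
def ev {m : ℕ} (bL bR : Bool) (w : W m) (k : ℤ) : Bool :=
  if k = -1 then bL else if k = m then bR else if 0 ≤ k then val w k.toNat else false

/-- the kinetic constraint at site `i` -/
def kc {m : ℕ} (bL bR : Bool) (w : W m) (i : ℤ) : Prop :=
  ev bL bR w (i - 1) = true ∨ ev bL bR w (i + 1) = true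

instance {m : ℕ} (bL bR : Bool) (w : W m) (i : ℤ) : Decidable (kc bL bR w i) := by
  unfold kc; infer_instance

/-- generator acting on functions -/
noncomputable def LL (q : ℝ) (bL bR : Bool) {m : ℕ} (H : W m → ℝ) (w : W m) : ℝ :=
  ∑ i : Fin m, if kc bL bR w (i : ℕ) then
    q * H (Function.update w i true) + (1 - q) * H (Function.update w i false) - H w else 0

/-- generator matrix -/
noncomputable def LM (q : ℝ) (bL bR : Bool) (m : ℕ) : Matrix (W m) (W m) ℝ :=
  fun w w' => LL q bL bR (Pi.single w' 1) w

/-- at least one infected site (frozen ones count) -/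
def ok {m : ℕ} (bL bR : Bool) (w : W m) : Prop := bL = true ∨ bR = true ∨ ∃ i, w i = true

instance {m : ℕ} (bL bR : Bool) (w : W m) : Decidable (ok bL bR w) := by
  unfold ok; infer_instance

/-- mirror image -/
def mir {m : ℕ} (w : W m) : W m := fun i => w i.rev

/-- the sites `k-1, ..., 0` -/
def bh {m : ℕ} (w : W m) : ℕ → List Bool
  | 0 => []
  | k + 1 => val w k :: bh w k

/-- state of the front: nearest infected site among `-1, ..., x-1` -/
def stt {m : ℕ} (bL : Bool) (w : W m) : ℕ → Option FS
  | 0 => if bL = true then some none else none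
  | k + 1 => if val w k = true then some (some (bh w k)) else stt bL w k

/-- no infected site at distance `< r` from `x` -/
def far {m : ℕ} (bL bR : Bool) (w : W m) (x r : ℕ) : Prop :=
  ∀ k : ℤ, |k - x| < r → ev bL bR w k = false

open Classical in
/-- probability of an event under a matrix row -/
noncomputable def rowP {X : Type*} [Fintype X] (P : Matrix X X ℝ) (x : X) (A : X → Prop) : ℝ :=
  ∑ y, if A y then P x y else 0

/-- transition matrix at time `t` -/
noncomputable def PP {X : Type*} [Fintype X] [DecidableEq X] (Q : Matrix X X ℝ) (t : ℝ) :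
    Matrix X X ℝ := NormedSpace.exp (t • Q)

/-- generator matrices -/
def IsGen {X : Type*} [Fintype X] (Q : Matrix X X ℝ) : Prop :=
  (∀ x y, x ≠ y → 0 ≤ Q x y) ∧ ∀ x, ∑ y, Q x y = 0

end Pool.Agent.Lib.MP_4c13d6_pr
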