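import Mathlib

/-! FA-3: real inequalities used in the entropy inequality. -/

open Finset

namespace Pool.Agent.Lib.MP_4c13d6_pr

private theorem ea_log_lb {s t : ℝ} (ht : 0 < t) (hts : t ≤ s) :
    2 * (s - t) / (s + t) ≤ Real.log s - Real.log t := by
  have hs : 0 < s := ht.trans_le hts
  have h1 := Real.le_log_one_add_of_nonneg (x := s / t - 1) (by
    rw [sub_nonneg, one_le_div ht]; exact hts)
  have h2 : 1 + (s / t - 1) = s / t := by ring
  rw [h2, Real.log_div hs.ne' ht.ne'] at h1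
  refine le_trans (le_of_eq ?_) h1
  have h3 : s / t - 1 + 2 = (s + t) / t := by field_simp; ring
  have h4 : s / t - 1 = (s - t) / t := by field_simp
  rw [h3, h4]
  field_simp

private theorem ea_log_ub {s t : ℝ} (ht : 0 < t) (hts : t ≤ s) :
    2 * (Real.log s - Real.log t) ≤ s / t - t / s := by
  have hs : 0 < s := ht.trans_le hts
  have hst : 0 < s / t := by positivity
  have h1 : Real.log (s / t) ≤ Real.sinh (Real.log (s / t)) := by
    rw [Real.self_le_sinh_iff]
    exact Real.log_nonneg ((one_le_div ht).2 hts)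
  rw [Real.sinh_log hst, Real.log_div hs.ne' ht.ne', inv_div] at h1
  linarith

private theorem ea_log_sqrt {x : ℝ} (hx : 0 < x) : Real.log x = 2 * Real.log (√x) := by
  rw [Real.log_sqrt hx.le]
  ring

/-- `(x-y)(log x - log y) ≥ 4 (√x-√y)²` -/
theorem sub_mul_log_ge {x y : ℝ} (hx : 0 < x) (hy : 0 < y) :
    4 * (√x - √y) ^ 2 ≤ (x - y) * (Real.log x - Real.log y) := by
  have key : ∀ x y : ℝ, 0 < x → 0 < y → y ≤ x →
      4 * (√x - √y) ^ 2 ≤ (x - y) * (Real.log x - Real.log y) := by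
    intro x y hx hy hyx
    have hs : 0 < √x := Real.sqrt_pos.2 hx
    have ht : 0 < √y := Real.sqrt_pos.2 hy
    have hx2 : x = √x ^ 2 := (Real.sq_sqrt hx.le).symm
    have hy2 : y = √y ^ 2 := (Real.sq_sqrt hy.le).symm
    have hts : √y ≤ √x := Real.sqrt_le_sqrt hyx
    rw [ea_log_sqrt hx, ea_log_sqrt hy]
    have h1 := ea_log_lb ht hts
    set s := √x
    set t := √y
    rw [hx2, hy2]
    calc 4 * (s - t) ^ 2 = (s ^ 2 - t ^ 2) * (2 * (2 * (s - t) / (s + t))) := by
          field_simp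
          ring
      _ ≤ (s ^ 2 - t ^ 2) * (2 * (Real.log s - Real.log t)) := by
          have : 0 ≤ s ^ 2 - t ^ 2 := by nlinarith
          gcongr
      _ = _ := by ring
  rcases le_total y x with h | h
  · exact key x y hx hy h
  · have := key y x hy hx h
    calc 4 * (√x - √y) ^ 2 = 4 * (√y - √x) ^ 2 := by ring
      _ ≤ (y - x) * (Real.log y - Real.log x) := this
      _ = _ := by ring

/-- `(x-y)(1/y-1/x) ≥ (log x - log y)²` -/
theorem sub_mul_inv_ge {x y : ℝ} (hx : 0 < x) (hy : 0 < y) :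
    (Real.log x - Real.log y) ^ 2 ≤ (x - y) * (1 / y - 1 / x) := by
  have key : ∀ x y : ℝ, 0 < x → 0 < y → y ≤ x →
      (Real.log x - Real.log y) ^ 2 ≤ (x - y) * (1 / y - 1 / x) := by
    intro x y hx hy hyx
    have hs : 0 < √x := Real.sqrt_pos.2 hx
    have ht : 0 < √y := Real.sqrt_pos.2 hy
    have hx2 : x = √x ^ 2 := (Real.sq_sqrt hx.le).symm
    have hy2 : y = √y ^ 2 := (Real.sq_sqrt hy.le).symm
    have hts : √y ≤ √x := Real.sqrt_le_sqrt hyx
    have h0 : 0 ≤ Real.log x - Real.log y := by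
      have := Real.log_le_log hy hyx
      linarith
    have h1 : Real.log x - Real.log y ≤ √x / √y - √y / √x := by
      rw [ea_log_sqrt hx, ea_log_sqrt hy]
      have := ea_log_ub ht hts
      linarith
    calc (Real.log x - Real.log y) ^ 2 ≤ (√x / √y - √y / √x) ^ 2 := by gcongr
      _ = (x - y) * (1 / y - 1 / x) := by
          set s := √x
          set t := √y
          rw [hx2, hy2]
          field_simp
  rcases le_total y x with h | h
  · exact key x y hx hy h
  · have := key y x hy hx h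
    calc (Real.log x - Real.log y) ^ 2 = (Real.log y - Real.log x) ^ 2 := by ring
      _ ≤ (y - x) * (1 / x - 1 / y) := this
      _ = _ := by ring

/-- `x (log y - log x) ≤ 2 √x |√y-√x|` -/
theorem mul_log_sub_le {x y : ℝ} (hx : 0 < x) (hy : 0 < y) :
    x * (Real.log y - Real.log x) ≤ 2 * (√x * |√y - √x|) := by
  have hs : 0 < √x := Real.sqrt_pos.2 hx
  have ht : 0 < √y := Real.sqrt_pos.2 hy
  have hx2 : x = √x ^ 2 := (Real.sq_sqrt hx.le).symm
  rw [ea_log_sqrt hx, ea_log_sqrt hy]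
  have h1 : Real.log (√y) - Real.log (√x) ≤ √y / √x - 1 := by
    rw [← Real.log_div ht.ne' hs.ne']
    exact Real.log_le_sub_one_of_pos (by positivity)
  have h2 : √y - √x ≤ |√y - √x| := le_abs_self _
  set s := √x
  set t := √y
  rw [hx2]
  calc s ^ 2 * (2 * Real.log t - 2 * Real.log s) = 2 * s ^ 2 * (Real.log t - Real.log s) := by ring
    _ ≤ 2 * s ^ 2 * (t / s - 1) := by gcongr
    _ = 2 * (s * (t - s)) := by field_simp
    _ ≤ _ := by gcongr

/-- two point entropy inequality -/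
theorem two_point_ent {q x y : ℝ} (hq : 0 < q) (hq1 : q < 1) (hx : 0 < x) (hy : 0 < y) :
    q * (x * Real.log (x / (q * x + (1 - q) * y)))
      + (1 - q) * (y * Real.log (y / (q * x + (1 - q) * y))) ≤ 2 * (√x - √y) ^ 2 := by
  have ha : 0 < 1 - q := by linarith
  have hm : 0 < q * x + (1 - q) * y := by positivity
  have hs : 0 < √x := Real.sqrt_pos.2 hx
  have ht : 0 < √y := Real.sqrt_pos.2 hy
  have hx2 : x = √x ^ 2 := (Real.sq_sqrt hx.le).symm
  have hy2 : y = √y ^ 2 := (Real.sq_sqrt hy.le).symm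
  have h1 : Real.log (x / (q * x + (1 - q) * y)) ≤ x / (q * x + (1 - q) * y) - 1 :=
    Real.log_le_sub_one_of_pos (by positivity)
  have h2 : Real.log (y / (q * x + (1 - q) * y)) ≤ y / (q * x + (1 - q) * y) - 1 :=
    Real.log_le_sub_one_of_pos (by positivity)
  calc q * (x * Real.log (x / (q * x + (1 - q) * y)))
      + (1 - q) * (y * Real.log (y / (q * x + (1 - q) * y)))
      ≤ q * (x * (x / (q * x + (1 - q) * y) - 1)) + (1 - q) * (y * (y / (q * x + (1 - q) * y) - 1)) := by
        gcongr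
    _ = q * (1 - q) * (x - y) ^ 2 / (q * x + (1 - q) * y) := by
        field_simp
        ring
    _ ≤ (√x - √y) ^ 2 := by
        rw [div_le_iff₀ hm]
        have h3 : q * (1 - q) * (√x + √y) ^ 2 ≤ q * x + (1 - q) * y := by
          have : 0 ≤ (q * √x - (1 - q) * √y) ^ 2 := sq_nonneg _
          nlinarith
        have h4 : (x - y) ^ 2 = (√x - √y) ^ 2 * (√x + √y) ^ 2 := by
          set s := √x
          set t := √y
          rw [hx2, hy2]
          ring
        rw [h4]
        have h5 : 0 ≤ (√x - √y) ^ 2 := sq_nonneg _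
        nlinarith
    _ ≤ _ := by
        have h5 : 0 ≤ (√x - √y) ^ 2 := sq_nonneg _
        linarith

/-- Gibbs inequality for two points: `∑ p x log y ≤ ∑ p x log x`, for `x` of mean `m`, `y` of
mean `m'`, in ratio form -/
theorem two_point_gibbs {q x y x' y' : ℝ} (hq : 0 < q) (hq1 : q < 1) (hx : 0 < x) (hy : 0 < y)
    (hx' : 0 < x') (hy' : 0 < y') :
    q * (x * Real.log (x' / (q * x' + (1 - q) * y')))
      + (1 - q) * (y * Real.log (y' / (q * x' + (1 - q) * y')))
      ≤ q * (x * Real.log (x / (q * x + (1 - q) * y)))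
        + (1 - q) * (y * Real.log (y / (q * x + (1 - q) * y))) := by
  have ha : 0 < 1 - q := by linarith
  obtain ⟨m, hmd⟩ : ∃ m, m = q * x + (1 - q) * y := ⟨_, rfl⟩
  obtain ⟨m', hmd'⟩ : ∃ m', m' = q * x' + (1 - q) * y' := ⟨_, rfl⟩
  rw [← hmd, ← hmd']
  have hm : 0 < m := by rw [hmd]; positivity
  have hm' : 0 < m' := by rw [hmd']; positivity
  have key : ∀ z z' : ℝ, 0 < z → 0 < z' →
      z - z' * (m / m') ≤ z * Real.log (z / m) - z * Real.log (z' / m') := by
    intro z z' hz hz'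
    have h1 := Real.one_sub_inv_le_log_of_pos (x := z / m / (z' / m')) (by positivity)
    rw [Real.log_div (by positivity) (by positivity)] at h1
    calc z - z' * (m / m') = z * (1 - (z / m / (z' / m'))⁻¹) := by
          field_simp
      _ ≤ z * (Real.log (z / m) - Real.log (z' / m')) := by gcongr
      _ = _ := by ring
  have h1 := key x x' hx hx'
  have h2 := key y y' hy hy'
  have h3 : q * (x - x' * (m / m')) + (1 - q) * (y - y' * (m / m')) = 0 := by
    have : q * (x - x' * (m / m')) + (1 - q) * (y - y' * (m / m')) =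
        (q * x + (1 - q) * y) - (q * x' + (1 - q) * y') * (m / m') := by ring
    rw [this, ← hmd, ← hmd']
    field_simp
    ring
  have h4 : q * (x - x' * (m / m')) ≤ q * (x * Real.log (x / m) - x * Real.log (x' / m')) := by
    gcongr
  have h5 : (1 - q) * (y - y' * (m / m')) ≤
      (1 - q) * (y * Real.log (y / m) - y * Real.log (y' / m')) := by
    gcongr
  linarith

theorem two_point_ent_nonneg {q x y : ℝ} (hq : 0 < q) (hq1 : q < 1) (hx : 0 < x) (hy : 0 < y) :
    0 ≤ q * (x * Real.log (x / (q * x + (1 - q) * y)))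
      + (1 - q) * (y * Real.log (y / (q * x + (1 - q) * y))) := by
  have h := two_point_gibbs hq hq1 hx hy one_pos one_pos
  have h1 : (1 : ℝ) / (q * 1 + (1 - q) * 1) = 1 := by
    rw [show q * 1 + (1 - q) * 1 = 1 by ring, div_one]
  rw [h1, Real.log_one] at h
  linarith

/-- log-sum inequality -/
theorem log_sum {ι : Type*} (t : Finset ι) (p x y : ι → ℝ) (hp : ∀ i ∈ t, 0 < p i)
    (hx : ∀ i ∈ t, 0 < x i) (hy : ∀ i ∈ t, 0 < y i) (ht : t.Nonempty) :
    (∑ i ∈ t, p i * x i) * Real.log ((∑ i ∈ t, p i * x i) / (∑ i ∈ t, p i * y i))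
      ≤ ∑ i ∈ t, p i * (x i * Real.log (x i / y i)) := by
  have hX : 0 < ∑ i ∈ t, p i * x i := Finset.sum_pos (fun i hi => mul_pos (hp i hi) (hx i hi)) ht
  have hY : 0 < ∑ i ∈ t, p i * y i := Finset.sum_pos (fun i hi => mul_pos (hp i hi) (hy i hi)) ht
  obtain ⟨X, hXd⟩ : ∃ X, X = ∑ i ∈ t, p i * x i := ⟨_, rfl⟩
  obtain ⟨Y, hYd⟩ : ∃ Y, Y = ∑ i ∈ t, p i * y i := ⟨_, rfl⟩
  rw [← hXd, ← hYd]
  rw [← hXd] at hX
  rw [← hYd] at hY
  have key : ∀ i ∈ t, p i * x i - p i * y i * (X / Y) ≤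
      p i * (x i * Real.log (x i / y i)) - p i * x i * Real.log (X / Y) := by
    intro i hi
    have hpi := hp i hi
    have hxi := hx i hi
    have hyi := hy i hi
    have h1 := Real.one_sub_inv_le_log_of_pos (x := x i / y i / (X / Y)) (by positivity)
    rw [Real.log_div (by positivity) (by positivity)] at h1
    calc p i * x i - p i * y i * (X / Y) = p i * x i * (1 - (x i / y i / (X / Y))⁻¹) := by
          field_simp
      _ ≤ p i * x i * (Real.log (x i / y i) - Real.log (X / Y)) := by gcongr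
      _ = _ := by ring
  have h1 := Finset.sum_le_sum key
  rw [Finset.sum_sub_distrib, Finset.sum_sub_distrib, ← Finset.sum_mul, ← Finset.sum_mul,
    ← hXd, ← hYd] at h1
  have h2 : X - Y * (X / Y) = 0 := by
    field_simp
    ring
  linarith

theorem front_nonpos {a R : ℝ} (ha : 0 < a) (ha1 : a < 1) (hR : 0 < R)
    (h : R ≤ 1 ∨ 1 ≤ a * R) : (1 - a * R) * Real.log R ≤ 0 := by
  rcases h with h | h
  · have h1 := Real.log_nonpos hR.le h
    have h2 : 0 ≤ 1 - a * R := by nlinarith
    exact mul_nonpos_of_nonneg_of_nonpos h2 h1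
  · have h1 : 1 ≤ R := by nlinarith
    have h2 := Real.log_nonneg h1
    exact mul_nonpos_of_nonpos_of_nonneg (by linarith) h2

/-- the front term: `(1-aR) log R ≤ √2 (1-√a)²` -/
theorem front_bound {a R : ℝ} (ha : 0 < a) (ha1 : a < 1) (hR : 0 < R) (hRq : R ≤ 1 / (1 - a)) :
    (1 - a * R) * Real.log R ≤ √2 * (1 - √a) ^ 2 := by
  have h2 : (0 : ℝ) ≤ √2 * (1 - √a) ^ 2 := by positivity
  by_cases hcase : R ≤ 1 ∨ 1 ≤ a * R
  · exact (front_nonpos ha ha1 hR hcase).trans h2
  push Not at hcase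
  obtain ⟨hR1, haR⟩ := hcase
  have hr : 0 < √R := Real.sqrt_pos.2 hR
  have hR2 : R = √R ^ 2 := (Real.sq_sqrt hR.le).symm
  have ha2 : a = √a ^ 2 := (Real.sq_sqrt ha.le).symm
  have hsa : 0 < √a := Real.sqrt_pos.2 ha
  have hr1 : 1 ≤ √R := by
    rw [Real.one_le_sqrt]
    exact hR1.le
  have hlog : Real.log R ≤ √R - 1 / √R := by
    have h3 := ea_log_ub one_pos hr1
    rw [Real.log_one, sub_zero, div_one] at h3
    rw [ea_log_sqrt hR]
    exact h3
  have hRle2 : R ≤ 2 := by
    rcases le_total a (1 / 2) with h | h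
    · refine hRq.trans ?_
      rw [div_le_iff₀ (by linarith)]
      linarith
    · nlinarith
  have hrle : √R ≤ √2 := Real.sqrt_le_sqrt hRle2
  have hfac : 0 ≤ 1 - a * R := by linarith
  set r := √R
  set b := √a
  calc (1 - a * R) * Real.log R ≤ (1 - a * R) * (r - 1 / r) := by gcongr
    _ = r * (1 + a - (a * r ^ 2 + 1 / r ^ 2)) := by
        rw [hR2]
        field_simp
        ring
    _ ≤ r * (1 - b) ^ 2 := by
        have h4 : 2 * b ≤ a * r ^ 2 + 1 / r ^ 2 := by
          have h5 : 0 ≤ (b * r - 1 / r) ^ 2 := sq_nonneg _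
          have h6 : (b * r - 1 / r) ^ 2 = b ^ 2 * r ^ 2 + 1 / r ^ 2 - 2 * b := by
            field_simp
            ring
          rw [h6, ← ha2] at h5
          linarith
        have h7 : (1 - b) ^ 2 = 1 + a - 2 * b := by rw [ha2]; ring
        rw [h7]
        gcongr
    _ ≤ √2 * (1 - b) ^ 2 := by gcongr

end Pool.Agent.Lib.MP_4c13d6_pr
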