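import Pool.Agent.Lib.MP_4c13d6_pr.SWalkC

section

/-! FA-2: energies (Lemma 7 of the paper). -/

open Finset

namespace Pool.Agent.Lib.MP_4c13d6_pr

variable {q : ℝ}

/-- reverse triangle inequality for a weighted euclidean norm of the plane -/
private theorem famB_rev_tri {a b x₁ x₀ y₁ y₀ : ℝ} (ha : 0 ≤ a) (hb : 0 ≤ b) :
    (√(a * x₁ ^ 2 + b * x₀ ^ 2) - √(a * y₁ ^ 2 + b * y₀ ^ 2)) ^ 2 ≤
      a * (x₁ - y₁) ^ 2 + b * (x₀ - y₀) ^ 2 := by
  have hX : 0 ≤ a * x₁ ^ 2 + b * x₀ ^ 2 := by positivity
  have hY : 0 ≤ a * y₁ ^ 2 + b * y₀ ^ 2 := by positivity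
  have h1 := Real.sq_sqrt hX
  have h2 := Real.sq_sqrt hY
  have h3 : (a * x₁ * y₁ + b * x₀ * y₀) ^ 2 ≤
      (a * x₁ ^ 2 + b * x₀ ^ 2) * (a * y₁ ^ 2 + b * y₀ ^ 2) := by
    have h4 : 0 ≤ a * b * (x₁ * y₀ - x₀ * y₁) ^ 2 := by positivity
    nlinarith [h4]
  have h5 : a * x₁ * y₁ + b * x₀ * y₀ ≤
      √(a * x₁ ^ 2 + b * x₀ ^ 2) * √(a * y₁ ^ 2 + b * y₀ ^ 2) := by
    rw [← Real.sqrt_mul hX]
    exact (le_abs_self _).trans (Real.abs_le_sqrt h3)
  nlinarith [h1, h2, h5]

/-- updating a coordinate which is not the last one commutes with appending -/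
private theorem famB_upd_app {N i : ℕ} (h : i < N) (w : W N) (b c : Bool) :
    Function.update (app w b) ⟨i, by omega⟩ c = app (Function.update w ⟨i, h⟩ c) b := by
  ext k hk
  rw [val_upd, val_app, val_app, val_upd]
  by_cases h1 : k = i
  · subst h1
    simp [h]
  · simp [h1]

/-- updating the last coordinate -/
private theorem famB_upd_last {n : ℕ} (w : W n) (b c : Bool) :
    Function.update (app w b) (Fin.last n) c = app w c := by
  ext k hk
  rw [val_upd, val_app, val_app]
  by_cases h1 : k = n
  · subst h1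
    simp
  · have h2 : k < n := by omega
    simp [h1, h2]

private theorem famB_cc_app {N i : ℕ} (h : i < N) (w : W N) (b : Bool) (hc : cc w i) :
    cc (app w b) i := by
  rcases hc with hc | hc | hc
  · exact Or.inl hc
  · refine Or.inr (Or.inl ?_)
    rw [val_app_lt (by omega)]
    exact hc
  · refine Or.inr (Or.inr ?_)
    by_cases h1 : i + 1 < N
    · rw [val_app_lt h1]
      exact hc
    · rw [val_ge (by omega)] at hc
      exact absurd hc (by simp)

namespace Fam

theorem s_nonneg (f : Fam q) (hq : 0 < q) (hq1 : q < 1) (N i : ℕ) : 0 ≤ f.s N i := by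
  unfold Fam.s
  split_ifs with h
  · refine Ex_nonneg hq.le hq1.le fun w => ?_
    split_ifs
    · positivity
    · exact le_refl 0
  · exact le_refl 0

private theorem famB_u_eq (f : Fam q) (N : ℕ) (w : W N) :
    f.u N w = √(q * f.u (N + 1) (app w true) ^ 2 + (1 - q) * f.u (N + 1) (app w false) ^ 2) := by
  rw [f.u_sq, f.u_sq, ← f.cons, Fam.u]

/-- monotonicity in the window size (closed constraint, reverse triangle inequality) -/
theorem s_mono (f : Fam q) (hq : 0 < q) (hq1 : q < 1) {N i : ℕ} (h : i < N) :
    f.s N i ≤ f.s (N + 1) i := by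
  have h' : i < N + 1 := by omega
  unfold Fam.s
  rw [dif_pos h, dif_pos h', Ex_app]
  refine Ex_mono hq.le hq1.le fun w => ?_
  have ha : 0 ≤ 1 - q := by linarith
  by_cases hc : cc w i
  · rw [if_pos hc, if_pos (famB_cc_app h w true hc), if_pos (famB_cc_app h w false hc)]
    unfold dl
    rw [famB_upd_app h, famB_upd_app h, famB_upd_app h, famB_upd_app h, f.famB_u_eq N,
      f.famB_u_eq N]
    exact famB_rev_tri hq.le ha
  · rw [if_neg hc]
    have h1 : ∀ v : W (N + 1), 0 ≤ (if cc v i then (dl (f.u (N + 1)) ⟨i, h'⟩ v) ^ 2 else 0) := by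
      intro v
      split_ifs
      · positivity
      · exact le_refl 0
    have h2 := mul_nonneg hq.le (h1 (app w true))
    have h3 := mul_nonneg ha (h1 (app w false))
    linarith

theorem U_nonneg (f : Fam q) (hq : 0 < q) (hq1 : q < 1) (n : ℕ) : 0 ≤ f.U n :=
  Ex_nonneg hq.le hq1.le fun _ => sq_nonneg _

theorem U_le (f : Fam q) (hq : 0 < q) (hq1 : q < 1) (n : ℕ) :
    f.U n ≤ 1 / q + 1 / (1 - q) := by
  have ha : 0 < 1 - q := by linarith
  have h1 : f.U n = Ex q (fun w : W n =>
      (f.u (n + 1) (app w true) - f.u (n + 1) (app w false)) ^ 2) := by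
    unfold Fam.U
    rw [Ex_app]
    refine Ex_congr fun w => ?_
    unfold dl
    rw [famB_upd_last, famB_upd_last, famB_upd_last, famB_upd_last]
    ring
  have h2 : f.U n ≤ Ex q (fun w : W n => f.f (n + 1) (app w true)) +
      Ex q (fun w : W n => f.f (n + 1) (app w false)) := by
    rw [h1, ← Ex_add]
    refine Ex_mono hq.le hq1.le fun w => ?_
    rw [← f.u_sq, ← f.u_sq]
    have h3 := (f.u_pos hq hq1 (n + 1) (app w true)).le
    have h4 := (f.u_pos hq hq1 (n + 1) (app w false)).le
    nlinarith [mul_nonneg h3 h4]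
  have h3 : q * Ex q (fun w : W n => f.f (n + 1) (app w true)) +
      (1 - q) * Ex q (fun w : W n => f.f (n + 1) (app w false)) = 1 := by
    have h := f.Ex_f (n + 1)
    rw [Ex_app, Ex_add, Ex_mul_left, Ex_mul_left] at h
    exact h
  have hA : 0 ≤ Ex q (fun w : W n => f.f (n + 1) (app w true)) :=
    Ex_nonneg hq.le hq1.le fun w => f.nn _ _
  have hB : 0 ≤ Ex q (fun w : W n => f.f (n + 1) (app w false)) :=
    Ex_nonneg hq.le hq1.le fun w => f.nn _ _
  have h4 : Ex q (fun w : W n => f.f (n + 1) (app w true)) ≤ 1 / q := by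
    rw [le_div_iff₀ hq]
    have := mul_nonneg ha.le hB
    linarith
  have h5 : Ex q (fun w : W n => f.f (n + 1) (app w false)) ≤ 1 / (1 - q) := by
    rw [le_div_iff₀ ha]
    have := mul_nonneg hq.le hA
    linarith
  linarith

/-- Minkowski inequality for an event not depending on coordinate `i` -/
theorem minkowski (f : Fam q) (hq : 0 < q) (hq1 : q < 1) {N : ℕ} (i : Fin N) (G : W N → Prop)
    [DecidablePred G] (hG : ∀ w b, G (Function.update w i b) ↔ G w) :
    (√(f.pr (fun w : W N => G w ∧ w i = true) / q)
      - √(f.pr (fun w : W N => G w ∧ w i = false) / (1 - q))) ^ 2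
      ≤ Ex q (fun w => if G w then (dl (f.u N) i w) ^ 2 else 0) := by
  have ha : 0 < 1 - q := by linarith
  set g : W N → ℝ := fun w => if G w then f.u N (Function.update w i true) else 0 with hg
  set h : W N → ℝ := fun w => if G w then f.u N (Function.update w i false) else 0 with hh
  have e1 : f.pr (fun w : W N => G w ∧ w i = true) / q = Ex q (fun w => g w ^ 2) := by
    rw [div_eq_iff hq.ne', Fam.pr, Ex_upd hq hq1 i, ← Ex_mul_right]
    refine Ex_congr fun w => ?_
    simp only [Function.update_self, hG, hg]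
    by_cases hw : G w
    · simp [hw, f.u_sq]
      ring
    · simp [hw]
  have e2 : f.pr (fun w : W N => G w ∧ w i = false) / (1 - q) = Ex q (fun w => h w ^ 2) := by
    rw [div_eq_iff ha.ne', Fam.pr, Ex_upd hq hq1 i, ← Ex_mul_right]
    refine Ex_congr fun w => ?_
    simp only [Function.update_self, hG, hh]
    by_cases hw : G w
    · simp [hw, f.u_sq]
      ring
    · simp [hw]
  have e3 : Ex q (fun w => if G w then (dl (f.u N) i w) ^ 2 else 0) =
      Ex q (fun w => g w ^ 2) + Ex q (fun w => h w ^ 2) - 2 * Ex q (fun w => g w * h w) := by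
    rw [← Ex_mul_left, ← Ex_add, ← Ex_sub]
    refine Ex_congr fun w => ?_
    simp only [hg, hh]
    by_cases hw : G w
    · simp only [if_pos hw, dl]
      ring
    · simp [hw]
  have e4 := Ex_cs' hq.le hq1.le g h
  have e5 := Real.sq_sqrt (Ex_nonneg hq.le hq1.le (fun w : W N => sq_nonneg (g w)))
  have e6 := Real.sq_sqrt (Ex_nonneg hq.le hq1.le (fun w : W N => sq_nonneg (h w)))
  rw [e1, e2, e3]
  nlinarith [e4, e5, e6]

/-- `s_0^{(N)} ≥ (√R - √R_0)²` -/
theorem s_zero_ge (f : Fam q) (hq : 0 < q) (hq1 : q < 1) {N : ℕ} (hN : 0 < N) :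
    (√(f.f 1 (fun _ => true)) - √(f.f 1 (fun _ => false))) ^ 2 ≤ f.s N 0 := by
  induction N with
  | zero => exact absurd hN (by omega)
  | succ N ih =>
    rcases Nat.eq_zero_or_pos N with h0 | h0
    · subst h0
      refine le_of_eq ?_
      unfold Fam.s
      rw [dif_pos (by omega)]
      have h1 : ∀ w : W (0 + 1), (if cc w 0 then (dl (f.u (0 + 1)) ⟨0, by omega⟩ w) ^ 2 else 0) =
          (√(f.f 1 (fun _ => true)) - √(f.f 1 (fun _ => false))) ^ 2 := by
        intro w
        rw [if_pos (show cc w 0 from Or.inl rfl)]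
        unfold dl Fam.u
        have h2 : ∀ b, Function.update w (⟨0, by omega⟩ : Fin (0 + 1)) b = fun _ => b := by
          intro b
          funext j
          have hj : j = ⟨0, by omega⟩ := Fin.ext (by omega)
          rw [hj, Function.update_self]
        rw [h2, h2]
      rw [Ex_congr h1, Ex_const]
    · exact (ih h0).trans (f.s_mono hq hq1 h0)

end Fam

end Pool.Agent.Lib.MP_4c13d6_pr
end

section

/-! FA-8: restriction of windows, locality of the generator. -/

open Finset

namespace Pool.Agent.Lib.MP_4c13d6_pr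

variable {q : ℝ}

/-- restriction of a window to the first `N` coordinates (extended by `false` if `M < N`) -/
def res (N : ℕ) {M : ℕ} (w : W M) : W N := fun i => val w i

theorem val_res (N : ℕ) {M : ℕ} (w : W M) (k : ℕ) :
    val (res N w) k = if k < N then val w k else false := by
  by_cases h : k < N
  · rw [val_lt h, if_pos h]; rfl
  · rw [val_ge (Nat.not_lt.1 h), if_neg h]

private theorem rs_lt {N M : ℕ} (w : W M) {k : ℕ} (h : k < N) : val (res N w) k = val w k := by
  rw [val_res, if_pos h]

theorem res_self {N : ℕ} (w : W N) : res N w = w := by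
  ext k hk
  rw [rs_lt w hk]

theorem res_res {N M K : ℕ} (h : N ≤ M) (w : W K) : res N (res M w) = res N w := by
  ext k hk
  rw [rs_lt _ hk, rs_lt _ hk, rs_lt _ (lt_of_lt_of_le hk h)]

theorem ini_eq_res {N : ℕ} (w : W (N + 1)) : ini w = res N w := by
  ext k hk
  rw [rs_lt _ hk, val_ini_lt hk]

theorem ini_res {N M : ℕ} (w : W M) : ini (res (N + 1) w) = res N w := by
  ext k hk
  rw [rs_lt _ hk, val_ini_lt hk, rs_lt _ (by omega)]

private theorem rs_ini {N M : ℕ} (h : N ≤ M) (v : W (M + 1)) : res N (ini v) = res N v := by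
  ext k hk
  rw [rs_lt _ hk, rs_lt _ hk, val_ini_lt (by omega)]

private theorem rs_psh {N M : ℕ} (h : N ≤ M) (v : W (M + 1)) :
    res N (psh (ini v)) = psh (res N v) := by
  ext k hk
  rw [rs_lt _ hk, val_psh, val_psh, if_pos hk, if_pos (by omega)]
  by_cases h0 : k = 0
  · rw [if_pos h0, if_pos h0]
  · rw [if_neg h0, if_neg h0, val_ini_lt (by omega), rs_lt _ (by omega)]

private theorem rs_tai {N M : ℕ} (v : W (M + 1)) :
    tai (res (N + 1) v) = res N (tai v) := by
  ext k hk
  rw [val_tai, rs_lt _ hk, rs_lt _ (by omega), val_tai]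

private theorem rs_upd {N M : ℕ} (w : W M) (i : Fin M) (b : Bool) (h : (i : ℕ) < N) :
    res N (Function.update w i b) = Function.update (res N w) ⟨i, h⟩ b := by
  ext k hk
  rw [rs_lt _ hk, val_upd, val_upd, rs_lt _ hk]

private theorem rs_upd' {N M : ℕ} (w : W M) (i : Fin M) (b : Bool) (h : N ≤ (i : ℕ)) :
    res N (Function.update w i b) = res N w := by
  ext k hk
  rw [rs_lt _ hk, val_upd, rs_lt _ hk, if_neg (by omega)]

private theorem rs_app {N M : ℕ} (h : N ≤ M) (w : W M) (b : Bool) :
    res N (app w b) = res N w := by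
  ext k hk
  rw [rs_lt _ hk, rs_lt _ hk, val_app_lt (by omega)]

private theorem rs_cc {N M : ℕ} (v : W M) {i : ℕ} (hi : i < N) :
    cc (res (N + 1) v) i ↔ cc v i := by
  unfold cc
  rw [rs_lt v (show i - 1 < N + 1 by omega), rs_lt v (show i + 1 < N + 1 by omega)]

/-- locality of the generator -/
theorem gen_res {N M : ℕ} (h : N ≤ M) (F : W N → ℝ) (v : W (M + 1)) :
    gen q (fun w : W M => F (res N w)) v = gen q F (res (N + 1) v) := by
  have hsum : (∑ i : Fin M, if cc v i then
      q * F (res N (Function.update (ini v) i true))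
        + (1 - q) * F (res N (Function.update (ini v) i false)) - F (res N (ini v)) else 0) =
      ∑ i : Fin N, if cc (res (N + 1) v) i then
        q * F (Function.update (ini (res (N + 1) v)) i true)
          + (1 - q) * F (Function.update (ini (res (N + 1) v)) i false)
          - F (ini (res (N + 1) v)) else 0 := by
    set T : ℕ → ℝ := fun i => if hi : i < N then (if cc (res (N + 1) v) i then
        q * F (Function.update (ini (res (N + 1) v)) ⟨i, hi⟩ true)
          + (1 - q) * F (Function.update (ini (res (N + 1) v)) ⟨i, hi⟩ false)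
          - F (ini (res (N + 1) v)) else 0) else 0 with hT
    have e1 : (∑ i : Fin N, if cc (res (N + 1) v) i then
        q * F (Function.update (ini (res (N + 1) v)) i true)
          + (1 - q) * F (Function.update (ini (res (N + 1) v)) i false)
          - F (ini (res (N + 1) v)) else 0) = ∑ i : Fin N, T i := by
      refine Finset.sum_congr rfl fun i _ => ?_
      rw [hT]
      simp only
      rw [dif_pos i.isLt]
    have e2 : (∑ i : Fin M, if cc v i then
      q * F (res N (Function.update (ini v) i true))
        + (1 - q) * F (res N (Function.update (ini v) i false)) - F (res N (ini v)) else 0) =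
        ∑ i : Fin M, T i := by
      refine Finset.sum_congr rfl fun i _ => ?_
      rw [hT]
      simp only
      by_cases hi : (i : ℕ) < N
      · rw [dif_pos hi, rs_upd _ _ _ hi, rs_upd _ _ _ hi, rs_ini h, ini_res]
        by_cases hc : cc v i
        · rw [if_pos hc, if_pos ((rs_cc v hi).2 hc)]
        · rw [if_neg hc, if_neg (fun h' => hc ((rs_cc v hi).1 h'))]
      · rw [dif_neg hi, rs_upd' _ _ _ (Nat.not_lt.1 hi), rs_upd' _ _ _ (Nat.not_lt.1 hi)]
        split_ifs
        · ring
        · rfl
    rw [e1, e2, Fin.sum_univ_eq_sum_range T M, Fin.sum_univ_eq_sum_range T N]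
    symm
    refine Finset.sum_subset ?_ ?_
    · intro i hi
      rw [Finset.mem_range] at hi ⊢
      omega
    · intro i _ hi
      rw [Finset.mem_range] at hi
      rw [hT]
      simp only
      rw [dif_neg hi]
  have h0 : val (res (N + 1) v) 0 = val v 0 := rs_lt v (Nat.succ_pos N)
  unfold gen
  simp only
  rw [hsum, rs_psh h, rs_ini h, ini_res, h0, rs_tai]

theorem psi_res {N M : ℕ} (h : N ≤ M) (hN : 0 < N) (v : W M) :
    psi q (res N v) = psi q v := by
  unfold psi
  rw [rs_lt v hN]

theorem Ex_res {N M : ℕ} (h : N ≤ M) (g : W N → ℝ) :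
    Ex q (fun w : W M => g (res N w)) = Ex q g := by
  induction M, h using Nat.le_induction with
  | base => exact Ex_congr fun w => by rw [res_self]
  | succ M hM ih =>
    rw [← ih, Ex_app]
    refine Ex_congr fun w => ?_
    rw [rs_app hM, rs_app hM]
    ring

theorem Fam.Ex_res (f : Fam q) {N M : ℕ} (h : N ≤ M) (g : W N → ℝ) :
    Ex q (fun w : W M => f.f M w * g (res N w)) = Ex q (fun w => f.f N w * g w) := by
  induction M, h using Nat.le_induction with
  | base => exact Ex_congr fun w => by rw [res_self]
  | succ M hM ih =>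
    rw [← ih, ← f.Ex_ini (fun w : W M => g (res N w))]
    refine Ex_congr fun w => ?_
    rw [rs_ini hM]

/-- the generator as a linear map -/
noncomputable def genL (q : ℝ) (N : ℕ) : (W N → ℝ) →ₗ[ℝ] (W (N + 1) → ℝ) where
  toFun F := gen q F
  map_add' F G := by
    funext w
    rw [Pi.add_apply]
    unfold gen
    simp only [Pi.add_apply]
    have h1 : (∑ i : Fin N, if cc w i then
        q * (F (Function.update (ini w) i true) + G (Function.update (ini w) i true))
          + (1 - q) * (F (Function.update (ini w) i false) + G (Function.update (ini w) i false))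
          - (F (ini w) + G (ini w)) else 0) =
        (∑ i : Fin N, if cc w i then q * F (Function.update (ini w) i true)
          + (1 - q) * F (Function.update (ini w) i false) - F (ini w) else 0) +
        (∑ i : Fin N, if cc w i then q * G (Function.update (ini w) i true)
          + (1 - q) * G (Function.update (ini w) i false) - G (ini w) else 0) := by
      rw [← Finset.sum_add_distrib]
      refine Finset.sum_congr rfl fun i _ => ?_
      split_ifs <;> ring
    rw [h1]
    split_ifs <;> ring
  map_smul' c F := by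
    funext w
    rw [Pi.smul_apply]
    unfold gen
    simp only [Pi.smul_apply, smul_eq_mul, RingHom.id_apply]
    have h1 : (∑ i : Fin N, if cc w i then
        q * (c * F (Function.update (ini w) i true))
          + (1 - q) * (c * F (Function.update (ini w) i false))
          - (c * F (ini w)) else 0) =
        c * (∑ i : Fin N, if cc w i then q * F (Function.update (ini w) i true)
          + (1 - q) * F (Function.update (ini w) i false) - F (ini w) else 0) := by
      rw [Finset.mul_sum]
      refine Finset.sum_congr rfl fun i _ => ?_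
      split_ifs <;> ring
    rw [h1]
    split_ifs <;> ring

theorem genL_apply {N : ℕ} (F : W N → ℝ) (w : W (N + 1)) : genL q N F w = gen q F w := rfl

theorem gen_const {N : ℕ} (c : ℝ) (w : W (N + 1)) : gen q (fun _ : W N => c) w = 0 := by
  unfold gen
  have h1 : (∑ i : Fin N, if cc w i then q * c + (1 - q) * c - c else 0) = 0 := by
    refine Finset.sum_eq_zero fun i _ => ?_
    split_ifs
    · ring
    · rfl
  simp only
  rw [h1]
  split_ifs <;> ring

/-- a crude bound -/
theorem abs_gen_le (hq : 0 < q) (hq1 : q < 1) {N : ℕ} (F : W N → ℝ) (B : ℝ)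
    (hB : ∀ w, |F w| ≤ B) (w : W (N + 1)) : |gen q F w| ≤ 2 * (N + 2) * B := by
  have hB0 : 0 ≤ B := (abs_nonneg _).trans (hB (ini w))
  have ha : 0 < 1 - q := by linarith
  have hterm : ∀ i ∈ (univ : Finset (Fin N)), |(if cc w i then
      q * F (Function.update (ini w) i true) + (1 - q) * F (Function.update (ini w) i false)
        - F (ini w) else 0)| ≤ 2 * B := by
    intro i _
    split_ifs
    · have h1 := abs_le.1 (hB (Function.update (ini w) i true))
      have h2 := abs_le.1 (hB (Function.update (ini w) i false))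
      have h3 := abs_le.1 (hB (ini w))
      rw [abs_le]
      constructor <;> nlinarith
    · rw [abs_zero]; linarith
  have hsum : |∑ i : Fin N, (if cc w i then
      q * F (Function.update (ini w) i true) + (1 - q) * F (Function.update (ini w) i false)
        - F (ini w) else 0)| ≤ N * (2 * B) := by
    refine (Finset.abs_sum_le_sum_abs _ _).trans ?_
    refine (Finset.sum_le_sum hterm).trans ?_
    rw [Finset.sum_const, Finset.card_univ, Fintype.card_fin, nsmul_eq_mul]
  have hp : |q * (F (psh (ini w)) - F (ini w))| ≤ q * (2 * B) := by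
    rw [abs_mul, abs_of_pos hq]
    refine mul_le_mul_of_nonneg_left ?_ hq.le
    have h1 := abs_le.1 (hB (psh (ini w)))
    have h3 := abs_le.1 (hB (ini w))
    rw [abs_le]
    constructor <;> linarith
  have ht : |(if val w 0 = true then (1 - q) * (F (tai w) - F (ini w)) else 0)| ≤
      (1 - q) * (2 * B) := by
    split_ifs
    · rw [abs_mul, abs_of_pos ha]
      refine mul_le_mul_of_nonneg_left ?_ ha.le
      have h1 := abs_le.1 (hB (tai w))
      have h3 := abs_le.1 (hB (ini w))
      rw [abs_le]
      constructor <;> linarith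
    · rw [abs_zero]
      positivity
  unfold gen
  refine (abs_add_le _ _).trans ?_
  refine (add_le_add (abs_add_le _ _) le_rfl).trans ?_
  refine (add_le_add (add_le_add hsum hp) ht).trans ?_
  nlinarith

end Pool.Agent.Lib.MP_4c13d6_pr
end
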