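import Mathlib
import Pool.Agent.Lib.MP_4c13d6_pr.CDefs
import Pool.Agent.Lib.MP_4c13d6_pr.Res
import Pool.Agent.Lib.MP_4c13d6_pr.EntA

section

/-! CH-1: basic facts about the chain on `m` sites. -/

open Finset

namespace Pool.Agent.Lib.MP_4c13d6_pr

variable {q : ℝ} {m : ℕ} {bL bR : Bool}

theorem ev_site (w : W m) (i : Fin m) : ev bL bR w (i : ℕ) = w i := by
  unfold ev
  have h1 : ¬ (((i : ℕ) : ℤ) = -1) := by omega
  have h2 : ¬ (((i : ℕ) : ℤ) = m) := by have := i.isLt; omega
  rw [if_neg h1, if_neg h2, if_pos (by omega)]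
  simp

theorem ev_left (w : W m) : ev bL bR w (-1) = bL := by
  simp [ev]

theorem ev_right (w : W m) : ev bL bR w m = bR := by
  unfold ev
  have h1 : ¬ ((m : ℤ) = -1) := by omega
  rw [if_neg h1, if_pos rfl]

theorem ev_out (w : W m) (k : ℤ) (h : k < -1 ∨ (m : ℤ) < k) : ev bL bR w k = false := by
  unfold ev
  have h1 : ¬ (k = -1) := by omega
  have h2 : ¬ (k = m) := by omega
  rw [if_neg h1, if_neg h2]
  split_ifs with h3
  · exact val_ge (by omega)
  · rfl

theorem ev_nat (w : W m) (k : ℕ) (h : k < m) : ev bL bR w k = val w k := by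
  unfold ev
  have h1 : ¬ ((k : ℤ) = -1) := by omega
  have h2 : ¬ ((k : ℤ) = m) := by omega
  rw [if_neg h1, if_neg h2, if_pos (by omega)]
  simp

theorem ev_upd (w : W m) (i : Fin m) (b : Bool) (k : ℤ) :
    ev bL bR (Function.update w i b) k = if k = (i : ℕ) then b else ev bL bR w k := by
  have hi := i.isLt
  split_ifs with h
  · subst h
    rw [ev_site]; simp
  · unfold ev
    split_ifs with h1 h2 h3
    · rfl
    · rfl
    · rw [val_upd, if_neg (by omega)]
    · rfl

/-- the constraint at `i` does not depend on the state of `i` -/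
theorem kc_upd (w : W m) (i : Fin m) (b : Bool) :
    kc bL bR (Function.update w i b) (i : ℕ) ↔ kc bL bR w (i : ℕ) := by
  unfold kc
  rw [ev_upd, ev_upd, if_neg (by omega), if_neg (by omega)]

theorem LL_add (g h : W m → ℝ) (w : W m) :
    LL q bL bR (fun v => g v + h v) w = LL q bL bR g w + LL q bL bR h w := by
  unfold LL
  rw [← sum_add_distrib]
  refine sum_congr rfl fun i _ => ?_
  split_ifs
  · ring
  · ring

theorem LL_smul (c : ℝ) (h : W m → ℝ) (w : W m) :
    LL q bL bR (fun v => c * h v) w = c * LL q bL bR h w := by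
  unfold LL
  rw [mul_sum]
  refine sum_congr rfl fun i _ => ?_
  split_ifs
  · ring
  · ring

theorem LL_const (c : ℝ) (w : W m) : LL q bL bR (fun _ => c) w = 0 := by
  unfold LL
  refine sum_eq_zero fun i _ => ?_
  split_ifs
  · ring
  · rfl

/-- only legal flips matter -/
theorem LL_mono (hq : 0 < q) (hq1 : q < 1) (g h : W m → ℝ) (w : W m)
    (H : ∀ (i : Fin m) (b : Bool), kc bL bR w (i : ℕ) →
      g (Function.update w i b) - g w ≤ h (Function.update w i b) - h w) :
    LL q bL bR g w ≤ LL q bL bR h w := by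
  unfold LL
  refine sum_le_sum fun i _ => ?_
  split_ifs with hk
  · have h1 := mul_le_mul_of_nonneg_left (H i true hk) hq.le
    have h2 := mul_le_mul_of_nonneg_left (H i false hk) (by linarith : (0 : ℝ) ≤ 1 - q)
    linarith
  · exact le_rfl

theorem LL_congr (g h : W m → ℝ) (w : W m) (h0 : g w = h w)
    (H : ∀ (i : Fin m) (b : Bool), kc bL bR w (i : ℕ) →
      g (Function.update w i b) = h (Function.update w i b)) :
    LL q bL bR g w = LL q bL bR h w := by
  unfold LL
  refine sum_congr rfl fun i _ => ?_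
  split_ifs with hk
  · rw [H i true hk, H i false hk, h0]
  · rfl

private theorem cb_LL_sum {ι : Type*} (s : Finset ι) (g : ι → W m → ℝ) (w : W m) :
    LL q bL bR (fun v => ∑ j ∈ s, g j v) w = ∑ j ∈ s, LL q bL bR (g j) w := by
  classical
  induction s using Finset.induction_on with
  | empty => simpa using LL_const (q := q) (bL := bL) (bR := bR) 0 w
  | insert a s ha ih =>
    rw [sum_insert ha, ← ih, ← LL_add]
    congr 1
    funext v
    rw [sum_insert ha]

theorem LM_mul (H : W m → ℝ) (w : W m) : ∑ w', LM q bL bR m w w' * H w' = LL q bL bR H w := by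
  have h1 : ∀ w', LM q bL bR m w w' * H w' =
      LL q bL bR (fun v => H w' * (Pi.single w' (1 : ℝ) : W m → ℝ) v) w := by
    intro w'
    rw [LL_smul]
    unfold LM
    ring
  rw [sum_congr rfl fun w' _ => h1 w', ← cb_LL_sum]
  congr 1
  funext v
  rw [Finset.sum_eq_single v]
  · simp
  · intro b _ hb
    rw [Pi.single_eq_of_ne hb.symm, mul_zero]
  · intro h; exact absurd (mem_univ v) h

theorem LM_gen (hq : 0 < q) (hq1 : q < 1) : IsGen (LM q bL bR m) := by
  refine ⟨fun x y hxy => ?_, fun x => ?_⟩
  · unfold LM LL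
    refine sum_nonneg fun i _ => ?_
    split_ifs
    · have h0 : (Pi.single y (1 : ℝ) : W m → ℝ) x = 0 := Pi.single_eq_of_ne hxy _
      have hp : ∀ v, 0 ≤ (Pi.single y (1 : ℝ) : W m → ℝ) v := by
        intro v
        by_cases hv : v = y
        · subst hv; simp
        · rw [Pi.single_eq_of_ne hv]
      rw [h0]
      have h1 := mul_nonneg hq.le (hp (Function.update x i true))
      have h2 := mul_nonneg (by linarith : (0 : ℝ) ≤ 1 - q) (hp (Function.update x i false))
      linarith
    · exact le_rfl
  · have := LM_mul (q := q) (bL := bL) (bR := bR) (fun _ => (1 : ℝ)) x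
    simp only [mul_one] at this
    rw [this, LL_const]

/-- reversibility -/
theorem LM_rev (hq : 0 < q) (hq1 : q < 1) (w w' : W m) :
    wt q w * LM q bL bR m w w' = wt q w' * LM q bL bR m w' w := by
  by_cases hww : w = w'
  · rw [hww]
  unfold LM LL
  rw [mul_sum, mul_sum]
  refine sum_congr rfl fun i _ => ?_
  have e1 : (Pi.single w' (1 : ℝ) : W m → ℝ) w = 0 := Pi.single_eq_of_ne hww _
  have e2 : (Pi.single w (1 : ℝ) : W m → ℝ) w' = 0 := Pi.single_eq_of_ne (Ne.symm hww) _
  rw [e1, e2]
  -- either w' is an update of w at i or both sides vanish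
  by_cases hup : w' = Function.update w i (w' i)
  · have hup' : w = Function.update w' i (w i) := by
      rw [hup]; simp
    have hne : w i ≠ w' i := by
      intro h
      apply hww
      rw [hup, ← h]; simp
    have hkk : kc bL bR w (i : ℕ) ↔ kc bL bR w' (i : ℕ) := by
      rw [hup, kc_upd]
    by_cases hk : kc bL bR w (i : ℕ)
    · have hk' := hkk.1 hk
      rw [if_pos hk, if_pos hk']
      have hwt := wt_upd (q := q) w i (w' i)
      rw [← hup] at hwt
      rcases hb : w i with _ | _ <;> rcases hb' : w' i with _ | _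
      · exact absurd (hb.trans hb'.symm) hne
      · have f1 : Function.update w i true = w' := by rw [← hb']; exact hup.symm
        have f2 : Function.update w i false = w := by rw [← hb]; simp
        have f3 : Function.update w' i false = w := by rw [← hb]; exact hup'.symm
        have f4 : Function.update w' i true = w' := by rw [← hb']; simp
        rw [f1, f2, f3, f4, e1, e2]
        simp only [Pi.single_eq_same]
        rw [hb, hb'] at hwt
        simp at hwt
        linarith
      · have f1 : Function.update w i true = w := by rw [← hb]; simp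
        have f2 : Function.update w i false = w' := by rw [← hb']; exact hup.symm
        have f3 : Function.update w' i false = w' := by rw [← hb']; simp
        have f4 : Function.update w' i true = w := by rw [← hb]; exact hup'.symm
        rw [f1, f2, f3, f4, e1, e2]
        simp only [Pi.single_eq_same]
        rw [hb, hb'] at hwt
        simp at hwt
        linarith
      · exact absurd (hb.trans hb'.symm) hne
    · rw [if_neg hk, if_neg (fun h => hk (hkk.2 h))]
      simp
  · have g1 : ∀ b, (Pi.single w' (1 : ℝ) : W m → ℝ) (Function.update w i b) = 0 := by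
      intro b
      apply Pi.single_eq_of_ne
      intro h
      apply hup
      rw [← h]; simp
    have g2 : ∀ b, (Pi.single w (1 : ℝ) : W m → ℝ) (Function.update w' i b) = 0 := by
      intro b
      apply Pi.single_eq_of_ne
      intro h
      apply hup
      rw [← h]; simp
    rw [g1, g1, g2, g2]
    simp

/-- the ergodic class is closed -/
theorem ok_step (w : W m) (hw : ok bL bR w) (i : Fin m) (b : Bool)
    (hk : kc bL bR w (i : ℕ)) : ok bL bR (Function.update w i b) := by
  have hi := i.isLt
  have key : ∀ k : ℤ, k ≠ (i : ℕ) → ev bL bR w k = true → ok bL bR (Function.update w i b) := by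
    intro k hki hk
    unfold ev at hk
    unfold ok
    split_ifs at hk with h1 h2 h3
    · exact Or.inl hk
    · exact Or.inr (Or.inl hk)
    · refine Or.inr (Or.inr ?_)
      by_cases hkm : k.toNat < m
      · refine ⟨⟨k.toNat, hkm⟩, ?_⟩
        rw [val_lt hkm] at hk
        rw [Function.update_of_ne]
        · exact hk
        · intro h
          rw [← h] at hki
          apply hki
          simp
          omega
      · rw [val_ge (by omega)] at hk
        exact absurd hk (by simp)
  rcases hk with h | h
  · exact key _ (by omega) h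
  · exact key _ (by omega) h

theorem LM_ok (w w' : W m) (hw : ok bL bR w) (hw' : ¬ ok bL bR w') : LM q bL bR m w w' = 0 := by
  unfold LM
  have h1 : LL q bL bR (Pi.single w' (1 : ℝ)) w = LL q bL bR (fun _ => (0 : ℝ)) w := by
    apply LL_congr
    · apply Pi.single_eq_of_ne
      intro h; exact hw' (h ▸ hw)
    · intro i b hk
      apply Pi.single_eq_of_ne
      intro h; exact hw' (h ▸ ok_step w hw i b hk)
  rw [h1, LL_const]

/-- a configuration outside the ergodic class is frozen -/
theorem LL_not_ok (H : W m → ℝ) (w : W m) (hw : ¬ ok bL bR w) : LL q bL bR H w = 0 := by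
  unfold LL
  refine sum_eq_zero fun i _ => ?_
  rw [if_neg]
  have hall : ∀ k : ℤ, ev bL bR w k ≠ true := by
    intro k hk
    apply hw
    unfold ev at hk
    unfold ok
    split_ifs at hk with h1 h2 h3
    · exact Or.inl hk
    · exact Or.inr (Or.inl hk)
    · refine Or.inr (Or.inr ?_)
      by_cases hkm : k.toNat < m
      · exact ⟨⟨k.toNat, hkm⟩, by rw [val_lt hkm] at hk; exact hk⟩
      · rw [val_ge (by omega)] at hk
        exact absurd hk (by simp)
  rintro (h | h)
  · exact hall _ h
  · exact hall _ h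

theorem mir_mir (w : W m) : mir (mir w) = w := by
  funext i
  simp [mir]

theorem ev_mir (w : W m) (k : ℤ) : ev bL bR (mir w) k = ev bR bL w (m - 1 - k) := by
  by_cases h1 : k = -1
  · have e : ((m : ℤ) - 1 - k) = m := by omega
    rw [e, ev_right, h1, ev_left]
  by_cases h2 : k = m
  · have e : ((m : ℤ) - 1 - k) = -1 := by omega
    rw [e, ev_left, h2, ev_right]
  by_cases h3 : 0 ≤ k ∧ k < m
  · obtain ⟨n, rfl⟩ : ∃ n : ℕ, k = n := ⟨k.toNat, by omega⟩
    have hn : n < m := by omega
    have e : ((m : ℤ) - 1 - n) = ((m - 1 - n : ℕ) : ℤ) := by omega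
    rw [e, ev_nat _ _ hn, ev_nat _ _ (by omega : m - 1 - n < m), val_lt hn,
      val_lt (by omega : m - 1 - n < m)]
    unfold mir
    congr 1
    apply Fin.ext
    rw [Fin.val_rev]
    simp only
    omega
  · rw [ev_out _ _ (by omega), ev_out _ _ (by omega)]

/-- mirror symmetry of the generator -/
theorem LL_mir (H : W m → ℝ) (w : W m) :
    LL q bL bR (fun v => H (mir v)) w = LL q bR bL H (mir w) := by
  have hu : ∀ (i : Fin m) (b : Bool),
      mir (Function.update w i b) = Function.update (mir w) i.rev b := by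
    intro i b
    funext j
    unfold mir
    by_cases h : j = i.rev
    · subst h; simp
    · have h' : j.rev ≠ i := by
        intro h''; apply h; rw [← h'']; simp
      rw [Function.update_of_ne h', Function.update_of_ne h]
  have hk : ∀ i : Fin m, kc bL bR w (i : ℕ) ↔ kc bR bL (mir w) ((i.rev : Fin m) : ℕ) := by
    intro i
    have hi := i.isLt
    unfold kc
    rw [ev_mir, ev_mir, Fin.val_rev]
    have e1 : ((m : ℤ) - 1 - (((m - ((i : ℕ) + 1) : ℕ) : ℤ) - 1)) = (i : ℕ) + 1 := by omega
    have e2 : ((m : ℤ) - 1 - (((m - ((i : ℕ) + 1) : ℕ) : ℤ) + 1)) = (i : ℕ) - 1 := by omega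
    rw [e1, e2]
    exact or_comm
  unfold LL
  rw [← Equiv.sum_comp Fin.revPerm]
  refine sum_congr rfl fun i _ => ?_
  simp only [Fin.revPerm_apply]
  have hk' := hk i.rev
  rw [Fin.rev_rev] at hk'
  simp only [hu, Fin.rev_rev]
  by_cases h : kc bR bL (mir w) (i : ℕ)
  · rw [if_pos h, if_pos (hk'.2 h)]
  · rw [if_neg h, if_neg (fun h' => h (hk'.1 h'))]

end Pool.Agent.Lib.MP_4c13d6_pr
end

section

section

/-! DU-1: separation (Lemma 1). -/

open Finset

namespace Pool.Agent.Lib.MP_4c13d6_pr

theorem separation {S V : Type*} [Fintype S] [Nonempty S] [AddCommGroup V] [Module ℝ V]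
    (T : V →ₗ[ℝ] (S → ℝ)) (ψ : S → ℝ) (c : ℝ) (h : ∀ F : V, ∃ s, ψ s + T F s < c) :
    ∃ p : S → ℝ, (∀ s, 0 ≤ p s) ∧ ∑ s, p s = 1 ∧ (∀ F : V, ∑ s, p s * T F s = 0) ∧
      ∑ s, p s * ψ s ≤ c := by
  classical
  set O : Set (S → ℝ) := {g | ∀ s, c < g s} with hO
  set t : Set (S → ℝ) := Set.range fun F : V => ψ + T F with ht
  have hOconv : Convex ℝ O := by
    intro x hx y hy a b ha hb hab s
    have h1 := hx s
    have h2 := hy s
    simp only [Pi.add_apply, Pi.smul_apply, smul_eq_mul]
    rcases ha.eq_or_lt with h0 | h0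
    · rw [← h0] at hab ⊢
      have : b = 1 := by linarith
      rw [this]
      linarith
    · calc c = a * c + b * c := by rw [← add_mul, hab, one_mul]
        _ < a * x s + b * y s :=
          add_lt_add_of_lt_of_le (mul_lt_mul_of_pos_left h1 h0)
            (mul_le_mul_of_nonneg_left h2.le hb)
  have hOopen : IsOpen O := by
    have : O = ⋂ s, {g : S → ℝ | c < g s} := by
      ext g
      simp [hO]
    rw [this]
    exact isOpen_iInter_of_finite fun s => isOpen_lt continuous_const (continuous_apply s)
  have htconv : Convex ℝ t := by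
    rintro _ ⟨F, rfl⟩ _ ⟨G, rfl⟩ a b ha hb hab
    refine ⟨a • F + b • G, ?_⟩
    funext s
    simp only [Pi.add_apply, map_add, map_smul, Pi.smul_apply, smul_eq_mul]
    have : ψ s = (a + b) * ψ s := by rw [hab, one_mul]
    rw [this]
    ring_nf
    have h2 : a = 1 - b := by linarith
    rw [h2]
    ring
  have hdisj : Disjoint O t := by
    rw [Set.disjoint_left]
    rintro g hg ⟨F, rfl⟩
    obtain ⟨s, hs⟩ := h F
    have := hg s
    simp only [Pi.add_apply] at this
    linarith
  obtain ⟨f, u, hf1, hf2⟩ := geometric_hahn_banach_open hOconv hOopen htconv hdisj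
  set l : S → ℝ := fun s => -f (Pi.single s 1) with hl
  have hfl : ∀ g : S → ℝ, -f g = ∑ s, l s * g s := by
    intro g
    have h1 : g = ∑ s, g s • (Pi.single s (1 : ℝ) : S → ℝ) := by
      funext r
      simp [Finset.sum_apply, Pi.single_apply]
    conv_lhs => rw [h1]
    rw [map_sum, ← Finset.sum_neg_distrib]
    refine Finset.sum_congr rfl fun s _ => ?_
    rw [map_smul, smul_eq_mul, hl]
    ring
  have hO1 : ∀ g : S → ℝ, (∀ s, c < g s) → -u < ∑ s, l s * g s := by
    intro g hg
    have := hf1 g hg
    rw [← hfl]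
    linarith
  have ht1 : ∀ F : V, ∑ s, l s * (ψ s + T F s) ≤ -u := by
    intro F
    have h1 := hf2 _ ⟨F, rfl⟩
    have h2 := hfl (ψ + T F)
    simp only [Pi.add_apply] at h2
    rw [← h2]
    linarith
  have hlnn : ∀ s, 0 ≤ l s := by
    intro s
    by_contra hneg
    rw [not_le] at hneg
    set Λ : ℝ := ∑ r, l r * (c + 1) with hΛ
    set K : ℝ := max 0 ((Λ + u) / (-l s)) with hK
    have hK0 : 0 ≤ K := le_max_left _ _
    have h1 := hO1 (fun r => (c + 1) + K * (Pi.single s (1 : ℝ) : S → ℝ) r) (by
      intro r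
      have : 0 ≤ (Pi.single s (1 : ℝ) : S → ℝ) r := by
        rw [Pi.single_apply]
        split_ifs <;> norm_num
      have := mul_nonneg hK0 this
      linarith)
    have h2 : ∑ r, l r * ((c + 1) + K * (Pi.single s (1 : ℝ) : S → ℝ) r) = Λ + K * l s := by
      simp_rw [mul_add]
      rw [Finset.sum_add_distrib]
      have h3 : ∑ r, l r * (K * (Pi.single s (1 : ℝ) : S → ℝ) r) = K * l s := by
        rw [Finset.sum_eq_single s]
        · rw [Pi.single_eq_same]
          ring
        · intro r _ hr
          rw [Pi.single_eq_of_ne hr]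
          ring
        · intro h
          exact absurd (Finset.mem_univ s) h
      rw [h3, hΛ]
      simp_rw [mul_add]
    rw [h2] at h1
    have h4 : (Λ + u) / (-l s) ≤ K := le_max_right _ _
    rw [div_le_iff₀ (by linarith)] at h4
    linarith
  set Z : ℝ := ∑ s, l s with hZ
  have hZ0 : 0 ≤ Z := Finset.sum_nonneg fun s _ => hlnn s
  have hZpos : 0 < Z := by
    rcases hZ0.eq_or_lt with h0 | h0
    · exfalso
      have hl0 : ∀ s, l s = 0 := by
        intro s
        exact (Finset.sum_eq_zero_iff_of_nonneg fun s _ => hlnn s).1 h0.symm s (Finset.mem_univ s)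
      have h1 := hO1 (fun _ => c + 1) (fun s => by linarith)
      have h2 := ht1 0
      simp only [hl0, zero_mul, Finset.sum_const_zero] at h1 h2
      linarith
    · exact h0
  have hZc : -u ≤ Z * c := by
    by_contra hneg
    rw [not_le] at hneg
    have h1 := hO1 (fun _ => c + (-u - Z * c) / Z) (fun s => by
      have : 0 < (-u - Z * c) / Z := div_pos (by linarith) hZpos
      linarith)
    rw [← Finset.sum_mul] at h1
    have h2 : (∑ s, l s) * (c + (-u - Z * c) / Z) = -u := by
      rw [← hZ]
      field_simp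
      ring
    linarith
  have hp1 : ∀ F : V, ∑ s, l s / Z * (ψ s + T F s) ≤ c := by
    intro F
    have h1 : ∑ s, l s / Z * (ψ s + T F s) = (∑ s, l s * (ψ s + T F s)) / Z := by
      rw [Finset.sum_div]
      exact Finset.sum_congr rfl fun s _ => by ring
    rw [h1, div_le_iff₀ hZpos]
    have := ht1 F
    linarith
  have hsplit : ∀ F : V, ∑ s, l s / Z * (ψ s + T F s) =
      ∑ s, l s / Z * ψ s + ∑ s, l s / Z * T F s := by
    intro F
    rw [← Finset.sum_add_distrib]
    exact Finset.sum_congr rfl fun s _ => by ring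
  refine ⟨fun s => l s / Z, fun s => div_nonneg (hlnn s) hZ0, ?_, ?_, ?_⟩
  · rw [← Finset.sum_div]
    exact div_self hZpos.ne'
  · intro F
    by_contra hne
    set a : ℝ := ∑ s, l s / Z * T F s with ha
    set d : ℝ := c - ∑ s, l s / Z * ψ s with hd
    have h1 := hp1 (((d + 1) / a) • F)
    rw [hsplit] at h1
    have h2 : ∑ s, l s / Z * T (((d + 1) / a) • F) s = d + 1 := by
      have : ∀ s, l s / Z * T (((d + 1) / a) • F) s = ((d + 1) / a) * (l s / Z * T F s) := by
        intro s
        rw [map_smul, Pi.smul_apply, smul_eq_mul]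
        ring
      simp_rw [this]
      rw [← Finset.mul_sum, ← ha]
      field_simp
    rw [h2] at h1
    linarith
  · have h1 := hp1 0
    rw [hsplit] at h1
    simp only [map_zero, Pi.zero_apply, mul_zero, Finset.sum_const_zero, add_zero] at h1
    exact h1

end Pool.Agent.Lib.MP_4c13d6_pr
end

section

/-! DU-2: compactness: stationary families from stationary laws on finite windows (Lemma 2). -/

open Finset Filter Topology

namespace Pool.Agent.Lib.MP_4c13d6_pr

variable {q : ℝ}

/-- marginal law of the first `N` coordinates -/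
private noncomputable def cpMu (p : ∀ N, W (N + 1) → ℝ) (N M : ℕ) (w : W N) : ℝ :=
  ∑ v : W (M + 1), if res N v = w then p M v else 0

private lemma cpMu_sum (p : ∀ N, W (N + 1) → ℝ) (N M : ℕ) (G : W N → ℝ) :
    ∑ w, cpMu p N M w * G w = ∑ v, p M v * G (res N v) := by
  unfold cpMu
  simp_rw [Finset.sum_mul]
  rw [Finset.sum_comm]
  refine Finset.sum_congr rfl fun v _ => ?_
  rw [Finset.sum_eq_single (res N v)]
  · rw [if_pos rfl]
  · intro w _ hw
    rw [if_neg (Ne.symm hw), zero_mul]
  · intro h
    exact absurd (Finset.mem_univ _) h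

private lemma cpMu_mem (p : ∀ N, W (N + 1) → ℝ) (hp : ∀ N w, 0 ≤ p N w)
    (hp1 : ∀ N, ∑ w, p N w = 1) (N M : ℕ) (w : W N) : cpMu p N M w ∈ Set.Icc (0 : ℝ) 1 := by
  unfold cpMu
  refine ⟨Finset.sum_nonneg fun v _ => ?_, ?_⟩
  · split_ifs
    · exact hp _ _
    · exact le_rfl
  · rw [← hp1 M]
    refine Finset.sum_le_sum fun v _ => ?_
    split_ifs
    · exact le_rfl
    · exact hp _ _

private lemma cp_app_cases {N : ℕ} (x : W (N + 1)) (w : W N) :
    ini x = w ↔ x = app w true ∨ x = app w false := by
  constructor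
  · intro h
    have h1 := app_ini x
    rw [h] at h1
    cases hb : val x N
    · right; rw [hb] at h1; exact h1.symm
    · left; rw [hb] at h1; exact h1.symm
  · rintro (h | h) <;> rw [h, ini_app]

private lemma cp_app_ne {N : ℕ} (w : W N) : app w true ≠ app w false := by
  intro h
  have h1 := congrArg (fun x => val x N) h
  simp only [val_app_self] at h1
  exact absurd h1 (by decide)

private lemma cpMu_cons (p : ∀ N, W (N + 1) → ℝ) (N M : ℕ) (w : W N) :
    cpMu p N M w = cpMu p (N + 1) M (app w true) + cpMu p (N + 1) M (app w false) := by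
  unfold cpMu
  rw [← Finset.sum_add_distrib]
  refine Finset.sum_congr rfl fun v _ => ?_
  have h := cp_app_cases (res (N + 1) v) w
  rw [ini_res] at h
  by_cases h1 : res (N + 1) v = app w true
  · have h2 : res (N + 1) v ≠ app w false := fun h3 => cp_app_ne w (h1.symm.trans h3)
    rw [if_pos (h.mpr (Or.inl h1)), if_pos h1, if_neg h2, add_zero]
  · by_cases h2 : res (N + 1) v = app w false
    · rw [if_pos (h.mpr (Or.inr h2)), if_neg h1, if_pos h2, zero_add]
    · have h3 : res N v ≠ w := fun h4 => (h.mp h4).elim h1 h2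
      rw [if_neg h3, if_neg h1, if_neg h2, add_zero]

theorem fam_of_laws (hq : 0 < q) (hq1 : q < 1) (p : ∀ N, W (N + 1) → ℝ)
    (hp : ∀ N w, 0 ≤ p N w) (hp1 : ∀ N, ∑ w, p N w = 1)
    (hs : ∀ (N : ℕ) (F : W N → ℝ), ∑ w, p N w * gen q F w = 0) (l u : ℝ)
    (hl : ∀ N, l ≤ ∑ w, p N w * psi q w) (hu : ∀ N, ∑ w, p N w * psi q w ≤ u) :
    ∃ f : Fam q, l ≤ f.drift ∧ f.drift ≤ u := by
  set 𝒰 : Ultrafilter ℕ := hyperfilter ℕ with h𝒰
  have hU : (𝒰 : Filter ℕ) ≤ atTop := Nat.hyperfilter_le_atTop
  have hex : ∀ (N : ℕ) (w : W N), ∃ m : ℝ, m ∈ Set.Icc (0 : ℝ) 1 ∧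
      Tendsto (fun M => cpMu p N M w) 𝒰 (𝓝 m) := by
    intro N w
    obtain ⟨m, hm, hm'⟩ := isCompact_Icc.ultrafilter_le_nhds'
      (𝒰.map (fun M => cpMu p N M w)) (by
        show ∀ᶠ M in (𝒰 : Filter ℕ), cpMu p N M w ∈ Set.Icc (0 : ℝ) 1
        exact Eventually.of_forall fun M => cpMu_mem p hp hp1 N M w)
    exact ⟨m, hm, hm'⟩
  choose m hm01 hm using hex
  have hlim : ∀ (N : ℕ) (G : W N → ℝ), Tendsto (fun M => ∑ v : W (M + 1), p M v * G (res N v)) 𝒰
      (𝓝 (∑ w, m N w * G w)) := by
    intro N G
    have h1 : Tendsto (fun M => ∑ w, cpMu p N M w * G w) 𝒰 (𝓝 (∑ w, m N w * G w)) :=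
      tendsto_finsetSum _ fun w _ => (hm N w).mul_const _
    refine h1.congr fun M => cpMu_sum p N M G
  have hm0 : ∀ w : W 0, m 0 w = 1 := by
    intro w
    refine tendsto_nhds_unique (hm 0 w) (Tendsto.congr (fun M => ?_)
      (tendsto_const_nhds (x := (1 : ℝ))))
    unfold cpMu
    rw [← hp1 M]
    refine Finset.sum_congr rfl fun v _ => ?_
    rw [if_pos (Subsingleton.elim _ _)]
  have hmc : ∀ (N : ℕ) (w : W N), m N w = m (N + 1) (app w true) + m (N + 1) (app w false) := by
    intro N w
    refine tendsto_nhds_unique (hm N w) (Tendsto.congr (fun M => (cpMu_cons p N M w).symm)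
      ((hm (N + 1) (app w true)).add (hm (N + 1) (app w false))))
  have hwt : ∀ {N : ℕ} (w : W N), wt q w ≠ 0 := fun w => (wt_pos hq hq1 w).ne'
  let f : Fam q :=
    { f := fun N w => m N w / wt q w
      nn := fun N w => div_nonneg (hm01 N w).1 (wt_nonneg hq.le hq1.le w)
      one := by
        intro w
        rw [hm0, wt]
        simp
      cons := by
        intro N w
        have h1 : (1 - q) ≠ 0 := by linarith
        have h2 := hwt w
        rw [wt_app, wt_app, if_pos rfl, if_neg (by decide), hmc N w]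
        field_simp
      stat := by
        intro N F
        have h1 : Ex q (fun w : W (N + 1) => m (N + 1) w / wt q w * gen q F w) =
            ∑ w, m (N + 1) w * gen q F w := by
          unfold Ex
          refine Finset.sum_congr rfl fun w _ => ?_
          have := hwt w
          field_simp
        rw [h1]
        refine tendsto_nhds_unique (hlim (N + 1) (gen q F)) (Tendsto.congr' ?_
          (tendsto_const_nhds (x := (0 : ℝ))))
        have h2 : ∀ᶠ M in (𝒰 : Filter ℕ), N ≤ M := hU (eventually_ge_atTop N)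
        filter_upwards [h2] with M hM
        rw [← hs M (fun w : W M => F (res N w))]
        refine Finset.sum_congr rfl fun v _ => ?_
        rw [gen_res hM] }
  have hdrift : f.drift = q - (1 - q) * m 1 (fun _ => true) := by
    have h1 : f.f 1 (fun _ => true) = m 1 (fun _ => true) / q := by
      show m 1 (fun _ => true) / wt q (fun _ : Fin 1 => true) = _
      rw [wt]
      simp
    rw [Fam.drift, h1]
    field_simp
  have hdlim : Tendsto (fun M => ∑ v : W (M + 1), p M v * psi q v) 𝒰 (𝓝 f.drift) := by
    rw [hdrift]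
    have h1 : Tendsto (fun M => q - (1 - q) * cpMu p 1 M (fun _ => true)) 𝒰
        (𝓝 (q - (1 - q) * m 1 (fun _ => true))) :=
      tendsto_const_nhds.sub ((hm 1 _).const_mul _)
    refine h1.congr fun M => ?_
    have h2 : ∀ v : W (M + 1), p M v * psi q v =
        q * p M v - (1 - q) * (if res 1 v = (fun _ => true) then p M v else 0) := by
      intro v
      have h3 : (res 1 v = fun _ => true) ↔ val v 0 = true := by
        constructor
        · intro h
          have := congrFun h 0
          simpa [res] using this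
        · intro h
          funext i
          have : (i : ℕ) = 0 := by omega
          simp only [res, this, h]
      unfold psi
      by_cases h4 : val v 0 = true
      · rw [if_pos h4, if_pos (h3.mpr h4)]; ring
      · rw [if_neg h4, if_neg (fun h5 => h4 (h3.mp h5))]; ring
    rw [Finset.sum_congr rfl (fun v _ => h2 v), Finset.sum_sub_distrib, ← Finset.mul_sum,
      ← Finset.mul_sum, hp1, mul_one]
    rfl
  exact ⟨f, ge_of_tendsto' hdlim hl, le_of_tendsto' hdlim hu⟩

theorem exists_fam_le (hq : 0 < q) (hq1 : q < 1) (c : ℝ)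
    (h : ∀ (N : ℕ) (F : W N → ℝ), ∃ w : W (N + 1), psi q w + gen q F w < c) :
    ∃ f : Fam q, f.drift ≤ c := by
  have hsep := fun N => separation (genL q N) (psi q) c (fun F => by
    obtain ⟨w, hw⟩ := h N F
    exact ⟨w, by rw [genL_apply]; exact hw⟩)
  choose p hp hp1 hs hc using hsep
  obtain ⟨f, -, hf⟩ := fam_of_laws hq hq1 p hp hp1 (fun N F => hs N F) (-1) c (fun N => by
    calc (-1 : ℝ) = ∑ w, p N w * (-1) := by rw [← Finset.sum_mul, hp1, one_mul]
      _ ≤ ∑ w, p N w * psi q w := by
        refine Finset.sum_le_sum fun w _ => mul_le_mul_of_nonneg_left ?_ (hp N w)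
        unfold psi
        split_ifs <;> linarith) hc
  exact ⟨f, hf⟩

theorem exists_fam_ge (hq : 0 < q) (hq1 : q < 1) (c : ℝ)
    (h : ∀ (N : ℕ) (F : W N → ℝ), ∃ w : W (N + 1), c < psi q w + gen q F w) :
    ∃ f : Fam q, c ≤ f.drift := by
  have hsep := fun N => separation (genL q N) (fun w => -psi q w) (-c) (fun F => by
    obtain ⟨w, hw⟩ := h N (-F)
    refine ⟨w, ?_⟩
    have h1 : gen q (-F) w = -(genL q N F w) := by
      rw [← genL_apply, map_neg]; rfl
    rw [h1] at hw
    linarith)
  choose p hp hp1 hs hc using hsep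
  obtain ⟨f, hf, -⟩ := fam_of_laws hq hq1 p hp hp1 (fun N F => hs N F) c 1 (fun N => by
    have h1 := hc N
    have h2 : ∑ w, p N w * -psi q w = -∑ w, p N w * psi q w := by
      rw [← Finset.sum_neg_distrib]
      exact Finset.sum_congr rfl fun w _ => by ring
    linarith) (fun N => by
    calc ∑ w, p N w * psi q w ≤ ∑ w, p N w * 1 := by
          refine Finset.sum_le_sum fun w _ => mul_le_mul_of_nonneg_left ?_ (hp N w)
          unfold psi
          split_ifs <;> linarith
      _ = 1 := by rw [← Finset.sum_mul, hp1, one_mul])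
  exact ⟨f, hf⟩

end Pool.Agent.Lib.MP_4c13d6_pr
end
end

section

/-! MK-1: finite continuous time Markov chains through the matrix exponential. -/

open Finset Real

namespace Pool.Agent.Lib.MP_4c13d6_pr

variable {X : Type*} [Fintype X] [DecidableEq X] (Q : Matrix X X ℝ)

section normed

attribute [local instance] Matrix.linftyOpNormedRing Matrix.linftyOpNormedAlgebra

theorem PP_zero : PP Q 0 = 1 := by
  unfold PP
  rw [zero_smul]
  exact NormedSpace.exp_zero

theorem PP_add (s t : ℝ) : PP Q (s + t) = PP Q s * PP Q t := by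
  unfold PP
  rw [add_smul]
  exact Matrix.exp_add_of_commute _ _ (((Commute.refl Q).smul_left s).smul_right t)

private noncomputable def mkEnt (x y : X) : Matrix X X ℝ →L[ℝ] ℝ :=
  LinearMap.toContinuousLinearMap (Matrix.entryLinearMap ℝ ℝ x y)

private theorem mk_deriv1 (x y : X) (t : ℝ) :
    HasDerivAt (fun t => PP Q t x y) ((PP Q t * Q) x y) t := by
  have h := hasDerivAt_exp_smul_const (𝕂 := ℝ) Q t
  exact (mkEnt x y).hasFDerivAt.comp_hasDerivAt t h

private theorem mk_deriv2 (x y : X) (t : ℝ) :
    HasDerivAt (fun t => PP Q t x y) ((Q * PP Q t) x y) t := by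
  have h := hasDerivAt_exp_smul_const' (𝕂 := ℝ) Q t
  exact (mkEnt x y).hasFDerivAt.comp_hasDerivAt t h

private theorem mk_hasSum (M : Matrix X X ℝ) (x y : X) :
    HasSum (fun n : ℕ => ((n.factorial : ℝ)⁻¹) * (M ^ n) x y) (NormedSpace.exp M x y) := by
  have h := NormedSpace.exp_series_hasSum_exp' (𝕂 := ℝ) M
  exact (mkEnt x y).hasSum h

end normed

/-- forward equation for functions -/
theorem PP_deriv (f : X → ℝ) (x : X) (t : ℝ) :
    HasDerivAt (fun t => ∑ y, PP Q t x y * f y) (∑ y, PP Q t x y * ∑ z, Q y z * f z) t := by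
  have h : HasDerivAt (fun t => ∑ y, PP Q t x y * f y) (∑ y, (PP Q t * Q) x y * f y) t :=
    HasDerivAt.fun_sum fun y _ => (mk_deriv1 Q x y t).mul_const (f y)
  convert h using 1
  simp only [Matrix.mul_apply, Finset.sum_mul, Finset.mul_sum]
  rw [Finset.sum_comm]
  refine Finset.sum_congr rfl fun y _ => Finset.sum_congr rfl fun z _ => ?_
  ring

/-- backward equation -/
theorem PP_deriv' (x y : X) (t : ℝ) :
    HasDerivAt (fun t => PP Q t x y) (∑ z, Q x z * PP Q t z y) t :=
  mk_deriv2 Q x y t

theorem PP_deriv'' (x y : X) (t : ℝ) :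
    HasDerivAt (fun t => PP Q t x y) (∑ z, PP Q t x z * Q z y) t :=
  mk_deriv1 Q x y t

variable {Q}

private theorem mk_pow_nonneg {B : Matrix X X ℝ} (hB : ∀ x y, 0 ≤ B x y) (n : ℕ) (x y : X) :
    0 ≤ (B ^ n) x y := by
  induction n generalizing x y with
  | zero =>
    rw [pow_zero, Matrix.one_apply]
    split_ifs
    · exact zero_le_one
    · exact le_refl _
  | succ n ih =>
    rw [pow_succ, Matrix.mul_apply]
    exact Finset.sum_nonneg fun z _ => mul_nonneg (ih x z) (hB z y)

private theorem mk_pow_mono {B C : Matrix X X ℝ} (hB : ∀ x y, 0 ≤ B x y)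
    (h : ∀ x y, B x y ≤ C x y) (n : ℕ) (x y : X) : (B ^ n) x y ≤ (C ^ n) x y := by
  induction n generalizing x y with
  | zero => rw [pow_zero, pow_zero]
  | succ n ih =>
    rw [pow_succ, pow_succ, Matrix.mul_apply, Matrix.mul_apply]
    exact Finset.sum_le_sum fun z _ => mul_le_mul (ih x z) (h z y) (hB z y)
      (le_trans (mk_pow_nonneg hB n x z) (ih x z))

private theorem mk_exp_nonneg {B : Matrix X X ℝ} (hB : ∀ x y, 0 ≤ B x y) (x y : X) :
    0 ≤ NormedSpace.exp B x y :=
  (mk_hasSum B x y).nonneg fun n => mul_nonneg (by positivity) (mk_pow_nonneg hB n x y)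

private theorem mk_exp_mono {B C : Matrix X X ℝ} (hB : ∀ x y, 0 ≤ B x y)
    (h : ∀ x y, B x y ≤ C x y) (x y : X) : NormedSpace.exp B x y ≤ NormedSpace.exp C x y :=
  hasSum_le (fun n => mul_le_mul_of_nonneg_left (mk_pow_mono hB h n x y) (by positivity))
    (mk_hasSum B x y) (mk_hasSum C x y)

private theorem mk_shift (Q : Matrix X X ℝ) (t c : ℝ) (x y : X) :
    PP Q t x y = Real.exp (-(t * c)) *
      NormedSpace.exp (t • (Q + c • (1 : Matrix X X ℝ))) x y := by
  have h1 : t • Q = (-(t * c)) • (1 : Matrix X X ℝ) + t • (Q + c • (1 : Matrix X X ℝ)) := by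
    rw [smul_add, smul_smul, neg_smul]
    abel
  have hc : Commute ((-(t * c)) • (1 : Matrix X X ℝ)) (t • (Q + c • (1 : Matrix X X ℝ))) :=
    (Commute.one_left _).smul_left _
  have h2 : NormedSpace.exp ((-(t * c)) • (1 : Matrix X X ℝ)) =
      Matrix.diagonal (fun _ : X => Real.exp (-(t * c))) := by
    rw [Matrix.smul_one_eq_diagonal, Matrix.exp_diagonal]
    congr 1
    funext i
    rw [Pi.coe_exp]
    exact (congrFun Real.exp_eq_exp_ℝ _).symm
  unfold PP
  rw [h1, Matrix.exp_add_of_commute _ _ hc, h2, Matrix.diagonal_mul]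

private theorem mk_shift_nonneg (h : ∀ x y, x ≠ y → 0 ≤ Q x y) :
    ∃ c : ℝ, ∀ x y, 0 ≤ (Q + c • (1 : Matrix X X ℝ)) x y := by
  refine ⟨∑ x, |Q x x|, fun x y => ?_⟩
  rw [Matrix.add_apply, Matrix.smul_apply, Matrix.one_apply]
  by_cases hxy : x = y
  · subst hxy
    rw [if_pos rfl, smul_eq_mul, mul_one]
    have h1 : |Q x x| ≤ ∑ x, |Q x x| :=
      Finset.single_le_sum (f := fun x => |Q x x|) (fun i _ => abs_nonneg _) (Finset.mem_univ x)
    have h2 := neg_abs_le (Q x x)
    linarith
  · rw [if_neg hxy, smul_zero, add_zero]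
    exact h x y hxy

theorem PP_nonneg (h : ∀ x y, x ≠ y → 0 ≤ Q x y) {t : ℝ} (ht : 0 ≤ t) (x y : X) :
    0 ≤ PP Q t x y := by
  obtain ⟨c, hc⟩ := mk_shift_nonneg h
  rw [mk_shift Q t c x y]
  refine mul_nonneg (Real.exp_pos _).le (mk_exp_nonneg (fun a b => ?_) x y)
  rw [Matrix.smul_apply, smul_eq_mul]
  exact mul_nonneg ht (hc a b)

theorem PP_row (h : ∀ x, ∑ y, Q x y = 0) (t : ℝ) (x : X) : ∑ y, PP Q t x y = 1 := by
  have hd : ∀ s : ℝ, HasDerivAt (fun s => ∑ y, PP Q s x y) 0 s := by
    intro s
    have h1 := PP_deriv Q (fun _ => 1) x s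
    simpa only [mul_one, h, mul_zero, Finset.sum_const_zero] using h1
  have hc : ∀ s s' : ℝ, (fun s => ∑ y, PP Q s x y) s = (fun s => ∑ y, PP Q s x y) s' :=
    is_const_of_deriv_eq_zero (fun s => (hd s).differentiableAt) (fun s => (hd s).deriv)
  have h0 : ∑ y, PP Q 0 x y = 1 := by
    rw [PP_zero]
    simp [Matrix.one_apply]
  rw [← h0]
  exact hc t 0

/-- monotonicity in the generator -/
theorem PP_mono {Q' : Matrix X X ℝ} (h : ∀ x y, x ≠ y → 0 ≤ Q x y) (h' : ∀ x y, Q x y ≤ Q' x y)
    {t : ℝ} (ht : 0 ≤ t) (x y : X) : PP Q t x y ≤ PP Q' t x y := by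
  obtain ⟨c, hc⟩ := mk_shift_nonneg h
  rw [mk_shift Q t c x y, mk_shift Q' t c x y]
  refine mul_le_mul_of_nonneg_left (mk_exp_mono (fun a b => ?_) (fun a b => ?_) x y)
    (Real.exp_pos _).le
  · rw [Matrix.smul_apply, smul_eq_mul]
    exact mul_nonneg ht (hc a b)
  · rw [Matrix.smul_apply, Matrix.smul_apply, smul_eq_mul, smul_eq_mul, Matrix.add_apply,
      Matrix.add_apply]
    exact mul_le_mul_of_nonneg_left (by linarith [h' a b]) ht

end Pool.Agent.Lib.MP_4c13d6_pr
end

section

section

/-! NT-1: the stationarity identity in edge form, for functions of the set of infected sites. -/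

open Finset

namespace Pool.Agent.Lib.MP_4c13d6_pr

variable {q : ℝ}

/-- configuration with infected set `A` -/
def cfg (N : ℕ) (A : Finset ℕ) : W N := fun i => decide ((i : ℕ) ∈ A)

/-- the front moves forward -/
def pus (A : Finset ℕ) : Finset ℕ := insert 0 (A.image (· + 1))

/-- constraint -/
def ca (A : Finset ℕ) (i : ℕ) : Prop := i = 0 ∨ i - 1 ∈ A ∨ i + 1 ∈ A

instance (A : Finset ℕ) (i : ℕ) : Decidable (ca A i) := by unfold ca; infer_instance

/-- reversible weight of a finite configuration -/
noncomputable def mm (q : ℝ) (A : Finset ℕ) : ℝ := (q / (1 - q)) ^ A.card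

/-- normalised density of the cylinder infected set `A` -/
noncomputable def Fam.g (f : Fam q) (N : ℕ) (A : Finset ℕ) : ℝ := (1 - q) ^ N * f.f N (cfg N A)

private theorem shA_val_cfg {N : ℕ} {A : Finset ℕ} {k : ℕ} (hk : k < N) :
    val (cfg N A) k = decide (k ∈ A) := by
  rw [val_lt hk]
  rfl

private theorem shA_mem_pus_succ {A : Finset ℕ} {k : ℕ} : k + 1 ∈ pus A ↔ k ∈ A := by
  unfold pus
  simp

private theorem shA_zero_mem_pus {A : Finset ℕ} : 0 ∈ pus A := by
  unfold pus
  simp

theorem wt_cfg (hq1 : q < 1) {N : ℕ} {A : Finset ℕ} (hA : A ⊆ range N) :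
    wt q (cfg N A) = mm q A * (1 - q) ^ N := by
  have h1 : (1 - q) ≠ 0 := by
    have := sub_pos.2 hq1
    exact this.ne'
  have h2 : wt q (cfg N A) = ∏ k ∈ range N, (if k ∈ A then q else 1 - q) := by
    rw [← Fin.prod_univ_eq_prod_range (fun k => if k ∈ A then q else 1 - q) N]
    unfold wt cfg
    refine Finset.prod_congr rfl fun i _ => ?_
    simp
  have h3 : ∀ k ∈ range N, (if k ∈ A then q else 1 - q)
      = (if k ∈ A then q / (1 - q) else 1) * (1 - q) := by
    intro k _
    split_ifs
    · field_simp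
    · ring
  rw [h2, Finset.prod_congr rfl h3, Finset.prod_mul_distrib, Finset.prod_const, card_range,
    Finset.prod_ite_mem, Finset.prod_const, Finset.inter_eq_right.2 hA]
  rfl

/-- sums over windows are sums over subsets of `range N` -/
theorem sum_cfg {N : ℕ} (h : W N → ℝ) : ∑ w, h w = ∑ A ∈ (range N).powerset, h (cfg N A) := by
  refine Finset.sum_nbij' (fun w => (range N).filter (fun k => val w k = true)) (cfg N)
    ?_ ?_ ?_ ?_ ?_
  · intro w _
    rw [Finset.mem_powerset]
    exact Finset.filter_subset _ _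
  · intro A _
    exact Finset.mem_univ _
  · intro w _
    apply ext_val
    intro k hk
    rw [shA_val_cfg hk]
    simp [hk]
  · intro A hA
    rw [Finset.mem_powerset] at hA
    ext k
    rw [Finset.mem_filter, Finset.mem_range]
    constructor
    · rintro ⟨hk, h⟩
      rw [shA_val_cfg hk] at h
      exact of_decide_eq_true h
    · intro hk
      have hkN := Finset.mem_range.1 (hA hk)
      refine ⟨hkN, ?_⟩
      rw [shA_val_cfg hkN]
      exact decide_eq_true hk
  · intro w _
    congr 1
    apply ext_val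
    intro k hk
    rw [shA_val_cfg hk]
    simp [hk]

private theorem shA_app_false {N : ℕ} {A : Finset ℕ} (hA : A ⊆ range N) :
    app (cfg N A) false = cfg (N + 1) A := by
  apply ext_val
  intro k hk
  rw [shA_val_cfg hk, val_app]
  split_ifs with h h2
  · rw [shA_val_cfg h]
  · have : k ∉ A := by
      intro h3
      have := Finset.mem_range.1 (hA h3)
      omega
    simp [this]
  · omega

private theorem shA_app_true {N : ℕ} {A : Finset ℕ} :
    app (cfg N A) true = cfg (N + 1) (insert N A) := by
  apply ext_val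
  intro k hk
  rw [shA_val_cfg hk, val_app]
  split_ifs with h h2
  · rw [shA_val_cfg h]
    have : k ≠ N := by omega
    simp [this]
  · simp [h2]
  · omega

/-- consistency: `g_N(A) = g_{N+1}(A) + (q/a) g_{N+1}(A ∪ {N})` -/
theorem Fam.g_cons (f : Fam q) (hq1 : q < 1) {N : ℕ} {A : Finset ℕ} (hA : A ⊆ range N) :
    f.g N A = f.g (N + 1) A + q / (1 - q) * f.g (N + 1) (insert N A) := by
  have h1 : (1 - q) ≠ 0 := by
    have := sub_pos.2 hq1
    exact this.ne'
  unfold Fam.g
  rw [f.cons N (cfg N A), shA_app_false hA, shA_app_true, pow_succ]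
  field_simp
  ring

/-- total mass one -/
theorem Fam.sum_g (f : Fam q) (hq1 : q < 1) (N : ℕ) :
    ∑ A ∈ (range N).powerset, mm q A * f.g N A = 1 := by
  have h1 := f.Ex_f N
  unfold Ex at h1
  rw [sum_cfg] at h1
  rw [← h1]
  refine Finset.sum_congr rfl fun A hA => ?_
  rw [wt_cfg hq1 (Finset.mem_powerset.1 hA)]
  unfold Fam.g
  ring

/-! ### the edge identity -/

/-- the infected set of a window -/
private def shA_set {N : ℕ} (w : W N) : Finset ℕ := (range N).filter (fun k => val w k = true)

private theorem shA_set_cfg (N : ℕ) (A : Finset ℕ) : shA_set (cfg N A) = A ∩ range N := by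
  ext k
  unfold shA_set
  rw [Finset.mem_filter, Finset.mem_inter, Finset.mem_range]
  constructor
  · rintro ⟨hk, h⟩
    rw [shA_val_cfg hk] at h
    exact ⟨of_decide_eq_true h, hk⟩
  · rintro ⟨h, hk⟩
    refine ⟨hk, ?_⟩
    rw [shA_val_cfg hk]
    exact decide_eq_true h

private theorem shA_ini_cfg (N : ℕ) (A : Finset ℕ) : ini (cfg (N + 1) A) = cfg N A := by
  apply ext_val
  intro k hk
  rw [val_ini_lt hk, shA_val_cfg hk, shA_val_cfg (by omega)]

private theorem shA_upd_true {N : ℕ} (A : Finset ℕ) (i : Fin N) :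
    Function.update (cfg N A) i true = cfg N (insert (i : ℕ) A) := by
  apply ext_val
  intro k hk
  rw [val_upd, shA_val_cfg hk, shA_val_cfg hk]
  by_cases h : k = i
  · simp [h]
  · simp [h]

private theorem shA_upd_false {N : ℕ} {A : Finset ℕ} {i : Fin N} (hi : (i : ℕ) ∉ A) :
    Function.update (cfg N A) i false = cfg N A := by
  apply ext_val
  intro k hk
  rw [val_upd, shA_val_cfg hk]
  by_cases h : k = i
  · rw [if_pos h, h]
    simp [hi]
  · rw [if_neg h]

private theorem shA_psh (N : ℕ) (A : Finset ℕ) : psh (cfg N A) = cfg N (pus A) := by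
  apply ext_val
  intro k hk
  rw [val_psh, if_pos hk, shA_val_cfg hk]
  cases k with
  | zero => simp [shA_zero_mem_pus]
  | succ k =>
    rw [if_neg (by omega), Nat.add_sub_cancel, shA_val_cfg (by omega)]
    simp [shA_mem_pus_succ]

private theorem shA_con (N : ℕ) (A : Finset ℕ) : con true (cfg N A) = cfg (N + 1) (pus A) := by
  apply ext_val
  intro k hk
  rw [shA_val_cfg hk]
  cases k with
  | zero => simp [shA_zero_mem_pus]
  | succ k =>
    rw [val_con_succ, shA_val_cfg (by omega)]
    simp [shA_mem_pus_succ]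

private theorem shA_ini_con {N : ℕ} (w : W N) : ini (con true w) = psh w := by
  apply ext_val
  intro k hk
  rw [val_ini_lt hk, val_psh, if_pos hk]
  cases k with
  | zero => simp
  | succ k => rw [val_con_succ, if_neg (by omega), Nat.add_sub_cancel]

private theorem shA_ini_upd {N : ℕ} (w : W (N + 1)) (i : Fin N) (b : Bool) :
    ini (Function.update w i.castSucc b) = Function.update (ini w) i b := by
  apply ext_val
  intro k hk
  rw [val_ini_lt hk, val_upd, val_upd, val_ini_lt hk]
  rfl

private theorem shA_cc_upd {N : ℕ} (w : W (N + 1)) (i : Fin N) (b : Bool) :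
    cc (Function.update w i.castSucc b) (i : ℕ) ↔ cc w (i : ℕ) := by
  unfold cc
  rw [val_upd, val_upd]
  have h1 : ((i : ℕ) + 1 = (i.castSucc : Fin (N + 1))) ↔ False := by
    simp
  rw [if_neg (fun h => h1.1 h)]
  by_cases h0 : (i : ℕ) = 0
  · simp [h0]
  · have h2 : ¬ ((i : ℕ) - 1 = (i.castSucc : Fin (N + 1))) := by
      rw [Fin.val_castSucc]
      omega
    rw [if_neg h2]

private theorem shA_cc_cfg {N : ℕ} (A : Finset ℕ) (i : Fin N) :
    cc (cfg (N + 1) A) (i : ℕ) ↔ ca A (i : ℕ) := by
  have hi := i.isLt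
  unfold cc ca
  rw [shA_val_cfg (by omega), shA_val_cfg (by omega)]
  simp

/-- the flip term at `i`, as a sum over windows which are healthy at `i` -/
private theorem shA_flip (hq : 0 < q) (hq1 : q < 1) {N : ℕ} (f : W (N + 1) → ℝ) (F : W N → ℝ)
    (i : Fin N) :
    Ex q (fun w => f w * (if cc w (i : ℕ) then
      q * F (Function.update (ini w) i true) + (1 - q) * F (Function.update (ini w) i false)
        - F (ini w) else 0))
    = - q * Ex q (fun w => if w i.castSucc = false then (if cc w (i : ℕ) then
        (f (Function.update w i.castSucc true) - f (Function.update w i.castSucc false))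
          * (F (Function.update (ini w) i true) - F (Function.update (ini w) i false))
            else 0) else 0) := by
  rw [Ex_upd hq hq1 i.castSucc,
    Ex_upd hq hq1 i.castSucc (fun w => if w i.castSucc = false then (if cc w (i : ℕ) then
        (f (Function.update w i.castSucc true) - f (Function.update w i.castSucc false))
          * (F (Function.update (ini w) i true) - F (Function.update (ini w) i false))
            else 0) else 0), ← Ex_mul_left]
  apply Ex_congr
  intro w
  simp only [shA_cc_upd, shA_ini_upd, Function.update_idem, Function.update_self]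
  by_cases h : cc w (i : ℕ)
  · simp only [if_pos h]
    simp
    ring
  · simp only [if_neg h]
    simp

/-- **stationarity in edge form** -/
theorem Fam.edge_id (f : Fam q) (hq : 0 < q) (hq1 : q < 1) (N : ℕ) (H : Finset ℕ → ℝ) :
    (∑ A ∈ (range (N + 1)).powerset, ∑ i ∈ range N,
      if i ∉ A ∧ ca A i then q * mm q A *
        ((f.g (N + 1) (insert i A) - f.g (N + 1) A)
          * (H (insert i A ∩ range N) - H (A ∩ range N))) else 0)
    + ∑ A ∈ (range N).powerset, q * mm q A *
        ((f.g (N + 1) (pus A) - f.g N A) * (H (pus A ∩ range N) - H A)) = 0 := by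
  have hst := f.stat N (fun w => H (shA_set w))
  -- split the generator
  have hsplit : Ex q (fun w : W (N + 1) => f.f (N + 1) w * gen q (fun w => H (shA_set w)) w)
      = (∑ i : Fin N, Ex q (fun w : W (N + 1) => f.f (N + 1) w * (if cc w (i : ℕ) then
          q * H (shA_set (Function.update (ini w) i true))
          + (1 - q) * H (shA_set (Function.update (ini w) i false))
          - H (shA_set (ini w)) else 0)))
        + Ex q (fun w : W (N + 1) => f.f (N + 1) w *
            (q * (H (shA_set (psh (ini w))) - H (shA_set (ini w)))))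
        + Ex q (fun w : W (N + 1) => f.f (N + 1) w *
            (if val w 0 = true then (1 - q) * (H (shA_set (tai w)) - H (shA_set (ini w)))
              else 0)) := by
    rw [← Ex_sum, ← Ex_add, ← Ex_add]
    apply Ex_congr
    intro w
    unfold gen
    rw [mul_add, mul_add, Finset.mul_sum]
  -- the flips
  have hflip : ∀ i : Fin N, Ex q (fun w : W (N + 1) => f.f (N + 1) w * (if cc w (i : ℕ) then
          q * H (shA_set (Function.update (ini w) i true))
          + (1 - q) * H (shA_set (Function.update (ini w) i false))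
          - H (shA_set (ini w)) else 0))
      = - ∑ A ∈ (range (N + 1)).powerset, (if (i : ℕ) ∉ A ∧ ca A (i : ℕ) then q * mm q A *
        ((f.g (N + 1) (insert (i : ℕ) A) - f.g (N + 1) A)
          * (H (insert (i : ℕ) A ∩ range N) - H (A ∩ range N))) else 0) := by
    intro i
    rw [shA_flip hq hq1 (f.f (N + 1)) (fun w => H (shA_set w)) i, neg_mul]
    congr 1
    unfold Ex
    rw [sum_cfg, Finset.mul_sum]
    refine Finset.sum_congr rfl fun A hA => ?_
    rw [wt_cfg hq1 (Finset.mem_powerset.1 hA)]
    beta_reduce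
    have hci : (cfg (N + 1) A) i.castSucc = decide ((i : ℕ) ∈ A) := rfl
    by_cases hi : (i : ℕ) ∈ A
    · rw [hci, if_neg (by simp [hi]), if_neg (fun h => h.1 hi)]
      ring
    · rw [hci, if_pos (by simp [hi])]
      by_cases hc : ca A (i : ℕ)
      · have hi' : ((i.castSucc : Fin (N + 1)) : ℕ) ∉ A := hi
        rw [if_pos ((shA_cc_cfg A i).2 hc), if_pos ⟨hi, hc⟩, shA_upd_true, shA_upd_false hi',
          shA_ini_cfg, shA_upd_true, shA_upd_false hi, shA_set_cfg, shA_set_cfg]
        unfold Fam.g
        simp only [Fin.val_castSucc]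
        ring
      · rw [if_neg (fun h => hc ((shA_cc_cfg A i).1 h)), if_neg (fun h => hc h.2)]
        ring
  -- the front
  have hpush : Ex q (fun w : W (N + 1) => f.f (N + 1) w *
            (q * (H (shA_set (psh (ini w))) - H (shA_set (ini w)))))
      = Ex q (fun w : W N => f.f N w * (q * (H (shA_set (psh w)) - H (shA_set w)))) :=
    f.Ex_ini (fun w : W N => q * (H (shA_set (psh w)) - H (shA_set w)))
  have hpop : Ex q (fun w : W (N + 1) => f.f (N + 1) w *
            (if val w 0 = true then (1 - q) * (H (shA_set (tai w)) - H (shA_set (ini w)))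
              else 0))
      = Ex q (fun w : W N => q * (f.f (N + 1) (con true w) *
          ((1 - q) * (H (shA_set w) - H (shA_set (psh w)))))) := by
    rw [Ex_con]
    apply Ex_congr
    intro w
    rw [val_con_zero, val_con_zero, tai_con, tai_con, shA_ini_con]
    simp
  have hfront : Ex q (fun w : W N => f.f N w * (q * (H (shA_set (psh w)) - H (shA_set w))))
      + Ex q (fun w : W N => q * (f.f (N + 1) (con true w) *
          ((1 - q) * (H (shA_set w) - H (shA_set (psh w))))))
      = - ∑ A ∈ (range N).powerset, q * mm q A *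
        ((f.g (N + 1) (pus A) - f.g N A) * (H (pus A ∩ range N) - H A)) := by
    rw [← Ex_add, ← Finset.sum_neg_distrib]
    unfold Ex
    rw [sum_cfg]
    refine Finset.sum_congr rfl fun A hA => ?_
    have hA' := Finset.mem_powerset.1 hA
    rw [wt_cfg hq1 hA']
    beta_reduce
    rw [shA_psh, shA_con, shA_set_cfg, shA_set_cfg, Finset.inter_eq_left.2 hA']
    unfold Fam.g
    ring
  rw [hsplit, Finset.sum_congr rfl (fun i _ => hflip i), hpush, hpop, add_assoc, hfront,
    Finset.sum_neg_distrib, Finset.sum_comm] at hst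
  have hre : ∑ A ∈ (range (N + 1)).powerset, ∑ i : Fin N,
      (if (i : ℕ) ∉ A ∧ ca A (i : ℕ) then q * mm q A *
        ((f.g (N + 1) (insert (i : ℕ) A) - f.g (N + 1) A)
          * (H (insert (i : ℕ) A ∩ range N) - H (A ∩ range N))) else 0)
      = ∑ A ∈ (range (N + 1)).powerset, ∑ i ∈ range N,
      (if i ∉ A ∧ ca A i then q * mm q A *
        ((f.g (N + 1) (insert i A) - f.g (N + 1) A)
          * (H (insert i A ∩ range N) - H (A ∩ range N))) else 0) := by
    refine Finset.sum_congr rfl fun A _ => ?_
    exact Fin.sum_univ_eq_sum_range (fun i => if i ∉ A ∧ ca A i then q * mm q A *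
        ((f.g (N + 1) (insert i A) - f.g (N + 1) A)
          * (H (insert i A ∩ range N) - H (A ∩ range N))) else 0) N
  rw [hre] at hst
  linarith

end Pool.Agent.Lib.MP_4c13d6_pr
end

section

/-! FA-4: the flip terms in the entropy inequality. -/

open Finset

namespace Pool.Agent.Lib.MP_4c13d6_pr

variable {q : ℝ}

namespace Fam

/-- flip term of coordinate `i`: -/
noncomputable def flipT (q : ℝ) {N : ℕ} (g : W N → ℝ) (i : Fin N) (w : W (N + 1)) : ℝ :=
  if cc w i then
      q * g (Function.update (ini w) i true) + (1 - q) * g (Function.update (ini w) i false)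
        - g (ini w) else 0

private lemma cc_ini {N : ℕ} (w : W (N + 1)) {i : ℕ} (hi : i + 1 < N) :
    cc (ini w) i ↔ cc w i := by
  unfold cc
  rw [val_ini_lt (show i - 1 < N by omega), val_ini_lt hi]

private lemma cc_upd {N : ℕ} (v : W N) (i : Fin N) (b : Bool) :
    cc (Function.update v i b) i ↔ cc v i := by
  unfold cc
  by_cases h0 : (i : ℕ) = 0
  · simp [h0]
  · rw [val_upd, val_upd, if_neg (show (i : ℕ) - 1 ≠ i by omega),
      if_neg (show (i : ℕ) + 1 ≠ i by omega)]

/-- interior coordinates `i < n` of a window of `n+1` coordinates, `g = log f` -/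
theorem flip_interior (f : Fam q) (hq : 0 < q) (hq1 : q < 1) (n i : ℕ) (hi : i < n) :
    Ex q (fun w : W (n + 2) => f.f (n + 2) w *
        flipT q (fun v => Real.log (f.f (n + 1) v)) ⟨i, by omega⟩ w)
      ≤ - (4 * q * (1 - q) * f.s (n + 1) i) := by
  have hi1 : i < n + 1 := by omega
  set j : Fin (n + 1) := ⟨i, hi1⟩ with hj
  set g : W (n + 1) → ℝ := fun v => Real.log (f.f (n + 1) v) with hg
  set G : W (n + 1) → ℝ := fun v => if cc v i then
      q * g (Function.update v j true) + (1 - q) * g (Function.update v j false) - g v else 0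
    with hG
  have e1 : Ex q (fun w : W (n + 2) => f.f (n + 2) w * flipT q g j w) =
      Ex q (fun w : W (n + 2) => f.f (n + 2) w * G (ini w)) := by
    refine Ex_congr fun w => ?_
    congr 1
    simp only [flipT, hG]
    have h1 : cc w ((j : Fin (n + 1)) : ℕ) ↔ cc (ini w) i :=
      (cc_ini w (show i + 1 < n + 1 by omega)).symm
    by_cases hc : cc (ini w) i
    · rw [if_pos hc, if_pos (h1.mpr hc)]
    · rw [if_neg hc, if_neg (fun h => hc (h1.mp h))]
  rw [e1, f.Ex_ini G, Ex_upd hq hq1 j]
  have e2 : f.s (n + 1) i = Ex q (fun v : W (n + 1) => if cc v i then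
      (dl (f.u (n + 1)) j v) ^ 2 else 0) := by
    rw [Fam.s, dif_pos hi1]
  rw [e2, ← Ex_mul_left, ← Ex_neg]
  refine Ex_mono hq.le hq1.le fun v => ?_
  have hup : ∀ b, (cc (Function.update v j b) i ↔ cc v i) := fun b => cc_upd v j b
  simp only [hG, Function.update_idem]
  by_cases hc : cc v i
  · rw [if_pos ((hup true).mpr hc), if_pos ((hup false).mpr hc), if_pos hc]
    have p1 := f.pos hq hq1 (n + 1) (Function.update v j true)
    have p0 := f.pos hq hq1 (n + 1) (Function.update v j false)
    have key := sub_mul_log_ge p1 p0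
    simp only [dl, Fam.u, hg]
    have ha : 0 < q * (1 - q) := mul_pos hq (by linarith)
    have h2 := mul_le_mul_of_nonneg_left key ha.le
    nlinarith
  · rw [if_neg (fun h => hc ((hup true).mp h)), if_neg (fun h => hc ((hup false).mp h)),
      if_neg hc]
    simp

/-- last coordinate -/
theorem flip_last (f : Fam q) (hq : 0 < q) (hq1 : q < 1) (n : ℕ) :
    Ex q (fun w : W (n + 2) => f.f (n + 2) w *
        flipT q (fun v => Real.log (f.f (n + 1) v)) (Fin.last n) w) ≤ 2 * √(f.U n) := by
  set j : Fin (n + 1) := Fin.last n with hj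
  set g : W (n + 1) → ℝ := fun v => Real.log (f.f (n + 1) v) with hg
  set P : W (n + 1) → ℝ := fun v => max 0
    (q * g (Function.update v j true) + (1 - q) * g (Function.update v j false) - g v) with hP
  have h1 : Ex q (fun w : W (n + 2) => f.f (n + 2) w * flipT q g j w) ≤
      Ex q (fun w : W (n + 2) => f.f (n + 2) w * P (ini w)) := by
    refine Ex_mono hq.le hq1.le fun w => mul_le_mul_of_nonneg_left ?_ (f.nn _ _)
    simp only [flipT, hP]
    split_ifs
    · exact le_max_right _ _
    · exact le_max_left _ _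
  refine h1.trans ?_
  rw [f.Ex_ini P]
  have h2 : Ex q (fun v : W (n + 1) => f.f (n + 1) v * P v) ≤
      Ex q (fun v : W (n + 1) => 2 * (f.u (n + 1) v * |dl (f.u (n + 1)) j v|)) := by
    refine Ex_mono hq.le hq1.le fun v => ?_
    have p := f.pos hq hq1 (n + 1) v
    have p1 := f.pos hq hq1 (n + 1) (Function.update v j true)
    have p0 := f.pos hq hq1 (n + 1) (Function.update v j false)
    have hr : 0 ≤ 2 * (f.u (n + 1) v * |dl (f.u (n + 1)) j v|) :=
      mul_nonneg zero_le_two (mul_nonneg (Real.sqrt_nonneg _) (abs_nonneg _))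
    have hmain : f.f (n + 1) v *
        (q * g (Function.update v j true) + (1 - q) * g (Function.update v j false) - g v) ≤
        2 * (f.u (n + 1) v * |dl (f.u (n + 1)) j v|) := by
      cases hv : v j with
      | true =>
        have hvv : Function.update v j true = v := by rw [← hv]; simp
        have k := mul_log_sub_le p1 p0
        rw [hvv] at k ⊢
        simp only [dl, Fam.u, hg] at hr ⊢
        rw [hvv] at hr ⊢
        have e : |√(f.f (n + 1) v) - √(f.f (n + 1) (Function.update v j false))| =
            |√(f.f (n + 1) (Function.update v j false)) - √(f.f (n + 1) v)| := abs_sub_comm _ _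
        rw [e] at hr ⊢
        have ha : 0 ≤ 1 - q := by linarith
        have h3 := mul_le_mul_of_nonneg_left k ha
        nlinarith
      | false =>
        have hvv : Function.update v j false = v := by rw [← hv]; simp
        have k := mul_log_sub_le p0 p1
        rw [hvv] at k ⊢
        simp only [dl, Fam.u, hg] at hr ⊢
        rw [hvv] at hr ⊢
        have h3 := mul_le_mul_of_nonneg_left k hq.le
        nlinarith
    simp only [hP]
    rcases le_total 0 (q * g (Function.update v j true) + (1 - q) * g (Function.update v j false)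
      - g v) with h | h
    · rw [max_eq_right h]; exact hmain
    · rw [max_eq_left h, mul_zero]; exact hr
  refine h2.trans ?_
  rw [Ex_mul_left]
  refine mul_le_mul_of_nonneg_left ?_ zero_le_two
  refine (Ex_cs' hq.le hq1.le _ _).trans (le_of_eq ?_)
  have e1 : Ex q (fun v : W (n + 1) => f.u (n + 1) v ^ 2) = 1 := by
    rw [← f.Ex_f (n + 1)]
    exact Ex_congr fun v => f.u_sq _ v
  have e2 : Ex q (fun v : W (n + 1) => |dl (f.u (n + 1)) j v| ^ 2) = f.U n := by
    rw [Fam.U]
    exact Ex_congr fun v => sq_abs _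
  rw [e1, e2, Real.sqrt_one, one_mul]

end Fam

end Pool.Agent.Lib.MP_4c13d6_pr
end

section

/-! FA-5: the front terms in the entropy inequality. -/

open Finset

namespace Pool.Agent.Lib.MP_4c13d6_pr

variable {q : ℝ}

namespace Fam

/-- the mean of `y ↦ f_{m+1}(1 y)` is `R = f_1(1)` -/
private theorem Ex_con_true (f : Fam q) (m : ℕ) :
    Ex q (fun y : W m => f.f (m + 1) (con true y)) = f.f 1 (fun _ => true) := by
  induction m with
  | zero =>
    have h : ∀ y : W 0, f.f (0 + 1) (con true y) = f.f 1 (fun _ => true) := by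
      intro y
      congr 1
      ext k hk
      have : k = 0 := by omega
      subst this
      rw [val_con_zero]
      simp [val]
    rw [Ex_congr h, Ex_const]
  | succ m ih =>
    rw [Ex_app, ← ih]
    apply Ex_congr
    intro y
    rw [con_app, con_app, ← f.cons]

private theorem upd_app {N : ℕ} (w : W N) (b c : Bool) :
    Function.update (app w b) (Fin.last N) c = app w c := by
  ext k hk
  rw [val_upd, val_app, val_app]
  by_cases h : k = N
  · subst h; simp
  · have h2 : k < N := by omega
    have h3 : ¬ k = ((Fin.last N : Fin (N + 1)) : ℕ) := by simpa using h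
    rw [if_neg h3, if_pos h2, if_pos h2]

/-- `U_{n+1}` with the last coordinate integrated -/
private theorem U_eq (f : Fam q) (n : ℕ) :
    f.U n = Ex q (fun z : W n =>
      (√(f.f (n + 1) (app z true)) - √(f.f (n + 1) (app z false))) ^ 2) := by
  unfold Fam.U
  rw [Ex_app]
  apply Ex_congr
  intro z
  unfold dl Fam.u
  simp only [upd_app]
  ring

/-- conditional entropy of the last coordinate -/
private noncomputable def Ent (f : Fam q) {N : ℕ} (z : W N) : ℝ :=
  q * (f.f (N + 1) (app z true) * Real.log (f.f (N + 1) (app z true) / f.f N z))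
    + (1 - q) * (f.f (N + 1) (app z false) * Real.log (f.f (N + 1) (app z false) / f.f N z))

private theorem Ent_nonneg (f : Fam q) (hq : 0 < q) (hq1 : q < 1) {N : ℕ} (z : W N) :
    0 ≤ Ent f z := by
  have h := two_point_ent_nonneg hq hq1 (f.pos hq hq1 _ (app z true))
    (f.pos hq hq1 _ (app z false))
  rw [← f.cons] at h
  exact h

private theorem Ent_le (f : Fam q) (hq : 0 < q) (hq1 : q < 1) {N : ℕ} (z : W N) :
    Ent f z ≤ 2 * (√(f.f (N + 1) (app z true)) - √(f.f (N + 1) (app z false))) ^ 2 := by
  have h := two_point_ent hq hq1 (f.pos hq hq1 _ (app z true))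
    (f.pos hq hq1 _ (app z false))
  rw [← f.cons] at h
  exact h

/-- push and pop terms for `g = log f_{n+1}` on windows of `n+1` coordinates -/
theorem front_terms (f : Fam q) (hq : 0 < q) (hq1 : q < 1) (n : ℕ) :
    Ex q (fun w : W (n + 2) => f.f (n + 2) w *
      (q * (Real.log (f.f (n + 1) (psh (ini w))) - Real.log (f.f (n + 1) (ini w)))
        + (if val w 0 = true then
            (1 - q) * (Real.log (f.f (n + 1) (tai w)) - Real.log (f.f (n + 1) (ini w))) else 0)))
      ≤ q * (1 - (1 - q) * f.f 1 (fun _ => true)) * Real.log (f.f 1 (fun _ => true))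
        + 2 * (1 - q) * f.U (n + 1) := by
  have hq0 : 0 ≤ q := hq.le
  have hq1' : q ≤ 1 := hq1.le
  have ha : 0 < 1 - q := by linarith
  set R := f.f 1 (fun _ => true) with hR
  have hRpos : 0 < R := f.pos hq hq1 _ _
  -- push term
  have hpush : Ex q (fun w : W (n + 2) => f.f (n + 2) w *
      (q * (Real.log (f.f (n + 1) (psh (ini w))) - Real.log (f.f (n + 1) (ini w)))))
      = Ex q (fun v : W (n + 1) => f.f (n + 1) v *
        (q * (Real.log (f.f (n + 1) (con true (ini v))) - Real.log (f.f (n + 1) v)))) := by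
    have h := f.Ex_ini (N := n + 1) (fun v : W (n + 1) =>
      q * (Real.log (f.f (n + 1) (psh v)) - Real.log (f.f (n + 1) v)))
    rw [h]
    apply Ex_congr
    intro v
    rw [psh_eq_con]
  -- pop term
  have hpop : Ex q (fun w : W (n + 2) => f.f (n + 2) w *
      (if val w 0 = true then
            (1 - q) * (Real.log (f.f (n + 1) (tai w)) - Real.log (f.f (n + 1) (ini w))) else 0))
      = Ex q (fun v : W (n + 1) => q * (f.f (n + 2) (con true v) * ((1 - q) *
        (Real.log (f.f (n + 1) v) - Real.log (f.f (n + 1) (con true (ini v))))))) := by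
    rw [Ex_con]
    apply Ex_congr
    intro v
    simp only [val_con_zero, tai_con, ini_con]
    simp
  have hsplit : Ex q (fun w : W (n + 2) => f.f (n + 2) w *
      (q * (Real.log (f.f (n + 1) (psh (ini w))) - Real.log (f.f (n + 1) (ini w)))
        + (if val w 0 = true then
            (1 - q) * (Real.log (f.f (n + 1) (tai w)) - Real.log (f.f (n + 1) (ini w))) else 0)))
      = Ex q (fun v : W (n + 1) => f.f (n + 1) v *
        (q * (Real.log (f.f (n + 1) (con true (ini v))) - Real.log (f.f (n + 1) v))))
        + Ex q (fun v : W (n + 1) => q * (f.f (n + 2) (con true v) * ((1 - q) *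
        (Real.log (f.f (n + 1) v) - Real.log (f.f (n + 1) (con true (ini v))))))) := by
    rw [← hpush, ← hpop, ← Ex_add]
    apply Ex_congr
    intro w
    ring
  -- the three quantities
  set A := Ex q (fun v : W (n + 1) => f.f (n + 1) v *
    Real.log (f.f (n + 1) v / f.f n (ini v))) with hA
  set B := Ex q (fun v : W (n + 1) => f.f (n + 2) (con true v) *
    Real.log (f.f (n + 1) v / f.f n (ini v))) with hB
  set Th := Ex q (fun y : W n => (f.f n y - (1 - q) * f.f (n + 1) (con true y)) *
    (Real.log (f.f n y) - Real.log (f.f (n + 1) (con true y)))) with hTh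
  have hTh' : Th = Ex q (fun v : W (n + 1) =>
      (f.f (n + 1) v - (1 - q) * f.f (n + 2) (con true v)) *
      (Real.log (f.f n (ini v)) - Real.log (f.f (n + 1) (con true (ini v))))) := by
    rw [hTh, Ex_app]
    apply Ex_congr
    intro y
    have h1 := f.cons n y
    have h2 := f.cons (n + 1) (con true y)
    simp only [ini_app, con_app]
    rw [h2]
    nth_rw 1 [h1]
    ring
  have htotal : Ex q (fun v : W (n + 1) => f.f (n + 1) v *
        (q * (Real.log (f.f (n + 1) (con true (ini v))) - Real.log (f.f (n + 1) v))))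
        + Ex q (fun v : W (n + 1) => q * (f.f (n + 2) (con true v) * ((1 - q) *
        (Real.log (f.f (n + 1) v) - Real.log (f.f (n + 1) (con true (ini v)))))))
      = -q * A - q * Th + q * (1 - q) * B := by
    rw [hTh', hA, hB, ← Ex_mul_left, ← Ex_mul_left, ← Ex_mul_left, ← Ex_sub, ← Ex_add, ← Ex_add]
    apply Ex_congr
    intro v
    have p1 := f.pos hq hq1 (n + 1) v
    have p2 := f.pos hq hq1 n (ini v)
    rw [Real.log_div p1.ne' p2.ne']
    ring
  have hA0 : 0 ≤ A := by
    rw [hA, Ex_app]
    apply Ex_nonneg hq0 hq1'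
    intro y
    simp only [ini_app]
    exact Ent_nonneg f hq hq1 y
  have hBle : B ≤ Ex q (fun y : W n => Ent f (con true y)) := by
    rw [hB, Ex_app]
    apply Ex_mono hq0 hq1'
    intro y
    simp only [ini_app, con_app]
    have h := two_point_gibbs hq hq1 (f.pos hq hq1 _ (app (con true y) true))
      (f.pos hq hq1 _ (app (con true y) false)) (f.pos hq hq1 _ (app y true))
      (f.pos hq hq1 _ (app y false))
    rw [← f.cons, ← f.cons] at h
    exact h
  have hC : q * Ex q (fun y : W n => Ent f (con true y)) ≤ Ex q (fun z : W (n + 1) => Ent f z) := by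
    rw [Ex_con (fun z : W (n + 1) => Ent f z), ← Ex_mul_left]
    apply Ex_mono hq0 hq1'
    intro y
    have := mul_nonneg ha.le (Ent_nonneg f hq hq1 (con false y))
    linarith
  have hU : Ex q (fun z : W (n + 1) => Ent f z) ≤ 2 * f.U (n + 1) := by
    rw [U_eq, ← Ex_mul_left]
    apply Ex_mono hq0 hq1'
    intro z
    exact Ent_le f hq hq1 z
  -- the bound for `Th`
  have hlog1 : -Real.log R ≤ Ex q (fun y : W n => f.f n y *
      Real.log (f.f n y / f.f (n + 1) (con true y))) := by
    have h := log_sum (Finset.univ : Finset (W n)) (wt q) (f.f n)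
      (fun y => f.f (n + 1) (con true y)) (fun y _ => wt_pos hq hq1 y)
      (fun y _ => f.pos hq hq1 _ _) (fun y _ => f.pos hq hq1 _ _) Finset.univ_nonempty
    have e1 : ∑ y : W n, wt q y * f.f n y = 1 := f.Ex_f n
    have e2 : ∑ y : W n, wt q y * f.f (n + 1) (con true y) = R := Ex_con_true f n
    rw [e1, e2] at h
    rw [one_mul, one_div, Real.log_inv] at h
    exact h
  have hlog2 : R * Real.log R ≤ Ex q (fun y : W n => f.f (n + 1) (con true y) *
      Real.log (f.f (n + 1) (con true y) / f.f n y)) := by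
    have h := log_sum (Finset.univ : Finset (W n)) (wt q) (fun y => f.f (n + 1) (con true y))
      (f.f n) (fun y _ => wt_pos hq hq1 y)
      (fun y _ => f.pos hq hq1 _ _) (fun y _ => f.pos hq hq1 _ _) Finset.univ_nonempty
    have e1 : ∑ y : W n, wt q y * f.f n y = 1 := f.Ex_f n
    have e2 : ∑ y : W n, wt q y * f.f (n + 1) (con true y) = R := Ex_con_true f n
    rw [e1, e2] at h
    rw [div_one] at h
    exact h
  have hThge : -Real.log R + (1 - q) * (R * Real.log R) ≤ Th := by
    have e : Th = Ex q (fun y : W n => f.f n y *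
      Real.log (f.f n y / f.f (n + 1) (con true y))) + (1 - q) *
      Ex q (fun y : W n => f.f (n + 1) (con true y) *
      Real.log (f.f (n + 1) (con true y) / f.f n y)) := by
      rw [hTh, ← Ex_mul_left, ← Ex_add]
      apply Ex_congr
      intro y
      have p1 := f.pos hq hq1 (n + 1) (con true y)
      have p2 := f.pos hq hq1 n y
      rw [Real.log_div p1.ne' p2.ne', Real.log_div p2.ne' p1.ne']
      ring
    rw [e]
    have := mul_le_mul_of_nonneg_left hlog2 ha.le
    linarith
  rw [hsplit, htotal]
  have k1 : 0 ≤ q * A := mul_nonneg hq0 hA0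
  have k2 : q * (-Real.log R + (1 - q) * (R * Real.log R)) ≤ q * Th :=
    mul_le_mul_of_nonneg_left hThge hq0
  have k3 : q * B ≤ 2 * f.U (n + 1) := by
    have := mul_le_mul_of_nonneg_left hBle hq0
    linarith
  have k4 := mul_le_mul_of_nonneg_left k3 ha.le
  nlinarith [k1, k2, k4]

end Fam

end Pool.Agent.Lib.MP_4c13d6_pr
end

section

/-! FA-7: the energy lemma (Lemma 10) for reversible flows, in edge form. -/

open Finset Filter Topology

namespace Pool.Agent.Lib.MP_4c13d6_pr

/-- `X` states with level `lev`, `ι` (oriented) edges `src e → tgt e` with conductance `c e ≥ 0`,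
`E M` the finite set of edges with source level `≤ M`; along an edge the level stays or increases
by one.  If `g ≥ 0` is harmonic in the weak sense and the boundary sums tend to zero along a
subsequence, then `g` is constant along every edge of positive conductance. -/
theorem energy_lemma {X ι : Type*} (lev : X → ℕ) (src tgt : ι → X) (c : ι → ℝ)
    (hc : ∀ e, 0 ≤ c e) (E : ℕ → Finset ι) (hE : ∀ M e, e ∈ E M ↔ lev (src e) ≤ M)
    (hl : ∀ e, lev (tgt e) = lev (src e) ∨ lev (tgt e) = lev (src e) + 1)
    (g : X → ℝ) (hg : ∀ x, 0 ≤ g x)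
    (hw : ∀ (M : ℕ) (H : X → ℝ), (∀ x, M < lev x → H x = 0) →
      ∑ e ∈ E M, c e * ((g (tgt e) - g (src e)) * (H (tgt e) - H (src e))) = 0)
    (hb : ∀ ε > 0, ∀ M₀, ∃ M ≥ M₀,
      ∑ e ∈ (E M).filter (fun e => lev (src e) = M ∧ lev (tgt e) = M + 1),
        c e * (g (src e) + g (tgt e)) ≤ ε) :
    ∀ e, 0 < c e → g (tgt e) = g (src e) := by
  classical
  intro e0 he0
  by_contra hne
  let th : ℝ → ℝ := fun t => t / (1 + t)
  have hth0 : ∀ t, 0 ≤ t → 0 ≤ th t := fun t ht => div_nonneg ht (by linarith)
  have hth1 : ∀ t, 0 ≤ t → th t ≤ 1 := fun t ht => by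
    simp only [th]
    rw [div_le_one (by linarith)]
    linarith
  have hdiff : ∀ s t, 0 ≤ s → 0 ≤ t →
      (s - t) * (th s - th t) = (s - t) ^ 2 / ((1 + s) * (1 + t)) := by
    intro s t hs ht
    have h1 : (1 + s) ≠ 0 := by positivity
    have h2 : (1 + t) ≠ 0 := by positivity
    simp only [th]
    field_simp
    ring
  let T : ι → ℝ := fun e => c e * ((g (tgt e) - g (src e)) * (th (g (tgt e)) - th (g (src e))))
  have hT : ∀ e, 0 ≤ T e := by
    intro e
    have h1 := hg (tgt e)
    have h2 := hg (src e)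
    simp only [T]
    rw [hdiff _ _ h1 h2]
    have h3 := hc e
    positivity
  have hT0 : 0 < T e0 := by
    have h1 := hg (tgt e0)
    have h2 := hg (src e0)
    simp only [T]
    rw [hdiff _ _ h1 h2]
    have h3 : 0 < (g (tgt e0) - g (src e0)) ^ 2 := by
      have : g (tgt e0) - g (src e0) ≠ 0 := sub_ne_zero.2 hne
      positivity
    positivity
  obtain ⟨M, hM, hbM⟩ := hb (T e0 / 2) (half_pos hT0) (lev (src e0) + 1)
  have h := hw M (fun x => if lev x ≤ M then th (g x) else 0) (fun x hx => if_neg (by omega))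
  rw [← Finset.sum_filter_add_sum_filter_not (E M)
    (fun e => lev (src e) = M ∧ lev (tgt e) = M + 1)] at h
  have h1 : -∑ e ∈ (E M).filter (fun e => lev (src e) = M ∧ lev (tgt e) = M + 1),
        c e * (g (src e) + g (tgt e)) ≤
      ∑ e ∈ (E M).filter (fun e => lev (src e) = M ∧ lev (tgt e) = M + 1),
        c e * ((g (tgt e) - g (src e)) * ((if lev (tgt e) ≤ M then th (g (tgt e)) else 0) -
          (if lev (src e) ≤ M then th (g (src e)) else 0))) := by
    rw [← Finset.sum_neg_distrib]
    refine Finset.sum_le_sum fun e he => ?_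
    rw [Finset.mem_filter] at he
    rw [if_neg (by omega), if_pos (by omega), zero_sub]
    have h3 := hc e
    have h4 := hg (src e)
    have h5 := hg (tgt e)
    have h6 := hth0 _ h4
    have h7 := hth1 _ h4
    have h8 : -(g (src e) + g (tgt e)) ≤ (g (tgt e) - g (src e)) * -th (g (src e)) := by
      nlinarith [mul_nonneg h5 (sub_nonneg.2 h7), mul_nonneg h4 h6]
    nlinarith [mul_le_mul_of_nonneg_left h8 h3]
  have h2 : T e0 ≤ ∑ e ∈ (E M).filter (fun e => ¬ (lev (src e) = M ∧ lev (tgt e) = M + 1)),
        c e * ((g (tgt e) - g (src e)) * ((if lev (tgt e) ≤ M then th (g (tgt e)) else 0) -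
          (if lev (src e) ≤ M then th (g (src e)) else 0))) := by
    have h3 : ∑ e ∈ (E M).filter (fun e => ¬ (lev (src e) = M ∧ lev (tgt e) = M + 1)),
        c e * ((g (tgt e) - g (src e)) * ((if lev (tgt e) ≤ M then th (g (tgt e)) else 0) -
          (if lev (src e) ≤ M then th (g (src e)) else 0))) =
        ∑ e ∈ (E M).filter (fun e => ¬ (lev (src e) = M ∧ lev (tgt e) = M + 1)), T e := by
      refine Finset.sum_congr rfl fun e he => ?_
      rw [Finset.mem_filter, hE] at he
      have h4 := hl e
      rw [if_pos (by omega), if_pos (by omega)]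
    rw [h3]
    refine Finset.single_le_sum (f := T) (fun e _ => hT e) ?_
    rw [Finset.mem_filter, hE]
    have h4 := hl e0
    constructor
    · omega
    · omega
  linarith

end Pool.Agent.Lib.MP_4c13d6_pr
end
end
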