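import Mathlib
import Pool.Agent.Lib.MP_4c13d6_pr.Basic

section

/-! FA-1: elementary properties of stationary families. -/

open Finset

namespace Pool.Agent.Lib.MP_4c13d6_pr

variable {q : ℝ}

namespace Fam

/-- the indicator of one window -/
private noncomputable def famInd {N : ℕ} (w : W N) (v : W N) : ℝ := if v = w then 1 else 0

private theorem famInd_nn {N : ℕ} (w v : W N) : 0 ≤ famInd w v := by
  unfold famInd; split_ifs <;> norm_num

private theorem famInd_self {N : ℕ} (w : W N) : famInd w w = 1 := by
  unfold famInd; rw [if_pos rfl]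

private theorem famInd_ne {N : ℕ} {w v : W N} (h : v ≠ w) : famInd w v = 0 := by
  unfold famInd; rw [if_neg h]

private theorem fam_app_zero (f : Fam q) (hq : 0 < q) (hq1 : q < 1) {N : ℕ} {w : W N}
    (h : f.f N w = 0) (b : Bool) : f.f (N + 1) (app w b) = 0 := by
  have h1 := f.cons N w
  have h2 := f.nn (N + 1) (app w true)
  have h3 := f.nn (N + 1) (app w false)
  rw [h] at h1
  have h4 := mul_nonneg hq.le h2
  have h5 := mul_nonneg (sub_pos.2 hq1).le h3
  cases b with
  | true =>
    have : q * f.f (N + 1) (app w true) = 0 := by linarith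
    exact (mul_eq_zero.1 this).resolve_left hq.ne'
  | false =>
    have : (1 - q) * f.f (N + 1) (app w false) = 0 := by linarith
    exact (mul_eq_zero.1 this).resolve_left (sub_pos.2 hq1).ne'

private theorem fam_ini_zero (f : Fam q) (hq : 0 < q) (hq1 : q < 1) {N : ℕ} {v : W (N + 1)}
    (h : f.f N (ini v) = 0) : f.f (N + 1) v = 0 := by
  have := fam_app_zero f hq hq1 h (val v N)
  rwa [app_ini] at this

private theorem fam_of_app (f : Fam q) {N : ℕ} {w : W N}
    (h : ∀ b, f.f (N + 1) (app w b) = 0) : f.f N w = 0 := by
  rw [f.cons N w, h true, h false]; ring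

/-- the flip terms are nonnegative away from `w` -/
private theorem fam_gen_ge (hq : 0 < q) (hq1 : q < 1) {N : ℕ} {w : W (N + 1)}
    {v : W (N + 2)} (h : ini v ≠ w) :
    0 ≤ gen q (famInd w) v ∧ q * famInd w (psh (ini v)) ≤ gen q (famInd w) v ∧
      (1 - q) * famInd w (Function.update (ini v) 0 false) ≤ gen q (famInd w) v := by
  have a0 := (sub_pos.2 hq1).le
  have hF : famInd w (ini v) = 0 := famInd_ne h
  have hterm : ∀ i ∈ (univ : Finset (Fin (N + 1))), 0 ≤ (if cc v (i : ℕ) then
      q * famInd w (Function.update (ini v) i true)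
        + (1 - q) * famInd w (Function.update (ini v) i false) - famInd w (ini v) else 0) := by
    intro i _
    split_ifs
    · rw [hF, sub_zero]
      exact add_nonneg (mul_nonneg hq.le (famInd_nn _ _)) (mul_nonneg a0 (famInd_nn _ _))
    · exact le_rfl
  have hsum := Finset.sum_nonneg hterm
  have h0 := Finset.single_le_sum hterm (Finset.mem_univ (0 : Fin (N + 1)))
  have hcc : cc v ((0 : Fin (N + 1)) : ℕ) := Or.inl rfl
  rw [if_pos hcc] at h0
  have hp : 0 ≤ q * famInd w (psh (ini v)) := mul_nonneg hq.le (famInd_nn _ _)
  have ht : 0 ≤ (if val v 0 = true then (1 - q) * (famInd w (tai v) - famInd w (ini v)) else 0) := by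
    split_ifs
    · rw [hF, sub_zero]
      exact mul_nonneg a0 (famInd_nn _ _)
    · exact le_rfl
  have h1 : 0 ≤ q * famInd w (Function.update (ini v) 0 true) :=
    mul_nonneg hq.le (famInd_nn _ _)
  have hg : gen q (famInd w) v = (∑ i : Fin (N + 1), if cc v i then
      q * famInd w (Function.update (ini v) i true)
        + (1 - q) * famInd w (Function.update (ini v) i false) - famInd w (ini v) else 0)
      + q * famInd w (psh (ini v))
      + (if val v 0 = true then (1 - q) * (famInd w (tai v) - famInd w (ini v)) else 0) := by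
    unfold gen
    rw [hF, sub_zero (famInd w (psh (ini v)))]
  rw [hF] at h0
  rw [hg]
  rw [hF] at hsum ht ⊢
  refine ⟨by linarith, by linarith, by linarith⟩

private theorem fam_term_zero (f : Fam q) (hq : 0 < q) (hq1 : q < 1) {N : ℕ} {w : W (N + 1)}
    (h : f.f (N + 1) w = 0) (v : W (N + 2)) :
    f.f (N + 2) v * gen q (famInd w) v = 0 := by
  have h1 := f.stat (N + 1) (famInd w)
  unfold Ex at h1
  have hnn : ∀ v ∈ (univ : Finset (W (N + 2))),
      0 ≤ wt q v * (f.f (N + 2) v * gen q (famInd w) v) := by
    intro v _
    apply mul_nonneg (wt_nonneg hq.le hq1.le v)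
    by_cases hv : ini v = w
    · rw [fam_ini_zero f hq hq1 (by rw [hv]; exact h), zero_mul]
    · exact mul_nonneg (f.nn _ _) (fam_gen_ge hq hq1 hv).1
  have h2 := (Finset.sum_eq_zero_iff_of_nonneg hnn).1 h1 v (Finset.mem_univ v)
  exact (mul_eq_zero.1 h2).resolve_left (wt_pos hq hq1 v).ne'

private theorem fam_zero_true (f : Fam q) (hq : 0 < q) (hq1 : q < 1) {N : ℕ} {w : W (N + 1)}
    (h : f.f (N + 1) w = 0) : ∃ w' : W (N + 1), f.f (N + 1) w' = 0 ∧ val w' 0 = true := by
  by_cases h0 : w 0 = true
  · exact ⟨w, h, by rw [val_lt (Nat.succ_pos N)]; exact h0⟩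
  · have hw0 : w 0 = false := by simpa using h0
    refine ⟨Function.update w 0 true, ?_, ?_⟩
    · apply fam_of_app
      intro b
      have hne : ini (app (Function.update w 0 true) b) ≠ w := by
        rw [ini_app]
        intro e
        have := congrFun e 0
        rw [Function.update_self, hw0] at this
        exact absurd this (by decide)
      have h3 := (fam_gen_ge hq hq1 hne).2.2
      have h4 : Function.update (ini (app (Function.update w 0 true) b)) 0 false = w := by
        rw [ini_app, Function.update_idem, ← hw0, Function.update_eq_self]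
      rw [h4, famInd_self, mul_one] at h3
      have h5 := fam_term_zero f hq hq1 h (app (Function.update w 0 true) b)
      have h6 : gen q (famInd w) (app (Function.update w 0 true) b) ≠ 0 := by
        have := sub_pos.2 hq1
        intro e
        rw [e] at h3
        linarith
      exact (mul_eq_zero.1 h5).resolve_right h6
    · have := val_upd w 0 true 0
      simpa using this

/-- **positivity** -/
theorem pos (f : Fam q) (hq : 0 < q) (hq1 : q < 1) (N : ℕ) (w : W N) : 0 < f.f N w := by
  induction N with
  | zero => rw [f.one]; exact one_pos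
  | succ N ih =>
    refine lt_of_le_of_ne (f.nn _ _) fun e => ?_
    obtain ⟨w', h, h0⟩ := fam_zero_true f hq hq1 e.symm
    have hw' : con true (tai w') = w' := by
      have := con_tai w'
      rwa [h0] at this
    have key : ∀ v : W (N + 2), ini (ini v) = tai w' → f.f (N + 2) v = 0 := by
      intro v hv
      by_cases hvw : ini v = w'
      · exact fam_ini_zero f hq hq1 (by rw [hvw]; exact h)
      · have h1 := (fam_gen_ge hq hq1 hvw).2.1
        rw [psh_eq_con, hv, hw', famInd_self, mul_one] at h1
        have h2 := fam_term_zero f hq hq1 h v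
        exact (mul_eq_zero.1 h2).resolve_right (by linarith)
    have h2 : f.f N (tai w') = 0 := by
      apply fam_of_app
      intro b
      apply fam_of_app
      intro c
      apply key
      rw [ini_app, ini_app]
    exact (ih (tai w')).ne' h2

theorem Ex_f (f : Fam q) (N : ℕ) : Ex q (f.f N) = 1 := by
  induction N with
  | zero =>
    have : Ex q (f.f 0) = Ex q (fun _ : W 0 => (1 : ℝ)) := Ex_congr fun w => f.one w
    rw [this, Ex_const]
  | succ N ih =>
    have h : Ex q (f.f (N + 1)) = Ex q (f.f N) := by
      rw [Ex_app]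
      exact Ex_congr fun w => (f.cons N w).symm
    rw [h, ih]

/-- averaging the last coordinate -/
theorem Ex_ini (f : Fam q) {N : ℕ} (g : W N → ℝ) :
    Ex q (fun w : W (N + 1) => f.f (N + 1) w * g (ini w)) = Ex q (fun w => f.f N w * g w) := by
  rw [Ex_app]
  apply Ex_congr
  intro w
  rw [ini_app, ini_app, f.cons N w]
  ring

theorem u_sq (f : Fam q) (N : ℕ) (w : W N) : f.u N w ^ 2 = f.f N w := by
  unfold Fam.u
  exact Real.sq_sqrt (f.nn N w)

theorem u_pos (f : Fam q) (hq : 0 < q) (hq1 : q < 1) (N : ℕ) (w : W N) : 0 < f.u N w := by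
  unfold Fam.u
  exact Real.sqrt_pos.2 (f.pos hq hq1 N w)

theorem R_add (f : Fam q) :
    q * f.f 1 (fun _ => true) + (1 - q) * f.f 1 (fun _ => false) = 1 := by
  have h := f.cons 0 (fun _ => true)
  rw [f.one] at h
  have e : ∀ b : Bool, app (N := 0) (fun _ => true) b = fun _ => b := by
    intro b
    apply ext_val
    intro k hk
    have hk0 : k = 0 := by omega
    subst hk0
    rw [val_app_self]
    simp [val]
  rw [e true, e false] at h
  exact h.symm

/-- `R = f_1(1)` is at most `1/q`, positive, and `q R + (1-q) R_0 = 1` -/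
theorem R_le (f : Fam q) (hq : 0 < q) (hq1 : q < 1) : f.f 1 (fun _ => true) ≤ 1 / q := by
  rw [le_div_iff₀ hq]
  have h1 := f.R_add
  have h2 := mul_nonneg (sub_pos.2 hq1).le (f.nn 1 (fun _ => false))
  linarith

private theorem fam_first (f : Fam q) (N : ℕ) :
    Ex q (fun w : W (N + 1) => f.f (N + 1) w * (if val w 0 = true then 1 else 0))
      = q * f.f 1 (fun _ => true) := by
  induction N with
  | zero =>
    rw [Ex_app]
    have e : ∀ (w : W 0) (b : Bool), app w b = fun _ => b := by
      intro w b
      apply ext_val
      intro k hk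
      have hk0 : k = 0 := by omega
      subst hk0
      rw [val_app_self]
      simp [val]
    have h : ∀ w : W 0, q * (f.f (0 + 1) (app w true) *
        (if val (app w true) 0 = true then (1 : ℝ) else 0)) + (1 - q) * (f.f (0 + 1) (app w false) *
        (if val (app w false) 0 = true then (1 : ℝ) else 0)) = q * f.f 1 (fun _ => true) := by
      intro w
      rw [val_app_self, val_app_self, e w true]
      simp
    rw [Ex_congr h, Ex_const]
  | succ N ih =>
    rw [← ih, ← f.Ex_ini (N := N + 1) (fun w => if val w 0 = true then 1 else 0)]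
    apply Ex_congr
    intro w
    rw [val_ini_lt (Nat.succ_pos N)]

theorem drift_eq (f : Fam q) (N : ℕ) :
    Ex q (fun w : W (N + 1) => f.f (N + 1) w * psi q w) = f.drift := by
  have h : ∀ w : W (N + 1), f.f (N + 1) w * psi q w =
      q * f.f (N + 1) w - (1 - q) * (f.f (N + 1) w * (if val w 0 = true then 1 else 0)) := by
    intro w
    unfold psi
    split_ifs <;> ring
  rw [Ex_congr h, Ex_sub, Ex_mul_left, Ex_mul_left, fam_first]
  have h1 : Ex q (fun w : W (N + 1) => f.f (N + 1) w) = 1 := f.Ex_f (N + 1)
  rw [h1]
  unfold Fam.drift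
  ring

end Fam

end Pool.Agent.Lib.MP_4c13d6_pr
end

section

section

/-! SW-1: a Poincare inequality from a bound on the eigenvalues (finite dimensional). -/

open Finset

namespace Pool.Agent.Lib.MP_4c13d6_pr

/-- the conjugated and shifted operator. -/
private noncomputable def specL {X : Type*} [Fintype X] (s : X → ℝ)
    (T : (X → ℝ) →ₗ[ℝ] (X → ℝ)) (lam : ℝ) : (X → ℝ) →ₗ[ℝ] (X → ℝ) where
  toFun v := fun x => -(s x * T (fun y => v y / s y) x) + lam * (∑ y, s y * v y) * s x - lam * v x
  map_add' v w := by
    have h : (fun y => (v + w) y / s y) = (fun y => v y / s y) + fun y => w y / s y := by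
      funext y; simp [add_div]
    funext x
    rw [h, map_add]
    simp only [Pi.add_apply, mul_add, Finset.sum_add_distrib]
    ring
  map_smul' c v := by
    have h : (fun y => (c • v) y / s y) = c • (fun y => v y / s y) := by
      funext y; simp [mul_div_assoc]
    funext x
    rw [h, map_smul]
    have h2 : ∑ y, s y * (c • v) y = c * ∑ y, s y * v y := by
      rw [Finset.mul_sum]
      refine Finset.sum_congr rfl fun y _ => ?_
      simp only [Pi.smul_apply, smul_eq_mul]; ring
    rw [h2]
    simp only [Pi.smul_apply, smul_eq_mul, RingHom.id_apply]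
    ring

private theorem specL_apply {X : Type*} [Fintype X] (s : X → ℝ)
    (T : (X → ℝ) →ₗ[ℝ] (X → ℝ)) (lam : ℝ) (v : X → ℝ) (x : X) :
    specL s T lam v x
      = -(s x * T (fun y => v y / s y) x) + lam * (∑ y, s y * v y) * s x - lam * v x := rfl

/-- `T` is a linear operator on functions on a finite type, symmetric for the weight `p > 0`
(a probability vector), `T 1 = 0`.  If every eigenvector orthogonal to the constants has eigenvalue
`≤ -lam`, then the Poincare inequality holds with constant `lam`. -/
theorem poincare_of_eigen {X : Type*} [Fintype X] (p : X → ℝ) (hp : ∀ x, 0 < p x)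
    (hp1 : ∑ x, p x = 1) (T : (X → ℝ) →ₗ[ℝ] (X → ℝ))
    (hsym : ∀ u v : X → ℝ, ∑ x, p x * (u x * T v x) = ∑ x, p x * (T u x * v x))
    (hone : T (fun _ => 1) = 0) (lam : ℝ)
    (hev : ∀ (mu : ℝ) (u : X → ℝ), u ≠ 0 → ∑ x, p x * u x = 0 → T u = mu • u → mu ≤ -lam)
    (u : X → ℝ) :
    lam * (∑ x, p x * u x ^ 2 - (∑ x, p x * u x) ^ 2) ≤ - ∑ x, p x * (u x * T u x) := by
  classical
  obtain ⟨s, hs⟩ : ∃ s : X → ℝ, ∀ x, 0 < s x ∧ s x * s x = p x :=
    ⟨fun x => Real.sqrt (p x), fun x => ⟨Real.sqrt_pos.2 (hp x), Real.mul_self_sqrt (hp x).le⟩⟩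
  have hs0 : ∀ x, s x ≠ 0 := fun x => (hs x).1.ne'
  -- bilinear form
  have hbil : ∀ v w : X → ℝ, ∑ x, w x * specL s T lam v x
      = -(∑ x, p x * ((w x / s x) * T (fun y => v y / s y) x))
        + lam * (∑ y, s y * v y) * (∑ y, s y * w y) - lam * ∑ x, w x * v x := by
    intro v w
    simp only [specL_apply]
    rw [Finset.mul_sum (s := Finset.univ) (f := fun x => w x * v x),
      Finset.mul_sum (s := Finset.univ) (f := fun x => s x * w x), ← Finset.sum_neg_distrib,
      ← Finset.sum_add_distrib, ← Finset.sum_sub_distrib]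
    refine Finset.sum_congr rfl fun x _ => ?_
    have h1 : p x * (w x / s x * T (fun y => v y / s y) x)
        = s x * w x * T (fun y => v y / s y) x := by
      rw [← (hs x).2]; field_simp
    rw [h1]; ring
  have hbsym : ∀ v w : X → ℝ, ∑ x, w x * specL s T lam v x = ∑ x, v x * specL s T lam w x := by
    intro v w
    rw [hbil, hbil, hsym]
    have h1 : ∑ x, p x * (T (fun y => w y / s y) x * (v x / s x))
        = ∑ x, p x * ((v x / s x) * T (fun y => w y / s y) x) :=
      Finset.sum_congr rfl fun x _ => by ring
    have h2 : ∑ x, w x * v x = ∑ x, v x * w x := Finset.sum_congr rfl fun x _ => by ring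
    rw [h1, h2]; ring
  set M : Matrix X X ℝ := LinearMap.toMatrix' (specL s T lam) with hM
  have hMv : ∀ v : X → ℝ, M.mulVec v = specL s T lam v := by
    intro v
    rw [hM, LinearMap.toMatrix'_mulVec]
  have hherm : M.IsHermitian := by
    ext x y
    rw [Matrix.conjTranspose_apply, star_trivial]
    have h := hbsym (Pi.single x 1) (Pi.single y 1)
    rw [hM, LinearMap.toMatrix'_apply, LinearMap.toMatrix'_apply]
    have e1 : ∑ z, (Pi.single y (1 : ℝ) : X → ℝ) z * specL s T lam (Pi.single x 1) z
        = specL s T lam (Pi.single x 1) y := by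
      rw [Finset.sum_eq_single y]
      · simp
      · intro b _ hb; simp [Pi.single_eq_of_ne hb]
      · intro h; exact absurd (Finset.mem_univ y) h
    have e2 : ∑ z, (Pi.single x (1 : ℝ) : X → ℝ) z * specL s T lam (Pi.single y 1) z
        = specL s T lam (Pi.single y 1) x := by
      rw [Finset.sum_eq_single x]
      · simp
      · intro b _ hb; simp [Pi.single_eq_of_ne hb]
      · intro h; exact absurd (Finset.mem_univ x) h
    rw [e1, e2] at h
    have g : ∀ z : X, (fun j => if j = z then (1 : ℝ) else 0) = Pi.single z 1 := by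
      intro z; funext j; rw [Pi.single_apply]
    simpa [g] using h
  have hsone : (fun y => s y / s y) = (fun _ : X => (1 : ℝ)) := by
    funext y; exact div_self (hs0 y)
  have hss : ∑ y, s y * s y = 1 := by
    rw [← hp1]; exact Finset.sum_congr rfl fun y _ => (hs y).2
  have hLs : specL s T lam s = 0 := by
    funext x
    rw [specL_apply, hsone, hone, hss]
    simp
  have hpsd : M.PosSemidef := by
    rw [hherm.posSemidef_iff_eigenvalues_nonneg]
    intro j
    have hj := hherm.mulVec_eigenvectorBasis j
    set e : X → ℝ := ⇑(hherm.eigenvectorBasis j) with he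
    have hene : e ≠ 0 := by
      intro h0
      have h1 : ‖hherm.eigenvectorBasis j‖ = 1 := hherm.eigenvectorBasis.norm_eq_one j
      have h2 : hherm.eigenvectorBasis j = 0 := by
        ext x
        have := congrFun h0 x
        simpa [he] using this
      rw [h2, norm_zero] at h1
      exact zero_ne_one h1
    rw [hMv] at hj
    set mu := hherm.eigenvalues j with hmu
    show (0 : ℝ) ≤ mu
    -- inner product with `s`
    have h3 : ∑ x, s x * specL s T lam e x = 0 := by
      rw [hbsym e s, hLs]; simp
    rw [hj] at h3
    have h4 : mu * ∑ x, s x * e x = 0 := by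
      rw [Finset.mul_sum, ← h3]
      refine Finset.sum_congr rfl fun x _ => ?_
      simp only [Pi.smul_apply, smul_eq_mul]; ring
    rcases mul_eq_zero.1 h4 with h5 | h5
    · exact h5.ge
    · -- `e ⊥ s`
      have h6 : ∀ x, T (fun y => e y / s y) x = (-(mu + lam)) * (e x / s x) := by
        intro x
        have := congrFun hj x
        rw [specL_apply, h5] at this
        simp only [Pi.smul_apply, smul_eq_mul] at this
        have hx := hs0 x
        field_simp
        linarith
      have h7 := hev (-(mu + lam)) (fun y => e y / s y) (by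
        intro h0
        apply hene
        funext x
        have := congrFun h0 x
        simp only [Pi.zero_apply, div_eq_zero_iff] at this
        rcases this with h | h
        · simpa using h
        · exact absurd h (hs0 x)) (by
        rw [← h5]
        refine Finset.sum_congr rfl fun x _ => ?_
        rw [← (hs x).2]
        have hx := hs0 x
        field_simp) (by
        funext x
        rw [h6 x]; simp)
      linarith
  -- the quadratic form
  have hq : 0 ≤ ∑ x, (s x * u x) * specL s T lam (fun x => s x * u x) x := by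
    have h := hpsd.dotProduct_mulVec_nonneg (fun x => s x * u x)
    rw [hMv] at h
    simpa [dotProduct] using h
  rw [hbil] at hq
  have e0 : (fun y => s y * u y / s y) = u := by
    funext y; have := hs0 y; field_simp
  have e1 : ∑ x, p x * ((s x * u x / s x) * T (fun y => s y * u y / s y) x)
      = ∑ x, p x * (u x * T u x) := by
    rw [e0]
    refine Finset.sum_congr rfl fun x _ => ?_
    have h := congrFun e0 x
    change s x * u x / s x = u x at h
    rw [h]
  have e2 : ∑ y, s y * (s y * u y) = ∑ x, p x * u x :=
    Finset.sum_congr rfl fun x _ => by rw [← (hs x).2]; ring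
  have e3 : ∑ x, (s x * u x) * (s x * u x) = ∑ x, p x * u x ^ 2 :=
    Finset.sum_congr rfl fun x _ => by rw [← (hs x).2]; ring
  rw [e1, e2, e3] at hq
  nlinarith [hq]

end Pool.Agent.Lib.MP_4c13d6_pr
end

section

/-! The comparison walk: coalescing/branching random walk at its self-dual point. -/

open Finset

namespace Pool.Agent.Lib.MP_4c13d6_pr

/-- hopping and coalescence rate `η = q a / (1 + a)`, `a = 1 - q` -/
noncomputable def eta (q : ℝ) : ℝ := q * (1 - q) / (2 - q)
/-- branching rate `b = η q / a` -/
noncomputable def brr (q : ℝ) : ℝ := q ^ 2 / (2 - q)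

/-- set two coordinates -/
def upd2 {N : ℕ} (w : W N) (i j : Fin N) (s t : Bool) : W N :=
  Function.update (Function.update w i s) j t

/-- Dirichlet energy of one bond -/
noncomputable def bE (q : ℝ) {N : ℕ} (u : W N → ℝ) (i j : Fin N) (w : W N) : ℝ :=
  q * (1 - q) * eta q * (u (upd2 w i j true false) - u (upd2 w i j false true)) ^ 2
  + q ^ 2 * eta q * ((u (upd2 w i j true true) - u (upd2 w i j true false)) ^ 2
      + (u (upd2 w i j true true) - u (upd2 w i j false true)) ^ 2)

/-- Dirichlet form of the comparison walk; `τ = true`: far end open -/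
noncomputable def DS (q : ℝ) (τ : Bool) {n : ℕ} (u : W (n + 1) → ℝ) : ℝ :=
  eta q * q * Ex q (fun w => (dl u 0 w) ^ 2)
  + (if τ = true then eta q * q * Ex q (fun w => (dl u (Fin.last n) w) ^ 2) else 0)
  + ∑ i : Fin n, Ex q (fun w => bE q u i.castSucc i.succ w)

/-- generator of one bond: `10 ↔ 01` at rate `η`, `11 → 10`, `11 → 01` at rate `η`,
`10 → 11`, `01 → 11` at rate `b` -/
noncomputable def LB (q : ℝ) {N : ℕ} (i j : Fin N) (u : W N → ℝ) (w : W N) : ℝ :=
  if w i = true ∧ w j = true then
    eta q * (u (Function.update w i false) - u w) + eta q * (u (Function.update w j false) - u w)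
  else if w i = true then
    eta q * (u (upd2 w i j false true) - u w) + brr q * (u (Function.update w j true) - u w)
  else if w j = true then
    eta q * (u (upd2 w i j true false) - u w) + brr q * (u (Function.update w i true) - u w)
  else 0

/-- generator of an end: `1 → 0` at rate `η`, `0 → 1` at rate `b` -/
noncomputable def LE (q : ℝ) {N : ℕ} (i : Fin N) (u : W N → ℝ) (w : W N) : ℝ :=
  if w i = true then eta q * (u (Function.update w i false) - u w)
  else brr q * (u (Function.update w i true) - u w)

/-- generator of the comparison walk -/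
noncomputable def SG (q : ℝ) (τ : Bool) {n : ℕ} (u : W (n + 1) → ℝ) (w : W (n + 1)) : ℝ :=
  LE q 0 u w + (if τ = true then LE q (Fin.last n) u w else 0)
    + ∑ i : Fin n, LB q i.castSucc i.succ u w

end Pool.Agent.Lib.MP_4c13d6_pr
end

section

/-! SW-2: symmetry of the generator of the comparison walk and its Dirichlet form. -/

open Finset

namespace Pool.Agent.Lib.MP_4c13d6_pr

variable {q : ℝ}

section swa

variable {N : ℕ}

private lemma swa_rate : (1 - q) * brr q = q * eta q := by
  unfold brr eta
  ring

/-- one end, polarized -/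
private lemma swa_end (hq : 0 < q) (hq1 : q < 1) (i : Fin N) (u v : W N → ℝ) :
    Ex q (fun w => u w * LE q i v w) = -(eta q * q) * Ex q (fun w => dl u i w * dl v i w) := by
  rw [Ex_upd hq hq1 i, ← Ex_mul_left]
  refine Ex_congr fun w => ?_
  have h := swa_rate (q := q)
  simp only [LE, dl, Function.update_self, Function.update_idem, if_true, Bool.false_eq_true,
    if_false]
  linear_combination (u (Function.update w i false) *
    (v (Function.update w i true) - v (Function.update w i false))) * h

private lemma swa_upd2_i {i j : Fin N} (hij : i ≠ j) (w : W N) (s t : Bool) :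
    upd2 w i j s t i = s := by
  unfold upd2
  rw [Function.update_of_ne hij, Function.update_self]

private lemma swa_upd2_j {i j : Fin N} (w : W N) (s t : Bool) :
    upd2 w i j s t j = t := by
  unfold upd2
  rw [Function.update_self]

private lemma swa_upd_i {i j : Fin N} (hij : i ≠ j) (w : W N) (s t s' : Bool) :
    Function.update (upd2 w i j s t) i s' = upd2 w i j s' t := by
  unfold upd2
  rw [Function.update_comm hij s t w, Function.update_idem, Function.update_comm hij]

private lemma swa_upd_j {i j : Fin N} (w : W N) (s t t' : Bool) :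
    Function.update (upd2 w i j s t) j t' = upd2 w i j s t' := by
  unfold upd2
  rw [Function.update_idem]

private lemma swa_upd2_upd2 {i j : Fin N} (hij : i ≠ j) (w : W N) (s t s' t' : Bool) :
    upd2 (upd2 w i j s t) i j s' t' = upd2 w i j s' t' := by
  have : upd2 (upd2 w i j s t) i j s' t' =
      Function.update (Function.update (upd2 w i j s t) i s') j t' := rfl
  rw [this, swa_upd_i hij, swa_upd_j]

/-- resampling two coordinates -/
private lemma swa_Ex_upd2 (hq : 0 < q) (hq1 : q < 1) (i j : Fin N) (g : W N → ℝ) :
    Ex q g = Ex q (fun w => q * (q * g (upd2 w i j true true) +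
      (1 - q) * g (upd2 w i j true false)) +
      (1 - q) * (q * g (upd2 w i j false true) + (1 - q) * g (upd2 w i j false false))) := by
  rw [Ex_upd hq hq1 j g, Ex_upd hq hq1 i]
  rfl

/-- the polarized energy of a bond -/
private noncomputable def swaB (q : ℝ) (u v : W N → ℝ) (i j : Fin N) (w : W N) : ℝ :=
  q * (1 - q) * eta q * ((u (upd2 w i j true false) - u (upd2 w i j false true)) *
    (v (upd2 w i j true false) - v (upd2 w i j false true)))
  + q ^ 2 * eta q * ((u (upd2 w i j true true) - u (upd2 w i j true false)) *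
      (v (upd2 w i j true true) - v (upd2 w i j true false))
      + (u (upd2 w i j true true) - u (upd2 w i j false true)) *
      (v (upd2 w i j true true) - v (upd2 w i j false true)))

private lemma swa_bond (hq : 0 < q) (hq1 : q < 1) {i j : Fin N} (hij : i ≠ j) (u v : W N → ℝ) :
    Ex q (fun w => u w * LB q i j v w) = - Ex q (fun w => swaB q u v i j w) := by
  rw [swa_Ex_upd2 hq hq1 i j, ← Ex_neg]
  refine Ex_congr fun w => ?_
  have h := swa_rate (q := q)
  simp only [LB, swaB, swa_upd2_i hij, swa_upd2_j, swa_upd_i hij, swa_upd_j, swa_upd2_upd2 hij,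
    and_true, if_true, Bool.false_eq_true, and_false, if_false]
  linear_combination (q * u (upd2 w i j true false) *
      (v (upd2 w i j true true) - v (upd2 w i j true false)) +
    q * u (upd2 w i j false true) *
      (v (upd2 w i j true true) - v (upd2 w i j false true))) * h

/-- the full polarized form -/
private lemma swa_full (hq : 0 < q) (hq1 : q < 1) (τ : Bool) {n : ℕ} (u v : W (n + 1) → ℝ) :
    Ex q (fun w => u w * SG q τ v w) =
      -(eta q * q) * Ex q (fun w => dl u 0 w * dl v 0 w) +
      (if τ = true then -(eta q * q) * Ex q (fun w => dl u (Fin.last n) w * dl v (Fin.last n) w)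
        else 0) - ∑ i : Fin n, Ex q (fun w => swaB q u v i.castSucc i.succ w) := by
  have h1 : ∀ w : W (n + 1), u w * SG q τ v w = (u w * LE q 0 v w +
      (if τ = true then u w * LE q (Fin.last n) v w else 0)) +
      ∑ i : Fin n, u w * LB q i.castSucc i.succ v w := by
    intro w
    unfold SG
    rw [mul_add, mul_add, Finset.mul_sum, mul_ite, mul_zero]
  rw [Ex_congr h1, Ex_add, Ex_add, Ex_sum, swa_end hq hq1]
  have h2 : ∀ i : Fin n, Ex q (fun w => u w * LB q i.castSucc i.succ v w) =
      - Ex q (fun w => swaB q u v i.castSucc i.succ w) := fun i =>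
    swa_bond hq hq1 (Fin.castSucc_lt_succ).ne u v
  rw [Finset.sum_congr rfl fun i _ => h2 i, Finset.sum_neg_distrib, ← sub_eq_add_neg]
  congr 2
  cases τ
  · simp only [Bool.false_eq_true, if_false]
    exact Ex_const 0
  · simp only [if_true]
    exact swa_end hq hq1 _ u v

end swa

theorem SG_symm (hq : 0 < q) (hq1 : q < 1) (τ : Bool) {n : ℕ} (u v : W (n + 1) → ℝ) :
    Ex q (fun w => u w * SG q τ v w) = Ex q (fun w => SG q τ u w * v w) := by
  have h1 : Ex q (fun w => SG q τ u w * v w) = Ex q (fun w => v w * SG q τ u w) :=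
    Ex_congr fun w => mul_comm _ _
  rw [h1, swa_full hq hq1, swa_full hq hq1]
  have h2 : ∀ i : Fin (n + 1), Ex q (fun w => dl u i w * dl v i w) =
      Ex q (fun w => dl v i w * dl u i w) := fun i => Ex_congr fun w => mul_comm _ _
  have h3 : ∀ i : Fin n, Ex q (fun w => swaB q u v i.castSucc i.succ w) =
      Ex q (fun w => swaB q v u i.castSucc i.succ w) := fun i => Ex_congr fun w => by
    unfold swaB
    ring
  rw [h2, h2, Finset.sum_congr rfl fun i _ => h3 i]

theorem SG_form (hq : 0 < q) (hq1 : q < 1) (τ : Bool) {n : ℕ} (u : W (n + 1) → ℝ) :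
    - Ex q (fun w => u w * SG q τ u w) = DS q τ u := by
  rw [swa_full hq hq1]
  unfold DS
  have h2 : ∀ i : Fin (n + 1), Ex q (fun w => dl u i w * dl u i w) =
      Ex q (fun w => dl u i w ^ 2) := fun i => Ex_congr fun w => (sq _).symm
  have h3 : ∀ i : Fin n, Ex q (fun w => swaB q u u i.castSucc i.succ w) =
      Ex q (fun w => bE q u i.castSucc i.succ w) := fun i => Ex_congr fun w => by
    unfold swaB bE
    ring
  rw [h2, h2, Finset.sum_congr rfl fun i _ => h3 i]
  cases τ
  · simp only [Bool.false_eq_true, if_false]
    ring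
  · simp only [if_true]
    ring

end Pool.Agent.Lib.MP_4c13d6_pr
end

section

/-! SW-3: eigenvalues of the comparison walk (self-duality + maximum principle). -/

open Finset

namespace Pool.Agent.Lib.MP_4c13d6_pr

variable {q : ℝ}

/-- `E_B = 1[all sites of B healthy]` -/
def EB {N : ℕ} (B : Finset (Fin N)) (w : W N) : ℝ := if ∀ i ∈ B, w i = false then 1 else 0

/-! ### the functions `E_B` -/

private lemma EB_insert {N : ℕ} (B : Finset (Fin N)) (i : Fin N) (w : W N) :
    EB (insert i B) w = (if w i = false then 1 else 0) * EB B w := by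
  unfold EB
  simp only [Finset.forall_mem_insert]
  by_cases h1 : w i = false <;> by_cases h2 : ∀ k ∈ B, w k = false <;> simp [h1, h2]

private lemma EB_upd {N : ℕ} (B : Finset (Fin N)) {i : Fin N} (hi : i ∉ B) (w : W N) (s : Bool) :
    EB B (Function.update w i s) = EB B w := by
  unfold EB
  have : (∀ k ∈ B, Function.update w i s k = false) ↔ ∀ k ∈ B, w k = false := by
    constructor
    · intro h k hk
      have := h k hk
      rwa [Function.update_of_ne (by rintro rfl; exact hi hk)] at this
    · intro h k hk
      rw [Function.update_of_ne (by rintro rfl; exact hi hk)]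
      exact h k hk
  simp only [this]

/-- dual form of the end generator -/
private noncomputable def endT (q : ℝ) {N : ℕ} (i : Fin N) (x : Finset (Fin N) → ℝ)
    (B : Finset (Fin N)) : ℝ :=
  if i ∈ B then eta q * (x (B.erase i) - x B) - brr q * x B else 0

/-- dual form of the bond generator -/
private noncomputable def bdT (q : ℝ) {N : ℕ} (i j : Fin N) (x : Finset (Fin N) → ℝ)
    (B : Finset (Fin N)) : ℝ :=
  if i ∈ B then
    (if j ∈ B then 0 else
      eta q * (x (B.erase i) - x B) + (eta q + brr q) * (x (insert j B) - x B))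
  else
    (if j ∈ B then
      eta q * (x (B.erase j) - x B) + (eta q + brr q) * (x (insert i B) - x B) else 0)

private lemma LE_dual {N : ℕ} (i : Fin N) (B : Finset (Fin N)) (w : W N) :
    LE q i (EB B) w = endT q i (fun B => EB B w) B := by
  unfold LE endT
  by_cases hi : i ∈ B
  · rw [if_pos hi]
    have hB : B = insert i (B.erase i) := (Finset.insert_erase hi).symm
    have hn : i ∉ B.erase i := Finset.notMem_erase i B
    have e1 : ∀ w : W N, EB B w = (if w i = false then 1 else 0) * EB (B.erase i) w := by
      intro w; conv_lhs => rw [hB]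
      exact EB_insert _ _ _
    simp only [e1, EB_upd _ hn, Function.update_self]
    cases w i <;> simp
  · rw [if_neg hi]
    simp only [EB_upd _ hi]
    simp

private lemma LB_dual {N : ℕ} {i j : Fin N} (hij : i ≠ j) (B : Finset (Fin N)) (w : W N) :
    LB q i j (EB B) w = bdT q i j (fun B => EB B w) B := by
  unfold LB bdT upd2
  have hji : j ≠ i := hij.symm
  by_cases hi : i ∈ B
  · rw [if_pos hi]
    have hB : B = insert i (B.erase i) := (Finset.insert_erase hi).symm
    have hn : i ∉ B.erase i := Finset.notMem_erase i B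
    by_cases hj : j ∈ B
    · rw [if_pos hj]
      have hj' : j ∈ B.erase i := Finset.mem_erase.2 ⟨hji, hj⟩
      have hB' : B.erase i = insert j ((B.erase i).erase j) := (Finset.insert_erase hj').symm
      have hnj : j ∉ (B.erase i).erase j := Finset.notMem_erase j _
      have hni : i ∉ (B.erase i).erase j := fun h => hn (Finset.mem_of_mem_erase h)
      have e1 : ∀ w : W N, EB B w = (if w i = false then 1 else 0)
          * ((if w j = false then 1 else 0) * EB ((B.erase i).erase j) w) := by
        intro w
        conv_lhs => rw [hB, EB_insert, hB', EB_insert]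
      simp only [e1, EB_upd _ hni, EB_upd _ hnj, Function.update_self,
        Function.update_of_ne hij, Function.update_of_ne hji]
      cases w i <;> cases w j <;> simp
    · rw [if_neg hj]
      have hnj : j ∉ B.erase i := fun h => hj (Finset.mem_of_mem_erase h)
      have e1 : ∀ w : W N, EB B w = (if w i = false then 1 else 0) * EB (B.erase i) w := by
        intro w; conv_lhs => rw [hB]
        exact EB_insert _ _ _
      simp only [EB_insert]
      simp only [e1, EB_upd _ hn, EB_upd _ hnj, Function.update_self,
        Function.update_of_ne hij]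
      cases w i <;> cases w j <;> simp <;> ring
  · rw [if_neg hi]
    by_cases hj : j ∈ B
    · rw [if_pos hj]
      have hB : B = insert j (B.erase j) := (Finset.insert_erase hj).symm
      have hn : j ∉ B.erase j := Finset.notMem_erase j B
      have hni : i ∉ B.erase j := fun h => hi (Finset.mem_of_mem_erase h)
      have e1 : ∀ w : W N, EB B w = (if w j = false then 1 else 0) * EB (B.erase j) w := by
        intro w; conv_lhs => rw [hB]
        exact EB_insert _ _ _
      simp only [EB_insert]
      simp only [e1, EB_upd _ hn, EB_upd _ hni, Function.update_self,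
        Function.update_of_ne hji]
      cases w i <;> cases w j <;> simp <;> ring
    · rw [if_neg hj]
      simp only [EB_upd _ hi, EB_upd _ hj]
      simp

/-! ### counting -/

private lemma swb_count (g : ℕ → ℝ) (n : ℕ) : ∀ k ≤ n,
    2 * g k ≤ g 0 + g n + ∑ i ∈ range n, |g (i + 1) - g i| := by
  induction n with
  | zero => intro k hk; have : k = 0 := by omega
            subst this; simp; linarith
  | succ n ih =>
    intro k hk
    rw [Finset.sum_range_succ]
    by_cases h : k ≤ n
    · have h1 := ih k h
      have h2 := neg_abs_le (g (n + 1) - g n)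
      linarith
    · have : k = n + 1 := by omega
      subst this
      have h1 := ih n le_rfl
      have h2 := le_abs_self (g (n + 1) - g n)
      linarith

private lemma swb_count' (g : ℕ → ℝ) (n : ℕ) : ∀ k ≤ n,
    g k ≤ g 0 + ∑ i ∈ range n, |g (i + 1) - g i| := by
  intro k hk
  have h1 := swb_count g n k hk
  have h2 := swb_count g n n le_rfl
  linarith

/-! ### the maximum principle -/

private lemma swb_core (hq : 0 < q) (hq1 : q < 1) (τ : Bool) {n : ℕ}
    (mu M : ℝ) (hM : 0 < M) (x : Finset (Fin (n + 1)) → ℝ) (B : Finset (Fin (n + 1)))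
    (hB : B.Nonempty)
    (hx : ∀ B', x B' ≤ M * √(1 - q) ^ B'.card) (hxB : x B = M * √(1 - q) ^ B.card)
    (heq : mu * x B = endT q 0 x B + (if τ = true then endT q (Fin.last n) x B else 0)
      + ∑ i : Fin n, bdT q i.castSucc i.succ x B) :
    mu ≤ - ((if τ = true then 2 else 1) * lam1 q) := by
  set r := √(1 - q) with hr
  have hr0 : 0 < r := Real.sqrt_pos.2 (by linarith)
  have hr2 : r ^ 2 = 1 - q := Real.sq_sqrt (by linarith)
  have hr1 : r < 1 := by nlinarith
  set κ := q / (2 - q) with hκ
  have h2q : 0 < 2 - q := by linarith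
  have hκ0 : 0 < κ := div_pos hq h2q
  have e_eta : eta q = κ * r ^ 2 := by
    rw [hr2, hκ]; unfold eta; ring
  have e_b : brr q = κ * (1 - r ^ 2) := by
    rw [hr2, hκ]; unfold brr; ring
  have e_l : lam1 q = κ * (1 - r) ^ 2 := by
    rw [hκ]; unfold lam1; rw [← hr]; ring
  set P := M * r ^ B.card with hP
  have hP0 : 0 < P := by positivity
  have her : ∀ i ∈ B, x (B.erase i) * r ≤ P := by
    intro i hi
    have h1 := hx (B.erase i)
    have h2 : (B.erase i).card + 1 = B.card := Finset.card_erase_add_one hi
    calc x (B.erase i) * r ≤ (M * r ^ (B.erase i).card) * r :=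
          mul_le_mul_of_nonneg_right h1 hr0.le
      _ = P := by rw [hP, ← h2, pow_succ]; ring
  have hin : ∀ i, i ∉ B → x (insert i B) ≤ P * r := by
    intro i hi
    have h1 := hx (insert i B)
    rw [Finset.card_insert_of_notMem hi] at h1
    calc _ ≤ _ := h1
      _ = P * r := by rw [hP, pow_succ]; ring
  have hc0 : 0 ≤ lam1 q * P := by rw [e_l]; positivity
  -- end bound
  have hend : ∀ i, endT q i x B ≤ - (lam1 q * P) * (if i ∈ B then 1 else 0) := by
    intro i
    unfold endT
    by_cases hi : i ∈ B
    · rw [if_pos hi, if_pos hi, hxB, e_eta, e_b, e_l]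
      have h1 := her i hi
      have h2 : κ * r ^ 2 * (x (B.erase i) - P) ≤ κ * r * (P - P * r) := by
        have : κ * r ^ 2 * (x (B.erase i) - P) = κ * r * (x (B.erase i) * r - P * r) := by ring
        rw [this]
        exact mul_le_mul_of_nonneg_left (by linarith) (by positivity)
      have h3 : κ * r * (P - P * r) - κ * (1 - r ^ 2) * P + κ * (1 - r) ^ 2 * P
          = - (κ * P * (1 - r) * r) := by ring
      have h4 : 0 ≤ κ * P * (1 - r) * r := by
        have : 0 < 1 - r := by linarith
        positivity
      linarith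
    · rw [if_neg hi, if_neg hi]; simp
  have hone : ∀ i j, i ∈ B → j ∉ B →
      eta q * (x (B.erase i) - x B) + (eta q + brr q) * (x (insert j B) - x B)
        ≤ - (lam1 q * P) := by
    intro i j hi hj
    rw [hxB, e_eta, e_b, e_l]
    have h1 := her i hi
    have h1' := hin j hj
    have h2 : κ * r ^ 2 * (x (B.erase i) - P) ≤ κ * r * (P - P * r) := by
      have : κ * r ^ 2 * (x (B.erase i) - P) = κ * r * (x (B.erase i) * r - P * r) := by ring
      rw [this]
      exact mul_le_mul_of_nonneg_left (by linarith) (by positivity)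
    have h3 : (κ * r ^ 2 + κ * (1 - r ^ 2)) * (x (insert j B) - P) ≤ κ * (P * r - P) := by
      have : κ * r ^ 2 + κ * (1 - r ^ 2) = κ := by ring
      rw [this]
      exact mul_le_mul_of_nonneg_left (by linarith) hκ0.le
    have h4 : κ * r * (P - P * r) + κ * (P * r - P) = - (κ * (1 - r) ^ 2 * P) := by ring
    linarith
  have hbd : ∀ i j, bdT q i j x B
      ≤ - (lam1 q * P) * |(if j ∈ B then (1 : ℝ) else 0) - (if i ∈ B then 1 else 0)| := by
    intro i j
    unfold bdT
    by_cases hi : i ∈ B
    · by_cases hj : j ∈ B
      · simp [hi, hj]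
      · have := hone i j hi hj
        simp only [hi, hj, if_true, if_false]
        simpa using this
    · by_cases hj : j ∈ B
      · have := hone j i hj hi
        simp only [hi, hj, if_true, if_false]
        simpa using this
      · simp [hi, hj]
  -- counting
  set g : ℕ → ℝ := fun k => if h : k < n + 1 then (if (⟨k, h⟩ : Fin (n + 1)) ∈ B then 1 else 0)
    else 0 with hg
  have hgF : ∀ i : Fin (n + 1), g i = if i ∈ B then 1 else 0 := by
    intro i
    simp only [hg, i.isLt, dite_true, Fin.eta]
  obtain ⟨k0, hk0⟩ := hB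
  have hgk : g k0 = 1 := by rw [hgF, if_pos hk0]
  have hsum : ∑ i : Fin n, |(if i.succ ∈ B then (1 : ℝ) else 0) - (if i.castSucc ∈ B then 1 else 0)|
      = ∑ i ∈ range n, |g (i + 1) - g i| := by
    rw [Finset.sum_range]
    apply Finset.sum_congr rfl
    intro i _
    rw [← hgF i.succ, ← hgF i.castSucc]
    simp
  have hc1 := swb_count g n k0 (by omega)
  have hc2 := swb_count' g n k0 (by omega)
  have hg0 : g 0 = if (0 : Fin (n + 1)) ∈ B then 1 else 0 := by
    rw [← hgF 0]; simp
  have hgn : g n = if Fin.last n ∈ B then 1 else 0 := by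
    rw [← hgF (Fin.last n)]; simp
  have hS : ∑ i : Fin n, bdT q i.castSucc i.succ x B
      ≤ - (lam1 q * P) * ∑ i ∈ range n, |g (i + 1) - g i| := by
    rw [← hsum, Finset.mul_sum]
    exact Finset.sum_le_sum fun i _ => hbd _ _
  have hE0 := hend 0
  rw [← hg0] at hE0
  have hEn := hend (Fin.last n)
  rw [← hgn] at hEn
  rw [hxB] at heq
  set T := ∑ i ∈ range n, |g (i + 1) - g i| with hT
  rw [hgk] at hc1 hc2
  have key : mu * P ≤ - ((if τ = true then 2 else 1) * lam1 q) * P := by
    rw [heq]
    cases τ
    · simp only [Bool.false_eq_true, if_false, add_zero, one_mul]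
      nlinarith [mul_le_mul_of_nonneg_left hc2 hc0]
    · simp only [if_true]
      nlinarith [mul_le_mul_of_nonneg_left hc1 hc0]
  exact le_of_mul_le_mul_right key hP0

private lemma endT_neg {N : ℕ} (i : Fin N) (x : Finset (Fin N) → ℝ) (B : Finset (Fin N)) :
    endT q i (fun B => - x B) B = - endT q i x B := by
  unfold endT
  split_ifs <;> ring

private lemma bdT_neg {N : ℕ} (i j : Fin N) (x : Finset (Fin N) → ℝ) (B : Finset (Fin N)) :
    bdT q i j (fun B => - x B) B = - bdT q i j x B := by
  unfold bdT
  split_ifs <;> ring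

/-! ### the functions `E_B` span -/

private lemma swb_span (hq : 0 < q) (hq1 : q < 1) {N : ℕ} (u : W N → ℝ)
    (h : ∀ B : Finset (Fin N), Ex q (fun w => EB B w * u w) = 0) : u = 0 := by
  have key : ∀ (S : Finset (Fin N)) (w : W N), univ.filter (fun i => w i = true) = S →
      u w = 0 := by
    intro S
    induction S using Finset.strongInduction with
    | H S ih =>
      intro w0 hw0
      have h1 := h (univ.filter (fun i => w0 i = false))
      unfold Ex at h1
      beta_reduce at h1
      rw [Finset.sum_eq_single w0] at h1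
      · have h2 : EB (univ.filter (fun i => w0 i = false)) w0 = 1 := by
          unfold EB
          rw [if_pos]
          intro i hi
          exact (Finset.mem_filter.1 hi).2
        rw [h2, one_mul] at h1
        rcases mul_eq_zero.1 h1 with h3 | h3
        · exact absurd h3 (wt_pos hq hq1 w0).ne'
        · exact h3
      · intro w _ hne
        by_cases hE : ∀ i ∈ univ.filter (fun i => w0 i = false), w i = false
        · have hsub : univ.filter (fun i => w i = true) ⊆ S := by
            rw [← hw0]
            intro i hi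
            rw [Finset.mem_filter] at hi ⊢
            refine ⟨Finset.mem_univ i, ?_⟩
            by_contra hc
            have h4 : w0 i = false := by simpa using hc
            have h5 := hE i (Finset.mem_filter.2 ⟨Finset.mem_univ i, h4⟩)
            rw [h5] at hi
            exact absurd hi.2 (by simp)
          have hne' : univ.filter (fun i => w i = true) ≠ S := by
            rw [← hw0]
            intro hc
            apply hne
            funext i
            have h6 := congrArg (fun T => i ∈ T) hc
            simp only [Finset.mem_filter, Finset.mem_univ, true_and, eq_iff_iff] at h6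
            cases hwi : w i
            · cases hwi0 : w0 i
              · rfl
              · rw [hwi, hwi0] at h6; simp at h6
            · cases hwi0 : w0 i
              · rw [hwi, hwi0] at h6; simp at h6
              · rfl
          rw [ih _ (Finset.ssubset_iff_subset_ne.2 ⟨hsub, hne'⟩) w rfl]
          ring
        · unfold EB
          rw [if_neg hE]
          ring
      · intro hc; exact absurd (Finset.mem_univ _) hc
  funext w
  exact key _ w rfl

/-- every eigenvalue with an eigenvector orthogonal to the constants is `≤ -(1+τ) λ₁` -/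
theorem SG_eigen (hq : 0 < q) (hq1 : q < 1) (τ : Bool) {n : ℕ}
    (hsym : ∀ u v : W (n + 1) → ℝ,
      Ex q (fun w => u w * SG q τ v w) = Ex q (fun w => SG q τ u w * v w))
    (mu : ℝ) (u : W (n + 1) → ℝ) (hu : u ≠ 0) (h0 : Ex q u = 0)
    (he : ∀ w, SG q τ u w = mu * u w) :
    mu ≤ - ((if τ = true then 2 else 1) * lam1 q) := by
  set x : Finset (Fin (n + 1)) → ℝ := fun B => Ex q (fun w => EB B w * u w) with hx
  have hx0 : x ∅ = 0 := by
    simp only [hx]
    have : ∀ w : W (n + 1), EB (∅ : Finset (Fin (n + 1))) w * u w = u w := by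
      intro w; unfold EB; simp
    rw [Ex_congr this]
    exact h0
  have hE : ∀ (i : Fin (n + 1)) (B : Finset (Fin (n + 1))),
      Ex q (fun w => LE q i (EB B) w * u w) = endT q i x B := by
    intro i B
    by_cases hi : i ∈ B
    · have e1 : ∀ w : W (n + 1), LE q i (EB B) w * u w
          = eta q * (EB (B.erase i) w * u w - EB B w * u w) - brr q * (EB B w * u w) := by
        intro w
        rw [LE_dual]
        unfold endT
        rw [if_pos hi]
        ring
      rw [Ex_congr e1, Ex_sub, Ex_mul_left, Ex_sub, Ex_mul_left]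
      unfold endT
      rw [if_pos hi]
    · have e1 : ∀ w : W (n + 1), LE q i (EB B) w * u w = 0 := by
        intro w
        rw [LE_dual]
        unfold endT
        rw [if_neg hi]
        ring
      rw [Ex_congr e1, Ex_const]
      unfold endT
      rw [if_neg hi]
  have hL : ∀ (i j : Fin (n + 1)), i ≠ j → ∀ (B : Finset (Fin (n + 1))),
      Ex q (fun w => LB q i j (EB B) w * u w) = bdT q i j x B := by
    intro i j hij B
    have e0 : ∀ w : W (n + 1), LB q i j (EB B) w * u w
        = bdT q i j (fun B => EB B w) B * u w := by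
      intro w; rw [LB_dual hij]
    rw [Ex_congr e0]
    unfold bdT
    by_cases hi : i ∈ B
    · by_cases hj : j ∈ B
      · simp only [hi, hj, if_true, zero_mul]
        exact Ex_const 0
      · simp only [hi, hj, if_true, if_false]
        have e1 : ∀ w : W (n + 1), (eta q * (EB (B.erase i) w - EB B w)
              + (eta q + brr q) * (EB (insert j B) w - EB B w)) * u w
            = eta q * (EB (B.erase i) w * u w - EB B w * u w)
              + (eta q + brr q) * (EB (insert j B) w * u w - EB B w * u w) := by
          intro w; ring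
        rw [Ex_congr e1, Ex_add, Ex_mul_left, Ex_mul_left, Ex_sub, Ex_sub]
    · by_cases hj : j ∈ B
      · simp only [hi, hj, if_true, if_false]
        have e1 : ∀ w : W (n + 1), (eta q * (EB (B.erase j) w - EB B w)
              + (eta q + brr q) * (EB (insert i B) w - EB B w)) * u w
            = eta q * (EB (B.erase j) w * u w - EB B w * u w)
              + (eta q + brr q) * (EB (insert i B) w * u w - EB B w * u w) := by
          intro w; ring
        rw [Ex_congr e1, Ex_add, Ex_mul_left, Ex_mul_left, Ex_sub, Ex_sub]
      · simp only [hi, hj, if_false, zero_mul]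
        exact Ex_const 0
  have heq : ∀ B, mu * x B = endT q 0 x B + (if τ = true then endT q (Fin.last n) x B else 0)
      + ∑ i : Fin n, bdT q i.castSucc i.succ x B := by
    intro B
    have h1 := hsym (EB B) u
    have h2 : Ex q (fun w => EB B w * SG q τ u w) = mu * x B := by
      have : ∀ w : W (n + 1), EB B w * SG q τ u w = mu * (EB B w * u w) := by
        intro w; rw [he w]; ring
      rw [Ex_congr this, Ex_mul_left]
    rw [← h2, h1]
    have h3 : ∀ w : W (n + 1), SG q τ (EB B) w * u w
        = LE q 0 (EB B) w * u w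
          + (if τ = true then LE q (Fin.last n) (EB B) w * u w else 0)
          + ∑ i : Fin n, LB q i.castSucc i.succ (EB B) w * u w := by
      intro w
      unfold SG
      rw [add_mul, add_mul, Finset.sum_mul]
      congr 2
      split_ifs <;> simp
    rw [Ex_congr h3, Ex_add, Ex_add, Ex_sum, hE]
    congr 1
    · congr 1
      cases τ
      · simp only [Bool.false_eq_true, if_false]
        exact Ex_const 0
      · simp only [if_true]
        exact hE _ _
    · apply Finset.sum_congr rfl
      intro i _
      exact hL _ _ (by intro h; have := congrArg Fin.val h; simp at this) B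
  -- some coefficient is nonzero
  have hex : ∃ B, x B ≠ 0 := by
    by_contra hc
    push Not at hc
    exact hu (swb_span hq hq1 u hc)
  obtain ⟨B1, hB1⟩ := hex
  have hr0 : 0 < √(1 - q) := Real.sqrt_pos.2 (by linarith)
  have hB1n : B1.Nonempty := by
    rw [Finset.nonempty_iff_ne_empty]
    rintro rfl
    exact hB1 hx0
  obtain ⟨B, hBm, hBmax⟩ := Finset.exists_max_image
    (univ.filter (fun B : Finset (Fin (n + 1)) => B.Nonempty))
    (fun B => |x B| / √(1 - q) ^ B.card) ⟨B1, Finset.mem_filter.2 ⟨Finset.mem_univ _, hB1n⟩⟩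
  have hBn : B.Nonempty := (Finset.mem_filter.1 hBm).2
  set M := |x B| / √(1 - q) ^ B.card with hM
  have hM0 : 0 < M := by
    refine lt_of_lt_of_le ?_ (hBmax B1 (Finset.mem_filter.2 ⟨Finset.mem_univ _, hB1n⟩))
    exact div_pos (abs_pos.2 hB1) (by positivity)
  have hbound : ∀ B', |x B'| ≤ M * √(1 - q) ^ B'.card := by
    intro B'
    by_cases hB' : B'.Nonempty
    · have := hBmax B' (Finset.mem_filter.2 ⟨Finset.mem_univ _, hB'⟩)
      rwa [div_le_iff₀ (by positivity)] at this
    · rw [Finset.not_nonempty_iff_eq_empty] at hB'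
      subst hB'
      rw [hx0, abs_zero]
      positivity
  have hval : |x B| = M * √(1 - q) ^ B.card := by
    rw [hM, div_mul_cancel₀]
    positivity
  rcases le_total 0 (x B) with hs | hs
  · rw [abs_of_nonneg hs] at hval
    exact swb_core hq hq1 τ mu M hM0 x B hBn (fun B' => (le_abs_self _).trans (hbound B'))
      hval (heq B)
  · rw [abs_of_nonpos hs] at hval
    refine swb_core hq hq1 τ mu M hM0 (fun B => - x B) B hBn
      (fun B' => (neg_le_abs _).trans (hbound B')) hval ?_
    simp only [endT_neg, bdT_neg, Finset.sum_neg_distrib]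
    rw [mul_neg, heq B]
    cases τ <;> simp <;> ring

end Pool.Agent.Lib.MP_4c13d6_pr
end

section

/-! SW-4: Poincare inequalities for the FA-1f Dirichlet forms. -/

open Finset

namespace Pool.Agent.Lib.MP_4c13d6_pr

variable {q : ℝ}

private theorem LB_add {N : ℕ} (i j : Fin N) (u v : W N → ℝ) (w : W N) :
    LB q i j (u + v) w = LB q i j u w + LB q i j v w := by
  unfold LB
  simp only [Pi.add_apply]
  split_ifs <;> ring

private theorem LB_smul {N : ℕ} (i j : Fin N) (c : ℝ) (u : W N → ℝ) (w : W N) :
    LB q i j (c • u) w = c * LB q i j u w := by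
  unfold LB
  simp only [Pi.smul_apply, smul_eq_mul]
  split_ifs <;> ring

private theorem LE_add {N : ℕ} (i : Fin N) (u v : W N → ℝ) (w : W N) :
    LE q i (u + v) w = LE q i u w + LE q i v w := by
  unfold LE
  simp only [Pi.add_apply]
  split_ifs <;> ring

private theorem LE_smul {N : ℕ} (i : Fin N) (c : ℝ) (u : W N → ℝ) (w : W N) :
    LE q i (c • u) w = c * LE q i u w := by
  unfold LE
  simp only [Pi.smul_apply, smul_eq_mul]
  split_ifs <;> ring

private theorem SG_add (τ : Bool) {n : ℕ} (u v : W (n + 1) → ℝ) (w : W (n + 1)) :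
    SG q τ (u + v) w = SG q τ u w + SG q τ v w := by
  unfold SG
  simp only [LE_add, LB_add, Finset.sum_add_distrib]
  split_ifs <;> ring

private theorem SG_smul (τ : Bool) {n : ℕ} (c : ℝ) (u : W (n + 1) → ℝ) (w : W (n + 1)) :
    SG q τ (c • u) w = c * SG q τ u w := by
  unfold SG
  simp only [LE_smul, LB_smul, ← Finset.mul_sum]
  split_ifs <;> ring

private theorem SG_one (τ : Bool) {n : ℕ} (w : W (n + 1)) :
    SG q τ (fun _ => 1) w = 0 := by
  unfold SG LE LB
  simp

theorem poincare_DS (hq : 0 < q) (hq1 : q < 1) (τ : Bool) {n : ℕ} (u : W (n + 1) → ℝ) :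
    (if τ = true then 2 else 1) * lam1 q * Var q u ≤ DS q τ u := by
  let T : (W (n + 1) → ℝ) →ₗ[ℝ] (W (n + 1) → ℝ) :=
    { toFun := fun u => SG q τ u
      map_add' := fun u v => funext (SG_add τ u v)
      map_smul' := fun c u => funext (SG_smul τ c u) }
  have h := poincare_of_eigen (fun w : W (n + 1) => wt q w) (wt_pos hq hq1) (sum_wt q _) T
    (fun u v => SG_symm hq hq1 τ u v) (funext fun w => SG_one τ w)
    ((if τ = true then 2 else 1) * lam1 q)
    (fun mu u hu h0 he => SG_eigen hq hq1 τ (fun u v => SG_symm hq hq1 τ u v) mu u hu h0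
      (fun w => congrFun he w)) u
  have hf := SG_form hq hq1 τ u
  calc (if τ = true then 2 else 1) * lam1 q * Var q u ≤ - Ex q (fun w => u w * SG q τ u w) := h
    _ = DS q τ u := hf

private theorem eta_le (hq : 0 < q) (hq1 : q < 1) : eta q ≤ q * (1 - q) := by
  unfold eta
  rw [div_le_iff₀ (by linarith)]
  have : 0 < q * (1 - q) := mul_pos hq (by linarith)
  nlinarith

private theorem eta_mul : (hq1 : q < 1) → eta q * (2 - q) = q * (1 - q) := by
  intro hq1
  unfold eta
  rw [div_mul_cancel₀]
  linarith

private theorem eta_pos (hq : 0 < q) (hq1 : q < 1) : 0 < eta q := by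
  unfold eta
  exact div_pos (mul_pos hq (by linarith)) (by linarith)

/-- expectation with a coordinate set to infected -/
private theorem Ex_set (hq : 0 < q) (hq1 : q < 1) {N : ℕ} (i : Fin N) (g : W N → ℝ) :
    q * Ex q (fun w => g (Function.update w i true)) = Ex q (fun w => if w i = true then g w else 0) := by
  rw [Ex_upd hq hq1 i (fun w => if w i = true then g w else 0), ← Ex_mul_left]
  apply Ex_congr
  intro w
  simp

private theorem Ex_bE_le (hq : 0 < q) (hq1 : q < 1) {N : ℕ} (u : W N → ℝ) {i j : Fin N}
    (hij : i ≠ j) :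
    Ex q (fun w => bE q u i j w) ≤ q * (1 - q) * (
      Ex q (fun w => if w i = true then (dl u j w) ^ 2 else 0) +
      Ex q (fun w => if w j = true then (dl u i w) ^ 2 else 0)) := by
  rw [← Ex_set hq hq1 i (fun w => (dl u j w) ^ 2), ← Ex_set hq hq1 j (fun w => (dl u i w) ^ 2),
    ← mul_add, ← Ex_add, ← mul_assoc, ← Ex_mul_left]
  apply Ex_mono hq.le hq1.le
  intro w
  have e1 : dl u j (Function.update w i true) =
      u (upd2 w i j true true) - u (upd2 w i j true false) := rfl
  have e2 : dl u i (Function.update w j true) =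
      u (upd2 w i j true true) - u (upd2 w i j false true) := by
    unfold dl upd2
    rw [Function.update_comm hij true true w, Function.update_comm hij false true w]
  rw [e1, e2]
  unfold bE
  set A := u (upd2 w i j true true)
  set B := u (upd2 w i j true false)
  set C := u (upd2 w i j false true)
  have h1 : (B - C) ^ 2 ≤ 2 * ((A - B) ^ 2 + (A - C) ^ 2) := by nlinarith [sq_nonneg ((A - B) + (A - C))]
  have h2 := eta_mul hq1
  have h3 : 0 < q * (1 - q) * eta q := mul_pos (mul_pos hq (by linarith)) (eta_pos hq hq1)
  calc q * (1 - q) * eta q * (B - C) ^ 2 + q ^ 2 * eta q * ((A - B) ^ 2 + (A - C) ^ 2)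
      ≤ q * (1 - q) * eta q * (2 * ((A - B) ^ 2 + (A - C) ^ 2))
        + q ^ 2 * eta q * ((A - B) ^ 2 + (A - C) ^ 2) := by
        have := mul_le_mul_of_nonneg_left h1 h3.le
        linarith
    _ = q * (eta q * (2 - q)) * ((A - B) ^ 2 + (A - C) ^ 2) := by ring
    _ = q * (1 - q) * q * ((A - B) ^ 2 + (A - C) ^ 2) := by rw [h2]; ring

/-- the energies with the closed constraint -/
private noncomputable def cE (q : ℝ) {n : ℕ} (u : W (n + 1) → ℝ) (k : Fin (n + 1)) : ℝ :=
  Ex q (fun w => if cc w k then (dl u k w) ^ 2 else 0)

private theorem cE_nonneg (hq : 0 < q) (hq1 : q < 1) {n : ℕ} (u : W (n + 1) → ℝ)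
    (k : Fin (n + 1)) : 0 ≤ cE q u k := by
  apply Ex_nonneg hq.le hq1.le
  intro w
  split_ifs
  · exact sq_nonneg _
  · exact le_rfl

private theorem DS_false_le (hq : 0 < q) (hq1 : q < 1) {n : ℕ} (u : W (n + 1) → ℝ) :
    DS q false u ≤ q * (1 - q) * (2 * (∑ k, cE q u k) - cE q u (Fin.last n)) := by
  have h0 : eta q * q * Ex q (fun w => (dl u 0 w) ^ 2) ≤ q * (1 - q) * cE q u 0 := by
    have e : cE q u 0 = Ex q (fun w => (dl u 0 w) ^ 2) := by
      apply Ex_congr
      intro w
      have hc : cc w ((0 : Fin (n + 1)) : ℕ) := Or.inl rfl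
      rw [if_pos hc]
    rw [e]
    apply mul_le_mul_of_nonneg_right _ (Ex_nonneg hq.le hq1.le fun w => sq_nonneg _)
    have h1 := eta_le hq hq1
    have h2 := eta_pos hq hq1
    nlinarith
  have h1 : ∀ i : Fin n, Ex q (fun w => bE q u i.castSucc i.succ w) ≤
      q * (1 - q) * (cE q u i.succ + cE q u i.castSucc) := by
    intro i
    refine (Ex_bE_le hq hq1 u (i := i.castSucc) (j := i.succ) ?_).trans ?_
    · exact (Fin.castSucc_lt_succ).ne
    · apply mul_le_mul_of_nonneg_left _ (mul_nonneg hq.le (by linarith))
      apply add_le_add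
      · apply Ex_mono hq.le hq1.le
        intro w
        by_cases hw : w i.castSucc = true
        · have hc : cc w (i.succ : Fin (n + 1)) := by
            right; left
            have : ((i.succ : Fin (n + 1)) : ℕ) - 1 = (i.castSucc : Fin (n + 1)) := by simp
            rw [this, val_fin]
            exact hw
          rw [if_pos hw, if_pos hc]
        · rw [if_neg hw]
          split_ifs
          · exact sq_nonneg _
          · exact le_rfl
      · apply Ex_mono hq.le hq1.le
        intro w
        by_cases hw : w i.succ = true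
        · have hc : cc w (i.castSucc : Fin (n + 1)) := by
            right; right
            have : ((i.castSucc : Fin (n + 1)) : ℕ) + 1 = (i.succ : Fin (n + 1)) := by simp
            rw [this, val_fin]
            exact hw
          rw [if_pos hw, if_pos hc]
        · rw [if_neg hw]
          split_ifs
          · exact sq_nonneg _
          · exact le_rfl
  have h2 : ∑ i : Fin n, Ex q (fun w => bE q u i.castSucc i.succ w) ≤
      q * (1 - q) * ((∑ i : Fin n, cE q u i.succ) + ∑ i : Fin n, cE q u i.castSucc) := by
    rw [← Finset.sum_add_distrib, Finset.mul_sum]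
    exact Finset.sum_le_sum fun i _ => h1 i
  have h3 : (∑ k, cE q u k) = cE q u 0 + ∑ i : Fin n, cE q u i.succ := Fin.sum_univ_succ _
  have h4 : (∑ k, cE q u k) = (∑ i : Fin n, cE q u i.castSucc) + cE q u (Fin.last n) :=
    Fin.sum_univ_castSucc _
  have h5 : 2 * (∑ k, cE q u k) - cE q u (Fin.last n) =
      cE q u 0 + ((∑ i : Fin n, cE q u i.succ) + ∑ i : Fin n, cE q u i.castSucc) := by
    linarith
  rw [h5, mul_add]
  unfold DS
  simp only [Bool.false_eq_true, if_false, add_zero]
  exact add_le_add h0 h2

theorem DS_le_Dcl (hq : 0 < q) (hq1 : q < 1) {n : ℕ} (u : W (n + 1) → ℝ) :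
    DS q false u ≤ 2 * Dcl q u := by
  have h1 := DS_false_le hq hq1 u
  have h2 := cE_nonneg hq hq1 u (Fin.last n)
  have h3 : Dcl q u = q * (1 - q) * ∑ k, cE q u k := rfl
  have h4 : 0 ≤ q * (1 - q) := mul_nonneg hq.le (by linarith)
  have h5 := mul_nonneg h4 h2
  rw [h3]
  nlinarith

theorem DS_le_Dop (hq : 0 < q) (hq1 : q < 1) {n : ℕ} (u : W (n + 1) → ℝ) :
    DS q true u ≤ 2 * Dop q u := by
  have h1 := DS_false_le hq hq1 u
  have h2 := cE_nonneg hq hq1 u (Fin.last n)
  have h3 : Dcl q u = q * (1 - q) * ∑ k, cE q u k := rfl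
  have h4 : 0 ≤ q * (1 - q) := mul_nonneg hq.le (by linarith)
  set R := Ex q (fun w => if cc w n then 0 else (dl u (Fin.last n) w) ^ 2) with hR
  have hR0 : 0 ≤ R := by
    apply Ex_nonneg hq.le hq1.le
    intro w
    split_ifs
    · exact le_rfl
    · exact sq_nonneg _
  have h6 : Ex q (fun w => (dl u (Fin.last n) w) ^ 2) = cE q u (Fin.last n) + R := by
    rw [hR]
    unfold cE
    rw [← Ex_add]
    apply Ex_congr
    intro w
    simp only [Fin.val_last]
    split_ifs <;> ring
  have h7 : DS q true u = DS q false u + eta q * q * (cE q u (Fin.last n) + R) := by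
    rw [← h6]
    unfold DS
    simp only [Bool.false_eq_true, if_false, if_true]
    ring
  have h8 : eta q * q * (cE q u (Fin.last n) + R) ≤
      q * (1 - q) * q * (cE q u (Fin.last n) + R) :=
    mul_le_mul_of_nonneg_right (mul_le_mul_of_nonneg_right (eta_le hq hq1) hq.le) (by linarith)
  have h9 : q * (1 - q) * q * cE q u (Fin.last n) ≤ q * (1 - q) * cE q u (Fin.last n) := by
    apply mul_le_mul_of_nonneg_right _ h2
    nlinarith
  have h10 : 0 ≤ q * (1 - q) * q * R := mul_nonneg (mul_nonneg h4 hq.le) hR0
  have h11 : Dop q u = Dcl q u + q ^ 2 * (1 - q) * R := rfl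
  rw [h11, h3, h7]
  nlinarith

theorem poincare_closed (hq : 0 < q) (hq1 : q < 1) {N : ℕ} (u : W N → ℝ) :
    lam1 q / 2 * Var q u ≤ Dcl q u := by
  cases N with
  | zero =>
    have hu : u = fun _ => u default := by
      funext w
      congr 1
      exact Subsingleton.elim _ _
    have h1 : Var q u = 0 := by
      rw [hu]
      unfold Var
      rw [Ex_const, Ex_const]
      ring
    have h2 : Dcl q u = 0 := by
      unfold Dcl
      simp
    rw [h1, h2, mul_zero]
  | succ n =>
    have h1 := poincare_DS hq hq1 false u
    have h2 := DS_le_Dcl hq hq1 u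
    simp only [Bool.false_eq_true, if_false, one_mul] at h1
    linarith

theorem poincare_open (hq : 0 < q) (hq1 : q < 1) {n : ℕ} (u : W (n + 1) → ℝ) :
    lam1 q * Var q u ≤ Dop q u := by
  have h1 := poincare_DS hq hq1 true u
  have h2 := DS_le_Dop hq hq1 u
  simp only [if_true] at h1
  linarith

end Pool.Agent.Lib.MP_4c13d6_pr
end
end
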