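import Pool.Agent.Lib.MP_4c13d6_pr.LDefs
import Pool.Agent.Lib.MP_4c13d6_pr.EntA
import Pool.Agent.Lib.MP_4c13d6_pr.SWalkC
import Pool.Agent.Lib.MP_4c13d6_pr.EnergyL

section

/-! LS-1: entropy versus variance. -/

open Finset

namespace Pool.Agent.Lib.MP_4c13d6_pr

theorem sq_log_sq_le (r L : ℝ) (hr : 0 < r) (hL : 0 ≤ L) (h : Real.log r ≤ L) :
    r ^ 2 * Real.log (r ^ 2) - r ^ 2 + 1 ≤ (r - 1) ^ 2 * (2 + 2 * L) := by
  have h2 : Real.log (r ^ 2) = 2 * Real.log r := by
    rw [Real.log_pow]
    norm_num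
  rw [h2]
  rcases le_total r 1 with h1 | h1
  · -- `log (1/r) ≥ (1/r - 1) - (1/r - 1)^2/2`
    have hx : 0 ≤ 1 / r - 1 := by
      rw [sub_nonneg, le_div_iff₀ hr]
      linarith
    have h3 := Real.le_log_one_add_of_nonneg hx
    have h4 : Real.log (1 + (1 / r - 1)) = - Real.log r := by
      rw [add_sub_cancel, one_div, Real.log_inv]
    rw [h4] at h3
    have h5 : 2 * (1 / r - 1) / (1 / r - 1 + 2) = 2 * (1 - r) / (1 + r) := by
      field_simp
      ring
    rw [h5, div_le_iff₀ (by linarith)] at h3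
    -- `2 (1 - r) ≤ - log r * (1 + r)`
    have h6 : 2 * r ^ 2 * Real.log r ≤ (3 * r - 1) * (r - 1) := by
      have h7 : (1 + r) * (2 * r ^ 2 * Real.log r) ≤ (1 + r) * ((3 * r - 1) * (r - 1)) := by
        have h8 : 2 * r ^ 2 * (2 * (1 - r)) ≤ 2 * r ^ 2 * (-Real.log r * (1 + r)) := by
          gcongr
        nlinarith [pow_nonneg (sub_nonneg.2 h1) 3]
      exact le_of_mul_le_mul_left h7 (by linarith)
    have h9 : 0 ≤ (r - 1) ^ 2 * (2 * L) := by positivity
    nlinarith
  · have hl0 : 0 ≤ Real.log r := Real.log_nonneg h1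
    have h3 : Real.log r ≤ (r - r⁻¹) / 2 := by
      rw [← Real.sinh_log hr]
      exact Real.self_le_sinh_iff.2 hl0
    have h4 : 2 * (2 * r - 1) * Real.log r ≤ (3 * r - 1) * (r - 1) := by
      have h5 : 2 * (2 * r - 1) * Real.log r ≤ 2 * (2 * r - 1) * ((r - r⁻¹) / 2) := by
        apply mul_le_mul_of_nonneg_left h3
        linarith
      refine h5.trans ?_
      have h6 : 2 * (2 * r - 1) * ((r - r⁻¹) / 2) = (2 * r - 1) * (r ^ 2 - 1) / r := by
        field_simp
      rw [h6, div_le_iff₀ hr]
      nlinarith [mul_nonneg (sub_nonneg.2 h1) (sq_nonneg (r - 1))]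
    have h7 : 0 ≤ (r - 1) ^ 2 * (L - Real.log r) := mul_nonneg (sq_nonneg _) (by linarith)
    nlinarith

theorem Ent_sq_le_Vr {X : Type*} [Fintype X] (p : X → ℝ) (hp : IsProb p) (c : ℝ) (hc : 0 < c)
    (hc1 : c ≤ 1) (hpc : ∀ x, p x ≠ 0 → c ≤ p x) (g : X → ℝ) (hg : ∀ x, 0 < g x) :
    Ent p (fun x => g x ^ 2) ≤ 2 * (2 + Real.log (1 / c)) * Vr p g := by
  obtain ⟨hp0, hp1⟩ := hp
  set S : ℝ := ∑ x, p x * g x ^ 2 with hS
  have hSpos : 0 < S := by
    obtain ⟨x, -, hx⟩ : ∃ x ∈ Finset.univ, p x ≠ 0 := by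
      apply Finset.exists_ne_zero_of_sum_ne_zero
      rw [hp1]
      exact one_ne_zero
    have h1 : p x * g x ^ 2 ≤ S :=
      Finset.single_le_sum (f := fun x => p x * g x ^ 2)
        (fun y _ => mul_nonneg (hp0 y) (sq_nonneg _)) (Finset.mem_univ x)
    have h2 : 0 < p x * g x ^ 2 :=
      mul_pos (lt_of_le_of_ne (hp0 x) (Ne.symm hx)) (pow_pos (hg x) 2)
    linarith
  obtain ⟨R, hR, hRS⟩ : ∃ R : ℝ, 0 < R ∧ R ^ 2 = S :=
    ⟨Real.sqrt S, Real.sqrt_pos.2 hSpos, Real.sq_sqrt hSpos.le⟩
  let h : X → ℝ := fun x => g x / R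
  have hh : ∀ x, 0 < h x := fun x => div_pos (hg x) hR
  have hgh : ∀ x, g x = R * h x := fun x => by
    simp only [h]
    field_simp
  have hsum2 : ∑ x, p x * h x ^ 2 = 1 := by
    have h1 : S = R ^ 2 * ∑ x, p x * h x ^ 2 := by
      rw [hS, Finset.mul_sum]
      refine Finset.sum_congr rfl fun x _ => ?_
      rw [hgh x]
      ring
    rw [hRS] at h1
    have h2 : S * (∑ x, p x * h x ^ 2) = S * 1 := by rw [← h1, mul_one]
    exact mul_left_cancel₀ hSpos.ne' h2
  set m : ℝ := ∑ x, p x * h x with hm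
  have hm0 : 0 ≤ m := Finset.sum_nonneg fun x _ => mul_nonneg (hp0 x) (hh x).le
  have hsq : ∀ c : ℝ, ∑ x, p x * (h x - c) ^ 2 = 1 - 2 * c * m + c ^ 2 := by
    intro c
    have h1 : ∀ x, p x * (h x - c) ^ 2 = p x * h x ^ 2 - 2 * c * (p x * h x) + c ^ 2 * p x := by
      intro x
      ring
    simp only [h1]
    rw [Finset.sum_add_distrib, Finset.sum_sub_distrib, ← Finset.mul_sum, ← Finset.mul_sum,
      hsum2, hp1, ← hm]
    ring
  have hm1 : m ^ 2 ≤ 1 := by
    have h1 := hsq m
    have h2 : 0 ≤ ∑ x, p x * (h x - m) ^ 2 :=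
      Finset.sum_nonneg fun x _ => mul_nonneg (hp0 x) (sq_nonneg _)
    nlinarith
  have hm1' : m ≤ 1 := by nlinarith
  -- the entropy
  have hEnt : Ent p (fun x => g x ^ 2) = S * ∑ x, p x * (h x ^ 2 * Real.log (h x ^ 2)) := by
    unfold Ent
    rw [← hS]
    have h1 : ∀ x, p x * (g x ^ 2 * Real.log (g x ^ 2)) =
        S * (p x * (h x ^ 2 * Real.log (h x ^ 2))) + S * Real.log S * (p x * h x ^ 2) := by
      intro x
      have h2 : g x ^ 2 = S * h x ^ 2 := by
        rw [hgh x, mul_pow, hRS]
      rw [h2, Real.log_mul hSpos.ne' (pow_pos (hh x) 2).ne']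
      ring
    simp only [h1]
    rw [Finset.sum_add_distrib, ← Finset.mul_sum, ← Finset.mul_sum, hsum2]
    ring
  have hVr : Vr p g = S * (1 - m ^ 2) := by
    unfold Vr
    rw [← hS]
    have h1 : ∑ x, p x * g x = R * m := by
      rw [hm, Finset.mul_sum]
      refine Finset.sum_congr rfl fun x _ => ?_
      rw [hgh x]
      ring
    rw [h1, ← hRS]
    ring
  have hL0 : 0 ≤ Real.log (1 / c) := by
    apply Real.log_nonneg
    rw [le_div_iff₀ hc]
    linarith
  have hmain : ∑ x, p x * (h x ^ 2 * Real.log (h x ^ 2)) ≤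
      (2 + Real.log (1 / c)) * (2 - 2 * m) := by
    have h1 : ∑ x, p x * (h x ^ 2 * Real.log (h x ^ 2)) =
        ∑ x, p x * (h x ^ 2 * Real.log (h x ^ 2) - h x ^ 2 + 1) := by
      have h2 : ∀ x, p x * (h x ^ 2 * Real.log (h x ^ 2) - h x ^ 2 + 1) =
          p x * (h x ^ 2 * Real.log (h x ^ 2)) - p x * h x ^ 2 + p x := by
        intro x
        ring
      simp only [h2]
      rw [Finset.sum_add_distrib, Finset.sum_sub_distrib, hsum2, hp1]
      ring
    have h3 : ∑ x, p x * (h x ^ 2 * Real.log (h x ^ 2) - h x ^ 2 + 1) ≤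
        ∑ x, p x * ((h x - 1) ^ 2 * (2 + 2 * (Real.log (1 / c) / 2))) := by
      refine Finset.sum_le_sum fun x _ => ?_
      rcases eq_or_ne (p x) 0 with h0 | h0
      · rw [h0, zero_mul, zero_mul]
      · apply mul_le_mul_of_nonneg_left _ (hp0 x)
        apply sq_log_sq_le _ _ (hh x) (by linarith)
        -- `h x ≤ sqrt (1/c)`
        have h4 : c * h x ^ 2 ≤ 1 := by
          have h5 : p x * h x ^ 2 ≤ 1 := by
            rw [← hsum2]
            exact Finset.single_le_sum (f := fun x => p x * h x ^ 2)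
              (fun y _ => mul_nonneg (hp0 y) (sq_nonneg _)) (Finset.mem_univ x)
          have h6 : c * h x ^ 2 ≤ p x * h x ^ 2 :=
            mul_le_mul_of_nonneg_right (hpc x h0) (sq_nonneg _)
          linarith
        have h7 : Real.log (h x ^ 2) ≤ Real.log (1 / c) := by
          apply Real.log_le_log (pow_pos (hh x) 2)
          rw [le_div_iff₀ hc]
          linarith
        rw [Real.log_pow] at h7
        push_cast at h7
        linarith
    rw [h1]
    refine h3.trans (le_of_eq ?_)
    have h8 : ∀ x, p x * ((h x - 1) ^ 2 * (2 + 2 * (Real.log (1 / c) / 2))) =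
        (2 + Real.log (1 / c)) * (p x * (h x - 1) ^ 2) := by
      intro x
      ring
    simp only [h8]
    rw [← Finset.mul_sum, hsq 1]
    ring
  rw [hEnt, hVr]
  have h9 : (2 + Real.log (1 / c)) * (2 - 2 * m) ≤
      (2 + Real.log (1 / c)) * (2 * (1 - m ^ 2)) := by
    apply mul_le_mul_of_nonneg_left _ (by linarith)
    nlinarith
  calc S * ∑ x, p x * (h x ^ 2 * Real.log (h x ^ 2))
      ≤ S * ((2 + Real.log (1 / c)) * (2 * (1 - m ^ 2))) :=
        mul_le_mul_of_nonneg_left (hmain.trans h9) hSpos.le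
    _ = 2 * (2 + Real.log (1 / c)) * (S * (1 - m ^ 2)) := by ring

/-- the variance is at most the second moment around any point -/
theorem Vr_le {X : Type*} [Fintype X] (p : X → ℝ) (hp : IsProb p) (f : X → ℝ) (c : ℝ) :
    Vr p f ≤ ∑ x, p x * (f x - c) ^ 2 := by
  have h1 : ∀ x, p x * (f x - c) ^ 2 = p x * f x ^ 2 - 2 * c * (p x * f x) + c ^ 2 * p x := by
    intro x
    ring
  simp only [h1]
  rw [Finset.sum_add_distrib, Finset.sum_sub_distrib, ← Finset.mul_sum, ← Finset.mul_sum, hp.2]
  unfold Vr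
  nlinarith [sq_nonneg (∑ x, p x * f x - c)]

end Pool.Agent.Lib.MP_4c13d6_pr
end

section

/-! LS-2: log-Sobolev inequalities for products. -/

open Finset

namespace Pool.Agent.Lib.MP_4c13d6_pr

private theorem lsb_sum_pos {X : Type*} [Fintype X] (p f : X → ℝ) (hp : IsProb p)
    (hf : ∀ x, 0 < f x) : 0 < ∑ x, p x * f x := by
  have h0 : ∀ x ∈ univ, 0 ≤ p x * f x := fun x _ => mul_nonneg (hp.1 x) (hf x).le
  rcases (sum_nonneg h0).eq_or_lt with h | h
  · exfalso
    have h1 := (sum_eq_zero_iff_of_nonneg h0).1 h.symm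
    have h2 : ∑ x, p x = 0 := sum_eq_zero fun x hx => by
      have := h1 x hx
      exact (mul_eq_zero.1 this).resolve_right (hf x).ne'
    rw [hp.2] at h2
    exact one_ne_zero h2
  · exact h

private theorem lsb_log_sum {X : Type*} [Fintype X] (p x y : X → ℝ) (hp : IsProb p)
    (hx : ∀ i, 0 < x i) (hy : ∀ i, 0 < y i) :
    (∑ i, p i * x i) * Real.log ((∑ i, p i * x i) / (∑ i, p i * y i))
      ≤ ∑ i, p i * (x i * Real.log (x i / y i)) := by
  classical
  have hf : ∀ u : X → ℝ, ∑ i, p i * u i = ∑ i ∈ univ.filter (fun i => 0 < p i), p i * u i := by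
    intro u
    rw [sum_filter]
    refine sum_congr rfl fun i _ => ?_
    split_ifs with h
    · rfl
    · have : p i = 0 := le_antisymm (not_lt.1 h) (hp.1 i)
      rw [this, zero_mul]
  rw [hf x, hf y, hf (fun i => x i * Real.log (x i / y i))]
  refine log_sum _ p x y (fun i hi => (mem_filter.1 hi).2) (fun i _ => hx i) (fun i _ => hy i) ?_
  rw [filter_nonempty_iff]
  by_contra hcon
  push Not at hcon
  have h2 : ∑ i, p i ≤ 0 := sum_nonpos fun i hi => hcon i hi
  rw [hp.2] at h2
  linarith

private theorem lsb_conv {X Y : Type*} [Fintype X] [Fintype Y] (p : X → ℝ) (r : Y → ℝ)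
    (hp : IsProb p) (hr : IsProb r) (f : X → Y → ℝ) (hf : ∀ x y, 0 < f x y) :
    Ent r (fun y => ∑ x, p x * f x y) ≤ ∑ x, p x * Ent r (f x) := by
  have hM : ∀ x, 0 < ∑ y, r y * f x y := fun x => lsb_sum_pos r (f x) hr (hf x)
  have hF : ∀ y, 0 < ∑ x, p x * f x y := fun y => lsb_sum_pos p (fun x => f x y) hp
    fun x => hf x y
  have hMM : 0 < ∑ x, p x * ∑ y, r y * f x y := lsb_sum_pos p _ hp hM
  have hswap : ∑ y, r y * ∑ x, p x * f x y = ∑ x, p x * ∑ y, r y * f x y := by
    simp only [mul_sum]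
    rw [sum_comm]
    exact sum_congr rfl fun x _ => sum_congr rfl fun y _ => by ring
  have key : ∀ y, r y * ((∑ x, p x * f x y) * Real.log (∑ x, p x * f x y) -
      (∑ x, p x * f x y) * Real.log (∑ x, p x * ∑ y, r y * f x y)) ≤
      r y * ∑ x, p x * (f x y * Real.log (f x y) - f x y * Real.log (∑ y, r y * f x y)) := by
    intro y
    refine mul_le_mul_of_nonneg_left ?_ (hr.1 y)
    have h1 := lsb_log_sum p (fun x => f x y) (fun x => ∑ y, r y * f x y) hp (fun x => hf x y) hM
    rw [Real.log_div (hF y).ne' hMM.ne'] at h1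
    have h2 : ∑ x, p x * (f x y * Real.log (f x y) - f x y * Real.log (∑ y, r y * f x y)) =
        ∑ x, p x * (f x y * Real.log (f x y / ∑ y, r y * f x y)) :=
      sum_congr rfl fun x _ => by rw [Real.log_div (hf x y).ne' (hM x).ne']; ring
    rw [h2]
    linarith
  have h1 := sum_le_sum fun y (_ : y ∈ (univ : Finset Y)) => key y
  have h2 : ∑ y, r y * ((∑ x, p x * f x y) * Real.log (∑ x, p x * f x y) -
      (∑ x, p x * f x y) * Real.log (∑ x, p x * ∑ y, r y * f x y)) =
      Ent r (fun y => ∑ x, p x * f x y) := by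
    rw [Ent, hswap]
    simp only [mul_sub, sum_sub_distrib]
    congr 1
    rw [← hswap, sum_mul]
    exact sum_congr rfl fun y _ => by ring
  have h3 : ∑ y, r y * ∑ x, p x * (f x y * Real.log (f x y) -
      f x y * Real.log (∑ y, r y * f x y)) = ∑ x, p x * Ent r (f x) := by
    have e1 : ∀ x, Ent r (f x) = ∑ y, r y * (f x y * Real.log (f x y) -
        f x y * Real.log (∑ y, r y * f x y)) := by
      intro x
      rw [Ent]
      simp only [mul_sub, sum_sub_distrib]
      congr 1
      rw [sum_mul]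
      exact sum_congr rfl fun y _ => by ring
    simp only [e1, mul_sum (s := (univ : Finset X)), mul_sum (s := (univ : Finset Y))]
    rw [sum_comm]
    exact sum_congr rfl fun x _ => sum_congr rfl fun y _ => by ring
  rw [h2, h3] at h1
  exact h1

theorem LSI_prod {X Y : Type*} [Fintype X] [Fintype Y] (p : X → ℝ) (r : Y → ℝ) (hp : IsProb p)
    (hr : IsProb r) (DX : (X → ℝ) → ℝ) (DY : (Y → ℝ) → ℝ) (C : ℝ) (hX : LSI p DX C)
    (hY : LSI r DY C) :
    LSI (fun z : X × Y => p z.1 * r z.2)
      (fun g => ∑ y, r y * DX (fun x => g (x, y)) + ∑ x, p x * DY (fun y => g (x, y))) C := by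
  intro g hg
  have h1 : Ent (fun z : X × Y => p z.1 * r z.2) (fun z => g z ^ 2) =
      ∑ y, r y * Ent p (fun x => g (x, y) ^ 2) +
        Ent r (fun y => ∑ x, p x * g (x, y) ^ 2) := by
    simp only [Ent]
    rw [Fintype.sum_prod_type_right, Fintype.sum_prod_type_right]
    have e1 : ∀ (u : X → Y → ℝ), ∑ y, ∑ x, p x * r y * u x y = ∑ y, r y * ∑ x, p x * u x y := by
      intro u
      refine sum_congr rfl fun y _ => ?_
      rw [mul_sum]
      exact sum_congr rfl fun x _ => by ring
    rw [e1 (fun x y => g (x, y) ^ 2 * Real.log (g (x, y) ^ 2)), e1 (fun x y => g (x, y) ^ 2)]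
    simp only [mul_sub, sum_sub_distrib]
    ring
  have h2 : ∑ y, r y * Ent p (fun x => g (x, y) ^ 2) ≤ C * ∑ y, r y * DX (fun x => g (x, y)) := by
    rw [mul_sum]
    refine sum_le_sum fun y _ => ?_
    have := mul_le_mul_of_nonneg_left (hX (fun x => g (x, y)) fun x => hg _) (hr.1 y)
    calc _ ≤ _ := this
      _ = _ := by ring
  have h3 : Ent r (fun y => ∑ x, p x * g (x, y) ^ 2) ≤
      C * ∑ x, p x * DY (fun y => g (x, y)) := by
    refine (lsb_conv p r hp hr (fun x y => g (x, y) ^ 2) fun x y => pow_pos (hg _) 2).trans ?_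
    rw [mul_sum]
    refine sum_le_sum fun x _ => ?_
    have := mul_le_mul_of_nonneg_left (hY (fun y => g (x, y)) fun y => hg _) (hp.1 x)
    calc _ ≤ _ := this
      _ = _ := by ring
  rw [h1, mul_add]
  exact add_le_add h2 h3

end Pool.Agent.Lib.MP_4c13d6_pr
end

section

/-! LS-3: Poincare inequality in a nonempty block with healthy boundaries. -/

open Finset

namespace Pool.Agent.Lib.MP_4c13d6_pr

variable {q : ℝ}

/-- energy of a block with healthy boundaries under the product measure -/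
noncomputable def Eb (q : ℝ) {l : ℕ} (f : W l → ℝ) : ℝ :=
  ∑ i : Fin l, Ex q (fun w => if kc false false w (i : ℕ) then (dl f i w) ^ 2 else 0)

theorem Eb_nonneg (hq : 0 < q) (hq1 : q < 1) {l : ℕ} (f : W l → ℝ) : 0 ≤ Eb q f := by
  refine Finset.sum_nonneg fun i _ => Ex_nonneg hq.le hq1.le fun w => ?_
  split_ifs
  · exact sq_nonneg _
  · exact le_rfl

private theorem bp_ev {m : ℕ} (w : W m) (k : ℤ) :
    ev false false w k = true ↔ 0 ≤ k ∧ val w k.toNat = true := by
  unfold ev
  split_ifs with h1 h2 h3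
  · constructor
    · intro h; exact absurd h (by simp)
    · rintro ⟨h, -⟩; omega
  · constructor
    · intro h; exact absurd h (by simp)
    · rintro ⟨-, h⟩
      rw [h2, Int.toNat_natCast, val_ge le_rfl] at h
      exact absurd h (by simp)
  · simp [h3]
  · simp [h3]

private theorem bp_kc {m : ℕ} (w : W m) (i : ℕ) :
    kc false false w (i : ℕ) ↔ (1 ≤ i ∧ val w (i - 1) = true) ∨ val w (i + 1) = true := by
  unfold kc
  rw [bp_ev, bp_ev]
  have e1 : ((i : ℤ) - 1).toNat = i - 1 := by omega
  have e2 : ((i : ℤ) + 1).toNat = i + 1 := by omega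
  rw [e1, e2]
  constructor
  · rintro (⟨h1, h2⟩ | ⟨h1, h2⟩)
    · exact Or.inl ⟨by omega, h2⟩
    · exact Or.inr h2
  · rintro (⟨h1, h2⟩ | h2)
    · exact Or.inl ⟨by omega, h2⟩
    · exact Or.inr ⟨by omega, h2⟩

private theorem bp_kc_true {m : ℕ} (v : W m) (i : ℕ) :
    kc false false (con true v) ((i + 1 : ℕ) : ℕ) ↔ cc v i := by
  rw [bp_kc, val_con_succ]
  unfold cc
  simp only [Nat.add_sub_cancel, Nat.le_add_left, true_and]
  cases i with
  | zero => simp
  | succ i =>
    rw [val_con_succ]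
    simp

private theorem bp_kc_false {m : ℕ} (v : W m) (i : ℕ) :
    kc false false (con false v) ((i + 1 : ℕ) : ℕ) ↔ kc false false v i := by
  rw [bp_kc, bp_kc, val_con_succ]
  simp only [Nat.add_sub_cancel, Nat.le_add_left, true_and]
  cases i with
  | zero => simp
  | succ i =>
    rw [val_con_succ]
    simp

private theorem bp_upd_succ {m : ℕ} (b c : Bool) (v : W m) (i : Fin m) :
    Function.update (con b v) i.succ c = con b (Function.update v i c) :=
  (Fin.cons_update (α := fun _ => Bool) b v i c).symm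

private theorem bp_upd_zero {m : ℕ} (b c : Bool) (v : W m) :
    Function.update (con b v) 0 c = con c v :=
  Fin.update_cons_zero (α := fun _ => Bool) b v c

private theorem bp_dl_succ {m : ℕ} (f : W (m + 1) → ℝ) (b : Bool) (v : W m) (i : Fin m) :
    dl f i.succ (con b v) = dl (fun u => f (con b u)) i v := by
  unfold dl
  rw [bp_upd_succ, bp_upd_succ]

private theorem bp_dl_zero {m : ℕ} (f : W (m + 1) → ℝ) (b : Bool) (v : W m) :
    dl f 0 (con b v) = f (con true v) - f (con false v) := by
  unfold dl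
  rw [bp_upd_zero, bp_upd_zero]

/-- decomposition of the energy according to the first site -/
theorem Eb_split (hq : 0 < q) (hq1 : q < 1) {l : ℕ} (f : W (l + 2) → ℝ) :
    q * ∑ i : Fin (l + 1), Ex q (fun w : W (l + 1) =>
        if cc w i then (dl (fun v => f (con true v)) i w) ^ 2 else 0)
      + (1 - q) * Eb q (fun v : W (l + 1) => f (con false v))
      + q * Ex q (fun v : W l => (f (con true (con true v)) - f (con false (con true v))) ^ 2)
      ≤ Eb q f := by
  apply le_of_eq
  symm
  unfold Eb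
  rw [Fin.sum_univ_succ]
  have h0 : Ex q (fun w : W (l + 2) => if kc false false w ((0 : Fin (l + 2)) : ℕ) then
      (dl f 0 w) ^ 2 else 0)
      = q * Ex q (fun v : W l => (f (con true (con true v)) - f (con false (con true v))) ^ 2) := by
    rw [Ex_con]
    have e1 : ∀ (b : Bool) (v : W (l + 1)), (if kc false false (con b v) ((0 : Fin (l + 2)) : ℕ) then
        (dl f 0 (con b v)) ^ 2 else 0)
        = if val v 0 = true then (f (con true v) - f (con false v)) ^ 2 else 0 := by
      intro b v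
      rw [bp_dl_zero]
      have : kc false false (con b v) ((0 : Fin (l + 2)) : ℕ) ↔ val v 0 = true := by
        rw [bp_kc]
        simp
      simp only [this]
    rw [Ex_congr (h := fun v : W (l + 1) =>
      if val v 0 = true then (f (con true v) - f (con false v)) ^ 2 else 0) (by
        intro v; rw [e1, e1]; ring), Ex_con, ← Ex_mul_left]
    apply Ex_congr
    intro v
    simp
  have h1 : ∀ i : Fin (l + 1), Ex q (fun w : W (l + 2) => if kc false false w (i.succ : ℕ) then
      (dl f i.succ w) ^ 2 else 0)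
      = q * Ex q (fun w : W (l + 1) => if cc w i then (dl (fun v => f (con true v)) i w) ^ 2 else 0)
        + (1 - q) * Ex q (fun w : W (l + 1) => if kc false false w (i : ℕ) then
          (dl (fun v => f (con false v)) i w) ^ 2 else 0) := by
    intro i
    rw [Ex_con, Ex_add, Ex_mul_left, Ex_mul_left]
    congr 2
    · apply Ex_congr
      intro v
      rw [bp_dl_succ, Fin.val_succ]
      simp only [bp_kc_true]
    · apply Ex_congr
      intro v
      rw [bp_dl_succ, Fin.val_succ]
      simp only [bp_kc_false]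
  rw [h0, Finset.sum_congr rfl (fun i _ => h1 i), Finset.sum_add_distrib, ← Finset.mul_sum,
    ← Finset.mul_sum]
  ring

private theorem bp_ne_true {m : ℕ} (v : W m) : ∃ i, con true v i = true :=
  ⟨0, by
    have := val_con_zero v true
    rwa [val_lt (Nat.succ_pos m)] at this⟩

private theorem bp_ne_false {m : ℕ} (v : W m) : (∃ i, con false v i = true) ↔ ∃ i, v i = true := by
  constructor
  · rintro ⟨i, hi⟩
    rw [← val_fin (con false v) i] at hi
    obtain ⟨i, hi2⟩ := i
    cases i with
    | zero => simp at hi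
    | succ i =>
      simp only [val_con_succ] at hi
      have h : i < m := by omega
      exact ⟨⟨i, h⟩, by rw [val_lt h] at hi; exact hi⟩
  · rintro ⟨i, hi⟩
    refine ⟨i.succ, ?_⟩
    exact hi

private theorem lam1_pos' (hq : 0 < q) (hq1 : q < 1) : 0 < lam1 q := by
  unfold lam1
  have h1 : √(1 - q) < 1 := by
    rw [Real.sqrt_lt' one_pos]
    linarith
  have h2 : 0 < (1 - √(1 - q)) ^ 2 := by
    have : 0 < 1 - √(1 - q) := by linarith
    positivity
  exact div_pos (mul_pos hq h2) (by linarith)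

private theorem bp_sq (hq : 0 < q) (hq1 : q < 1) {m : ℕ} (X : W m → ℝ) :
    (Ex q X) ^ 2 ≤ Ex q (fun v => X v ^ 2) := by
  have := Var_nonneg hq.le hq1.le X
  unfold Var at this
  linarith

private theorem bp_step (hq : 0 < q) (hq1 : q < 1) {C : ℝ}
    (hC : C = 2 * q * (1 - q) / lam1 q + 2 * (1 - q) / q + 1) {l : ℕ}
    (ih : ∀ f : W (l + 1) → ℝ, Ex q (fun w => if ∃ i, w i = true then
        (f w - Ex q (fun v : W l => f (con true v))) ^ 2 else 0) ≤ C * (l + 1) ^ 2 * Eb q f)
    (f : W (l + 2) → ℝ) :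
    Ex q (fun w => if ∃ i, w i = true then
        (f w - Ex q (fun v : W (l + 1) => f (con true v))) ^ 2 else 0)
      ≤ C * (l + 2) ^ 2 * Eb q f := by
  have ha : 0 < 1 - q := by linarith
  have hlam := lam1_pos' hq hq1
  set f1 : W (l + 1) → ℝ := fun v => f (con true v) with hf1
  set f0 : W (l + 1) → ℝ := fun v => f (con false v) with hf0
  set g0 : ℝ := Ex q f1 with hg0
  set g1 : ℝ := Ex q (fun v : W l => f0 (con true v)) with hg1
  set E1 : ℝ := q * ∑ i : Fin (l + 1), Ex q (fun w : W (l + 1) =>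
        if cc w i then (dl f1 i w) ^ 2 else 0) with hE1
  set Es : ℝ := q * Ex q (fun v : W l => (f (con true (con true v)) - f (con false (con true v))) ^ 2)
    with hEs
  have hsplit : E1 + (1 - q) * Eb q f0 + Es ≤ Eb q f := Eb_split hq hq1 f
  have hEb0 : 0 ≤ Eb q f0 := Eb_nonneg hq hq1 f0
  have hE1n : ∀ i : Fin (l + 1), 0 ≤ Ex q (fun w : W (l + 1) =>
        if cc w i then (dl f1 i w) ^ 2 else 0) := by
    intro i
    refine Ex_nonneg hq.le hq1.le fun w => ?_
    split_ifs
    · exact sq_nonneg _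
    · exact le_rfl
  have hE10 : 0 ≤ E1 := mul_nonneg hq.le (Finset.sum_nonneg fun i _ => hE1n i)
  have hEs0 : 0 ≤ Es := mul_nonneg hq.le (Ex_nonneg hq.le hq1.le fun v => sq_nonneg _)
  -- first decomposition
  have hL : Ex q (fun w : W (l + 2) => if ∃ i, w i = true then (f w - g0) ^ 2 else 0)
      = q * Ex q (fun v => (f1 v - g0) ^ 2)
        + (1 - q) * Ex q (fun v => if ∃ i, v i = true then (f0 v - g0) ^ 2 else 0) := by
    rw [Ex_con, Ex_add, Ex_mul_left, Ex_mul_left]
    congr 2
    · apply Ex_congr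
      intro v
      rw [if_pos (bp_ne_true v)]
    · apply Ex_congr
      intro v
      simp only [bp_ne_false]
      rfl
  -- (i)
  have hi : q * Ex q (fun v => (f1 v - g0) ^ 2) ≤ 2 * q * (1 - q) / lam1 q * E1 := by
    have e1 : Ex q (fun v => (f1 v - g0) ^ 2) = Var q f1 := by
      unfold Var
      rw [Ex_congr (h := fun v => (f1 v ^ 2 - 2 * g0 * f1 v) + g0 ^ 2) (by intro v; ring),
        Ex_add, Ex_sub, Ex_mul_left, Ex_const, ← hg0]
      ring
    rw [e1]
    have h1 := poincare_closed hq hq1 f1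
    have h2 : Dcl q f1 = (1 - q) * E1 := by
      unfold Dcl
      rw [hE1]
      ring
    rw [h2] at h1
    have h3 : 2 * q * (1 - q) / lam1 q * E1 = q * (2 / lam1 q * ((1 - q) * E1)) := by ring
    rw [h3]
    apply mul_le_mul_of_nonneg_left _ hq.le
    have h4 : Var q f1 = 2 / lam1 q * (lam1 q / 2 * Var q f1) := by
      field_simp
    rw [h4]
    exact mul_le_mul_of_nonneg_left h1 (by positivity)
  -- (iii)
  have hiii : (g1 - g0) ^ 2 ≤ 2 / q * (Es + E1) := by
    set X : W l → ℝ := fun v => f (con true (con true v)) - f (con false (con true v)) with hX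
    set Y : W l → ℝ := fun v => f (con true (con false v)) - f (con true (con true v)) with hY
    have e1 : g0 - g1 = Ex q X + (1 - q) * Ex q Y := by
      rw [hg0, hg1, Ex_con, ← Ex_mul_left, ← Ex_add, ← Ex_sub]
      apply Ex_congr
      intro v
      simp only [hX, hY, hf1, hf0]
      ring
    have h1 := bp_sq hq hq1 X
    have h2 := bp_sq hq hq1 Y
    have h3 : q * Ex q (fun v => Y v ^ 2) ≤ E1 := by
      rw [hE1]
      apply mul_le_mul_of_nonneg_left _ hq.le
      refine le_trans (le_of_eq ?_) (Finset.single_le_sum (fun i _ => hE1n i)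
        (Finset.mem_univ (0 : Fin (l + 1))))
      rw [Ex_congr (g := fun w : W (l + 1) =>
        if cc w ((0 : Fin (l + 1)) : ℕ) then (dl f1 0 w) ^ 2 else 0)
        (h := fun w : W (l + 1) => (dl f1 0 w) ^ 2) (by
          intro w
          have hc : cc w ((0 : Fin (l + 1)) : ℕ) := Or.inl rfl
          rw [if_pos hc]), Ex_con]
      apply Ex_congr
      intro v
      rw [bp_dl_zero, bp_dl_zero]
      simp only [hY, hf1]
      ring
    have h4 : q * Ex q (fun v => X v ^ 2) = Es := rfl
    have h5 : (g1 - g0) ^ 2 ≤ 2 * Ex q (fun v => X v ^ 2) + 2 * Ex q (fun v => Y v ^ 2) := by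
      have h6 : (g1 - g0) ^ 2 = (Ex q X + (1 - q) * Ex q Y) ^ 2 := by rw [← e1]; ring
      rw [h6]
      have h7 : (1 - q) ^ 2 ≤ 1 := by nlinarith
      have h8 : (1 - q) ^ 2 * (Ex q Y) ^ 2 ≤ 1 * (Ex q Y) ^ 2 :=
        mul_le_mul_of_nonneg_right h7 (sq_nonneg _)
      nlinarith [sq_nonneg (Ex q X - (1 - q) * Ex q Y)]
    have h9 : 2 / q * (Es + E1) = 2 * (Es / q) + 2 * (E1 / q) := by ring
    rw [h9]
    have h10 : Ex q (fun v => X v ^ 2) = Es / q := by
      rw [← h4]; field_simp
    have h11 : Ex q (fun v => Y v ^ 2) ≤ E1 / q := by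
      rw [le_div_iff₀ hq]; linarith
    linarith
  -- (ii)
  have hl1 : (0 : ℝ) < (l : ℝ) + 1 := by positivity
  have hii : Ex q (fun v => if ∃ i, v i = true then (f0 v - g0) ^ 2 else 0)
      ≤ ((l : ℝ) + 2) / (l + 1) * (C * (l + 1) ^ 2 * Eb q f0) + ((l : ℝ) + 2) * (g1 - g0) ^ 2 := by
    have h1 : Ex q (fun v => if ∃ i, v i = true then (f0 v - g0) ^ 2 else 0)
        ≤ Ex q (fun v => ((l : ℝ) + 2) / (l + 1) *
          (if ∃ i, v i = true then (f0 v - g1) ^ 2 else 0) + ((l : ℝ) + 2) * (g1 - g0) ^ 2) := by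
      apply Ex_mono hq.le hq1.le
      intro v
      split_ifs with h
      · have key : ∀ x y : ℝ, (x + y) ^ 2 ≤ ((l : ℝ) + 2) / (l + 1) * x ^ 2
            + ((l : ℝ) + 2) * y ^ 2 := by
          intro x y
          have e : ((l : ℝ) + 2) / (l + 1) * x ^ 2 + ((l : ℝ) + 2) * y ^ 2 - (x + y) ^ 2
              = (x - (l + 1) * y) ^ 2 / (l + 1) := by
            field_simp
            ring
          have h2 : 0 ≤ (x - ((l : ℝ) + 1) * y) ^ 2 / (l + 1) := by positivity
          linarith
        have := key (f0 v - g1) (g1 - g0)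
        have e : f0 v - g1 + (g1 - g0) = f0 v - g0 := by ring
        rwa [e] at this
      · have : 0 ≤ ((l : ℝ) + 2) * (g1 - g0) ^ 2 := by positivity
        linarith
    refine h1.trans ?_
    rw [Ex_add, Ex_mul_left, Ex_const]
    have h2 := ih f0
    have h3 : 0 ≤ ((l : ℝ) + 2) / (l + 1) := by positivity
    have h4 := mul_le_mul_of_nonneg_left h2 h3
    linarith
  have e5 : ((l : ℝ) + 2) / (l + 1) * (C * (l + 1) ^ 2 * Eb q f0)
      = C * (l + 1) * (l + 2) * Eb q f0 := by
    field_simp
  rw [e5] at hii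
  rw [hL]
  have hC0 : 0 ≤ 2 * q * (1 - q) / lam1 q := by positivity
  have hC1 : 0 ≤ 2 * (1 - q) / q := by positivity
  have hCpos : 0 < C := by rw [hC]; linarith
  have hln : (0 : ℝ) ≤ l := by positivity
  have hb := mul_le_mul_of_nonneg_left hii ha.le
  have hc : (1 - q) * (((l : ℝ) + 2) * (g1 - g0) ^ 2)
      ≤ 2 * (1 - q) / q * ((l : ℝ) + 2) * (Es + E1) := by
    have h6 : (1 - q) * ((l : ℝ) + 2) * (g1 - g0) ^ 2
        ≤ (1 - q) * ((l : ℝ) + 2) * (2 / q * (Es + E1)) :=
      mul_le_mul_of_nonneg_left hiii (by positivity)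
    have e6 : (1 - q) * ((l : ℝ) + 2) * (2 / q * (Es + E1))
        = 2 * (1 - q) / q * ((l : ℝ) + 2) * (Es + E1) := by ring
    rw [e6] at h6
    calc (1 - q) * (((l : ℝ) + 2) * (g1 - g0) ^ 2)
        = (1 - q) * ((l : ℝ) + 2) * (g1 - g0) ^ 2 := by ring
      _ ≤ _ := h6
  -- final comparison
  have hfin : C * ((l : ℝ) + 2) ^ 2 * (E1 + (1 - q) * Eb q f0 + Es) ≤ C * ((l : ℝ) + 2) ^ 2 * Eb q f :=
    mul_le_mul_of_nonneg_left hsplit (by positivity)
  refine le_trans ?_ hfin
  set A : ℝ := 2 * q * (1 - q) / lam1 q with hA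
  set B : ℝ := 2 * (1 - q) / q with hB
  set Z : ℝ := (1 - q) * Eb q f0 with hZ
  have hZ0 : 0 ≤ Z := mul_nonneg ha.le hEb0
  have t1 : (1 - q) * (C * ((l : ℝ) + 1) * (l + 2) * Eb q f0) ≤ C * ((l : ℝ) + 2) ^ 2 * Z := by
    have : (1 - q) * (C * ((l : ℝ) + 1) * (l + 2) * Eb q f0)
        = C * (((l : ℝ) + 1) * (l + 2)) * Z := by rw [hZ]; ring
    rw [this]
    apply mul_le_mul_of_nonneg_right _ hZ0
    apply mul_le_mul_of_nonneg_left _ hCpos.le
    nlinarith
  have hsq1 : (1 : ℝ) ≤ ((l : ℝ) + 2) ^ 2 := by nlinarith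
  have hsq2 : ((l : ℝ) + 2) ≤ ((l : ℝ) + 2) ^ 2 := by nlinarith
  have t2 : A * E1 ≤ A * ((l : ℝ) + 2) ^ 2 * E1 := by
    have : A * 1 ≤ A * ((l : ℝ) + 2) ^ 2 := mul_le_mul_of_nonneg_left hsq1 hC0
    have := mul_le_mul_of_nonneg_right this hE10
    linarith
  have t3 : B * ((l : ℝ) + 2) * (Es + E1) ≤ B * ((l : ℝ) + 2) ^ 2 * (Es + E1) := by
    apply mul_le_mul_of_nonneg_right _ (by linarith)
    exact mul_le_mul_of_nonneg_left hsq2 hC1
  have t4 : 0 ≤ ((l : ℝ) + 2) ^ 2 * (E1 + Es) := by positivity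
  have t5 : 0 ≤ A * (((l : ℝ) + 2) ^ 2 * Es) := mul_nonneg hC0 (by positivity)
  have eC : C * ((l : ℝ) + 2) ^ 2 * (E1 + Z + Es) = C * ((l : ℝ) + 2) ^ 2 * Z
      + A * ((l : ℝ) + 2) ^ 2 * E1 + A * (((l : ℝ) + 2) ^ 2 * Es)
      + B * ((l : ℝ) + 2) ^ 2 * (Es + E1) + ((l : ℝ) + 2) ^ 2 * (E1 + Es) := by
    rw [hC]; ring
  rw [eC]
  linarith

theorem block_moment (hq : 0 < q) (hq1 : q < 1) : ∃ C : ℝ, 0 < C ∧ ∀ (l : ℕ)
    (f : W (l + 1) → ℝ),
    Ex q (fun w => if ∃ i, w i = true then
        (f w - Ex q (fun v : W l => f (con true v))) ^ 2 else 0) ≤ C * (l + 1) ^ 2 * Eb q f := by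
  have ha : 0 < 1 - q := by linarith
  have hlam := lam1_pos' hq hq1
  have hC0 : 0 ≤ 2 * q * (1 - q) / lam1 q := by positivity
  have hC1 : 0 ≤ 2 * (1 - q) / q := by positivity
  refine ⟨2 * q * (1 - q) / lam1 q + 2 * (1 - q) / q + 1, by linarith, fun l => ?_⟩
  induction l with
  | zero =>
    intro f
    refine le_trans (le_of_eq ?_) (mul_nonneg (by positivity) (Eb_nonneg hq hq1 f))
    rw [Ex_con, Ex_congr (h := fun _ : W 0 => (0 : ℝ)), Ex_const]
    intro v
    have e1 : Ex q (fun v : W 0 => f (con true v)) = f (con true v) := by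
      rw [Ex_congr (h := fun _ : W 0 => f (con true v)) (by
        intro v'; rw [Subsingleton.elim v' v]), Ex_const]
    rw [if_pos (bp_ne_true v), if_neg, e1]
    · ring
    · rw [bp_ne_false]
      rintro ⟨i, -⟩
      exact i.elim0
  | succ l ih =>
    intro f
    have h := bp_step hq hq1 rfl ih f
    have e : (((l + 1 : ℕ) : ℝ) + 1) = (l : ℝ) + 2 := by push_cast; ring
    rw [e]
    exact h

private theorem bp_Z (hq : 0 < q) (hq1 : q < 1) {l : ℕ} (hl : 1 ≤ l) : 0 < 1 - (1 - q) ^ l := by
  have : (1 - q) ^ l < 1 := pow_lt_one₀ (by linarith) (by linarith) (by omega)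
  linarith

private theorem bp_sum_ne {l : ℕ} :
    ∑ w : W l, (if ∃ i, w i = true then wt q w else 0) = 1 - (1 - q) ^ l := by
  have h1 := sum_wt q l
  have h2 : ∑ w : W l, wt q w = ∑ w : W l, ((if ∃ i, w i = true then wt q w else 0)
      + (if w = (fun _ => false) then wt q w else 0)) := by
    refine Finset.sum_congr rfl fun w _ => ?_
    by_cases h : ∃ i, w i = true
    · have h3 : w ≠ fun _ => false := by
        rintro rfl
        obtain ⟨i, hi⟩ := h
        exact absurd hi (by simp)
      rw [if_pos h, if_neg h3, add_zero]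
    · have h3 : w = fun _ => false := by
        funext i
        by_contra hi
        exact h ⟨i, by simpa using hi⟩
      rw [if_neg h, if_pos h3, zero_add]
  rw [h2, Finset.sum_add_distrib, Finset.sum_ite_eq' Finset.univ (fun _ => false)] at h1
  have h3 : wt q (fun _ : Fin l => false) = (1 - q) ^ l := by
    unfold wt
    simp
  rw [if_pos (Finset.mem_univ _), h3] at h1
  linarith

theorem pb_prob (hq : 0 < q) (hq1 : q < 1) {l : ℕ} (hl : 1 ≤ l) :
    IsProb (pb q : W l → ℝ) := by
  have hZ := bp_Z hq hq1 hl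
  constructor
  · intro w
    unfold pb
    split_ifs
    · exact div_nonneg (wt_nonneg hq.le hq1.le w) hZ.le
    · exact le_rfl
  · have e : ∀ w : W l, pb q w = (if ∃ i, w i = true then wt q w else 0) / (1 - (1 - q) ^ l) := by
      intro w
      unfold pb
      split_ifs
      · rfl
      · simp
    rw [Finset.sum_congr rfl (fun w _ => e w), ← Finset.sum_div, bp_sum_ne, div_self hZ.ne']

private theorem bp_val_ne {l : ℕ} {w : W l} {k : ℕ} (h : val w k = true) : ∃ i, w i = true := by
  by_cases hk : k < l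
  · exact ⟨⟨k, hk⟩, by rw [val_lt hk] at h; exact h⟩
  · rw [val_ge (by omega)] at h
    exact absurd h (by simp)

private theorem bp_pb_sum {l : ℕ} (g : W l → ℝ) (h : ∀ w, ¬ (∃ i, w i = true) → g w = 0) :
    ∑ w, pb q w * g w = Ex q g / (1 - (1 - q) ^ l) := by
  unfold Ex
  rw [Finset.sum_div]
  refine Finset.sum_congr rfl fun w _ => ?_
  by_cases hw : ∃ i, w i = true
  · unfold pb
    rw [if_pos hw]
    ring
  · rw [h w hw]
    simp

theorem block_poincare (hq : 0 < q) (hq1 : q < 1) : ∃ C : ℝ, 0 < C ∧ ∀ (l : ℕ), 1 ≤ l →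
    ∀ f : W l → ℝ, Vr (pb q) f ≤ C * l ^ 2 * Db q f := by
  obtain ⟨C, hC, hmom⟩ := block_moment hq hq1
  have ha : 0 < 1 - q := by linarith
  refine ⟨C / (q * (1 - q)), by positivity, fun l hl f => ?_⟩
  obtain ⟨l, rfl⟩ : ∃ l', l = l' + 1 := ⟨l - 1, by omega⟩
  have hZ := bp_Z hq hq1 hl
  obtain ⟨hp0, hp1⟩ := pb_prob hq hq1 hl
  set Z : ℝ := 1 - (1 - q) ^ (l + 1) with hZdef
  set c : ℝ := Ex q (fun v : W l => f (con true v)) with hc
  have h1 : Vr (pb q) f ≤ ∑ w, pb q w * (f w - c) ^ 2 := by
    unfold Vr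
    have e : ∑ w, pb q w * (f w - c) ^ 2
        = ∑ w, pb q w * f w ^ 2 - 2 * c * ∑ w, pb q w * f w + c ^ 2 := by
      have e1 : ∀ w : W (l + 1), pb q w * (f w - c) ^ 2
          = pb q w * f w ^ 2 - 2 * c * (pb q w * f w) + c ^ 2 * pb q w := by intro w; ring
      rw [Finset.sum_congr rfl (fun w _ => e1 w), Finset.sum_add_distrib, Finset.sum_sub_distrib,
        ← Finset.mul_sum, ← Finset.mul_sum, hp1, mul_one]
    rw [e]
    nlinarith [sq_nonneg (∑ w, pb q w * f w - c)]
  have h2 : ∑ w, pb q w * (f w - c) ^ 2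
      = Ex q (fun w => if ∃ i, w i = true then (f w - c) ^ 2 else 0) / Z := by
    rw [hZdef, ← bp_pb_sum (fun w => if ∃ i, w i = true then (f w - c) ^ 2 else 0)
      (fun w hw => if_neg hw)]
    refine Finset.sum_congr rfl fun w _ => ?_
    by_cases hw : ∃ i, w i = true
    · simp only [if_pos hw]
    · unfold pb
      rw [if_neg hw]
      simp
  have h3 : Db q f = q * (1 - q) / Z * Eb q f := by
    have e : ∀ i : Fin (l + 1), ∑ w, pb q w *
        (if kc false false w (i : ℕ) then (dl f i w) ^ 2 else 0)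
        = Ex q (fun w => if kc false false w (i : ℕ) then (dl f i w) ^ 2 else 0) / Z := by
      intro i
      rw [hZdef]
      refine bp_pb_sum _ fun w hw => ?_
      rw [if_neg]
      rw [bp_kc]
      rintro (⟨-, h⟩ | h)
      · exact hw (bp_val_ne h)
      · exact hw (bp_val_ne h)
    unfold Db Eb
    rw [Finset.sum_congr rfl (fun i _ => e i), ← Finset.sum_div]
    ring
  have h4 := hmom l f
  have e5 : C / (q * (1 - q)) * ((l + 1 : ℕ) : ℝ) ^ 2 * Db q f
      = (C * ((l : ℝ) + 1) ^ 2 * Eb q f) / Z := by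
    rw [h3]
    push_cast
    field_simp
  rw [e5]
  refine h1.trans ?_
  rw [h2]
  exact div_le_div_of_nonneg_right h4 hZ.le

end Pool.Agent.Lib.MP_4c13d6_pr
end

section

/-! LS-4: log-Sobolev inequality in a nonempty block. -/

open Finset

namespace Pool.Agent.Lib.MP_4c13d6_pr

variable {q : ℝ}

private theorem bl_pb_nonneg (hq : 0 < q) (hq1 : q < 1) {l : ℕ} (w : W l) : 0 ≤ pb q w := by
  unfold pb
  split_ifs with h
  · apply div_nonneg (wt_nonneg hq.le hq1.le w)
    have : (1 - q) ^ l ≤ 1 := pow_le_one₀ (by linarith) (by linarith)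
    linarith
  · exact le_rfl

theorem Db_nonneg (hq : 0 < q) (hq1 : q < 1) {l : ℕ} (g : W l → ℝ) : 0 ≤ Db q g := by
  unfold Db
  apply mul_nonneg (mul_nonneg hq.le (by linarith))
  refine Finset.sum_nonneg fun i _ => Finset.sum_nonneg fun w _ => ?_
  apply mul_nonneg (bl_pb_nonneg hq hq1 w)
  split_ifs
  · positivity
  · exact le_rfl

private theorem bl_wt_ge (hq : 0 < q) (hq1 : q < 1) {l : ℕ} (w : W l) :
    (min q (1 - q)) ^ l ≤ wt q w := by
  unfold wt
  have h0 : 0 < min q (1 - q) := lt_min hq (by linarith)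
  calc (min q (1 - q)) ^ l = ∏ _i : Fin l, min q (1 - q) := by simp
    _ ≤ _ := by
      apply Finset.prod_le_prod
      · intro i _; exact h0.le
      · intro i _
        split_ifs
        · exact min_le_left _ _
        · exact min_le_right _ _

theorem block_LSI (hq : 0 < q) (hq1 : q < 1) : ∃ C : ℝ, 0 < C ∧ ∀ (l : ℕ), 1 ≤ l →
    LSI (pb q : W l → ℝ) (Db q) (C * l ^ 3) := by
  obtain ⟨C, hC, hP⟩ := block_poincare hq hq1
  have h0 : 0 < min q (1 - q) := lt_min hq (by linarith)
  have h1 : min q (1 - q) ≤ 1 := (min_le_left _ _).trans hq1.le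
  set κ := min q (1 - q) with hκ
  set L := Real.log (1 / κ) with hL
  have hL0 : 0 ≤ L := Real.log_nonneg (by rw [le_div_iff₀ h0]; linarith)
  refine ⟨2 * (2 + L) * C, by positivity, fun l hl g hg => ?_⟩
  have hl' : (1 : ℝ) ≤ l := by exact_mod_cast hl
  have hc : 0 < κ ^ l := pow_pos h0 l
  have hc1 : κ ^ l ≤ 1 := pow_le_one₀ h0.le h1
  have hpc : ∀ x : W l, pb q x ≠ 0 → κ ^ l ≤ pb q x := by
    intro x hx
    unfold pb at hx ⊢
    split_ifs with h
    · have ha : (1 - q) ^ l ≤ 1 := pow_le_one₀ (by linarith) (by linarith)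
      have ha0 : 0 < (1 - q) ^ l := pow_pos (by linarith) l
      have ha1 : (1 - q) ^ l < 1 := pow_lt_one₀ (by linarith) (by linarith) (by omega)
      rw [le_div_iff₀ (by linarith)]
      calc κ ^ l * (1 - (1 - q) ^ l) ≤ κ ^ l * 1 :=
            mul_le_mul_of_nonneg_left (by linarith) hc.le
        _ = κ ^ l := mul_one _
        _ ≤ wt q x := bl_wt_ge hq hq1 x
    · rw [if_neg h] at hx
      exact absurd rfl hx
  have hE := Ent_sq_le_Vr (pb q : W l → ℝ) (pb_prob hq hq1 hl) (κ ^ l) hc hc1 hpc g hg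
  have hlog : Real.log (1 / κ ^ l) = l * L := by
    rw [hL, ← one_div_pow, Real.log_pow]
  rw [hlog] at hE
  have hD := Db_nonneg hq hq1 g
  have hV := hP l hl g
  calc Ent (pb q) (fun x => g x ^ 2) ≤ 2 * (2 + l * L) * Vr (pb q) g := hE
    _ ≤ 2 * (2 + l * L) * (C * l ^ 2 * Db q g) :=
        mul_le_mul_of_nonneg_left hV (by positivity)
    _ ≤ 2 * ((2 + L) * l) * (C * l ^ 2 * Db q g) := by
        apply mul_le_mul_of_nonneg_right _ (by positivity)
        nlinarith
    _ = 2 * (2 + L) * C * l ^ 3 * Db q g := by ring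

end Pool.Agent.Lib.MP_4c13d6_pr
end

section

/-! LS-5: log-Sobolev inequality on the good event. -/

open Finset

namespace Pool.Agent.Lib.MP_4c13d6_pr

variable {q : ℝ}

theorem GB_shift (ls : List ℕ) (y l : ℕ) (w : ℕ → Bool) :
    GB ls (y + l) w ↔ GB ls y (fun k => w (k + l)) := by
  induction ls generalizing y with
  | nil => exact Iff.rfl
  | cons a t ih =>
    have ih' := ih (y + a)
    have e : y + a + l = y + l + a := by omega
    rw [e] at ih'
    show ((∃ i, y + l ≤ i ∧ i < y + l + a ∧ w i = true) ∧ GB t (y + l + a) w) ↔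
      ((∃ i, y ≤ i ∧ i < y + a ∧ w (i + l) = true) ∧ GB t (y + a) (fun k => w (k + l)))
    rw [ih']
    apply and_congr_left
    intro _
    constructor
    · rintro ⟨i, h1, h2, h3⟩
      refine ⟨i - l, by omega, by omega, ?_⟩
      have : i - l + l = i := by omega
      rw [this]; exact h3
    · rintro ⟨i, h1, h2, h3⟩
      exact ⟨i + l, by omega, by omega, h3⟩

private theorem bl_GB_true (ls : List ℕ) (y : ℕ) (w : ℕ → Bool) (hls : ∀ l ∈ ls, 1 ≤ l)
    (hw : ∀ k, y ≤ k → k < y + ls.sum → w k = true) : GB ls y w := by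
  induction ls generalizing y with
  | nil => exact trivial
  | cons a t ih =>
    have ha : 1 ≤ a := hls a (by simp)
    have hs : (a :: t).sum = a + t.sum := List.sum_cons
    refine ⟨⟨y, le_rfl, by omega, hw y le_rfl (by omega)⟩, ?_⟩
    apply ih
    · intro l hl; exact hls l (List.mem_cons_of_mem _ hl)
    · intro k hk1 hk2
      exact hw k (by omega) (by omega)

theorem pG_prob (hq : 0 < q) (hq1 : q < 1) (ls : List ℕ) (hls : ∀ l ∈ ls, 1 ≤ l) {m : ℕ}
    (hm : ls.sum = m) : IsProb (pG q ls : W m → ℝ) := by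
  classical
  have h0 : ∀ v : W m, 0 ≤ (if Gd ls v then wt q v else 0) := by
    intro v
    split_ifs
    · exact (wt_pos hq hq1 v).le
    · exact le_rfl
  have hZ : 0 < ∑ v : W m, (if Gd ls v then wt q v else 0) := by
    apply Finset.sum_pos' (fun v _ => h0 v)
    refine ⟨fun _ => true, Finset.mem_univ _, ?_⟩
    have hg : Gd ls (fun _ : Fin m => true) := by
      apply bl_GB_true ls 0 _ hls
      intro k _ hk
      rw [val_lt (by omega)]
    rw [if_pos hg]
    exact wt_pos hq hq1 _
  constructor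
  · intro w
    unfold pG
    split_ifs
    · exact div_nonneg (wt_pos hq hq1 w).le (Finset.sum_nonneg fun v _ => h0 v)
    · exact le_rfl
  · have e : ∀ w : W m, pG q ls w = (if Gd ls w then wt q w else 0) /
        (∑ v : W m, (if Gd ls v then wt q v else 0)) := by
      intro w
      unfold pG
      split_ifs with h
      · rfl
      · simp
    simp_rw [e]
    rw [← Finset.sum_div, div_self hZ.ne']

private theorem bl_val_append (l : ℕ) {m : ℕ} (u : W l) (v : W m) (k : ℕ) :
    val (Fin.append u v) k = if k < l then val u k else val v (k - l) := by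
  by_cases h : k < l
  · rw [if_pos h, val_lt h, val_lt (by omega : k < l + m)]
    exact Fin.append_left u v ⟨k, h⟩
  · rw [if_neg h]
    by_cases h2 : k < l + m
    · rw [val_lt h2, val_lt (by omega : k - l < m)]
      have := Fin.append_right u v ⟨k - l, by omega⟩
      rw [← this]
      congr 1
      apply Fin.ext
      simp; omega
    · rw [val_ge (by omega), val_ge (by omega)]

private theorem bl_val_append_add (l : ℕ) {m : ℕ} (u : W l) (v : W m) (k : ℕ) :
    val (Fin.append u v) (k + l) = val v k := by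
  rw [bl_val_append, if_neg (by omega)]
  congr 1
  omega

/-- the good event is a product event -/
theorem Gd_append (l : ℕ) (ls : List ℕ) {m : ℕ} (u : W l) (v : W m) :
    Gd (l :: ls) (Fin.append u v) ↔ (∃ i, u i = true) ∧ Gd ls v := by
  show ((∃ i, 0 ≤ i ∧ i < 0 + l ∧ val (Fin.append u v) i = true) ∧
    GB ls (0 + l) (val (Fin.append u v))) ↔ _
  rw [GB_shift]
  have e : (fun k => val (Fin.append u v) (k + l)) = val v := by
    funext k; exact bl_val_append_add l u v k
  rw [e]
  apply and_congr_left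
  intro _
  constructor
  · rintro ⟨i, _, h2, h3⟩
    rw [bl_val_append, if_pos (by omega), val_lt (by omega : i < l)] at h3
    exact ⟨_, h3⟩
  · rintro ⟨i, hi⟩
    refine ⟨i, by omega, by have := i.isLt; omega, ?_⟩
    rw [bl_val_append, if_pos i.isLt, val_fin]
    exact hi

private theorem bl_wt_append (l : ℕ) {m : ℕ} (u : W l) (v : W m) :
    wt q (Fin.append u v) = wt q u * wt q v := by
  unfold wt
  rw [Fin.prod_univ_add]
  simp only [Fin.append_left, Fin.append_right]

private theorem bl_sum_append (l m : ℕ) (F : W (l + m) → ℝ) :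
    ∑ w, F w = ∑ z : W l × W m, F (Fin.append z.1 z.2) := by
  apply (Fintype.sum_equiv (Fin.appendEquiv (α := Bool) l m) _ _ _).symm
  intro z
  rfl

private theorem bl_sum_nonempty (l : ℕ) :
    ∑ u : W l, (if ∃ i, u i = true then wt q u else 0) = 1 - (1 - q) ^ l := by
  classical
  have h1 : ∑ u : W l, wt q u = 1 := sum_wt q l
  have h2 : ∑ u : W l, (if ∃ i, u i = true then 0 else wt q u) = (1 - q) ^ l := by
    rw [Finset.sum_eq_single (fun _ => false)]
    · rw [if_neg (by simp)]
      simp [wt]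
    · intro u _ hu
      rw [if_pos]
      by_contra hc
      push Not at hc
      apply hu
      funext i
      have := hc i
      simpa using this
    · intro h; exact absurd (Finset.mem_univ _) h
  have h3 : ∑ u : W l, (if ∃ i, u i = true then wt q u else 0)
      + ∑ u : W l, (if ∃ i, u i = true then 0 else wt q u) = ∑ u : W l, wt q u := by
    rw [← Finset.sum_add_distrib]
    apply Finset.sum_congr rfl
    intro u _
    split_ifs <;> ring
  linarith

theorem pG_append (hq : 0 < q) (hq1 : q < 1) (l : ℕ) (ls : List ℕ) {m : ℕ} (u : W l) (v : W m) :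
    pG q (l :: ls) (Fin.append u v) = pb q u * pG q ls v := by
  classical
  have hZ : (∑ w : W (l + m), (if Gd (l :: ls) w then wt q w else 0)) =
      (1 - (1 - q) ^ l) * ∑ v : W m, (if Gd ls v then wt q v else 0) := by
    rw [bl_sum_append, ← bl_sum_nonempty l, Finset.sum_mul_sum, ← Finset.univ_product_univ,
      Finset.sum_product]
    apply Finset.sum_congr rfl
    intro u _
    apply Finset.sum_congr rfl
    intro v _
    simp only [Gd_append, bl_wt_append]
    by_cases h1 : ∃ i, u i = true <;> by_cases h2 : Gd ls v <;> simp [h1, h2]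
  unfold pG pb
  simp only [hZ, Gd_append, bl_wt_append]
  by_cases h1 : ∃ i, u i = true
  · by_cases h2 : Gd ls v
    · rw [if_pos ⟨h1, h2⟩, if_pos h1, if_pos h2, mul_div_mul_comm]
    · rw [if_neg (fun h => h2 h.2), if_neg h2, mul_zero]
  · rw [if_neg (fun h => h1 h.1), if_neg h1, zero_mul]

private theorem bl_upd_left (l : ℕ) {m : ℕ} (u : W l) (v : W m) (i : Fin l) (b : Bool) :
    Function.update (Fin.append u v) (Fin.castAdd m i) b
      = Fin.append (Function.update u i b) v := by
  funext j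
  refine Fin.addCases (fun j => ?_) (fun j => ?_) j
  · rw [Fin.append_left]
    by_cases h : j = i
    · subst h; simp
    · rw [Function.update_of_ne h, Function.update_of_ne, Fin.append_left]
      intro h2; exact h (Fin.castAdd_injective _ _ h2)
  · rw [Fin.append_right, Function.update_of_ne, Fin.append_right]
    intro h2
    have := congrArg Fin.val h2
    simp at this
    have := i.isLt
    omega

private theorem bl_upd_right (l : ℕ) {m : ℕ} (u : W l) (v : W m) (i : Fin m) (b : Bool) :
    Function.update (Fin.append u v) (Fin.natAdd l i) b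
      = Fin.append u (Function.update v i b) := by
  funext j
  refine Fin.addCases (fun j => ?_) (fun j => ?_) j
  · rw [Fin.append_left, Function.update_of_ne, Fin.append_left]
    intro h2
    have := congrArg Fin.val h2
    simp at this
    have := j.isLt
    omega
  · rw [Fin.append_right]
    by_cases h : j = i
    · subst h; simp
    · rw [Function.update_of_ne h, Function.update_of_ne, Fin.append_right]
      intro h2
      apply h
      have := congrArg Fin.val h2
      simp at this
      exact Fin.ext this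

private theorem bl_ev_ff {m : ℕ} (w : W m) (k : ℤ) :
    ev false false w k = true ↔ 0 ≤ k ∧ val w k.toNat = true := by
  unfold ev
  split_ifs with h1 h2 h3
  · subst h1; simp
  · subst h2
    simp only [Int.toNat_natCast, val_ge le_rfl]
    simp
  · simp [h3]
  · simp [h3]

private theorem bl_ev_mono {m : ℕ} (bL bR : Bool) (w : W m) (k : ℤ)
    (h : ev false false w k = true) : ev bL bR w k = true := by
  unfold ev at h ⊢
  split_ifs at h ⊢ with h1 h2 h3
  · exact h

private theorem bl_kc_left (l : ℕ) {m : ℕ} (u : W l) (v : W m) (i : ℤ)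
    (h : kc false false u i) : kc false false (Fin.append u v) i := by
  have key : ∀ k : ℤ, ev false false u k = true → ev false false (Fin.append u v) k = true := by
    intro k hk
    rw [bl_ev_ff] at hk ⊢
    refine ⟨hk.1, ?_⟩
    have h2 : k.toNat < l := by
      by_contra hc
      rw [val_ge (by omega)] at hk
      exact absurd hk.2 (by simp)
    rw [bl_val_append, if_pos h2]
    exact hk.2
  rcases h with h | h
  · exact Or.inl (key _ h)
  · exact Or.inr (key _ h)

private theorem bl_kc_right (l : ℕ) {m : ℕ} (u : W l) (v : W m) (i : ℤ)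
    (h : kc false false v i) : kc false false (Fin.append u v) (l + i) := by
  have key : ∀ k : ℤ, ev false false v k = true →
      ev false false (Fin.append u v) (l + k) = true := by
    intro k hk
    rw [bl_ev_ff] at hk ⊢
    refine ⟨by have := hk.1; omega, ?_⟩
    have e : ((l : ℤ) + k).toNat = k.toNat + l := by have := hk.1; omega
    rw [e, bl_val_append_add]
    exact hk.2
  rcases h with h | h
  · left
    have := key _ h
    rwa [← add_sub_assoc] at this
  · right
    have := key _ h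
    rwa [← add_assoc] at this

/-- a legal flip keeps the block nonempty -/
private theorem bl_kc_nonempty {l : ℕ} (u : W l) (i : Fin l) (b : Bool)
    (h : kc false false u (i : ℕ)) : ∃ j, Function.update u i b j = true := by
  have key : ∀ k : ℤ, k ≠ (i : ℕ) → ev false false u k = true →
      ∃ j, Function.update u i b j = true := by
    intro k hki hk
    rw [bl_ev_ff] at hk
    have h2 : k.toNat < l := by
      by_contra hc
      rw [val_ge (by omega)] at hk
      exact absurd hk.2 (by simp)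
    refine ⟨⟨k.toNat, h2⟩, ?_⟩
    rw [Function.update_of_ne]
    · rw [val_lt h2] at hk; exact hk.2
    · intro h3
      have := congrArg Fin.val h3
      simp at this
      apply hki
      rw [← this]
      have := hk.1
      omega
  rcases h with h | h
  · exact key _ (by omega) h
  · exact key _ (by omega) h

private theorem bl_pG_ne {m : ℕ} (ls : List ℕ) (v : W m) (h : pG q ls v ≠ 0) : Gd ls v := by
  by_contra hc
  apply h
  unfold pG
  rw [if_neg hc]

private theorem bl_pb_ne {m : ℕ} (v : W m) (h : pb q v ≠ 0) : ∃ i, v i = true := by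
  by_contra hc
  apply h
  unfold pb
  rw [if_neg hc]

private theorem bl_DG_append (hq : 0 < q) (hq1 : q < 1) (l : ℕ) (ls : List ℕ) (hl : 1 ≤ l)
    (hls : ∀ l ∈ ls, 1 ≤ l) {m : ℕ} (hm : ls.sum = m) (g : W (l + m) → ℝ) :
    ∑ y : W m, pG q ls y * Db q (fun x => g (Fin.append x y))
      + ∑ x : W l, pb q x * DG q false false ls (fun y => g (Fin.append x y))
      ≤ DG q false false (l :: ls) g := by
  classical
  have hp := pb_prob hq hq1 hl
  have hr := pG_prob hq hq1 ls hls hm
  unfold DG Db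
  rw [Fin.sum_univ_add, mul_add]
  apply add_le_add
  · simp_rw [bl_sum_append, pG_append hq hq1]
    have e : ∀ y : W m, pG q ls y * (q * (1 - q) * ∑ i : Fin l, ∑ w : W l, pb q w *
        (if kc false false w (i : ℕ) then (dl (fun x => g (Fin.append x y)) i w) ^ 2 else 0))
        = q * (1 - q) * ∑ i : Fin l, ∑ w : W l, pb q w * (pG q ls y *
        (if kc false false w (i : ℕ) then (dl (fun x => g (Fin.append x y)) i w) ^ 2 else 0)) := by
      intro y
      rw [Finset.mul_sum, Finset.mul_sum, Finset.mul_sum]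
      apply Finset.sum_congr rfl
      intro i _
      rw [Finset.mul_sum, Finset.mul_sum, Finset.mul_sum]
      apply Finset.sum_congr rfl
      intro w _
      ring
    simp_rw [e]
    rw [← Finset.mul_sum, Finset.sum_comm]
    apply mul_le_mul_of_nonneg_left _ (by nlinarith)
    apply Finset.sum_le_sum
    intro i _
    rw [← Finset.univ_product_univ, Finset.sum_product, Finset.sum_comm]
    apply Finset.sum_le_sum
    intro u _
    apply Finset.sum_le_sum
    intro v _
    rw [mul_assoc]
    apply mul_le_mul_of_nonneg_left _ (hp.1 u)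
    by_cases h0 : pG q ls v = 0
    · rw [h0, zero_mul, zero_mul]
    · apply mul_le_mul_of_nonneg_left _ (hr.1 v)
      have hv := bl_pG_ne ls v h0
      by_cases hk : kc false false u (i : ℕ)
      · rw [if_pos hk, if_pos]
        · apply le_of_eq
          unfold dl
          simp only [bl_upd_left]
        · refine ⟨?_, ?_, ?_⟩
          · have := bl_kc_left l u v (i : ℕ) hk
            simpa using this
          · rw [bl_upd_left, Gd_append]
            exact ⟨bl_kc_nonempty u i true hk, hv⟩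
          · rw [bl_upd_left, Gd_append]
            exact ⟨bl_kc_nonempty u i false hk, hv⟩
      · rw [if_neg hk]
        split_ifs
        · exact sq_nonneg _
        · exact le_rfl
  · simp_rw [bl_sum_append, pG_append hq hq1]
    have e : ∀ x : W l, pb q x * (q * (1 - q) * ∑ i : Fin m, ∑ w : W m, pG q ls w *
        (if kc false false w (i : ℕ) ∧ Gd ls (Function.update w i true) ∧
          Gd ls (Function.update w i false) then
          (dl (fun y => g (Fin.append x y)) i w) ^ 2 else 0))
        = q * (1 - q) * ∑ i : Fin m, ∑ w : W m, pG q ls w * (pb q x *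
        (if kc false false w (i : ℕ) ∧ Gd ls (Function.update w i true) ∧
          Gd ls (Function.update w i false) then
          (dl (fun y => g (Fin.append x y)) i w) ^ 2 else 0)) := by
      intro y
      rw [Finset.mul_sum, Finset.mul_sum, Finset.mul_sum]
      apply Finset.sum_congr rfl
      intro i _
      rw [Finset.mul_sum, Finset.mul_sum, Finset.mul_sum]
      apply Finset.sum_congr rfl
      intro w _
      ring
    simp_rw [e]
    rw [← Finset.mul_sum, Finset.sum_comm]
    apply mul_le_mul_of_nonneg_left _ (by nlinarith)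
    apply Finset.sum_le_sum
    intro i _
    rw [← Finset.univ_product_univ, Finset.sum_product]
    apply Finset.sum_le_sum
    intro u _
    apply Finset.sum_le_sum
    intro v _
    rw [mul_comm (pb q u) (pG q ls v), mul_assoc]
    apply mul_le_mul_of_nonneg_left _ (hr.1 v)
    by_cases h0 : pb q u = 0
    · rw [h0, zero_mul, zero_mul]
    · apply mul_le_mul_of_nonneg_left _ (hp.1 u)
      have hu := bl_pb_ne u h0
      by_cases hk : kc false false v (i : ℕ) ∧ Gd ls (Function.update v i true) ∧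
          Gd ls (Function.update v i false)
      · rw [if_pos hk, if_pos]
        · apply le_of_eq
          unfold dl
          simp only [bl_upd_right]
        · refine ⟨?_, ?_, ?_⟩
          · have := bl_kc_right l u v (i : ℕ) hk.1
            simpa using this
          · rw [bl_upd_right, Gd_append]
            exact ⟨hu, hk.2.1⟩
          · rw [bl_upd_right, Gd_append]
            exact ⟨hu, hk.2.2⟩
      · rw [if_neg hk]
        split_ifs
        · exact sq_nonneg _
        · exact le_rfl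

private theorem bl_Ent_append (hq : 0 < q) (hq1 : q < 1) (l : ℕ) (ls : List ℕ) {m : ℕ}
    (f : W (l + m) → ℝ) :
    Ent (pG q (l :: ls)) f
      = Ent (fun z : W l × W m => pb q z.1 * pG q ls z.2) (fun z => f (Fin.append z.1 z.2)) := by
  unfold Ent
  simp_rw [bl_sum_append, pG_append hq hq1]

private theorem bl_LSI (hq : 0 < q) (hq1 : q < 1) (C : ℝ) (hC : 0 < C)
    (H : ∀ (l : ℕ), 1 ≤ l → LSI (pb q : W l → ℝ) (Db q) (C * l ^ 3)) (B : ℕ)
    (ls : List ℕ) : ∀ m : ℕ, (∀ l ∈ ls, 1 ≤ l ∧ l ≤ B) → ls.sum = m →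
    LSI (pG q ls : W m → ℝ) (DG q false false ls) (C * B ^ 3) := by
  induction ls with
  | nil =>
    intro m _ hm g hg
    have hm' : m = 0 := by simpa using hm.symm
    subst hm'
    have hp := pG_prob hq hq1 [] (by simp) hm
    have h1 : ∀ w : W 0, pG q ([] : List ℕ) w = 1 := by
      intro w
      have h2 := hp.2
      rw [Fintype.sum_unique] at h2
      rw [← h2]
      exact congrArg _ (Subsingleton.elim _ _)
    unfold Ent DG
    simp only [Fintype.sum_unique, Finset.univ_eq_empty, Finset.sum_empty, mul_zero]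
    simp only [h1]
    apply le_of_eq
    simp only [one_mul, sub_self]
  | cons l ls ih =>
    intro m hls hm
    obtain ⟨m', hm'⟩ : ∃ m', ls.sum = m' := ⟨_, rfl⟩
    have hs : m = l + m' := by rw [← hm, List.sum_cons, hm']
    subst hs
    have hl := hls l (by simp)
    have hls' : ∀ l ∈ ls, 1 ≤ l ∧ l ≤ B := fun k hk => hls k (List.mem_cons_of_mem _ hk)
    have hX : LSI (pb q : W l → ℝ) (Db q) (C * B ^ 3) := by
      intro g hg
      refine (H l hl.1 g hg).trans ?_
      apply mul_le_mul_of_nonneg_right _ (Db_nonneg hq hq1 g)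
      apply mul_le_mul_of_nonneg_left _ hC.le
      have : (l : ℝ) ≤ B := by exact_mod_cast hl.2
      gcongr
    have hY := ih m' hls' hm'
    have hprod := LSI_prod (pb q : W l → ℝ) (pG q ls : W m' → ℝ) (pb_prob hq hq1 hl.1)
      (pG_prob hq hq1 ls (fun k hk => (hls' k hk).1) hm') (Db q) (DG q false false ls)
      (C * B ^ 3) hX hY
    intro g hg
    have h1 := hprod (fun z => g (Fin.append z.1 z.2)) (fun z => hg _)
    rw [bl_Ent_append hq hq1]
    refine h1.trans ?_
    apply mul_le_mul_of_nonneg_left _ (by positivity)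
    exact bl_DG_append hq hq1 l ls hl.1 (fun k hk => (hls' k hk).1) hm' g

theorem blocks_LSI (hq : 0 < q) (hq1 : q < 1) : ∃ C : ℝ, 0 < C ∧ ∀ (bL bR : Bool) (B : ℕ)
    (ls : List ℕ) (m : ℕ), (∀ l ∈ ls, 1 ≤ l ∧ l ≤ B) → ls.sum = m →
    LSI (pG q ls : W m → ℝ) (DG q bL bR ls) (C * B ^ 3) := by
  classical
  obtain ⟨C, hC, H⟩ := block_LSI hq hq1
  refine ⟨C, hC, ?_⟩
  intro bL bR B ls m hls hm g hg
  refine (bl_LSI hq hq1 C hC H B ls m hls hm g hg).trans ?_
  apply mul_le_mul_of_nonneg_left _ (by positivity)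
  have hr := pG_prob hq hq1 ls (fun k hk => (hls k hk).1) hm
  unfold DG
  apply mul_le_mul_of_nonneg_left _ (by nlinarith)
  apply Finset.sum_le_sum
  intro i _
  apply Finset.sum_le_sum
  intro w _
  apply mul_le_mul_of_nonneg_left _ (hr.1 w)
  by_cases hk : kc false false w (i : ℕ) ∧ Gd ls (Function.update w i true) ∧
          Gd ls (Function.update w i false)
  · rw [if_pos hk, if_pos]
    refine ⟨?_, hk.2⟩
    rcases hk.1 with h | h
    · exact Or.inl (bl_ev_mono bL bR w _ h)
    · exact Or.inr (bl_ev_mono bL bR w _ h)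
  · rw [if_neg hk]
    split_ifs
    · exact sq_nonneg _
    · exact le_rfl

end Pool.Agent.Lib.MP_4c13d6_pr
end
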