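import Pool.Agent.Lib.MP_4c13d6_pr.EnergyL

/-! CH-2: the front chain inside the chain on `m` sites (Lemma 21). -/

open Finset

namespace Pool.Agent.Lib.MP_4c13d6_pr

variable {q : ℝ} {m : ℕ} {bL bR : Bool}

/-- update at a natural number index -/
private def updN (w : W m) (i : ℕ) (b : Bool) : W m := fun j => if (j : ℕ) = i then b else w j

private theorem update_eq_updN (w : W m) (i : Fin m) (b : Bool) :
    Function.update w i b = updN w (i : ℕ) b := by
  funext j
  unfold updN
  by_cases h : j = i
  · subst h; simp
  · rw [Function.update_of_ne h, if_neg]
    intro h2; exact h (Fin.ext h2)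

private theorem val_updN (w : W m) (i : ℕ) (b : Bool) (k : ℕ) (hi : i < m) :
    val (updN w i b) k = if k = i then b else val w k := by
  have := val_upd w ⟨i, hi⟩ b k
  rw [update_eq_updN] at this
  simpa using this

private theorem bh_congr (w v : W m) : ∀ n : ℕ, (∀ k, k < n → val v k = val w k) →
    bh v n = bh w n := by
  intro n
  induction n with
  | zero => intro _; rfl
  | succ n ih =>
    intro h
    simp only [bh]
    rw [h n (Nat.lt_succ_self n), ih (fun k hk => h k (Nat.lt_succ_of_lt hk))]

private theorem stt_congr (w v : W m) : ∀ n : ℕ, (∀ k, k < n → val v k = val w k) →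
    stt bL v n = stt bL w n := by
  intro n
  induction n with
  | zero => intro _; rfl
  | succ n ih =>
    intro h
    simp only [stt]
    rw [h n (Nat.lt_succ_self n), ih (fun k hk => h k (Nat.lt_succ_of_lt hk)),
      bh_congr w v n (fun k hk => h k (Nat.lt_succ_of_lt hk))]

private theorem bh_length (w : W m) : ∀ n : ℕ, (bh w n).length = n := by
  intro n
  induction n with
  | zero => rfl
  | succ n ih => simp [bh, ih]

private theorem bh_getD (w : W m) : ∀ n k : ℕ, k < n → (bh w n).getD k false = val w (n - 1 - k) := by
  intro n
  induction n with
  | zero => intro k hk; omega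
  | succ n ih =>
    intro k hk
    cases k with
    | zero => simp [bh]
    | succ k =>
      simp only [bh, List.getD_cons_succ]
      rw [ih k (by omega)]
      congr 1
      omega

private theorem stt_of_last (w : W m) (l : ℕ) (h1 : val w l = true) : ∀ x : ℕ, l < x →
    (∀ k, l < k → k < x → val w k = false) → stt bL w x = some (some (bh w l)) := by
  intro x
  induction x with
  | zero => intro h; omega
  | succ n ih =>
    intro hl h
    simp only [stt]
    by_cases hn : l = n
    · subst hn; rw [if_pos h1]
    · have hln : l < n := by omega
      rw [h n hln (Nat.lt_succ_self n)]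
      simp only [Bool.false_eq_true, if_false]
      exact ih hln (fun k hk hk2 => h k hk (by omega))

private theorem stt_of_zero (w : W m) : ∀ x : ℕ,
    (∀ k, k < x → val w k = false) → stt bL w x = if bL = true then some none else none := by
  intro x
  induction x with
  | zero => intro _; rfl
  | succ n ih =>
    intro h
    simp only [stt]
    rw [h n (Nat.lt_succ_self n)]
    simp only [Bool.false_eq_true, if_false]
    exact ih (fun k hk => h k (by omega))

private theorem stt_dich (w : W m) : ∀ x : ℕ,
    (∃ l, l < x ∧ val w l = true ∧ (∀ k, l < k → k < x → val w k = false)) ∨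
      (∀ k, k < x → val w k = false) := by
  intro x
  induction x with
  | zero => right; intro k hk; omega
  | succ n ih =>
    by_cases hn : val w n = true
    · left
      exact ⟨n, Nat.lt_succ_self n, hn, fun k h1 h2 => by omega⟩
    · have hn' : val w n = false := by simpa using hn
      rcases ih with ⟨l, h1, h2, h3⟩ | h
      · left
        refine ⟨l, by omega, h2, fun k hk hk2 => ?_⟩
        by_cases hkn : k = n
        · rw [hkn]; exact hn'
        · exact h3 k hk (by omega)
      · right
        intro k hk
        by_cases hkn : k = n
        · rw [hkn]; exact hn'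
        · exact h k (by omega)

/-- the front is the nearest infected site -/
theorem stt_some (w : W m) (x : ℕ) (hx : x ≤ m) (s : FS) (hs : stt bL w x = some s) :
    -1 ≤ levZ s ∧ levZ s < x ∧ ev bL bR w (levZ s) = true ∧
      ∀ k : ℤ, levZ s < k → k < x → ev bL bR w k = false := by
  rcases stt_dich w x with ⟨l, h1, h2, h3⟩ | h
  · rw [stt_of_last w l h2 x h1 h3] at hs
    have hs' : s = some (bh w l) := by simpa using hs.symm
    subst hs'
    have hlv : levZ (some (bh w l)) = (l : ℤ) := by simp [levZ, bh_length]
    rw [hlv]
    refine ⟨by omega, by omega, ?_, ?_⟩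
    · rw [ev_nat w l (by omega)]; exact h2
    · intro k hk hk2
      obtain ⟨n, rfl⟩ : ∃ n : ℕ, k = n := ⟨k.toNat, by omega⟩
      rw [ev_nat w n (by omega)]
      exact h3 n (by omega) (by omega)
  · rw [stt_of_zero w x h] at hs
    by_cases hb : bL = true
    · rw [if_pos hb] at hs
      have hs' : s = none := by simpa using hs.symm
      subst hs'
      have hlv : levZ none = -1 := rfl
      rw [hlv]
      refine ⟨by omega, by omega, ?_, ?_⟩
      · rw [ev_left]; exact hb
      · intro k hk hk2
        obtain ⟨n, rfl⟩ : ∃ n : ℕ, k = n := ⟨k.toNat, by omega⟩
        rw [ev_nat w n (by omega)]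
        exact h n (by omega)
    · rw [if_neg hb] at hs
      simp at hs

private theorem stt_none_iff (w : W m) (x : ℕ) (hs : stt bL w x = none) :
    bL = false ∧ ∀ k, k < x → val w k = false := by
  rcases stt_dich w x with ⟨l, h1, h2, h3⟩ | h
  · rw [stt_of_last w l h2 x h1 h3] at hs
    simp at hs
  · rw [stt_of_zero w x h] at hs
    by_cases hb : bL = true
    · rw [if_pos hb] at hs; simp at hs
    · exact ⟨by simpa using hb, h⟩

theorem stt_none (w : W m) (x : ℕ) (hx : x ≤ m) (hs : stt bL w x = none) :
    ∀ k : ℤ, k < x → ev bL bR w k = false := by
  obtain ⟨hb, h⟩ := stt_none_iff w x hs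
  intro k hk
  by_cases h1 : k < -1
  · exact ev_out w k (Or.inl h1)
  · by_cases h2 : k = -1
    · rw [h2, ev_left]; exact hb
    · obtain ⟨n, rfl⟩ : ∃ n : ℕ, k = n := ⟨k.toNat, by omega⟩
      rw [ev_nat w n (by omega)]
      exact h n (by omega)

/-- the summand at a natural number index -/
private noncomputable def TT (q : ℝ) (bL bR : Bool) (w : W m) (x : ℕ) (Φ : Option FS → ℝ)
    (i : ℕ) : ℝ :=
  if kc bL bR w (i : ℤ) then
    q * Φ (stt bL (updN w i true) (x + 1)) + (1 - q) * Φ (stt bL (updN w i false) (x + 1))
      - Φ (stt bL w (x + 1)) else 0

private theorem LL_eq_sum (w : W m) (x : ℕ) (Φ : Option FS → ℝ) :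
    LL q bL bR (fun v => Φ (stt bL v (x + 1))) w = ∑ i ∈ range m, TT q bL bR w x Φ i := by
  rw [← Fin.sum_univ_eq_sum_range (fun i => TT q bL bR w x Φ i) m]
  unfold LL TT
  refine Finset.sum_congr rfl (fun i _ => ?_)
  rw [update_eq_updN, update_eq_updN]

private theorem TT_gt (w : W m) (x : ℕ) (Φ : Option FS → ℝ) (i : ℕ) (hi : x < i) (him : i < m) :
    TT q bL bR w x Φ i = 0 := by
  unfold TT
  have key : ∀ b, stt bL (updN w i b) (x + 1) = stt bL w (x + 1) := by
    intro b
    apply stt_congr
    intro k hk
    rw [val_updN w i b k him, if_neg (by omega)]
  rw [key, key]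
  split_ifs
  · ring
  · rfl

private theorem TT_nk (w : W m) (x : ℕ) (Φ : Option FS → ℝ) (i : ℕ)
    (h1 : ev bL bR w ((i : ℤ) - 1) = false) (h2 : ev bL bR w ((i : ℤ) + 1) = false) :
    TT q bL bR w x Φ i = 0 := by
  unfold TT
  rw [if_neg]
  unfold kc
  rw [h1, h2]
  simp

private theorem ev_of_zero (w : W m) (x : ℕ) (hx : x < m) (h2 : ev bL bR w (x + 1) = false)
    (l : ℕ) (h3 : ∀ k, l ≤ k → k < x + 1 → val w k = false) (k : ℕ) (hk : l ≤ k) (hk2 : k ≤ x + 1) :
    ev bL bR w (k : ℤ) = false := by
  by_cases h : k = x + 1
  · subst h; push_cast; exact h2
  · rw [ev_nat w k (by omega)]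
    exact h3 k hk (by omega)

/-- **embedding** -/
theorem LL_stt (w : W m) (x : ℕ) (hx : x < m) (h1 : val w x = false)
    (h2 : ev bL bR w (x + 1) = false) (s : FS) (hs : stt bL w (x + 1) = some s)
    (Φ : Option FS → ℝ) :
    LL q bL bR (fun v => Φ (stt bL v (x + 1))) w = GG q bL (fun t => Φ (some t)) s := by
  rw [LL_eq_sum]
  rcases stt_dich w (x + 1) with ⟨l, hl1, hl2, hl3⟩ | h
  · have hstt := stt_of_last (bL := bL) w l hl2 (x + 1) hl1 hl3
    rw [hstt] at hs
    have hs' : s = some (bh w l) := by simpa using hs.symm
    subst hs'
    have hlx : l < x := by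
      by_contra hcon
      have : l = x := by omega
      rw [this, h1] at hl2
      simp at hl2
    have hlen : (bh w l).length = l := bh_length w l
    have evz := ev_of_zero (bL := bL) (bR := bR) w x hx h2 (l + 1) (fun k hk hk2 => hl3 k (by omega) hk2)
    -- restrict the sum
    have hsub : ∑ i ∈ range m, TT q bL bR w x Φ i = ∑ i ∈ range (l + 2), TT q bL bR w x Φ i := by
      symm
      apply Finset.sum_subset
      · intro i hi
        rw [Finset.mem_range] at hi ⊢
        omega
      · intro i hi hi2
        rw [Finset.mem_range] at hi hi2
        by_cases hix : x < i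
        · exact TT_gt w x Φ i hix hi
        · apply TT_nk
          · have := evz (i - 1) (by omega) (by omega)
            rw [Nat.cast_sub (by omega)] at this
            simpa using this
          · have := evz (i + 1) (by omega) (by omega)
            push_cast at this
            exact this
    rw [hsub, Finset.sum_range_succ, Finset.sum_range_succ]
    -- the term l + 1
    have hC : TT q bL bR w x Φ (l + 1)
        = q * (Φ (some (some (true :: bh w l))) - Φ (some (some (bh w l)))) := by
      unfold TT
      have hk : kc bL bR w ((l + 1 : ℕ) : ℤ) := by
        left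
        push_cast
        rw [add_sub_cancel_right, ev_nat w l (by omega)]
        exact hl2
      rw [if_pos hk]
      have ht : stt bL (updN w (l + 1) true) (x + 1) = some (some (true :: bh w l)) := by
        rw [stt_of_last (updN w (l + 1) true) (l + 1) (by rw [val_updN _ _ _ _ (by omega)]; simp)
          (x + 1) (by omega)
          (fun k hk hk2 => by
            rw [val_updN _ _ _ _ (by omega), if_neg (by omega)]; exact hl3 k (by omega) hk2)]
        have : bh (updN w (l + 1) true) (l + 1) = bh w (l + 1) :=
          bh_congr _ _ _ (fun k hk => by rw [val_updN _ _ _ _ (by omega), if_neg (by omega)])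
        rw [this]
        simp [bh, hl2]
      have hf : stt bL (updN w (l + 1) false) (x + 1) = some (some (bh w l)) := by
        rw [← hstt]
        apply stt_congr
        intro k hk
        rw [val_updN _ _ _ _ (by omega)]
        split_ifs with hkl
        · rw [hkl, hl3 (l + 1) (by omega) (by omega)]
        · rfl
      rw [ht, hf, hstt]
      ring
    -- the term l
    have hD : TT q bL bR w x Φ l
        = if lv bL (bh w l) 0 = true then
            (1 - q) * (Φ (some (bk (bh w l))) - Φ (some (some (bh w l)))) else 0 := by
      unfold TT
      have hev : ev bL bR w ((l : ℤ) + 1) = false := by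
        have := evz (l + 1) (by omega) (by omega)
        push_cast at this
        exact this
      have hev2 : ev bL bR w ((l : ℤ) - 1) = lv bL (bh w l) 0 := by
        unfold lv
        rw [hlen]
        cases l with
        | zero => simp [ev_left]
        | succ l =>
          rw [if_neg (by omega)]
          simp only [bh]
          push_cast
          rw [add_sub_cancel_right, ev_nat w l (by omega)]
          simp
      have hk : kc bL bR w (l : ℤ) ↔ lv bL (bh w l) 0 = true := by
        unfold kc
        rw [hev, hev2]
        simp
      by_cases hlv : lv bL (bh w l) 0 = true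
      · rw [if_pos (hk.mpr hlv), if_pos hlv]
        have ht : stt bL (updN w l true) (x + 1) = some (some (bh w l)) := by
          rw [← hstt]
          apply stt_congr
          intro k hk
          rw [val_updN _ _ _ _ (by omega)]
          split_ifs with hkl
          · rw [hkl, hl2]
          · rfl
        have hf : stt bL (updN w l false) (x + 1) = some (bk (bh w l)) := by
          cases l with
          | zero =>
            have : bL = true := by
              simpa [lv, bh] using hlv
            rw [stt_of_zero (updN w 0 false) (x + 1) (fun k hk => by
              rw [val_updN _ _ _ _ (by omega)]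
              split_ifs with hk0
              · rfl
              · exact hl3 k (by omega) hk), if_pos this]
            rfl
          | succ l =>
            have hvl : val w l = true := by
              have : ¬ (0 = (bh w (l + 1)).length) := by rw [hlen]; omega
              unfold lv at hlv
              rw [if_neg this] at hlv
              simpa [bh] using hlv
            rw [stt_of_last (updN w (l + 1) false) l
              (by rw [val_updN _ _ _ _ (by omega), if_neg (by omega)]; exact hvl)
              (x + 1) (by omega)
              (fun k hk hk2 => by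
                rw [val_updN _ _ _ _ (by omega)]
                split_ifs with hk0
                · rfl
                · exact hl3 k (by omega) hk2)]
            have : bh (updN w (l + 1) false) l = bh w l :=
              bh_congr _ _ _ (fun k hk => by rw [val_updN _ _ _ _ (by omega), if_neg (by omega)])
            rw [this]
            rfl
        rw [ht, hf, hstt]
        ring
      · rw [if_neg (fun h => hlv (hk.mp h)), if_neg hlv]
    -- the terms below l
    have hE : ∑ i ∈ range l, TT q bL bR w x Φ i
        = ∑ i ∈ range (bh w l).length, if lc bL (bh w l) i then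
        q * Φ (some (some ((bh w l).set i true))) + (1 - q) * Φ (some (some ((bh w l).set i false)))
          - Φ (some (some (bh w l))) else 0 := by
      rw [hlen, ← Finset.sum_range_reflect]
      refine Finset.sum_congr rfl (fun j hj => ?_)
      rw [Finset.mem_range] at hj
      set i := l - 1 - j with hi
      have hil : i < l := by omega
      have hset : ∀ b, stt bL (updN w i b) (x + 1) = some (some ((bh w l).set j b)) := by
        intro b
        rw [stt_of_last (updN w i b) l
          (by rw [val_updN _ _ _ _ (by omega), if_neg (by omega)]; exact hl2)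
          (x + 1) (by omega)
          (fun k hk hk2 => by
            rw [val_updN _ _ _ _ (by omega), if_neg (by omega)]
            exact hl3 k (by omega) hk2)]
        congr 2
        apply List.ext_getElem
        · simp [bh_length]
        · intro n hn1 hn2
          rw [bh_length] at hn1
          have e1 : (bh (updN w i b) l)[n]'(by rw [bh_length]; exact hn1)
              = (bh (updN w i b) l).getD n false := by
            rw [List.getD_eq_getElem _ _ (by rw [bh_length]; exact hn1)]
          rw [e1, bh_getD _ _ _ hn1, val_updN _ _ _ _ (by omega), List.getElem_set]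
          by_cases hjn : j = n
          · rw [if_pos (by omega), if_pos hjn]
          · rw [if_neg (by omega), if_neg hjn, ← bh_getD _ _ _ hn1,
              List.getD_eq_getElem _ _ (by rw [bh_length]; exact hn1)]
      have hkc : kc bL bR w (i : ℤ) ↔ lc bL (bh w l) j := by
        unfold kc lc
        have e1 : ev bL bR w ((i : ℤ) - 1) = lv bL (bh w l) (j + 1) := by
          unfold lv
          rw [hlen]
          by_cases hjl : j + 1 = l
          · rw [if_pos hjl]
            have : (i : ℤ) - 1 = -1 := by omega
            rw [this, ev_left]
          · rw [if_neg hjl, bh_getD _ _ _ (by omega)]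
            have : (i : ℤ) - 1 = ((l - 1 - (j + 1) : ℕ) : ℤ) := by omega
            rw [this, ev_nat w _ (by omega)]
        have e2 : (ev bL bR w ((i : ℤ) + 1) = true) ↔ (j = 0 ∨ lv bL (bh w l) (j - 1) = true) := by
          by_cases hj0 : j = 0
          · have : (i : ℤ) + 1 = (l : ℤ) := by omega
            rw [this, ev_nat w l (by omega)]
            simp [hj0, hl2]
          · have : (i : ℤ) + 1 = ((l - 1 - (j - 1) : ℕ) : ℤ) := by omega
            rw [this, ev_nat w _ (by omega)]
            unfold lv
            rw [hlen, if_neg (by omega), bh_getD _ _ _ (by omega)]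
            simp [hj0]
        rw [e1, e2]
        tauto
      unfold TT
      rw [hset, hset, hstt]
      simp only [hkc]
    rw [hC, hD, hE]
    simp only [GG]
    ring
  · -- the front is at `-1`
    have hstt := stt_of_zero (bL := bL) w (x + 1) h
    rw [hstt] at hs
    have hb : bL = true := by
      by_contra hb
      rw [if_neg hb] at hs
      simp at hs
    rw [if_pos hb] at hs hstt
    have hs' : s = none := by simpa using hs.symm
    subst hs'
    have evz := ev_of_zero (bL := bL) (bR := bR) w x hx h2 0 (fun k _ hk2 => h k hk2)
    have hsub : ∑ i ∈ range m, TT q bL bR w x Φ i = ∑ i ∈ range 1, TT q bL bR w x Φ i := by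
      symm
      apply Finset.sum_subset
      · intro i hi
        rw [Finset.mem_range] at hi ⊢
        omega
      · intro i hi hi2
        rw [Finset.mem_range] at hi hi2
        by_cases hix : x < i
        · exact TT_gt w x Φ i hix hi
        · apply TT_nk
          · have := evz (i - 1) (by omega) (by omega)
            rw [Nat.cast_sub (by omega)] at this
            simpa using this
          · have := evz (i + 1) (by omega) (by omega)
            push_cast at this
            exact this
    rw [hsub, Finset.sum_range_one]
    unfold TT
    have hk : kc bL bR w ((0 : ℕ) : ℤ) := by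
      left
      have : (((0 : ℕ) : ℤ) - 1) = -1 := by norm_num
      rw [this, ev_left]
      exact hb
    rw [if_pos hk]
    have ht : stt bL (updN w 0 true) (x + 1) = some (some []) := by
      rw [stt_of_last (updN w 0 true) 0 (by rw [val_updN _ _ _ _ (by omega)]; simp)
        (x + 1) (by omega)
        (fun k hk hk2 => by
          rw [val_updN _ _ _ _ (by omega), if_neg (by omega)]; exact h k hk2)]
      rfl
    have hf : stt bL (updN w 0 false) (x + 1) = some none := by
      rw [← hstt]
      apply stt_congr
      intro k hk
      rw [val_updN _ _ _ _ (by omega)]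
      split_ifs with hkl
      · rw [hkl, h 0 (by omega)]
      · rfl
    rw [ht, hf, hstt]
    simp only [GG]
    ring

theorem LL_stt_none (w : W m) (x : ℕ) (hx : x < m) (h1 : val w x = false)
    (h2 : ev bL bR w (x + 1) = false) (hs : stt bL w (x + 1) = none) (Φ : Option FS → ℝ) :
    LL q bL bR (fun v => Φ (stt bL v (x + 1))) w = 0 := by
  rw [LL_eq_sum]
  obtain ⟨hb, h⟩ := stt_none_iff w (x + 1) hs
  have evz := ev_of_zero (bL := bL) (bR := bR) w x hx h2 0 (fun k _ hk2 => h k hk2)
  apply Finset.sum_eq_zero
  intro i hi
  rw [Finset.mem_range] at hi
  by_cases hix : x < i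
  · exact TT_gt w x Φ i hix hi
  · apply TT_nk
    · by_cases hi0 : i = 0
      · subst hi0
        have : (((0 : ℕ) : ℤ) - 1) = -1 := by norm_num
        rw [this, ev_left]
        exact hb
      · have := evz (i - 1) (by omega) (by omega)
        rw [Nat.cast_sub (by omega)] at this
        simpa using this
    · have := evz (i + 1) (by omega) (by omega)
      push_cast at this
      exact this

end Pool.Agent.Lib.MP_4c13d6_pr
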