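import Pool.Agent.Lib.MP_4c13d6_pr.EnergyL

/-! MK-2: restriction of a generator to a subset of the state space. -/

open Finset Real

namespace Pool.Agent.Lib.MP_4c13d6_pr

variable {X : Type*} [Fintype X] [DecidableEq X] {Q : Matrix X X ℝ} (G : X → Prop)
  [DecidablePred G]

/-- restriction of a matrix to a subset -/
def subM (Q : Matrix X X ℝ) : Matrix {x // G x} {x // G x} ℝ := fun x y => Q x.1 y.1

section normed

attribute [local instance] Matrix.linftyOpNormedRing Matrix.linftyOpNormedAlgebra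

private theorem mks_hasSum {Y : Type*} [Fintype Y] [DecidableEq Y] (M : Matrix Y Y ℝ) (x y : Y) :
    HasSum (fun n : ℕ => ((n.factorial : ℝ)⁻¹) * (M ^ n) x y) (NormedSpace.exp M x y) := by
  have h := NormedSpace.exp_series_hasSum_exp' (𝕂 := ℝ) M
  exact (LinearMap.toContinuousLinearMap (Matrix.entryLinearMap ℝ ℝ x y)).hasSum h

end normed

private theorem mks_sum_sub (f : X → ℝ) (h : ∀ x, ¬ G x → f x = 0) :
    ∑ x : {x // G x}, f x.1 = ∑ x, f x := by
  rw [← Finset.sum_subtype (univ.filter G) (by simp) f, Finset.sum_filter]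
  exact Finset.sum_congr rfl fun x _ => by
    split_ifs with hx
    · rfl
    · rw [h x hx]

private theorem mks_pow {M : Matrix X X ℝ} (h : ∀ x y, G x → ¬ G y → M x y = 0) (n : ℕ) :
    (∀ x y, G x → ¬ G y → (M ^ n) x y = 0) ∧
    (∀ x y : {x // G x}, ((subM G M) ^ n) x y = (M ^ n) x.1 y.1) := by
  induction n with
  | zero =>
    refine ⟨fun x y hx hy => ?_, fun x y => ?_⟩
    · rw [pow_zero, Matrix.one_apply, if_neg]
      rintro rfl; exact hy hx
    · rw [pow_zero, pow_zero, Matrix.one_apply, Matrix.one_apply]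
      simp [Subtype.ext_iff]
  | succ n ih =>
    obtain ⟨i1, i2⟩ := ih
    refine ⟨fun x y hx hy => ?_, fun x y => ?_⟩
    · rw [pow_succ, Matrix.mul_apply]
      refine sum_eq_zero fun z _ => ?_
      by_cases hz : G z
      · rw [h z y hz hy, mul_zero]
      · rw [i1 x z hx hz, zero_mul]
    · rw [pow_succ, pow_succ, Matrix.mul_apply, Matrix.mul_apply]
      rw [← mks_sum_sub G (fun z => (M ^ n) x.1 z * M z y.1)
        (fun z hz => by rw [i1 x.1 z x.2 hz, zero_mul])]
      refine sum_congr rfl fun z _ => ?_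
      rw [i2]
      rfl

/-- closed classes -/
theorem PP_sub_eq (h : ∀ x y, G x → ¬ G y → Q x y = 0) (t : ℝ) (x y : {x // G x}) :
    PP (subM G Q) t x y = PP Q t x.1 y.1 := by
  unfold PP
  have e : t • subM G Q = subM G (t • Q) := rfl
  rw [e]
  have h' : ∀ x y, G x → ¬ G y → (t • Q) x y = 0 := by
    intro x y hx hy
    rw [Matrix.smul_apply, h x y hx hy, smul_zero]
  refine (mks_hasSum (subM G (t • Q)) x y).unique ?_
  have h2 := mks_hasSum (t • Q) x.1 y.1
  convert h2 using 2 with n
  rw [(mks_pow G h' n).2]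

theorem PP_closed (h : ∀ x y, G x → ¬ G y → Q x y = 0) (t : ℝ) (x y : X) (hx : G x)
    (hy : ¬ G y) : PP Q t x y = 0 := by
  unfold PP
  have h' : ∀ x y, G x → ¬ G y → (t • Q) x y = 0 := by
    intro x y hx hy
    rw [Matrix.smul_apply, h x y hx hy, smul_zero]
  refine (mks_hasSum (t • Q) x y).unique ?_
  have : (fun n : ℕ => ((n.factorial : ℝ)⁻¹) * ((t • Q) ^ n) x y) = fun _ => 0 := by
    funext n
    rw [(mks_pow G h' n).1 x y hx hy, mul_zero]
  rw [this]
  exact hasSum_zero

/-- the killed chain is dominated by the chain -/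
theorem PP_sub_le (h : ∀ x y, x ≠ y → 0 ≤ Q x y) {t : ℝ} (ht : 0 ≤ t) (x y : {x // G x}) :
    PP (subM G Q) t x y ≤ PP Q t x.1 y.1 := by
  set Q' : Matrix X X ℝ := fun x y => if x = y then Q x y else if G x ∧ G y then Q x y else 0
    with hQ'
  have e : subM G Q = subM G Q' := by
    funext x y
    simp only [subM, hQ']
    by_cases hxy : x.1 = y.1
    · rw [if_pos hxy]
    · rw [if_neg hxy, if_pos ⟨x.2, y.2⟩]
  have hcl : ∀ x y, G x → ¬ G y → Q' x y = 0 := by
    intro x y hx hy
    simp only [hQ']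
    rw [if_neg (by rintro rfl; exact hy hx), if_neg (fun h => hy h.2)]
  rw [e, PP_sub_eq G hcl]
  refine PP_mono (fun x y hxy => ?_) (fun x y => ?_) ht _ _
  · simp only [hQ']
    rw [if_neg hxy]
    split_ifs
    · exact h x y hxy
    · exact le_rfl
  · simp only [hQ']
    split_ifs with h1 h2
    · exact le_rfl
    · exact le_rfl
    · exact h x y h1

private theorem mks_row (hQ : IsGen Q) (y : {x // G x}) :
    ∑ z : {x // G x}, Q y.1 z.1 = - ∑ z : X, if G z then 0 else Q y.1 z := by
  have h1 := mks_sum_sub G (fun z => if G z then Q y.1 z else 0) (fun z hz => if_neg hz)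
  have h2 : ∑ z : {x // G x}, Q y.1 z.1 = ∑ z : {x // G x}, if G z.1 then Q y.1 z.1 else 0 :=
    sum_congr rfl fun z _ => by rw [if_pos z.2]
  rw [h2, h1]
  have h3 := hQ.2 y.1
  have h4 : ∑ z, Q y.1 z = ∑ z, ((if G z then Q y.1 z else 0) + (if G z then 0 else Q y.1 z)) :=
    sum_congr rfl fun z _ => by split_ifs <;> simp
  rw [h4, sum_add_distrib] at h3
  linarith

/-- mass lost by the killed chain -/
theorem lost_le (hQ : IsGen Q) {t : ℝ} (ht : 0 ≤ t) (x : {x // G x}) :
    1 - ∑ y, PP (subM G Q) t x y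
      ≤ ∫ s in (0 : ℝ)..t, ∑ y : {x // G x}, PP Q s x.1 y.1 *
          (∑ z : X, if G z then 0 else Q y.1 z) := by
  have hd : ∀ s : ℝ, HasDerivAt (fun s => ∑ y, PP (subM G Q) s x y)
      (- ∑ y : {x // G x}, PP (subM G Q) s x y * (∑ z : X, if G z then 0 else Q y.1 z)) s := by
    intro s
    have h1 := PP_deriv (subM G Q) (fun _ => 1) x s
    simp only [mul_one] at h1
    convert h1 using 1
    rw [← sum_neg_distrib]
    refine sum_congr rfl fun y _ => ?_
    have h2 : ∑ z, subM G Q y z = ∑ z : {x // G x}, Q y.1 z.1 := rfl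
    rw [h2, mks_row G hQ y]
    ring
  have hc1 : Continuous (fun s => ∑ y : {x // G x}, PP (subM G Q) s x y *
      (∑ z : X, if G z then 0 else Q y.1 z)) := by
    refine continuous_finsetSum _ fun y _ => ?_
    refine Continuous.mul ?_ continuous_const
    exact continuous_iff_continuousAt.2 fun s => (PP_deriv' (subM G Q) x y s).continuousAt
  have hc2 : Continuous (fun s => ∑ y : {x // G x}, PP Q s x.1 y.1 *
      (∑ z : X, if G z then 0 else Q y.1 z)) := by
    refine continuous_finsetSum _ fun y _ => ?_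
    refine Continuous.mul ?_ continuous_const
    exact continuous_iff_continuousAt.2 fun s => (PP_deriv' Q x.1 y.1 s).continuousAt
  have h1 := intervalIntegral.integral_eq_sub_of_hasDerivAt (a := 0) (b := t)
    (fun s _ => hd s) (hc1.neg.intervalIntegrable _ _)
  have h0 : ∑ y, PP (subM G Q) 0 x y = 1 := by
    rw [PP_zero]
    simp [Matrix.one_apply]
  rw [h0, intervalIntegral.integral_neg] at h1
  have h2 : 1 - ∑ y, PP (subM G Q) t x y = ∫ s in (0 : ℝ)..t, ∑ y : {x // G x},
      PP (subM G Q) s x y * (∑ z : X, if G z then 0 else Q y.1 z) := by linarith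
  rw [h2]
  refine intervalIntegral.integral_mono_on ht (hc1.intervalIntegrable _ _)
    (hc2.intervalIntegrable _ _) fun s hs => ?_
  refine sum_le_sum fun y _ => mul_le_mul_of_nonneg_right (PP_sub_le G hQ.1 hs.1 x y) ?_
  refine sum_nonneg fun z _ => ?_
  split_ifs with hz
  · exact le_rfl
  · exact hQ.1 _ _ (fun h => hz (h ▸ y.2))

/-- reflected generator: jumps out of `G` are suppressed -/
noncomputable def reflM (Q : Matrix X X ℝ) : Matrix {x // G x} {x // G x} ℝ := fun x y =>
  if x = y then - ∑ z : {x // G x}, (if z = x then 0 else Q x.1 z.1) else Q x.1 y.1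

theorem reflM_gen (hQ : IsGen Q) : IsGen (reflM G Q) := by
  refine ⟨fun x y hxy => ?_, fun x => ?_⟩
  · unfold reflM
    rw [if_neg hxy]
    exact hQ.1 _ _ (fun h => hxy (Subtype.ext h))
  · unfold reflM
    have h1 : ∀ y : {x // G x}, (if x = y then - ∑ z : {x // G x}, (if z = x then 0 else Q x.1 z.1)
        else Q x.1 y.1) = (if x = y then - ∑ z : {x // G x}, (if z = x then 0 else Q x.1 z.1)
          else 0) + (if y = x then 0 else Q x.1 y.1) := by
      intro y
      by_cases h : x = y
      · rw [if_pos h, if_pos h, if_pos h.symm, add_zero]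
      · rw [if_neg h, if_neg h, if_neg (fun h' => h h'.symm), zero_add]
    rw [sum_congr rfl fun y _ => h1 y, sum_add_distrib, sum_ite_eq]
    simp

private theorem mks_sub_le_refl (hQ : IsGen Q) (x y : {x // G x}) :
    subM G Q x y ≤ reflM G Q x y := by
  unfold subM reflM
  split_ifs with h
  · subst h
    have h1 := mks_row G hQ x
    have h2 : 0 ≤ ∑ z : X, if G z then 0 else Q x.1 z := by
      refine sum_nonneg fun z _ => ?_
      split_ifs with hz
      · exact le_rfl
      · exact hQ.1 _ _ (fun h => hz (h ▸ x.2))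
    have h3 : ∑ z : {x // G x}, Q x.1 z.1 = ∑ z : {x // G x},
        ((if z = x then Q x.1 x.1 else 0) + (if z = x then 0 else Q x.1 z.1)) := by
      refine sum_congr rfl fun z _ => ?_
      by_cases h : z = x
      · rw [if_pos h, if_pos h, h, add_zero]
      · rw [if_neg h, if_neg h, zero_add]
    rw [h3, sum_add_distrib, sum_ite_eq'] at h1
    simp only [mem_univ, if_true] at h1
    linarith
  · exact le_rfl

/-- distance between the chain and the reflected chain -/
theorem chain_vs_refl (hQ : IsGen Q) {t : ℝ} (ht : 0 ≤ t) (x : {x // G x}) :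
    ∑ y : {x // G x}, |PP Q t x.1 y.1 - PP (reflM G Q) t x y|
      + ∑ z : X, (if G z then 0 else PP Q t x.1 z)
      ≤ 2 * ∫ s in (0 : ℝ)..t, ∑ y : {x // G x}, PP Q s x.1 y.1 *
          (∑ z : X, if G z then 0 else Q y.1 z) := by
  have hk := lost_le G hQ ht x
  have h1 : ∀ y : {x // G x}, |PP Q t x.1 y.1 - PP (reflM G Q) t x y| ≤
      PP Q t x.1 y.1 + PP (reflM G Q) t x y - 2 * PP (subM G Q) t x y := by
    intro y
    have a1 := PP_sub_le G hQ.1 ht x y
    have a2 : PP (subM G Q) t x y ≤ PP (reflM G Q) t x y :=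
      PP_mono (fun a b hab => hQ.1 _ _ (fun h => hab (Subtype.ext h)))
        (mks_sub_le_refl G hQ) ht x y
    rw [abs_le]
    constructor <;> linarith
  have h2 : ∑ y : {x // G x}, PP Q t x.1 y.1 + ∑ z : X, (if G z then 0 else PP Q t x.1 z) = 1 := by
    have e1 := mks_sum_sub G (fun z => if G z then PP Q t x.1 z else 0) (fun z hz => if_neg hz)
    have e2 : ∑ z : {x // G x}, PP Q t x.1 z.1
        = ∑ z : {x // G x}, if G z.1 then PP Q t x.1 z.1 else 0 :=
      sum_congr rfl fun z _ => by rw [if_pos z.2]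
    rw [e2, e1, ← sum_add_distrib, ← PP_row hQ.2 t x.1]
    exact sum_congr rfl fun z _ => by split_ifs <;> simp
  have h3 := PP_row (reflM_gen G hQ).2 t x
  have h4 := sum_le_sum fun y (_ : y ∈ (univ : Finset {x // G x})) => h1 y
  rw [sum_sub_distrib, sum_add_distrib, ← mul_sum, h3] at h4
  linarith

end Pool.Agent.Lib.MP_4c13d6_pr
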