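import Pool.Agent.Lib.MP_4c13d6_pr.MKg
import Pool.Agent.Lib.MP_4c13d6_pr.MKsub
import Pool.Agent.Lib.MP_4c13d6_pr.Emb

section

/-! CH-4: the fronts are not faster than `v` (Lemma 25). -/

open Finset Real

namespace Pool.Agent.Lib.MP_4c13d6_pr

variable {q : ℝ}

/-- the function of the state of a front -/
private noncomputable def gl_phi (θ : ℝ) (H2 : FS → ℝ) (x : ℕ) : Option FS → ℝ
  | none => 0
  | some s => exp (θ * (lev s + H2 s - x))

private theorem gl_phi_nonneg (θ : ℝ) (H2 : FS → ℝ) (x : ℕ) (o : Option FS) :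
    0 ≤ gl_phi θ H2 x o := by
  cases o with
  | none => exact le_rfl
  | some s => exact (exp_pos _).le

/-- lower bound when there is an infected site on the left at distance `≤ d` -/
private theorem gl_lower {m : ℕ} {bL bR : Bool} {θ C0 : ℝ} (hθ : 0 < θ) {H2 : FS → ℝ}
    (hH2 : ∀ s, |H2 s| ≤ C0) (w : W m) (x : ℕ) (hx : x < m) (k : ℤ) (hk : k ≤ x)
    (hkev : ev bL bR w k = true) (d : ℝ) (hd : (x : ℝ) - k ≤ d) :
    exp (-θ * (d + C0)) ≤ gl_phi θ H2 x (stt bL w (x + 1)) := by
  cases hs : stt bL w (x + 1) with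
  | none =>
    have := stt_none (bR := bR) w (x + 1) (by omega) hs k (by push_cast; omega)
    rw [this] at hkev
    exact absurd hkev (by simp)
  | some s =>
    obtain ⟨h1, h2, h3, h4⟩ := stt_some (bR := bR) w (x + 1) (by omega) s hs
    have hle : k ≤ levZ s := by
      by_contra hcon
      push Not at hcon
      have := h4 k hcon (by push_cast; omega)
      rw [this] at hkev
      exact absurd hkev (by simp)
    have hle' : (k : ℝ) ≤ lev s := by
      unfold lev
      exact_mod_cast hle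
    have h5 := (abs_le.1 (hH2 s)).1
    simp only [gl_phi]
    apply exp_le_exp.2
    have h6 : -(d + C0) ≤ lev s + H2 s - x := by linarith
    nlinarith

/-- upper bound when there is no infected site at distance `< D` -/
private theorem gl_upper {m : ℕ} {bL bR : Bool} {θ C0 : ℝ} (hθ : 0 < θ) {H2 : FS → ℝ}
    (hH2 : ∀ s, |H2 s| ≤ C0) (w : W m) (x : ℕ) (hx : x < m) (D : ℕ)
    (hfar : ∀ k : ℤ, |k - x| < D → ev bL bR w k = false) :
    gl_phi θ H2 x (stt bL w (x + 1)) ≤ exp (-θ * (D - C0)) := by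
  cases hs : stt bL w (x + 1) with
  | none => exact (exp_pos _).le
  | some s =>
    obtain ⟨h1, h2, h3, h4⟩ := stt_some (bR := bR) w (x + 1) (by omega) s hs
    have hle : levZ s ≤ x - D := by
      by_contra hcon
      push Not at hcon
      have := hfar (levZ s) (by rw [abs_lt]; push_cast at h2; omega)
      rw [this] at h3
      exact absurd h3 (by simp)
    have hle' : lev s ≤ x - D := by
      unfold lev
      exact_mod_cast hle
    have h5 := (abs_le.1 (hH2 s)).2
    simp only [gl_phi]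
    apply exp_le_exp.2
    have h6 : lev s + H2 s - x ≤ -(D - C0) := by linarith
    nlinarith

/-- supermartingale property of one side -/
private theorem gl_side {m : ℕ} {bL bR : Bool} {θ k : ℝ} {H2 : FS → ℝ}
    (hG : ∀ s, GG q bL (fun t => exp (θ * (lev t + H2 t))) s ≤ k * exp (θ * (lev s + H2 s)))
    (w : W m) (x : ℕ) (hx : x < m) (h1 : val w x = false)
    (h2 : ev bL bR w (x + 1) = false) :
    LL q bL bR (fun v => gl_phi θ H2 x (stt bL v (x + 1))) w ≤
      k * gl_phi θ H2 x (stt bL w (x + 1)) := by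
  cases hs : stt bL w (x + 1) with
  | none =>
    rw [LL_stt_none w x hx h1 h2 hs]
    simp [gl_phi]
  | some s =>
    rw [LL_stt w x hx h1 h2 s hs]
    have h3 : (fun t => gl_phi θ H2 x (some t)) =
        fun t => exp (-(θ * x)) * exp (θ * (lev t + H2 t)) := by
      funext t
      simp only [gl_phi]
      rw [← exp_add]
      congr 1
      ring
    rw [h3, GG_smul]
    have h4 := mul_le_mul_of_nonneg_left (hG s) (exp_pos (-(θ * x))).le
    have h5 : gl_phi θ H2 x (some s) = exp (-(θ * x)) * exp (θ * (lev s + H2 s)) :=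
      congrFun h3 s
    rw [h5]
    linarith

/-- Lyapunov function -/
theorem exists_V' (hq : 0 < q) (hq1 : q < 1) {v : ℝ} (hv : IsSpeed q v) (ε : ℝ) (hε : 0 < ε) :
    ∃ θ C : ℝ, 0 < θ ∧ 0 < C ∧ ∀ (m : ℕ) (bL bR : Bool) (x : ℕ), x < m →
      ∃ V : W m → ℝ, (∀ w, 0 ≤ V w) ∧
        (∀ w r, ¬ far bL bR w x r → exp (-θ * (r + C)) ≤ V w) ∧
        (∀ w (D : ℕ), far bL bR w x D → V w ≤ exp (-θ * (D - C))) ∧
        (∀ w, LL q bL bR V w ≤ θ * (v + ε) * V w) := by
  have hall := fun z => theoremC hq hq1 hv z ε hε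
  choose θz Cz H1 H2 hθz hCz hH1 hH2 hG using hall
  obtain ⟨θ, hθ, hθle⟩ : ∃ θ, 0 < θ ∧ ∀ z, θ ≤ θz z :=
    ⟨min (θz true) (θz false), lt_min (hθz _) (hθz _), fun z => by
      cases z
      · exact min_le_right _ _
      · exact min_le_left _ _⟩
  obtain ⟨C0, hC0, hCle⟩ : ∃ C0, 0 ≤ C0 ∧ ∀ z, Cz z ≤ C0 :=
    ⟨max (Cz true) (Cz false), (hCz true).trans (le_max_left _ _), fun z => by
      cases z
      · exact le_max_right _ _
      · exact le_max_left _ _⟩
  have hH2' : ∀ z s, |H2 z s| ≤ C0 := fun z s => (hH2 z s).trans (hCle z)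
  have hG' : ∀ z s, GG q z (fun t => exp (θ * (lev t + H2 z t))) s ≤
      θ * (v + ε) * exp (θ * (lev s + H2 z s)) := fun z s => (hG z θ hθ (hθle z)).2 s
  have hv0 : 0 < v := hv.1
  have hk : 0 < θ * (v + ε) := by positivity
  have hlog : 0 < log 2 := log_pos (by norm_num)
  refine ⟨θ, C0 + log 2 / θ, hθ, by positivity, fun m bL bR x hx => ?_⟩
  have hx' : m - 1 - x < m := by omega
  let UL : W m → ℝ := fun w => gl_phi θ (H2 bL) x (stt bL w (x + 1))
  let UR' : W m → ℝ := fun w => gl_phi θ (H2 bR) (m - 1 - x) (stt bR w ((m - 1 - x) + 1))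
  let UR : W m → ℝ := fun w => UR' (mir w)
  let c0 : ℝ := exp (-θ * (1 + C0))
  have hUL : ∀ w, 0 ≤ UL w := fun w => gl_phi_nonneg _ _ _ _
  have hUR : ∀ w, 0 ≤ UR w := fun w => gl_phi_nonneg _ _ _ _
  have hc0 : 0 < c0 := exp_pos _
  have hdist : ((m - 1 - x : ℕ) : ℤ) = m - 1 - x := by omega
  -- lower bound for the sum
  have hlow : ∀ (w : W m) (k : ℤ) (d : ℝ), ev bL bR w k = true → |(k : ℝ) - x| ≤ d →
      exp (-θ * (d + C0)) ≤ UL w + UR w := by
    intro w k d hkev hd
    rw [abs_le] at hd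
    rcases le_or_gt k x with h | h
    · have := gl_lower (bR := bR) hθ (hH2' bL) w x hx k h hkev d (by linarith)
      linarith [hUR w]
    · have hev : ev bR bL (mir w) (m - 1 - k) = true := by
        rw [ev_mir]
        rw [show ((m : ℤ) - 1 - (m - 1 - k)) = k by ring]
        exact hkev
      have := gl_lower (bR := bL) hθ (hH2' bR) (mir w) (m - 1 - x) hx' (m - 1 - k)
        (by rw [hdist]; omega) hev d (by
          have h3 : (((m - 1 - x : ℕ) : ℤ) : ℝ) = ((m - 1 - x : ℤ) : ℝ) := by rw [hdist]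
          push_cast at h3 ⊢
          rw [h3]
          linarith)
      have h4 : exp (-θ * (d + C0)) ≤ UR w := this
      linarith [hUL w]
  have hlow' : ∀ (w : W m) (r : ℕ), ¬ far bL bR w x r → 1 ≤ r ∧
      exp (-θ * ((r : ℝ) - 1 + C0)) ≤ UL w + UR w := by
    intro w r hr
    unfold far at hr
    push Not at hr
    obtain ⟨k, hk1, hk2⟩ := hr
    have hk2' : ev bL bR w k = true := by
      cases h : ev bL bR w k
      · exact absurd h hk2
      · rfl
    have hr1 : 1 ≤ r := by
      have := abs_nonneg (k - (x : ℤ))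
      omega
    refine ⟨hr1, hlow w k _ hk2' ?_⟩
    have h3 : |k - (x : ℤ)| ≤ (r : ℤ) - 1 := by omega
    have h4 : ((|k - (x : ℤ)| : ℤ) : ℝ) ≤ (((r : ℤ) - 1 : ℤ) : ℝ) := by exact_mod_cast h3
    push_cast at h4
    exact h4
  refine ⟨fun w => min (UL w + UR w) c0, fun w => le_min (add_nonneg (hUL w) (hUR w)) hc0.le,
    fun w r hr => ?_, fun w D hD => ?_, fun w => ?_⟩
  · -- lower bound
    obtain ⟨hr1, h1⟩ := hlow' w r hr
    have hr1' : (1 : ℝ) ≤ r := by exact_mod_cast hr1
    have hlt : 0 ≤ log 2 / θ := by positivity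
    refine le_min (le_trans (exp_le_exp.2 ?_) h1) (exp_le_exp.2 ?_)
    · nlinarith
    · nlinarith
  · -- upper bound
    have h1 : UL w ≤ exp (-θ * (D - C0)) := gl_upper hθ (hH2' bL) w x hx D hD
    have h2 : UR w ≤ exp (-θ * (D - C0)) := by
      refine gl_upper (bR := bL) hθ (hH2' bR) (mir w) (m - 1 - x) hx' D ?_
      intro k hk1
      rw [ev_mir]
      apply hD
      rw [hdist] at hk1
      rw [show ((m : ℤ) - 1 - k - x) = -(k - (m - 1 - x)) by ring, abs_neg]
      exact hk1
    refine (min_le_left _ _).trans ?_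
    have h3 : exp (-θ * (D - (C0 + log 2 / θ))) = 2 * exp (-θ * (D - C0)) := by
      rw [show -θ * ((D : ℝ) - (C0 + log 2 / θ)) = log 2 + -θ * (D - C0) by
        field_simp; ring, exp_add, exp_log (by norm_num)]
    rw [h3]
    linarith
  · -- generator
    rcases le_or_gt c0 (UL w + UR w) with h | h
    · have h1 : LL q bL bR (fun w => min (UL w + UR w) c0) w ≤ LL q bL bR (fun _ => c0) w := by
        refine LL_mono hq hq1 _ _ w fun i b _ => ?_
        rw [min_eq_right h]
        have := min_le_right (UL (Function.update w i b) + UR (Function.update w i b)) c0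
        linarith
      rw [LL_const] at h1
      have h2 : 0 ≤ min (UL w + UR w) c0 := le_min (add_nonneg (hUL w) (hUR w)) hc0.le
      exact h1.trans (mul_nonneg hk.le h2)
    · have hfar : far bL bR w x 2 := by
        by_contra hcon
        obtain ⟨-, h1⟩ := hlow' w 2 hcon
        have h2 : exp (-θ * (((2 : ℕ) : ℝ) - 1 + C0)) = c0 := by
          simp only [c0]
          congr 2
          norm_num
        rw [h2] at h1
        linarith
      have e0 : ev bL bR w x = false := hfar x (by simp)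
      have e1 : ev bL bR w (x + 1) = false := hfar (x + 1) (by simp)
      have e2 : ev bL bR w (x - 1) = false := hfar (x - 1) (by simp)
      have hval : val w x = false := by
        rw [← ev_nat (bL := bL) (bR := bR) w x hx]; exact e0
      have hvalm : val (mir w) (m - 1 - x) = false := by
        rw [← ev_nat (bL := bR) (bR := bL) (mir w) (m - 1 - x) hx', ev_mir, hdist,
          show ((m : ℤ) - 1 - (m - 1 - x)) = x by ring]
        exact e0
      have hevm : ev bR bL (mir w) (((m - 1 - x : ℕ) : ℤ) + 1) = false := by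
        rw [ev_mir, hdist, show ((m : ℤ) - 1 - (m - 1 - x + 1)) = x - 1 by ring]
        exact e2
      have s1 : LL q bL bR UL w ≤ θ * (v + ε) * UL w :=
        gl_side (hG' bL) w x hx hval e1
      have s2 : LL q bL bR UR w ≤ θ * (v + ε) * UR w := by
        have h1 : LL q bL bR UR w = LL q bR bL UR' (mir w) := LL_mir UR' w
        rw [h1]
        exact gl_side (hG' bR) (mir w) (m - 1 - x) hx' hvalm hevm
      have h1 : LL q bL bR (fun w => min (UL w + UR w) c0) w ≤
          LL q bL bR (fun w => UL w + UR w) w := by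
        refine LL_mono hq hq1 _ _ w fun i b _ => ?_
        rw [min_eq_left h.le]
        have := min_le_left (UL (Function.update w i b) + UR (Function.update w i b)) c0
        linarith
      rw [LL_add] at h1
      have h3 : min (UL w + UR w) c0 = UL w + UR w := min_eq_left h.le
      change _ ≤ θ * (v + ε) * min (UL w + UR w) c0
      rw [h3]
      linarith

/-- **lower bound for the gaps** -/
theorem gap_lower (hq : 0 < q) (hq1 : q < 1) {v : ℝ} (hv : IsSpeed q v) (ε : ℝ) (hε : 0 < ε) :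
    ∃ θ C : ℝ, 0 < θ ∧ 0 < C ∧ ∀ (m : ℕ) (bL bR : Bool) (x : ℕ), x < m →
      ∀ (w : W m) (D : ℕ), far bL bR w x D → ∀ t : ℝ, 0 ≤ t → ∀ r : ℕ,
        rowP (PP (LM q bL bR m) t) w (fun w' => ¬ far bL bR w' x r)
          ≤ C * exp (θ * (r + (v + ε) * t - D)) := by
  obtain ⟨θ, C, hθ, hC, h⟩ := exists_V' hq hq1 hv ε hε
  refine ⟨θ, exp (2 * θ * C), hθ, exp_pos _, fun m bL bR x hx w D hD t ht r => ?_⟩
  obtain ⟨V, hV0, hVl, hVu, hVg⟩ := h m bL bR x hx
  have hQ : IsGen (LM q bL bR m) := LM_gen hq hq1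
  have h1 := gronwall_pos hQ (θ * (v + ε)) V (fun w => by rw [LM_mul]; exact hVg w) ht w
  have h2 := rowP_le hQ ht w (fun w' => ¬ far bL bR w' x r) V (exp (-θ * (r + C))) (exp_pos _)
    (fun y _ => hV0 y) (fun y _ hy => hVl y r hy)
  refine h2.trans ?_
  rw [div_le_iff₀ (exp_pos _)]
  refine h1.trans ?_
  refine (mul_le_mul_of_nonneg_left (hVu w D hD) (exp_pos _).le).trans (le_of_eq ?_)
  rw [← exp_add, ← exp_add, ← exp_add]
  congr 1
  ring

end Pool.Agent.Lib.MP_4c13d6_pr
end

section

/-! AS-3: the lower bound for the mixing time. -/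

open Finset

namespace Pool.Agent.Lib.MP_4c13d6_pr

variable {q : ℝ}

open Classical in
/-- total variation from an event -/
private theorem lo_tv {X : Type*} [Fintype X] (P μ : X → ℝ) (A : X → Prop)
    (hP : ∑ y, P y = 1) (hμ : ∑ y, μ y = 1) :
    2 * ((∑ y, if A y then P y else 0) - ∑ y, if A y then μ y else 0) ≤ ∑ y, |P y - μ y| := by
  have h1 : ∑ y, (if A y then P y - μ y else μ y - P y) ≤ ∑ y, |P y - μ y| := by
    refine Finset.sum_le_sum fun y _ => ?_
    split_ifs
    · exact le_abs_self _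
    · rw [abs_sub_comm]
      exact le_abs_self _
  have h2 : ∑ y, (if A y then P y - μ y else μ y - P y) =
      ∑ y, (2 * ((if A y then P y else 0) - (if A y then μ y else 0)) - P y + μ y) := by
    refine Finset.sum_congr rfl fun y _ => ?_
    split_ifs <;> ring
  rw [h2, Finset.sum_add_distrib, Finset.sum_sub_distrib, ← Finset.mul_sum,
    Finset.sum_sub_distrib, hP, hμ] at h1
  linarith

/-- the initial states -/
private theorem lo_init (bL bR : Bool) {m : ℕ} (hm : 4 ≤ m) :
    ∃ (w : W m) (x D : ℕ), ok bL bR w ∧ x < m ∧ far bL bR w x D ∧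
      (if bL = true ∧ bR = true then (m : ℝ) / 2 else m) - 1 ≤ D ∧
      ∀ r, 2 * r ≤ m → ∃ y, y + r ≤ m ∧ ∀ k : ℕ, y ≤ k → k < y + r → |(k : ℤ) - x| < r := by
  have hv0 : ∀ k, val (fun _ => false : W m) k = false := by
    intro k
    unfold val
    split_ifs <;> rfl
  rcases Bool.eq_false_or_eq_true bL with hL | hL <;>
  rcases Bool.eq_false_or_eq_true bR with hR | hR <;> subst hL <;> subst hR
  · refine ⟨fun _ => false, m / 2, m / 2, Or.inl rfl, by omega, ?_, ?_, ?_⟩
    · intro k hk
      rw [abs_lt] at hk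
      unfold ev
      rw [if_neg (by omega), if_neg (by omega)]
      split_ifs
      · exact hv0 _
      · rfl
    · rw [if_pos ⟨rfl, rfl⟩]
      have : (m : ℝ) ≤ 2 * ((m / 2 : ℕ) : ℝ) + 1 := by
        exact_mod_cast (by omega : m ≤ 2 * (m / 2) + 1)
      linarith
    · intro r hr
      refine ⟨m / 2, by omega, fun k h1 h2 => ?_⟩
      rw [abs_lt]
      omega
  · refine ⟨fun _ => false, m - 1, m, Or.inl rfl, by omega, ?_, ?_, ?_⟩
    · intro k hk
      rw [abs_lt] at hk
      unfold ev
      rw [if_neg (by omega)]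
      split_ifs
      · rfl
      · exact hv0 _
      · rfl
    · simp
    · intro r hr
      refine ⟨m - r, by omega, fun k h1 h2 => ?_⟩
      rw [abs_lt]
      omega
  · refine ⟨fun _ => false, 0, m, Or.inr (Or.inl rfl), by omega, ?_, ?_, ?_⟩
    · intro k hk
      rw [abs_lt] at hk
      unfold ev
      split_ifs
      · rfl
      · omega
      · exact hv0 _
      · rfl
    · simp
    · intro r hr
      refine ⟨0, by omega, fun k h1 h2 => ?_⟩
      rw [abs_lt]
      omega
  · refine ⟨fun i => decide ((i : ℕ) = 0), m - 1, m - 1,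
      Or.inr (Or.inr ⟨⟨0, by omega⟩, by simp⟩), by omega, ?_, ?_, ?_⟩
    · intro k hk
      rw [abs_lt] at hk
      unfold ev
      split_ifs
      · rfl
      · rfl
      · unfold val
        split_ifs
        · simp only [decide_eq_false_iff_not]
          omega
        · rfl
      · rfl
    · have : ((m - 1 : ℕ) : ℝ) = m - 1 := by
        rw [Nat.cast_sub (by omega)]
        simp
      simp [this]
    · intro r hr
      refine ⟨m - r, by omega, fun k h1 h2 => ?_⟩
      rw [abs_lt]
      omega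

open Classical in
private theorem lo_mu (hq : 0 < q) (hq1 : q < 1) (bL bR : Bool) {m : ℕ} (hm : 1 ≤ m)
    (x y r : ℕ) (hy : y + r ≤ m) (h : ∀ k : ℕ, y ≤ k → k < y + r → |(k : ℤ) - x| < r) :
    ∑ w : W m, (if far bL bR w x r then mu q bL bR w else 0) ≤ (1 - q) ^ r / q := by
  have hZ := mu_norm hq hq1 bL bR hm
  rw [← cylinder (q := q) y r m hy, Finset.sum_div]
  refine Finset.sum_le_sum fun w _ => ?_
  have hwt : 0 ≤ wt q w := by
    unfold wt
    exact Finset.prod_nonneg fun i _ => by split_ifs <;> linarith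
  by_cases hf : far bL bR w x r
  · have hcyl : ∀ k, y ≤ k → k < y + r → val w k = false := by
      intro k h1 h2
      rw [← ev_nat (bL := bL) (bR := bR) w k (by omega)]
      exact hf k (h k h1 h2)
    rw [if_pos hf, if_pos hcyl]
    unfold mu
    split_ifs
    · exact div_le_div_of_nonneg_left hwt hq hZ
    · exact div_nonneg hwt hq.le
  · rw [if_neg hf]
    split_ifs
    · exact div_nonneg hwt hq.le
    · simp

private theorem lo_main (hq : 0 < q) (hq1 : q < 1) {v : ℝ} (hv : IsSpeed q v) (δ : ℝ)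
    (hδ : 0 < δ) (hδ2 : δ ≤ 1 / 2) :
    ∃ m₀ : ℕ, ∀ m, m₀ ≤ m → ∀ bL bR : Bool, ∃ w : W m, ok bL bR w ∧
      ∀ t : ℝ, 0 ≤ t → t ≤ (1 - δ) * TT v bL bR m →
      2 - δ ≤ ∑ z, |PP (LM q bL bR m) t w z - mu q bL bR z| := by
  classical
  have hv0 : 0 < v := hv.1
  obtain ⟨θ, C, hθ, hC, hgap⟩ := gap_lower hq hq1 hv (v * δ / 2) (by positivity)
  -- asymptotics
  have lim1 : Filter.Tendsto (fun m : ℕ => C * Real.exp (θ * (1 - δ / 8 * m)))
      Filter.atTop (nhds 0) := by
    have h1 : Filter.Tendsto (fun m : ℕ => θ * (1 - δ / 8 * (m : ℝ))) Filter.atTop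
        Filter.atBot := by
      refine Filter.Tendsto.const_mul_atBot hθ ?_
      have h2 : Filter.Tendsto (fun m : ℕ => δ / 8 * (m : ℝ)) Filter.atTop Filter.atTop :=
        Filter.Tendsto.const_mul_atTop (by positivity) tendsto_natCast_atTop_atTop
      have h3 := Filter.tendsto_atBot_add_const_left Filter.atTop (1 : ℝ)
        (Filter.tendsto_neg_atTop_atBot.comp h2)
      refine h3.congr fun m => ?_
      simp only [Function.comp_apply]
      ring
    have h4 := (Real.tendsto_exp_atBot.comp h1).const_mul C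
    simpa using h4
  have lim2 : Filter.Tendsto (fun m : ℕ => (1 - q) ^ (⌊δ / 8 * (m : ℝ)⌋₊) / q)
      Filter.atTop (nhds 0) := by
    have h1 : Filter.Tendsto (fun m : ℕ => ⌊δ / 8 * (m : ℝ)⌋₊) Filter.atTop Filter.atTop :=
      tendsto_nat_floor_atTop.comp
        (Filter.Tendsto.const_mul_atTop (by positivity) tendsto_natCast_atTop_atTop)
    have h2 := (tendsto_pow_atTop_nhds_zero_of_lt_one (r := 1 - q) (by linarith)
      (by linarith)).comp h1
    simpa using h2.div_const q
  have ev1 := lim1.eventually (gt_mem_nhds (show (0 : ℝ) < δ / 4 by positivity))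
  have ev2 := lim2.eventually (gt_mem_nhds (show (0 : ℝ) < δ / 4 by positivity))
  obtain ⟨m₁, hm₁⟩ := Filter.eventually_atTop.1 (ev1.and ev2)
  refine ⟨max m₁ 4, fun m hm bL bR => ?_⟩
  obtain ⟨hA1, hA2⟩ := hm₁ m ((le_max_left _ _).trans hm)
  have hm4 : 4 ≤ m := (le_max_right _ _).trans hm
  obtain ⟨w, x, D, hok, hx, hfar, hD, hyy⟩ := lo_init bL bR hm4
  refine ⟨w, hok, fun t ht0 ht => ?_⟩
  set r : ℕ := ⌊δ / 8 * (m : ℝ)⌋₊ with hr
  have hm0 : (0 : ℝ) < m := by exact_mod_cast (by omega : 0 < m)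
  have hrle : (r : ℝ) ≤ δ / 8 * m := Nat.floor_le (by positivity)
  have hr2 : 2 * r ≤ m := by
    have : (2 * r : ℝ) ≤ m := by nlinarith
    exact_mod_cast this
  obtain ⟨y, hy, hyk⟩ := hyy r hr2
  have hgen : IsGen (LM q bL bR m) := LM_gen hq hq1
  have hrow := PP_row hgen.2 t w
  have hmu := mu_prob hq hq1 bL bR (m := m) (by omega)
  have htv := lo_tv (fun z => PP (LM q bL bR m) t w z) (fun z => mu q bL bR z)
    (fun w' => far bL bR w' x r) hrow hmu.2
  have h1 := lo_mu hq hq1 bL bR (m := m) (by omega) x y r hy hyk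
  have h2 := hgap m bL bR x hx w D hfar t ht0 r
  have h3 : (∑ z, if far bL bR z x r then PP (LM q bL bR m) t w z else 0) =
      1 - rowP (PP (LM q bL bR m) t) w (fun w' => ¬ far bL bR w' x r) := by
    rw [← hrow]
    unfold rowP
    rw [← Finset.sum_sub_distrib]
    refine Finset.sum_congr rfl fun z _ => ?_
    by_cases hz : far bL bR z x r
    · simp [hz]
    · simp [hz]
  have h4 : C * Real.exp (θ * (r + (v + v * δ / 2) * t - D)) ≤
      C * Real.exp (θ * (1 - δ / 8 * m)) := by
    refine mul_le_mul_of_nonneg_left (Real.exp_le_exp.2 (mul_le_mul_of_nonneg_left ?_ hθ.le))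
      hC.le
    have h5 : (v + v * δ / 2) * t ≤
        (1 - δ / 2) * (if bL = true ∧ bR = true then (m : ℝ) / 2 else m) := by
      have h6 : (v + v * δ / 2) * t ≤ (v + v * δ / 2) * ((1 - δ) * TT v bL bR m) :=
        mul_le_mul_of_nonneg_left ht (by positivity)
      refine h6.trans ?_
      have h7 : TT v bL bR m = (if bL = true ∧ bR = true then (m : ℝ) / 2 else m) / v := by
        unfold TT
        split_ifs
        · rw [div_div]
        · rfl
      rw [h7]
      have h8 : 0 ≤ (if bL = true ∧ bR = true then (m : ℝ) / 2 else m) := by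
        split_ifs <;> positivity
      set M : ℝ := (if bL = true ∧ bR = true then (m : ℝ) / 2 else m) with hM
      have h9 : (v + v * δ / 2) * ((1 - δ) * (M / v)) = (1 + δ / 2) * (1 - δ) * M := by
        field_simp
      rw [h9]
      refine mul_le_mul_of_nonneg_right ?_ h8
      nlinarith
    have h10 : (m : ℝ) / 2 ≤ (if bL = true ∧ bR = true then (m : ℝ) / 2 else m) := by
      split_ifs
      · exact le_rfl
      · linarith
    have h11 : δ / 2 * ((m : ℝ) / 2) ≤
        δ / 2 * (if bL = true ∧ bR = true then (m : ℝ) / 2 else m) :=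
      mul_le_mul_of_nonneg_left h10 (by positivity)
    linarith
  rw [h3] at htv
  linarith

theorem lower (hq : 0 < q) (hq1 : q < 1) {v : ℝ} (hv : IsSpeed q v) :
    ∀ δ : ℝ, 0 < δ → ∃ m₀ : ℕ, ∀ m, m₀ ≤ m → ∀ bL bR : Bool, ∃ w : W m, ok bL bR w ∧
      ∀ t : ℝ, 0 ≤ t → t ≤ (1 - δ) * TT v bL bR m →
      2 - δ ≤ ∑ z, |PP (LM q bL bR m) t w z - mu q bL bR z| := by
  intro δ hδ
  have hv0 : 0 < v := hv.1
  obtain ⟨m₀, h⟩ := lo_main hq hq1 hv (min δ (1 / 2)) (lt_min hδ (by norm_num))
    (min_le_right _ _)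
  refine ⟨m₀, fun m hm bL bR => ?_⟩
  obtain ⟨w, hw, h1⟩ := h m hm bL bR
  refine ⟨w, hw, fun t ht0 ht => ?_⟩
  have hT : 0 ≤ TT v bL bR m := by
    unfold TT
    split_ifs <;> positivity
  have h2 : (1 - δ) * TT v bL bR m ≤ (1 - min δ (1 / 2)) * TT v bL bR m :=
    mul_le_mul_of_nonneg_right (by linarith [min_le_left δ (1 / 2)]) hT
  have h3 := h1 t ht0 (ht.trans h2)
  linarith [min_le_left δ (1 / 2)]

end Pool.Agent.Lib.MP_4c13d6_pr
end
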