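import Pool.Agent.Lib.MP_4c13d6_pr.Upper
import Pool.Agent.Lib.MP_4c13d6_pr.Lower

/-! AS-4: asymptotics of the mixing times, uniformly in the boundary condition. -/

open Finset

namespace Pool.Agent.Lib.MP_4c13d6_pr

variable {q : ℝ}

/-- mixing time of the chain on `m` sites, started in the ergodic class -/
noncomputable def Tm (q : ℝ) (bL bR : Bool) (m : ℕ) (ε : ℝ) : ℝ :=
  sInf {t : ℝ | 0 ≤ t ∧ ∀ w : W m, ok bL bR w →
    1 / 2 * ∑ z, |PP (LM q bL bR m) t w z - mu q bL bR z| ≤ ε}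

private theorem final_TT_nonneg {v : ℝ} (hv : 0 < v) (bL bR : Bool) (m : ℕ) :
    0 ≤ TT v bL bR m := by
  unfold TT
  split_ifs
  · positivity
  · positivity

theorem Tm_asymp (hq : 0 < q) (hq1 : q < 1) {v : ℝ} (hv : IsSpeed q v) (ε : ℝ) (hε : 0 < ε)
    (hε1 : ε < 1) : ∀ δ : ℝ, 0 < δ → ∃ m₀ : ℕ, ∀ m, m₀ ≤ m → ∀ bL bR : Bool,
      (1 - δ) * TT v bL bR m ≤ Tm q bL bR m ε ∧ Tm q bL bR m ε ≤ (1 + δ) * TT v bL bR m := by
  intro δ hδ
  have h1 : 0 < min δ (2 * ε) := lt_min hδ (by linarith)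
  have h2 : 0 < min δ (1 - ε) := lt_min hδ (by linarith)
  obtain ⟨m1, hm1⟩ := upper hq hq1 hv _ h1
  obtain ⟨m2, hm2⟩ := lower hq hq1 hv _ h2
  refine ⟨max m1 m2, fun m hm bL bR => ?_⟩
  have hT := final_TT_nonneg hv.1 bL bR m
  have hmem : (1 + min δ (2 * ε)) * TT v bL bR m ∈ {t : ℝ | 0 ≤ t ∧ ∀ w : W m, ok bL bR w →
      1 / 2 * ∑ z, |PP (LM q bL bR m) t w z - mu q bL bR z| ≤ ε} := by
    refine ⟨by positivity, fun w hw => ?_⟩
    have h3 := hm1 m ((le_max_left _ _).trans hm) bL bR w hw _ le_rfl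
    have h4 : min δ (2 * ε) ≤ 2 * ε := min_le_right _ _
    linarith
  constructor
  · refine le_csInf ⟨_, hmem⟩ fun t ht => ?_
    obtain ⟨w, hw, hlow⟩ := hm2 m ((le_max_right _ _).trans hm) bL bR
    by_contra hcon
    push Not at hcon
    have h5 : (1 - δ) * TT v bL bR m ≤ (1 - min δ (1 - ε)) * TT v bL bR m :=
      mul_le_mul_of_nonneg_right (by linarith [min_le_left δ (1 - ε)]) hT
    have h6 := hlow t ht.1 (by linarith)
    have h7 := ht.2 w hw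
    have h8 : min δ (1 - ε) ≤ 1 - ε := min_le_right _ _
    linarith
  · have hbdd : BddBelow {t : ℝ | 0 ≤ t ∧ ∀ w : W m, ok bL bR w →
        1 / 2 * ∑ z, |PP (LM q bL bR m) t w z - mu q bL bR z| ≤ ε} := ⟨0, fun t ht => ht.1⟩
    refine (csInf_le hbdd hmem).trans ?_
    exact mul_le_mul_of_nonneg_right (by linarith [min_le_left δ (2 * ε)]) hT

end Pool.Agent.Lib.MP_4c13d6_pr
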