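import Mathlib
import Pool.Agent.Lib.MP_4c13d6_pr.Final

/-!
# Cutoff for the one-dimensional FA-1f chain for all `q ∈ (0,1)`

All definitions used in the statement `result` are given here.
-/

open Finset Filter Topology

namespace Pool.Agent.Lib.MP_4c13d6_pr.Cutoff

/-- configurations on `{0, …, n}`: `true` = infected (the value `0` of the problem),
`false` = healthy (the value `1`) -/
abbrev Conf (n : ℕ) := Fin (n + 1) → Bool

/-- the configuration `η` extended to `ℤ` by the frozen boundary condition `σ` -/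
def extend {n : ℕ} (σ : ℤ → Bool) (η : Conf n) (k : ℤ) : Bool :=
  if h : 0 ≤ k ∧ k < n + 1 then η ⟨k.toNat, by omega⟩ else σ k

/-- the constraint at `x`: at least one of the two neighbours of `x` is infected -/
def Constraint {n : ℕ} (σ : ℤ → Bool) (η : Conf n) (x : Fin (n + 1)) : Prop :=
  extend σ η (((x : ℕ) : ℤ) - 1) = true ∨ extend σ η (((x : ℕ) : ℤ) + 1) = true

open Classical in
/-- generator of the FA-1f chain: at rate `1`, if the constraint at `x` holds, the state at `x` is
resampled: infected with probability `q`, healthy with probability `1 - q` -/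
noncomputable def generator (q : ℝ) (n : ℕ) (σ : ℤ → Bool) : Matrix (Conf n) (Conf n) ℝ :=
  fun η ξ => ∑ x : Fin (n + 1), if Constraint σ η x then
    q * (if ξ = Function.update η x true then 1 else 0)
      + (1 - q) * (if ξ = Function.update η x false then 1 else 0) - (if ξ = η then 1 else 0)
    else 0

/-- the product measure: every site is infected with probability `q` -/
noncomputable def productMeasure (q : ℝ) (n : ℕ) (η : Conf n) : ℝ :=
  ∏ x, if η x = true then q else 1 - q

/-- configurations with at least one infected site -/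
abbrev ConfB (n : ℕ) := {η : Conf n // ∃ x, η x = true}

/-- generator of version (b): healthy boundary, restricted to the configurations with at least
one infected site -/
noncomputable def generatorB (q : ℝ) (n : ℕ) : Matrix (ConfB n) (ConfB n) ℝ :=
  fun η ξ => generator q n (fun _ => false) η.1 ξ.1

/-- the product measure conditioned on at least one infected site -/
noncomputable def measureB (q : ℝ) (n : ℕ) (η : ConfB n) : ℝ :=
  productMeasure q n η.1 / ∑ ξ : ConfB n, productMeasure q n ξ.1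

/-- total variation distance -/
noncomputable def tvDist {X : Type} [Fintype X] (μ ν : X → ℝ) : ℝ := 1 / 2 * ∑ x, |μ x - ν x|

/-- `t_mix(ε)` of the chain with generator matrix `Q` (transition matrices `exp (t Q)`) and
stationary law `μ` -/
noncomputable def mixingTime {X : Type} [Fintype X] [DecidableEq X] (Q : Matrix X X ℝ)
    (μ : X → ℝ) (ε : ℝ) : ℝ :=
  sInf {t : ℝ | 0 ≤ t ∧ ∀ η : X, tvDist (fun ξ => NormedSpace.exp (t • Q) η ξ) μ ≤ ε}

/-- cutoff for a sequence of chains with mixing times `T n ε` -/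
def Cutoff (T : ℕ → ℝ → ℝ) : Prop :=
  ∀ ε : ℝ, 0 < ε → ε < 1 / 2 → Tendsto (fun n => T n ε / T n (1 - ε)) atTop (𝓝 1)


/-! ### bridges to the library -/

private lemma cs_extend {n : ℕ} (σ : ℤ → Bool) (η : Conf n) (k : ℤ) (h1 : -1 ≤ k)
    (h2 : k ≤ n + 1) : extend σ η k = ev (m := n + 1) (σ (-1)) (σ (n + 1)) η k := by
  unfold extend ev
  by_cases hk : k = -1
  · rw [if_pos hk, dif_neg (by omega), hk]
  · rw [if_neg hk]
    by_cases hk2 : k = ((n + 1 : ℕ) : ℤ)
    · rw [if_pos hk2, dif_neg (by push_cast at hk2; omega), hk2]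
      push_cast
      rfl
    · rw [if_neg hk2]
      push_cast at hk2
      rw [dif_pos (by omega), if_pos (by omega), val_lt (by omega)]

private lemma cs_constraint {n : ℕ} (σ : ℤ → Bool) (η : Conf n) (x : Fin (n + 1)) :
    Constraint σ η x ↔ kc (m := n + 1) (σ (-1)) (σ (n + 1)) η (x : ℕ) := by
  have hx := x.isLt
  unfold Constraint kc
  rw [cs_extend σ η _ (by omega) (by omega), cs_extend σ η _ (by omega) (by omega)]

private lemma cs_generator (q : ℝ) (n : ℕ) (σ : ℤ → Bool) :
    generator q n σ = LM q (σ (-1)) (σ (n + 1)) (n + 1) := by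
  funext η ξ
  unfold generator LM LL
  apply Finset.sum_congr rfl
  intro x _
  have e : ∀ v : Conf n, (Pi.single ξ (1 : ℝ) : W (n + 1) → ℝ) v = if ξ = v then 1 else 0 := by
    intro v
    rw [Pi.single_apply]
    by_cases h : v = ξ
    · rw [if_pos h, if_pos h.symm]
    · rw [if_neg h, if_neg (fun h' => h h'.symm)]
  rw [e, e, e]
  by_cases h : Constraint σ η x
  · rw [if_pos h, if_pos ((cs_constraint σ η x).1 h)]
  · rw [if_neg h, if_neg (fun h' => h ((cs_constraint σ η x).2 h'))]

private lemma cs_mu (q : ℝ) (n : ℕ) (bL bR : Bool) (h : bL = true ∨ bR = true) (w : Conf n) :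
    mu (m := n + 1) q bL bR w = productMeasure q n w := by
  have hok : ∀ v : W (n + 1), ok bL bR v := by
    intro v
    rcases h with h | h
    · exact Or.inl h
    · exact Or.inr (Or.inl h)
  unfold mu
  rw [if_pos (hok w), Finset.sum_congr rfl (fun v _ => if_pos (hok v)), sum_wt, div_one]
  rfl

private lemma cs_bridge_a (q : ℝ) (n : ℕ) (σ : ℤ → Bool)
    (h : σ (-1) = true ∨ σ (n + 1) = true) (ε : ℝ) :
    mixingTime (generator q n σ) (productMeasure q n) ε =
      Tm q (σ (-1)) (σ (n + 1)) (n + 1) ε := by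
  unfold mixingTime Tm
  congr 1
  ext t
  rw [Set.mem_ofPred_eq, Set.mem_ofPred_eq]
  apply and_congr_right
  intro _
  have hok : ∀ v : W (n + 1), ok (σ (-1)) (σ (n + 1)) v := by
    intro v
    rcases h with h | h
    · exact Or.inl h
    · exact Or.inr (Or.inl h)
  have e : ∀ η : Conf n, tvDist (fun ξ => NormedSpace.exp (t • generator q n σ) η ξ)
      (productMeasure q n) = 1 / 2 * ∑ z, |PP (LM q (σ (-1)) (σ (n + 1)) (n + 1)) t η z -
        mu q (σ (-1)) (σ (n + 1)) z| := by
    intro η
    unfold tvDist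
    rw [cs_generator]
    congr 1
    apply Finset.sum_congr rfl
    intro z _
    rw [cs_mu q n _ _ h]
    rfl
  constructor
  · intro H w _
    rw [← e w]
    exact H w
  · intro H w
    rw [e w]
    exact H w (hok w)

private lemma cs_ok {n : ℕ} (w : W (n + 1)) : ok false false w ↔ ∃ i, w i = true := by
  simp [ok]

private lemma cs_bridge_b (q : ℝ) (n : ℕ) (ε : ℝ) :
    mixingTime (generatorB q n) (measureB q n) ε = Tm q false false (n + 1) ε := by
  have hcl : ∀ x y : Conf n, (∃ i, x i = true) → ¬ (∃ i, y i = true) →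
      LM q false false (n + 1) x y = 0 := by
    intro x y hx hy
    exact LM_ok x y ((cs_ok x).2 hx) (fun h => hy ((cs_ok y).1 h))
  have hgen : generatorB q n =
      subM (fun η : Conf n => ∃ i, η i = true) (LM q false false (n + 1)) := by
    funext η ξ
    unfold generatorB subM
    rw [cs_generator]
  have hZ : ∑ ξ : ConfB n, productMeasure q n ξ.1 =
      ∑ v : W (n + 1), (if ok false false v then wt q v else 0) := by
    rw [← Finset.sum_filter]
    symm
    apply Finset.sum_subtype
    intro v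
    rw [Finset.mem_filter]
    exact ⟨fun h => (cs_ok v).1 h.2, fun h => ⟨Finset.mem_univ _, (cs_ok v).2 h⟩⟩
  have hmu : ∀ ξ : ConfB n, measureB q n ξ = mu (m := n + 1) q false false ξ.1 := by
    intro ξ
    unfold measureB mu
    rw [if_pos ((cs_ok _).2 ξ.2), hZ]
    rfl
  unfold mixingTime Tm
  congr 1
  ext t
  rw [Set.mem_ofPred_eq, Set.mem_ofPred_eq]
  apply and_congr_right
  intro _
  have e : ∀ η : ConfB n, tvDist (fun ξ => NormedSpace.exp (t • generatorB q n) η ξ)
      (measureB q n) = 1 / 2 * ∑ z, |PP (LM q false false (n + 1)) t η.1 z -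
        mu q false false z| := by
    intro η
    unfold tvDist
    congr 1
    have e1 : ∀ ξ : ConfB n, |NormedSpace.exp (t • generatorB q n) η ξ - measureB q n ξ| =
        |PP (LM q false false (n + 1)) t η.1 ξ.1 - mu q false false ξ.1| := by
      intro ξ
      rw [hmu, hgen, ← PP_sub_eq (fun η : Conf n => ∃ i, η i = true) hcl t η ξ]
      rfl
    rw [Finset.sum_congr rfl (fun ξ _ => e1 ξ)]
    have e2 : ∑ z : W (n + 1), |PP (LM q false false (n + 1)) t η.1 z - mu q false false z| =
        ∑ z ∈ Finset.univ.filter (fun z : W (n + 1) => ∃ i, z i = true),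
          |PP (LM q false false (n + 1)) t η.1 z - mu q false false z| := by
      symm
      apply Finset.sum_subset (Finset.filter_subset _ _)
      intro z _ hz
      have hz' : ¬ ∃ i, z i = true := fun h => hz (Finset.mem_filter.2 ⟨Finset.mem_univ _, h⟩)
      have h1 : PP (LM q false false (n + 1)) t η.1 z = 0 :=
        PP_closed (fun η : Conf n => ∃ i, η i = true) hcl t η.1 z η.2 hz'
      have h2 : mu q false false z = 0 := by
        unfold mu
        rw [if_neg (fun h => hz' ((cs_ok z).1 h))]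
      rw [h1, h2, sub_zero, abs_zero]
    rw [e2]
    symm
    apply Finset.sum_subtype
    intro v
    rw [Finset.mem_filter]
    exact ⟨fun h => h.2, fun h => ⟨Finset.mem_univ _, h⟩⟩
  constructor
  · intro H w hw
    have := H ⟨w, (cs_ok w).1 hw⟩
    rw [e] at this
    exact this
  · intro H w
    rw [e w]
    exact H w.1 ((cs_ok _).2 w.2)

/-! ### asymptotics -/

private lemma cs_TT_pos {v : ℝ} (hv : 0 < v) (bL bR : Bool) (n : ℕ) : 0 < TT v bL bR (n + 1) := by
  unfold TT
  split_ifs <;> positivity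

private lemma cs_ratio {q : ℝ} (hq : 0 < q) (hq1 : q < 1) {v : ℝ} (hv : IsSpeed q v) {ε : ℝ}
    (hε : 0 < ε) (hε1 : ε < 1) (bL bR : ℕ → Bool) :
    Tendsto (fun n : ℕ => Tm q (bL n) (bR n) (n + 1) ε / TT v (bL n) (bR n) (n + 1)) atTop
      (𝓝 1) := by
  rw [Metric.tendsto_atTop]
  intro δ hδ
  obtain ⟨m₀, hm₀⟩ := Tm_asymp hq hq1 hv ε hε hε1 (δ / 2) (by linarith)
  refine ⟨m₀, fun n hn => ?_⟩
  obtain ⟨h1, h2⟩ := hm₀ (n + 1) (by omega) (bL n) (bR n)
  have hT := cs_TT_pos hv.1 (bL n) (bR n) n
  rw [Real.dist_eq, abs_lt]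
  have h3 : 1 - δ / 2 ≤ Tm q (bL n) (bR n) (n + 1) ε / TT v (bL n) (bR n) (n + 1) :=
    (le_div_iff₀ hT).2 h1
  have h4 : Tm q (bL n) (bR n) (n + 1) ε / TT v (bL n) (bR n) (n + 1) ≤ 1 + δ / 2 :=
    (div_le_iff₀ hT).2 h2
  constructor <;> linarith

private lemma cs_cutoff {q : ℝ} (hq : 0 < q) (hq1 : q < 1) {v : ℝ} (hv : IsSpeed q v)
    (bL bR : ℕ → Bool) : Cutoff (fun n ε => Tm q (bL n) (bR n) (n + 1) ε) := by
  intro ε hε hε2
  have h1 := cs_ratio hq hq1 hv hε (by linarith) bL bR
  have h2 := cs_ratio hq hq1 hv (ε := 1 - ε) (by linarith) (by linarith) bL bR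
  have h3 := h1.div h2 one_ne_zero
  rw [div_one] at h3
  refine h3.congr fun n => ?_
  exact div_div_div_cancel_right₀ (cs_TT_pos hv.1 (bL n) (bR n) n).ne' _ _

private lemma cs_asymp {q : ℝ} (hq : 0 < q) (hq1 : q < 1) {v : ℝ} (hv : IsSpeed q v) {ε : ℝ}
    (hε : 0 < ε) (hε1 : ε < 1) (bL bR : ℕ → Bool) (c : ℝ)
    (hc : ∀ n, TT v (bL n) (bR n) (n + 1) = c * ((n : ℝ) + 1)) :
    Tendsto (fun n : ℕ => Tm q (bL n) (bR n) (n + 1) ε / n) atTop (𝓝 c) := by
  have h1 := cs_ratio hq hq1 hv hε hε1 bL bR
  have h2 : Tendsto (fun n : ℕ => c * (((n : ℝ) + 1) / n)) atTop (𝓝 (c * 1)) := by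
    apply Tendsto.const_mul
    have h3 : Tendsto (fun n : ℕ => 1 + 1 / (n : ℝ)) atTop (𝓝 (1 + 0)) :=
      tendsto_const_nhds.add tendsto_one_div_atTop_nhds_zero_nat
    rw [add_zero] at h3
    refine h3.congr' ?_
    filter_upwards [eventually_gt_atTop 0] with n hn
    have : (n : ℝ) ≠ 0 := by positivity
    field_simp
  have h4 := h1.mul h2
  rw [one_mul, mul_one] at h4
  refine h4.congr' ?_
  filter_upwards [eventually_gt_atTop 0] with n hn
  have hT := (cs_TT_pos hv.1 (bL n) (bR n) n).ne'
  have : (n : ℝ) ≠ 0 := by positivity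
  rw [hc n] at hT ⊢
  have hc0 : c ≠ 0 := left_ne_zero_of_mul hT
  field_simp

/-- **Cutoff for FA-1f in one dimension, for every `q`.** -/
theorem result (q : ℝ) (hq : 0 < q) (hq1 : q < 1) :
    (∀ σ : ℕ → ℤ → Bool, (∀ n : ℕ, σ n (-1) = true ∨ σ n (n + 1) = true) →
      Cutoff (fun n ε => mixingTime (generator q n (σ n)) (productMeasure q n) ε)) ∧
    Cutoff (fun n ε => mixingTime (generatorB q n) (measureB q n) ε) ∧
    ∃ v : ℝ, 0 < v ∧ v < 1 ∧ ∀ ε : ℝ, 0 < ε → ε < 1 →
      (∀ σ : ℕ → ℤ → Bool, (∀ n : ℕ, (σ n (-1) = true ∧ σ n (n + 1) = false) ∨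
          (σ n (-1) = false ∧ σ n (n + 1) = true)) →
        Tendsto (fun n : ℕ => mixingTime (generator q n (σ n)) (productMeasure q n) ε / n) atTop
          (𝓝 (1 / v))) ∧
      (∀ σ : ℕ → ℤ → Bool, (∀ n : ℕ, σ n (-1) = true ∧ σ n (n + 1) = true) →
        Tendsto (fun n : ℕ => mixingTime (generator q n (σ n)) (productMeasure q n) ε / n) atTop
          (𝓝 (1 / (2 * v)))) ∧
      Tendsto (fun n : ℕ => mixingTime (generatorB q n) (measureB q n) ε / n) atTop
        (𝓝 (1 / v)) := by
  obtain ⟨v, hv⟩ := theoremA hq hq1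
  have hb : (fun (n : ℕ) (ε : ℝ) => mixingTime (generatorB q n) (measureB q n) ε) =
      fun n ε => Tm q ((fun _ : ℕ => false) n) ((fun _ : ℕ => false) n) (n + 1) ε := by
    funext n ε
    exact cs_bridge_b q n ε
  refine ⟨?_, ?_, v, hv.1, hv.2.1, ?_⟩
  · intro σ hσ
    have ha : (fun (n : ℕ) (ε : ℝ) => mixingTime (generator q n (σ n)) (productMeasure q n) ε) =
        fun n ε => Tm q ((fun n : ℕ => σ n (-1)) n) ((fun n : ℕ => σ n (n + 1)) n) (n + 1) ε := by
      funext n ε
      exact cs_bridge_a q n (σ n) (hσ n) ε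
    rw [ha]
    exact cs_cutoff hq hq1 hv _ _
  · rw [hb]
    exact cs_cutoff hq hq1 hv _ _
  · intro ε hε hε1
    refine ⟨?_, ?_, ?_⟩
    · intro σ hσ
      have h := cs_asymp hq hq1 hv hε hε1 (fun n : ℕ => σ n (-1)) (fun n : ℕ => σ n (n + 1))
        (1 / v) (fun n => by
          unfold TT
          rw [if_neg]
          · push_cast
            ring
          · rintro ⟨h1, h2⟩
            rcases hσ n with ⟨_, h4⟩ | ⟨h3, _⟩
            · rw [h4] at h2; exact absurd h2 (by simp)
            · rw [h3] at h1; exact absurd h1 (by simp))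
      refine h.congr fun n => ?_
      rw [cs_bridge_a q n (σ n) (by rcases hσ n with h | h <;> simp [h.1, h.2])]
    · intro σ hσ
      have h := cs_asymp hq hq1 hv hε hε1 (fun n : ℕ => σ n (-1)) (fun n : ℕ => σ n (n + 1))
        (1 / (2 * v)) (fun n => by
          unfold TT
          rw [if_pos (hσ n)]
          push_cast
          ring)
      refine h.congr fun n => ?_
      rw [cs_bridge_a q n (σ n) (Or.inl (hσ n).1)]
    · have h := cs_asymp hq hq1 hv hε hε1 (fun _ : ℕ => false) (fun _ : ℕ => false)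
        (1 / v) (fun n => by
          unfold TT
          rw [if_neg (by simp)]
          push_cast
          ring)
      refine h.congr fun n => ?_
      rw [cs_bridge_b q n]

end Pool.Agent.Lib.MP_4c13d6_pr.Cutoff
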