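import Mathlib

/-!
# MP_4c13d6_pr (FA-1f chain, cutoff): windows seen from the front

`true` = infected, `false` = healthy.  Coordinate `i` of a window is the site at distance `i+1`
behind the front.  `q` is the probability of infected, `1-q` the probability of healthy.
-/

open Finset

namespace Pool.Agent.Lib.MP_4c13d6_pr

/-- windows of `N` coordinates behind the front -/
abbrev W (N : ℕ) := Fin N → Bool

/-- product Bernoulli weight -/
noncomputable def wt (q : ℝ) {N : ℕ} (w : W N) : ℝ := ∏ i, (if w i = true then q else 1 - q)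

/-- expectation under the product measure -/
noncomputable def Ex (q : ℝ) {N : ℕ} (g : W N → ℝ) : ℝ := ∑ w, wt q w * g w

/-- variance under the product measure -/
noncomputable def Var (q : ℝ) {N : ℕ} (u : W N → ℝ) : ℝ :=
  Ex q (fun w => u w ^ 2) - (Ex q u) ^ 2

/-- value of a coordinate, `false` outside the window -/
def val {N : ℕ} (w : W N) (k : ℕ) : Bool := if h : k < N then w ⟨k, h⟩ else false

/-- the constraint at coordinate `i` (coordinate `0` is next to the front, which is infected) -/
def cc {N : ℕ} (w : W N) (i : ℕ) : Prop :=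
  i = 0 ∨ val w (i - 1) = true ∨ val w (i + 1) = true

instance {N : ℕ} (w : W N) (i : ℕ) : Decidable (cc w i) := by unfold cc; infer_instance

/-- drop the last coordinate -/
def ini {N : ℕ} (w : W (N + 1)) : W N := fun i => w i.castSucc
/-- drop the first coordinate -/
def tai {N : ℕ} (w : W (N + 1)) : W N := fun i => w i.succ
/-- append a coordinate at the end -/
def app {N : ℕ} (w : W N) (b : Bool) : W (N + 1) := Fin.snoc w b
/-- add a coordinate at the front -/
def con {N : ℕ} (b : Bool) (w : W N) : W (N + 1) := Fin.cons b w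
/-- the front moves forward: `(1, w_0, ..., w_{N-2})` -/
def psh {N : ℕ} (w : W N) : W N := fun i => if (i : ℕ) = 0 then true else val w (i - 1)

/-- generator of the environment seen from the front -/
noncomputable def gen (q : ℝ) {N : ℕ} (F : W N → ℝ) (w : W (N + 1)) : ℝ :=
  (∑ i : Fin N, if cc w i then
      q * F (Function.update (ini w) i true) + (1 - q) * F (Function.update (ini w) i false)
        - F (ini w) else 0)
  + q * (F (psh (ini w)) - F (ini w))
  + (if val w 0 = true then (1 - q) * (F (tai w) - F (ini w)) else 0)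

/-- drift of the front -/
noncomputable def psi (q : ℝ) {N : ℕ} (w : W N) : ℝ :=
  q - (if val w 0 = true then 1 - q else 0)

/-- stationary family: consistent densities with respect to the product measure which
annihilate the generator -/
structure Fam (q : ℝ) where
  /-- density of the first `N` coordinates -/
  f : ∀ N, W N → ℝ
  nn : ∀ N w, 0 ≤ f N w
  one : ∀ w, f 0 w = 1
  cons : ∀ N w, f N w = q * f (N + 1) (app w true) + (1 - q) * f (N + 1) (app w false)
  stat : ∀ (N : ℕ) (F : W N → ℝ), Ex q (fun w : W (N + 1) => f (N + 1) w * gen q F w) = 0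

/-- the drift of a stationary family -/
noncomputable def Fam.drift {q : ℝ} (f : Fam q) : ℝ :=
  q - (1 - q) * (q * f.f 1 (fun _ => true))

/-- gradient in coordinate `i` -/
noncomputable def dl {N : ℕ} (u : W N → ℝ) (i : Fin N) (w : W N) : ℝ :=
  u (Function.update w i true) - u (Function.update w i false)

/-- probability of an event -/
noncomputable def Fam.pr {q : ℝ} (f : Fam q) {N : ℕ} (P : W N → Prop) [DecidablePred P] : ℝ :=
  Ex q (fun w => if P w then f.f N w else 0)

/-- square root of the density -/
noncomputable def Fam.u {q : ℝ} (f : Fam q) (N : ℕ) (w : W N) : ℝ := √(f.f N w)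

/-- energies `s_i^{(N)}` (closed constraint) -/
noncomputable def Fam.s {q : ℝ} (f : Fam q) (N i : ℕ) : ℝ :=
  if h : i < N then Ex q (fun w : W N => if cc w i then (dl (f.u N) ⟨i, h⟩ w) ^ 2 else 0) else 0

/-- `U_{n+1}` -/
noncomputable def Fam.U {q : ℝ} (f : Fam q) (n : ℕ) : ℝ :=
  Ex q (fun w : W (n + 1) => (dl (f.u (n + 1)) (Fin.last n) w) ^ 2)

/-- probability that the coordinates `M ≤ k < N` are all healthy -/
noncomputable def Fam.zer {q : ℝ} (f : Fam q) (N M : ℕ) : ℝ :=
  f.pr (fun w : W N => ∀ k, k < N → M ≤ k → val w k = false)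

/-- probability that `j` is the last infected coordinate below `N` -/
noncomputable def Fam.lst {q : ℝ} (f : Fam q) (N j : ℕ) : ℝ :=
  f.pr (fun w : W N => val w j = true ∧ ∀ k, k < N → j < k → val w k = false)

/-- closed Dirichlet form -/
noncomputable def Dcl (q : ℝ) {N : ℕ} (u : W N → ℝ) : ℝ :=
  q * (1 - q) * ∑ i : Fin N, Ex q (fun w => if cc w i then (dl u i w) ^ 2 else 0)

/-- open Dirichlet form -/
noncomputable def Dop (q : ℝ) {n : ℕ} (u : W (n + 1) → ℝ) : ℝ :=
  Dcl q u + q ^ 2 * (1 - q) *
    Ex q (fun w => if cc w n then 0 else (dl u (Fin.last n) w) ^ 2)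

/-- the constant of the comparison walk -/
noncomputable def lam1 (q : ℝ) : ℝ := q * (1 - √(1 - q)) ^ 2 / (2 - q)

end Pool.Agent.Lib.MP_4c13d6_pr
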