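import Pool.Agent.Lib.MP_4c13d6_pr.Basic

/-! Part II: the chain seen from the front, with a boundary. -/

open Finset

namespace Pool.Agent.Lib.MP_4c13d6_pr

/-- state of the front: `none` = the front is the (frozen, infected) site `-1`;
`some l` = the front is at site `l.length`, and `l` lists the sites behind it (the head of `l` is
the site next to the front, the last entry is site `0`) -/
abbrev FS := Option (List Bool)

/-- value at distance `k+1` behind the front; `k = l.length` is the boundary site, of type `z` -/
def lv (z : Bool) (l : List Bool) (k : ℕ) : Bool := if k = l.length then z else l.getD k false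

/-- constraint -/
def lc (z : Bool) (l : List Bool) (i : ℕ) : Prop :=
  i = 0 ∨ lv z l (i - 1) = true ∨ lv z l (i + 1) = true

instance (z : Bool) (l : List Bool) (i : ℕ) : Decidable (lc z l i) := by
  unfold lc; infer_instance

/-- the front moves backward -/
def bk : List Bool → FS
  | [] => none
  | _ :: l => some l

/-- generator of the front chain with boundary type `z` (`true` = frozen infected site) -/
noncomputable def GG (q : ℝ) (z : Bool) (H : FS → ℝ) : FS → ℝ
  | none => q * (H (some []) - H none)
  | some l =>
    (∑ i ∈ range l.length, if lc z l i then
        q * H (some (l.set i true)) + (1 - q) * H (some (l.set i false)) - H (some l) else 0)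
    + q * (H (some (true :: l)) - H (some l))
    + (if lv z l 0 = true then (1 - q) * (H (bk l) - H (some l)) else 0)

/-- position of the front -/
def levZ : FS → ℤ
  | none => -1
  | some l => l.length

/-- position of the front, real valued -/
def lev (s : FS) : ℝ := (levZ s : ℝ)

/-- possible targets of a jump -/
inductive Nb : FS → FS → Prop
  | flip (l : List Bool) (i : ℕ) (b : Bool) : i < l.length → Nb (some l) (some (l.set i b))
  | push (l : List Bool) : Nb (some l) (some (true :: l))
  | back (l : List Bool) : Nb (some l) (bk l)
  | first : Nb none (some [])

/-- the first `N` symbols behind the front -/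
def pr (N : ℕ) : FS → W N
  | none => fun _ => false
  | some l => fun i => l.getD i false

/-- `h` depends only on the position and on the first `N` symbols -/
def IsLoc (N : ℕ) (h : FS → ℝ) : Prop := ∃ φ : ℤ → W N → ℝ, ∀ s, h s = φ (levZ s) (pr N s)

/-- corrected position of the front -/
noncomputable def Yf {N : ℕ} (F : W N → ℝ) : FS → ℝ
  | none => -1
  | some l => l.length + F (pr N (some l))

/-- a function of the level -/
noncomputable def uf (q : ℝ) (N1 : ℕ) (s : FS) : ℝ :=
  ∑ j ∈ Ico (levZ s + 1).toNat (N1 + 1), (2 / q) ^ (j + 1)

end Pool.Agent.Lib.MP_4c13d6_pr
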