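import Pool.Agent.Lib.MP_4c13d6_pr.EnergyL

section

/-! NT-2: the limit of the edge identity. -/

open Finset Filter Topology

namespace Pool.Agent.Lib.MP_4c13d6_pr

variable {q : ℝ}

private lemma sb_g_nonneg (f : Fam q) (hq1 : q < 1) (N : ℕ) (A : Finset ℕ) : 0 ≤ f.g N A :=
  mul_nonneg (pow_nonneg (by linarith) _) (f.nn _ _)

private lemma sb_mm_nonneg (hq : 0 < q) (hq1 : q < 1) (A : Finset ℕ) : 0 ≤ mm q A :=
  pow_nonneg (div_nonneg hq.le (by linarith)) _

private lemma sb_mm_insert {k : ℕ} {A : Finset ℕ} (h : k ∉ A) :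
    mm q (insert k A) = q / (1 - q) * mm q A := by
  rw [mm, mm, card_insert_of_notMem h, pow_succ']

private lemma sb_exists_range (A : Finset ℕ) : ∃ K, A ⊆ range K := A.exists_nat_subset_range

private lemma sb_limit (f : Fam q) (hq : 0 < q) (hq1 : q < 1) (A : Finset ℕ) :
    ∃ l : ℝ, 0 ≤ l ∧ Tendsto (fun N => f.g N A) atTop (𝓝 l) := by
  obtain ⟨K, hK⟩ := sb_exists_range A
  have hanti : Antitone (fun n => f.g (n + K) A) := by
    apply antitone_nat_of_succ_le
    intro n
    have hA : A ⊆ range (n + K) := hK.trans (range_mono (by omega))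
    have h := f.g_cons hq1 hA
    have h2 := sb_g_nonneg f hq1 (n + K + 1) (insert (n + K) A)
    have h3 : 0 ≤ q / (1 - q) * f.g (n + K + 1) (insert (n + K) A) :=
      mul_nonneg (div_nonneg hq.le (by linarith)) h2
    have h4 : n + 1 + K = n + K + 1 := by ring
    rw [h4]
    linarith
  have hb : BddBelow (Set.range fun n => f.g (n + K) A) :=
    ⟨0, by rintro _ ⟨n, rfl⟩; exact sb_g_nonneg f hq1 _ _⟩
  refine ⟨⨅ n, f.g (n + K) A, le_ciInf fun n => sb_g_nonneg f hq1 _ _, ?_⟩
  exact (tendsto_add_atTop_iff_nat K).mp (tendsto_atTop_ciInf hanti hb)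

private lemma sb_insert_eq (f : Fam q) (hq : 0 < q) (hq1 : q < 1) {n : ℕ} {C : Finset ℕ}
    (hC : C ⊆ range n) :
    f.g (n + 1) (insert n C) = (1 - q) / q * (f.g n C - f.g (n + 1) C) := by
  have h := f.g_cons hq1 hC
  have h1 : (1 - q) ≠ 0 := by linarith
  rw [h]
  field_simp
  ring

private lemma sb_tend_insert (f : Fam q) (hq : 0 < q) (hq1 : q < 1) {C : Finset ℕ} {l : ℝ}
    (hl : Tendsto (fun N => f.g N C) atTop (𝓝 l)) :
    Tendsto (fun n => f.g (n + 1) (insert n C)) atTop (𝓝 0) := by
  have h1 : Tendsto (fun n => (1 - q) / q * (f.g n C - f.g (n + 1) C)) atTop (𝓝 0) := by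
    have h2 := (hl.sub ((tendsto_add_atTop_iff_nat 1).mpr hl)).const_mul ((1 - q) / q)
    simpa using h2
  refine h1.congr' ?_
  obtain ⟨K, hK⟩ := sb_exists_range C
  filter_upwards [eventually_ge_atTop K] with n hn
  exact (sb_insert_eq f hq hq1 (hK.trans (range_mono hn))).symm

private lemma sb_tend_insert2 (f : Fam q) (hq : 0 < q) (hq1 : q < 1) {C : Finset ℕ} {l : ℝ}
    (hl : Tendsto (fun N => f.g N C) atTop (𝓝 l)) :
    Tendsto (fun n => f.g (n + 2) (insert (n + 1) (insert n C))) atTop (𝓝 0) := by
  have h1 : Tendsto (fun n => (1 - q) / q * f.g (n + 1) (insert n C)) atTop (𝓝 0) := by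
    have h2 := (sb_tend_insert f hq hq1 hl).const_mul ((1 - q) / q)
    simpa using h2
  refine squeeze_zero' (Eventually.of_forall fun n => sb_g_nonneg f hq1 _ _) ?_ h1
  obtain ⟨K, hK⟩ := sb_exists_range C
  filter_upwards [eventually_ge_atTop K] with n hn
  have hC : insert n C ⊆ range (n + 1) := by
    intro x hx
    rw [mem_insert] at hx
    rw [mem_range]
    rcases hx with hx | hx
    · omega
    · have := mem_range.mp (hK hx)
      omega
  rw [sb_insert_eq f hq hq1 hC]
  apply mul_le_mul_of_nonneg_left _ (div_nonneg (by linarith) hq.le)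
  linarith [sb_g_nonneg f hq1 (n + 1 + 1) (insert n C)]

/-- shift of the previous statements -/
private lemma sb_tend_insert' (f : Fam q) (hq : 0 < q) (hq1 : q < 1) {C : Finset ℕ} {l : ℝ}
    (hl : Tendsto (fun N => f.g N C) atTop (𝓝 l)) :
    Tendsto (fun n => f.g (n + 2) (insert (n + 1) C)) atTop (𝓝 0) := by
  have h := (tendsto_add_atTop_iff_nat 1).mpr (sb_tend_insert f hq hq1 hl)
  exact h

private lemma sb_pus_insert (n : ℕ) (A : Finset ℕ) : pus (insert n A) = insert (n + 1) (pus A) := by
  rw [pus, pus, image_insert, Finset.insert_comm]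

private lemma sb_mem_pus {A : Finset ℕ} {k : ℕ} : k ∈ pus A ↔ k = 0 ∨ ∃ j ∈ A, j + 1 = k := by
  rw [pus, mem_insert, mem_image]

/-- the part of the sums in which the new site is not used -/
private noncomputable def sbT (q : ℝ) (H : Finset ℕ → ℝ) (g g' : Finset ℕ → ℝ) (M : ℕ) : ℝ :=
  ∑ A ∈ (range M).powerset, (
          (∑ i ∈ range (M + 1), if i ∉ A ∧ ca A i then
            q * mm q A * ((g (insert i A) - g A) * (H (insert i A) - H A)) else 0)
          + q * mm q A * ((g (pus A) - g' A) * (H (pus A) - H A)))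

/-- the error terms -/
private noncomputable def sbE (q : ℝ) (f : Fam q) (H : Finset ℕ → ℝ) (M n : ℕ) : ℝ :=
  ∑ A ∈ (range M).powerset, (
    (∑ i ∈ insert n (range (M + 1)), if i ∉ A ∧ ca (insert (n + 1) A) i then
      q * mm q (insert (n + 1) A) * ((f.g (n + 2) (insert i (insert (n + 1) A))
        - f.g (n + 2) (insert (n + 1) A)) * (H (insert i A) - H A)) else 0)
    + q * mm q (insert n A) * ((f.g (n + 2) (insert (n + 1) (pus A)) - f.g (n + 1) (insert n A)) *
        H (pus A)))

private lemma sb_split (f : Fam q) (hq : 0 < q) (hq1 : q < 1) (M : ℕ) (H : Finset ℕ → ℝ)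
    (hH : ∀ A, ¬ A ⊆ range M → H A = 0) (n : ℕ) (hn : M + 1 ≤ n) :
    sbT q H (f.g (n + 2)) (f.g (n + 1)) M + sbE q f H M n = 0 := by
  have h := f.edge_id hq hq1 (n + 1) H
  have hMn : (range M).powerset ⊆ (range (n + 1)).powerset :=
    powerset_mono.mpr (range_mono (by omega))
  have hMn' : (range M).powerset ⊆ (range n).powerset :=
    powerset_mono.mpr (range_mono (by omega))
  -- first double sum
  have e1 : ∑ A ∈ (range (n + 1 + 1)).powerset, ∑ i ∈ range (n + 1),
      (if i ∉ A ∧ ca A i then q * mm q A *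
        ((f.g (n + 1 + 1) (insert i A) - f.g (n + 1 + 1) A)
          * (H (insert i A ∩ range (n + 1)) - H (A ∩ range (n + 1)))) else 0) =
      (∑ A ∈ (range M).powerset, ∑ i ∈ range (M + 1), if i ∉ A ∧ ca A i then
            q * mm q A * ((f.g (n + 2) (insert i A) - f.g (n + 2) A) *
              (H (insert i A) - H A)) else 0) +
      ∑ A ∈ (range M).powerset, ∑ i ∈ insert n (range (M + 1)),
        if i ∉ A ∧ ca (insert (n + 1) A) i then
      q * mm q (insert (n + 1) A) * ((f.g (n + 2) (insert i (insert (n + 1) A))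
        - f.g (n + 2) (insert (n + 1) A)) * (H (insert i A) - H A)) else 0 := by
    rw [range_add_one (n := n + 1), sum_powerset_insert (by simp)]
    congr 1
    · symm
      rw [← sum_subset hMn]
      · apply sum_congr rfl
        intro A hA
        rw [mem_powerset] at hA
        have hAn : A ⊆ range (n + 1) := hA.trans (range_mono (by omega))
        rw [← sum_subset (range_mono (show M + 1 ≤ n + 1 by omega))]
        · apply sum_congr rfl
          intro i hi
          rw [mem_range] at hi
          have hin : insert i A ⊆ range (n + 1) := by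
            intro x hx
            rw [mem_insert] at hx
            rcases hx with hx | hx
            · rw [mem_range]; omega
            · exact hAn hx
          rw [inter_eq_left.mpr hAn, inter_eq_left.mpr hin]
        · intro i _ hi
          rw [mem_range, not_lt] at hi
          rw [if_neg]
          rintro ⟨_, hc⟩
          rcases hc with hc | hc | hc
          · omega
          · have := mem_range.mp (hA hc); omega
          · have := mem_range.mp (hA hc); omega
      · intro A hAn hA
        rw [mem_powerset] at hA hAn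
        apply sum_eq_zero
        intro i hi
        have hin : insert i A ⊆ range (n + 1) := by
          intro x hx
          rw [mem_insert] at hx
          rcases hx with hx | hx
          · rw [hx]; exact hi
          · exact hAn hx
        rw [inter_eq_left.mpr hAn, inter_eq_left.mpr hin, hH A hA,
          hH (insert i A) (fun hs => hA ((subset_insert _ _).trans hs))]
        simp
    · symm
      rw [← sum_subset hMn]
      · apply sum_congr rfl
        intro A hA
        rw [mem_powerset] at hA
        have hAn : A ⊆ range (n + 1) := hA.trans (range_mono (by omega))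
        have hinter : insert (n + 1) A ∩ range (n + 1) = A := by
          ext x
          rw [mem_inter, mem_insert, mem_range]
          constructor
          · rintro ⟨h1 | h1, h2⟩
            · omega
            · exact h1
          · intro hx
            exact ⟨Or.inr hx, mem_range.mp (hAn hx)⟩
        have hsub : insert n (range (M + 1)) ⊆ range (n + 1) := by
          intro x hx
          rw [mem_insert, mem_range] at hx
          rw [mem_range]; omega
        rw [← sum_subset hsub]
        · apply sum_congr rfl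
          intro i hi
          have hi' := mem_range.mp (hsub hi)
          have hinter2 : insert i (insert (n + 1) A) ∩ range (n + 1) = insert i A := by
            ext x
            rw [mem_inter, mem_insert, mem_insert, mem_insert, mem_range]
            constructor
            · rintro ⟨h1 | h1 | h1, h2⟩
              · exact Or.inl h1
              · omega
              · exact Or.inr h1
            · rintro (hx | hx)
              · exact ⟨Or.inl hx, by omega⟩
              · exact ⟨Or.inr (Or.inr hx), mem_range.mp (hAn hx)⟩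
          have hmem : i ∉ insert (n + 1) A ↔ i ∉ A := by
            rw [mem_insert, not_or]
            constructor
            · exact fun h => h.2
            · exact fun h => ⟨by omega, h⟩
          rw [hinter, hinter2]
          simp only [hmem]
        · intro i hin hi
          rw [mem_insert, mem_range, not_or, not_lt] at hi
          rw [mem_range] at hin
          rw [if_neg]
          rintro ⟨_, hc⟩
          rcases hc with hc | hc | hc
          · omega
          · rw [mem_insert] at hc
            rcases hc with hc | hc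
            · omega
            · have := mem_range.mp (hA hc); omega
          · rw [mem_insert] at hc
            rcases hc with hc | hc
            · omega
            · have := mem_range.mp (hA hc); omega
      · intro A hAn hA
        rw [mem_powerset] at hA hAn
        apply sum_eq_zero
        intro i hi
        have hinter : insert (n + 1) A ∩ range (n + 1) = A := by
          ext x
          rw [mem_inter, mem_insert, mem_range]
          constructor
          · rintro ⟨h1 | h1, h2⟩
            · omega
            · exact h1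
          · intro hx
            exact ⟨Or.inr hx, mem_range.mp (hAn hx)⟩
        have hi' := mem_range.mp hi
        have hinter2 : insert i (insert (n + 1) A) ∩ range (n + 1) = insert i A := by
          ext x
          rw [mem_inter, mem_insert, mem_insert, mem_insert, mem_range]
          constructor
          · rintro ⟨h1 | h1 | h1, h2⟩
            · exact Or.inl h1
            · omega
            · exact Or.inr h1
          · rintro (hx | hx)
            · exact ⟨Or.inl hx, by omega⟩
            · exact ⟨Or.inr (Or.inr hx), mem_range.mp (hAn hx)⟩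
        rw [hinter, hinter2, hH A hA,
          hH (insert i A) (fun hs => hA ((subset_insert _ _).trans hs))]
        simp
  -- second sum
  have e2 : ∑ A ∈ (range (n + 1)).powerset, q * mm q A *
        ((f.g (n + 1 + 1) (pus A) - f.g (n + 1) A) * (H (pus A ∩ range (n + 1)) - H A)) =
      (∑ A ∈ (range M).powerset, q * mm q A * ((f.g (n + 2) (pus A) - f.g (n + 1) A) *
        (H (pus A) - H A))) +
      ∑ A ∈ (range M).powerset, q * mm q (insert n A) *
        ((f.g (n + 2) (insert (n + 1) (pus A)) - f.g (n + 1) (insert n A)) * H (pus A)) := by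
    rw [range_add_one (n := n), sum_powerset_insert (by simp), ← range_add_one]
    congr 1
    · symm
      rw [← sum_subset hMn']
      · apply sum_congr rfl
        intro A hA
        rw [mem_powerset] at hA
        have hpn : pus A ⊆ range (n + 1) := by
          intro x hx
          rw [sb_mem_pus] at hx
          rw [mem_range]
          rcases hx with hx | ⟨j, hj, hx⟩
          · omega
          · have := mem_range.mp (hA hj); omega
        rw [inter_eq_left.mpr hpn]
      · intro A hAn hA
        rw [mem_powerset] at hA hAn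
        have hpn : pus A ⊆ range (n + 1) := by
          intro x hx
          rw [sb_mem_pus] at hx
          rw [mem_range]
          rcases hx with hx | ⟨j, hj, hx⟩
          · omega
          · have := mem_range.mp (hAn hj); omega
        rw [inter_eq_left.mpr hpn, hH A hA, hH (pus A)]
        · simp
        · intro hs
          apply hA
          intro x hx
          have := mem_range.mp (hs (sb_mem_pus.mpr (Or.inr ⟨x, hx, rfl⟩)))
          rw [mem_range]; omega
    · symm
      rw [← sum_subset hMn']
      · apply sum_congr rfl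
        intro A hA
        rw [mem_powerset] at hA
        have hpn : pus (insert n A) ∩ range (n + 1) = pus A := by
          ext x
          rw [sb_pus_insert, mem_inter, mem_insert, mem_range]
          constructor
          · rintro ⟨h1 | h1, h2⟩
            · omega
            · exact h1
          · intro hx
            refine ⟨Or.inr hx, ?_⟩
            rw [sb_mem_pus] at hx
            rcases hx with hx | ⟨j, hj, hx⟩
            · omega
            · have := mem_range.mp (hA hj); omega
        have hHn : H (insert n A) = 0 := by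
          apply hH
          intro hs
          have := mem_range.mp (hs (mem_insert_self n A))
          omega
        rw [hpn, hHn, sub_zero, sb_pus_insert]
      · intro A hAn hA
        rw [mem_powerset] at hA hAn
        have hpn : pus (insert n A) ∩ range (n + 1) = pus A := by
          ext x
          rw [sb_pus_insert, mem_inter, mem_insert, mem_range]
          constructor
          · rintro ⟨h1 | h1, h2⟩
            · omega
            · exact h1
          · intro hx
            refine ⟨Or.inr hx, ?_⟩
            rw [sb_mem_pus] at hx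
            rcases hx with hx | ⟨j, hj, hx⟩
            · omega
            · have := mem_range.mp (hAn hj); omega
        have hHn : H (insert n A) = 0 := by
          apply hH
          intro hs
          have := mem_range.mp (hs (mem_insert_self n A))
          omega
        have hHp : H (pus A) = 0 := by
          apply hH
          intro hs
          apply hA
          intro x hx
          have := mem_range.mp (hs (sb_mem_pus.mpr (Or.inr ⟨x, hx, rfl⟩)))
          rw [mem_range]; omega
        rw [hpn, hHn, hHp]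
        simp
  rw [e1, e2] at h
  rw [sbT, sbE, sum_add_distrib, sum_add_distrib]
  linarith

private lemma sb_key (P : ℕ → Prop) [DecidablePred P] (c d : ℝ) (s t : ℕ → ℝ)
    (hs : Tendsto s atTop (𝓝 0)) (ht : Tendsto t atTop (𝓝 0)) :
    Tendsto (fun n => if P n then c * ((s n - t n) * d) else 0) atTop (𝓝 0) := by
  have h1 : Tendsto (fun n => |c * ((s n - t n) * d)|) atTop (𝓝 0) := by
    have h2 := (((hs.sub ht).mul_const d).const_mul c).abs
    simpa using h2
  refine squeeze_zero_norm (fun n => ?_) h1
  split_ifs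
  · exact le_of_eq (Real.norm_eq_abs _)
  · rw [norm_zero]; exact abs_nonneg _

private lemma sbE_first (f : Fam q) (hq : 0 < q) (hq1 : q < 1) (M : ℕ) (H : Finset ℕ → ℝ)
    (hH : ∀ A, ¬ A ⊆ range M → H A = 0) (g : Finset ℕ → ℝ)
    (hg : ∀ A, Tendsto (fun N => f.g N A) atTop (𝓝 (g A))) (A : Finset ℕ) (hA : A ⊆ range M) :
    Tendsto (fun n => ∑ i ∈ insert n (range (M + 1)), (if i ∉ A ∧ ca (insert (n + 1) A) i then
      q * mm q (insert (n + 1) A) * ((f.g (n + 2) (insert i (insert (n + 1) A))
        - f.g (n + 2) (insert (n + 1) A)) * (H (insert i A) - H A)) else 0)) atTop (𝓝 0) := by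
  have hsplit : ∀ᶠ n in atTop,
      (if n ∉ A ∧ ca (insert (n + 1) A) n then
        q * (q / (1 - q) * mm q A) * ((f.g (n + 2) (insert (n + 1) (insert n A))
        - f.g (n + 2) (insert (n + 1) A)) * (0 - H A)) else 0) +
      ∑ i ∈ range (M + 1), (if i ∉ A ∧ ca (insert (n + 1) A) i then
        q * (q / (1 - q) * mm q A) * ((f.g (n + 2) (insert (n + 1) (insert i A))
        - f.g (n + 2) (insert (n + 1) A)) * (H (insert i A) - H A)) else 0) =
      ∑ i ∈ insert n (range (M + 1)),
      (if i ∉ A ∧ ca (insert (n + 1) A) i then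
        q * mm q (insert (n + 1) A) * ((f.g (n + 2) (insert i (insert (n + 1) A))
        - f.g (n + 2) (insert (n + 1) A)) * (H (insert i A) - H A)) else 0) := by
    filter_upwards [eventually_ge_atTop (M + 1)] with n hn
    rw [sum_insert (by rw [mem_range]; omega)]
    have hn1 : n + 1 ∉ A := by
      intro h
      have := mem_range.mp (hA h); omega
    have hHn : H (insert n A) = 0 := by
      apply hH
      intro hs
      have := mem_range.mp (hs (mem_insert_self n A))
      omega
    rw [sb_mm_insert hn1, hHn, Finset.insert_comm n (n + 1) A]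
    congr 1
    apply sum_congr rfl
    intro i _
    rw [Finset.insert_comm i (n + 1) A]
  refine Tendsto.congr' hsplit ?_
  have h1 := sb_key (fun n => n ∉ A ∧ ca (insert (n + 1) A) n) (q * (q / (1 - q) * mm q A))
    (0 - H A) _ _ (sb_tend_insert2 f hq hq1 (hg A)) (sb_tend_insert' f hq hq1 (hg A))
  have h2 : Tendsto (fun n => ∑ i ∈ range (M + 1), (if i ∉ A ∧ ca (insert (n + 1) A) i then
        q * (q / (1 - q) * mm q A) * ((f.g (n + 2) (insert (n + 1) (insert i A))
        - f.g (n + 2) (insert (n + 1) A)) * (H (insert i A) - H A)) else 0)) atTop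
      (𝓝 (∑ i ∈ range (M + 1), (0:ℝ))) :=
    tendsto_finsetSum _ fun i _ => sb_key (fun n => i ∉ A ∧ ca (insert (n + 1) A) i) _ _ _ _
      (sb_tend_insert' f hq hq1 (hg (insert i A))) (sb_tend_insert' f hq hq1 (hg A))
  rw [sum_const_zero] at h2
  have h3 := h1.add h2
  rw [add_zero] at h3
  exact h3

private lemma sbE_tendsto (f : Fam q) (hq : 0 < q) (hq1 : q < 1) (M : ℕ) (H : Finset ℕ → ℝ)
    (hH : ∀ A, ¬ A ⊆ range M → H A = 0) (g : Finset ℕ → ℝ)
    (hg : ∀ A, Tendsto (fun N => f.g N A) atTop (𝓝 (g A))) :
    Tendsto (fun n => sbE q f H M n) atTop (𝓝 0) := by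
  have hmain : Tendsto (fun n => sbE q f H M n) atTop
      (𝓝 (∑ A ∈ (range M).powerset, (0:ℝ))) := by
    unfold sbE
    refine tendsto_finsetSum _ ?_
    intro A hA
    rw [mem_powerset] at hA
    have h1 := sbE_first f hq hq1 M H hH g hg A hA
    have h2 : Tendsto (fun n => q * mm q (insert n A) *
        ((f.g (n + 2) (insert (n + 1) (pus A)) - f.g (n + 1) (insert n A)) * H (pus A))) atTop
        (𝓝 0) := by
      have hev : ∀ᶠ n in atTop, q * (q / (1 - q) * mm q A) *
          ((f.g (n + 2) (insert (n + 1) (pus A)) - f.g (n + 1) (insert n A)) * H (pus A)) =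
          q * mm q (insert n A) *
          ((f.g (n + 2) (insert (n + 1) (pus A)) - f.g (n + 1) (insert n A)) * H (pus A)) := by
        filter_upwards [eventually_ge_atTop (M + 1)] with n hn
        have hn1 : n ∉ A := by
          intro h
          have := mem_range.mp (hA h); omega
        rw [sb_mm_insert hn1]
      refine Tendsto.congr' hev ?_
      have h2 := (((sb_tend_insert' f hq hq1 (hg (pus A))).sub
        (sb_tend_insert f hq hq1 (hg A))).mul_const (H (pus A))).const_mul
        (q * (q / (1 - q) * mm q A))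
      simpa using h2
    have h3 := h1.add h2
    rw [add_zero] at h3
    exact h3
  rw [sum_const_zero] at hmain
  exact hmain

theorem Fam.g_limit (f : Fam q) (hq : 0 < q) (hq1 : q < 1) :
    ∃ g : Finset ℕ → ℝ, (∀ A, 0 ≤ g A) ∧ (∀ A, Tendsto (fun N => f.g N A) atTop (𝓝 (g A))) ∧
      (∀ M, ∑ A ∈ (range M).powerset, mm q A * g A ≤ 1) ∧
      (∀ (M : ℕ) (H : Finset ℕ → ℝ), (∀ A, ¬ A ⊆ range M → H A = 0) →
        ∑ A ∈ (range M).powerset, (
          (∑ i ∈ range (M + 1), if i ∉ A ∧ ca A i then
            q * mm q A * ((g (insert i A) - g A) * (H (insert i A) - H A)) else 0)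
          + q * mm q A * ((g (pus A) - g A) * (H (pus A) - H A))) = 0) := by
  choose g hg0 hg using fun A => sb_limit f hq hq1 A
  refine ⟨g, hg0, hg, ?_, ?_⟩
  · intro M
    have h1 : Tendsto (fun N => ∑ A ∈ (range M).powerset, mm q A * f.g N A) atTop
        (𝓝 (∑ A ∈ (range M).powerset, mm q A * g A)) :=
      tendsto_finsetSum _ fun A _ => (hg A).const_mul _
    refine le_of_tendsto h1 ?_
    filter_upwards [eventually_ge_atTop M] with N hN
    rw [← f.sum_g hq1 N]
    apply sum_le_sum_of_subset_of_nonneg (powerset_mono.mpr (range_mono hN))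
    intro A _ _
    exact mul_nonneg (sb_mm_nonneg hq hq1 A) (sb_g_nonneg f hq1 N A)
  · intro M H hH
    have h1 : Tendsto (fun n => sbT q H (f.g (n + 2)) (f.g (n + 1)) M) atTop
        (𝓝 (sbT q H g g M)) := by
      unfold sbT
      have hg2 : ∀ A, Tendsto (fun n => f.g (n + 2) A) atTop (𝓝 (g A)) := fun A =>
        (tendsto_add_atTop_iff_nat 2).mpr (hg A)
      have hg1 : ∀ A, Tendsto (fun n => f.g (n + 1) A) atTop (𝓝 (g A)) := fun A =>
        (tendsto_add_atTop_iff_nat 1).mpr (hg A)
      apply tendsto_finsetSum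
      intro A _
      refine Tendsto.add ?_ ?_
      · apply tendsto_finsetSum
        intro i _
        split_ifs
        · exact (((hg2 _).sub (hg2 _)).mul_const _).const_mul _
        · exact tendsto_const_nhds
      · exact (((hg2 _).sub (hg1 _)).mul_const _).const_mul _
    have h2 := h1.add (sbE_tendsto f hq hq1 M H hH g hg)
    have h3 : Tendsto (fun n => sbT q H (f.g (n + 2)) (f.g (n + 1)) M + sbE q f H M n) atTop
        (𝓝 0) := by
      refine Tendsto.congr' ?_ tendsto_const_nhds
      filter_upwards [eventually_ge_atTop (M + 1)] with n hn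
      exact (sb_split f hq hq1 M H hH n hn).symm
    have h4 := tendsto_nhds_unique h2 h3
    rw [add_zero] at h4
    exact h4

end Pool.Agent.Lib.MP_4c13d6_pr
end

section

/-! FA-6: the entropy inequality (Lemma 8) and summability of the energies (Corollary 9). -/

open Finset

namespace Pool.Agent.Lib.MP_4c13d6_pr

variable {q : ℝ}

namespace Fam

theorem entropy_ineq (f : Fam q) (hq : 0 < q) (hq1 : q < 1) (n : ℕ) :
    4 * q * (1 - q) * ∑ i ∈ range n, f.s (n + 1) i
      ≤ q * (1 - (1 - q) * f.f 1 (fun _ => true)) * Real.log (f.f 1 (fun _ => true))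
        + 2 * √(f.U n) + 2 * (1 - q) * f.U (n + 1) := by
  have h0 := f.stat (n + 1) (fun v => Real.log (f.f (n + 1) v))
  have h1 : Ex q (fun w : W (n + 2) => f.f (n + 2) w *
      gen q (fun v => Real.log (f.f (n + 1) v)) w) =
      (∑ i : Fin (n + 1), Ex q (fun w : W (n + 2) => f.f (n + 2) w *
        flipT q (fun v => Real.log (f.f (n + 1) v)) i w)) +
      Ex q (fun w : W (n + 2) => f.f (n + 2) w *
      (q * (Real.log (f.f (n + 1) (psh (ini w))) - Real.log (f.f (n + 1) (ini w)))
        + (if val w 0 = true then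
            (1 - q) * (Real.log (f.f (n + 1) (tai w)) - Real.log (f.f (n + 1) (ini w))) else 0))) := by
    rw [← Ex_sum, ← Ex_add]
    refine Ex_congr fun w => ?_
    rw [← Finset.mul_sum, ← mul_add]
    congr 1
    unfold gen flipT
    ring
  have h2 := front_terms f hq hq1 n
  have h3 := flip_last f hq hq1 n
  have h4 : ∑ i : Fin n, Ex q (fun w : W (n + 2) => f.f (n + 2) w *
        flipT q (fun v => Real.log (f.f (n + 1) v)) i.castSucc w) ≤
      ∑ i : Fin n, -(4 * q * (1 - q) * f.s (n + 1) i) := by
    refine Finset.sum_le_sum fun i _ => ?_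
    exact flip_interior f hq hq1 n i i.2
  rw [Fin.sum_univ_castSucc] at h1
  have h5 : ∑ i : Fin n, -(4 * q * (1 - q) * f.s (n + 1) i) =
      -(4 * q * (1 - q) * ∑ i ∈ range n, f.s (n + 1) i) := by
    rw [Finset.sum_neg_distrib, Finset.sum_range, Finset.mul_sum]
  have h6 : Ex q (fun w : W (n + 2) => f.f (n + 2) w *
      gen q (fun v => Real.log (f.f (n + 1) v)) w) = 0 := h0
  linarith

private theorem ed_bound (f : Fam q) (hq : 0 < q) (hq1 : q < 1) :
    ∃ D : ℝ, 0 ≤ D ∧ ∀ n : ℕ, ∑ i ∈ range n, f.s (n + 1) i ≤ D := by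
  have hp : 0 < 4 * q * (1 - q) := by
    have : 0 < 1 - q := by linarith
    positivity
  have hR := f.pos hq hq1 1 (fun _ => true)
  have hRq := f.R_le hq hq1
  have hfb := front_bound (a := 1 - q) (R := f.f 1 (fun _ => true)) (by linarith) (by linarith) hR
    (by rw [sub_sub_cancel]; exact hRq)
  have key : ∀ n : ℕ, ∑ i ∈ range n, f.s (n + 1) i ≤ (q * (√2 * (1 - √(1 - q)) ^ 2) +
      2 * √(1 / q + 1 / (1 - q)) + 2 * (1 - q) * (1 / q + 1 / (1 - q))) / (4 * q * (1 - q)) := by
    intro n
    rw [le_div_iff₀ hp]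
    have h1 := entropy_ineq f hq hq1 n
    have h2 : √(f.U n) ≤ √(1 / q + 1 / (1 - q)) := Real.sqrt_le_sqrt (U_le f hq hq1 n)
    have h3 : 2 * (1 - q) * f.U (n + 1) ≤ 2 * (1 - q) * (1 / q + 1 / (1 - q)) :=
      mul_le_mul_of_nonneg_left (U_le f hq hq1 (n + 1)) (by linarith)
    have h4 : q * (1 - (1 - q) * f.f 1 (fun _ => true)) * Real.log (f.f 1 (fun _ => true)) ≤
        q * (√2 * (1 - √(1 - q)) ^ 2) := by
      rw [mul_assoc]
      exact mul_le_mul_of_nonneg_left hfb hq.le
    linarith
  refine ⟨_, ?_, key⟩
  have := key 0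
  simpa using this

/-- uniform summable bound for the energies -/
theorem energy_summable (f : Fam q) (hq : 0 < q) (hq1 : q < 1) :
    ∃ σ : ℕ → ℝ, (∀ i, 0 ≤ σ i) ∧ Summable σ ∧ ∀ N i, f.s N i ≤ σ i := by
  obtain ⟨D, hD, hbound⟩ := ed_bound f hq hq1
  have hmono : ∀ i, Monotone (fun N => f.s N i) := by
    intro i
    refine monotone_nat_of_le_succ fun N => ?_
    rcases lt_or_ge i N with h | h
    · exact s_mono f hq hq1 h
    · have h1 : f.s N i = 0 := by
        unfold Fam.s
        rw [dif_neg (by omega)]
      rw [h1]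
      exact s_nonneg f hq hq1 _ _
  have hsD : ∀ N i, f.s N i ≤ D := by
    intro N i
    set M := max N (i + 1) with hM
    have h1 : f.s N i ≤ f.s (M + 1) i := hmono i (by omega)
    have h2 : f.s (M + 1) i ≤ ∑ j ∈ range M, f.s (M + 1) j :=
      Finset.single_le_sum (f := fun j => f.s (M + 1) j)
        (fun j _ => s_nonneg f hq hq1 _ _) (Finset.mem_range.2 (by omega))
    exact h1.trans (h2.trans (hbound M))
  have hbdd : ∀ i, BddAbove (Set.range fun N => f.s N i) := by
    intro i
    refine ⟨D, ?_⟩
    rintro x ⟨N, rfl⟩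
    exact hsD N i
  have hle : ∀ N i, f.s N i ≤ ⨆ N, f.s N i := fun N i => le_ciSup (hbdd i) N
  have hσ0 : ∀ i, 0 ≤ ⨆ N, f.s N i := fun i => (s_nonneg f hq hq1 0 i).trans (hle 0 i)
  refine ⟨fun i => ⨆ N, f.s N i, hσ0, ?_, hle⟩
  refine summable_of_sum_range_le (c := D) hσ0 fun K => ?_
  have ht : Filter.Tendsto (fun N => ∑ i ∈ range K, f.s N i) Filter.atTop
      (nhds (∑ i ∈ range K, ⨆ N, f.s N i)) :=
    tendsto_finsetSum _ fun i _ => tendsto_atTop_ciSup (hmono i) (hbdd i)
  refine le_of_tendsto ht ?_
  filter_upwards [Filter.eventually_ge_atTop (K + 1)] with N hN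
  obtain ⟨M, rfl⟩ : ∃ M, N = M + 1 := ⟨N - 1, by omega⟩
  refine le_trans (Finset.sum_le_sum_of_subset_of_nonneg ?_ fun i _ _ => ?_) (hbound M)
  · intro i hi
    rw [Finset.mem_range] at hi ⊢
    omega
  · exact s_nonneg f hq hq1 _ _

end Fam

end Pool.Agent.Lib.MP_4c13d6_pr
end

section

/-! NT-3: no free tail (Lemma 11). -/

open Finset Filter Topology

namespace Pool.Agent.Lib.MP_4c13d6_pr

variable {q : ℝ}

/-- level of a finite set -/
private def lvC (A : Finset ℕ) : ℕ := A.sup (fun k => k + 1)

private lemma lvC_le {A : Finset ℕ} {M : ℕ} : lvC A ≤ M ↔ A ⊆ range M := by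
  unfold lvC
  rw [Finset.sup_le_iff]
  constructor
  · intro h k hk
    have := h k hk
    rw [mem_range]
    omega
  · intro h k hk
    have := h hk
    rw [mem_range] at this
    omega

private lemma lvC_mem {A : Finset ℕ} {k : ℕ} (h : k ∈ A) : k + 1 ≤ lvC A :=
  Finset.le_sup (f := fun k => k + 1) h

private lemma lvC_insert (A : Finset ℕ) (i : ℕ) : lvC (insert i A) = max (i + 1) (lvC A) := by
  unfold lvC
  rw [Finset.sup_insert]

private lemma ca_le {A : Finset ℕ} {i : ℕ} (h : ca A i) : i ≤ lvC A := by
  rcases h with h | h | h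
  · omega
  · have := lvC_mem h
    omega
  · have := lvC_mem h
    omega

private lemma mem_pus {A : Finset ℕ} {k : ℕ} : k ∈ pus A ↔ k = 0 ∨ ∃ j ∈ A, j + 1 = k := by
  unfold pus
  simp only [mem_insert, mem_image]

private lemma lvC_pus (A : Finset ℕ) : lvC (pus A) = lvC A + 1 := by
  apply le_antisymm
  · rw [lvC_le]
    intro k hk
    rw [mem_range]
    rcases mem_pus.1 hk with h | ⟨j, hj, h⟩
    · omega
    · have := lvC_mem hj
      omega
  · rcases A.eq_empty_or_nonempty with h | h
    · subst h
      have : (0 : ℕ) ∈ pus ∅ := mem_pus.2 (Or.inl rfl)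
      have := lvC_mem this
      simpa [lvC] using this
    · obtain ⟨k, hk, hk'⟩ := Finset.exists_mem_eq_sup A h (fun k => k + 1)
      have h1 : k + 1 ∈ pus A := mem_pus.2 (Or.inr ⟨k, hk, rfl⟩)
      have h2 := lvC_mem h1
      unfold lvC at h2 ⊢
      rw [hk']
      exact h2

private lemma card_pus (A : Finset ℕ) : (pus A).card = A.card + 1 := by
  unfold pus
  rw [card_insert_of_notMem, card_image_of_injective _ (add_left_injective 1)]
  simp

private lemma pus_inj : Function.Injective pus := by
  intro A B h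
  ext k
  have h1 : k + 1 ∈ pus A ↔ k + 1 ∈ pus B := by rw [h]
  rw [mem_pus, mem_pus] at h1
  simpa using h1

private lemma mm_pos (hq : 0 < q) (hq1 : q < 1) (A : Finset ℕ) : 0 < mm q A := by
  unfold mm
  have : 0 < 1 - q := by linarith
  positivity

private lemma mm_succ (hq1 : q < 1) {A B : Finset ℕ} (h : B.card = A.card + 1) :
    q * mm q A = (1 - q) * mm q B := by
  unfold mm
  have : 1 - q ≠ 0 := by linarith
  rw [h, pow_succ]
  field_simp

/-- the edges -/
private def EPC (e : Finset ℕ × Option ℕ) : Prop := ∀ i, e.2 = some i → i ∉ e.1 ∧ ca e.1 i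

private noncomputable instance : DecidablePred EPC := fun _ => Classical.propDecidable _

private def tgC (e : Finset ℕ × Option ℕ) : Finset ℕ := e.2.elim (pus e.1) (fun i => insert i e.1)

private noncomputable def EEC (M : ℕ) : Finset {e // EPC e} :=
  ((range M).powerset ×ˢ (insertNone (range (M + 1)))).subtype EPC

private lemma sum_EEC (M : ℕ) (Φ : Finset ℕ × Option ℕ → ℝ) :
    ∑ e ∈ EEC M, Φ e.1 = ∑ A ∈ (range M).powerset,
      ((∑ i ∈ range (M + 1), if i ∉ A ∧ ca A i then Φ (A, some i) else 0) + Φ (A, none)) := by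
  unfold EEC
  rw [Finset.sum_subtype_eq_sum_filter, Finset.sum_filter, Finset.sum_product]
  refine Finset.sum_congr rfl fun A _ => ?_
  rw [Finset.sum_insertNone, add_comm]
  congr 1
  · refine Finset.sum_congr rfl fun i _ => ?_
    congr 1
    simp [EPC]
  · rw [if_pos]
    intro i hi
    exact absurd hi (by simp)

private lemma tgC_lev (e : {e // EPC e}) :
    lvC (tgC e.1) = lvC e.1.1 ∨ lvC (tgC e.1) = lvC e.1.1 + 1 := by
  obtain ⟨⟨A, o⟩, h⟩ := e
  cases o with
  | none => exact Or.inr (lvC_pus A)
  | some i =>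
    have h1 := (h i rfl).2
    have h2 := ca_le h1
    simp only [tgC, Option.elim] at *
    rw [lvC_insert]
    omega

/-- the energy lemma in the concrete setting -/
private lemma harmonic_const (hq : 0 < q) (hq1 : q < 1) (g : Finset ℕ → ℝ) (hg : ∀ A, 0 ≤ g A)
    (hm : ∀ M, ∑ A ∈ (range M).powerset, mm q A * g A ≤ 1)
    (hw : ∀ (M : ℕ) (H : Finset ℕ → ℝ), (∀ A, ¬ A ⊆ range M → H A = 0) →
        ∑ A ∈ (range M).powerset, (
          (∑ i ∈ range (M + 1), if i ∉ A ∧ ca A i then
            q * mm q A * ((g (insert i A) - g A) * (H (insert i A) - H A)) else 0)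
          + q * mm q A * ((g (pus A) - g A) * (H (pus A) - H A))) = 0) :
    ∀ A i, i ∉ A → ca A i → g (insert i A) = g A := by
  have ha : 0 < 1 - q := by linarith
  -- the masses
  set P : ℕ → ℝ := fun M => ∑ A ∈ (range M).powerset, mm q A * g A with hP
  set D : ℕ → ℝ := fun M => ∑ A ∈ (range M).powerset, mm q (insert M A) * g (insert M A) with hD
  have hmg : ∀ A, 0 ≤ mm q A * g A := fun A => mul_nonneg (mm_pos hq hq1 A).le (hg A)
  have hPD : ∀ M, P (M + 1) = P M + D M := by
    intro M
    simp only [hP, hD]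
    rw [Finset.range_add_one, Finset.sum_powerset_insert notMem_range_self]
  have hD0 : ∀ M, 0 ≤ D M := fun M => Finset.sum_nonneg fun A _ => hmg _
  have hmono : Monotone P := monotone_nat_of_le_succ fun M => by
    rw [hPD M]
    linarith [hD0 M]
  have hbdd : BddAbove (Set.range P) := ⟨1, by
    rintro _ ⟨M, rfl⟩
    exact hm M⟩
  have hlim := tendsto_atTop_ciSup hmono hbdd
  have hDlim : Tendsto D atTop (𝓝 0) := by
    have h1 : Tendsto (fun M => P (M + 1) - P M) atTop (𝓝 (iSup P - iSup P)) :=
      (hlim.comp (tendsto_add_atTop_nat 1)).sub hlim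
    rw [sub_self] at h1
    refine h1.congr fun M => ?_
    rw [hPD M]
    ring
  -- mass of a level
  have hmass : ∀ M, ∑ A ∈ (range (M + 1)).powerset,
      (if lvC A = M + 1 then mm q A * g A else 0) ≤ D M := by
    intro M
    rw [Finset.range_add_one, Finset.sum_powerset_insert notMem_range_self]
    have h1 : ∑ A ∈ (range M).powerset, (if lvC A = M + 1 then mm q A * g A else 0) = 0 := by
      refine Finset.sum_eq_zero fun A hA => ?_
      have h2 := lvC_le.2 (mem_powerset.1 hA)
      rw [if_neg (by omega)]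
    rw [h1, zero_add]
    refine Finset.sum_le_sum fun A _ => ?_
    split_ifs
    · exact le_rfl
    · exact hmg _
  have hpus : ∀ M, ∑ A ∈ (range M).powerset,
      (if lvC A = M then mm q (pus A) * g (pus A) else 0) ≤ D M := by
    intro M
    refine le_trans ?_ (hmass M)
    rw [← Finset.sum_filter, ← Finset.sum_filter]
    rw [← Finset.sum_image (f := fun B => mm q B * g B) (g := pus) (fun A _ B _ h => pus_inj h)]
    refine Finset.sum_le_sum_of_subset_of_nonneg ?_ fun A _ _ => hmg A
    intro B hB
    obtain ⟨A, hA, rfl⟩ := Finset.mem_image.1 hB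
    rw [mem_filter, mem_powerset] at hA ⊢
    rw [← lvC_le, lvC_pus, hA.2]
    exact ⟨le_rfl, rfl⟩
  -- boundary sums
  have hbd : ∀ M, ∑ e ∈ (EEC (M + 1)).filter
      (fun e => lvC e.1.1 = M + 1 ∧ lvC (tgC e.1) = M + 1 + 1),
        (q * mm q e.1.1) * (g e.1.1 + g (tgC e.1)) ≤ 2 * D M + 2 * D (M + 1) := by
    intro M
    rw [Finset.sum_filter]
    rw [sum_EEC (M + 1) (fun e => if lvC e.1 = M + 1 ∧ lvC (tgC e) = M + 1 + 1 then
      (q * mm q e.1) * (g e.1 + g (tgC e)) else 0)]
    have h1 : ∀ A ∈ (range (M + 1)).powerset,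
        ((∑ i ∈ range (M + 1 + 1), if i ∉ A ∧ ca A i then
          (if lvC A = M + 1 ∧ lvC (tgC (A, some i)) = M + 1 + 1 then
            (q * mm q A) * (g A + g (tgC (A, some i))) else 0) else 0) +
          (if lvC A = M + 1 ∧ lvC (tgC (A, none)) = M + 1 + 1 then
            (q * mm q A) * (g A + g (tgC (A, none))) else 0)) ≤
        2 * (if lvC A = M + 1 then mm q A * g A else 0) +
          (mm q (insert (M + 1) A) * g (insert (M + 1) A) +
          (if lvC A = M + 1 then mm q (pus A) * g (pus A) else 0)) := by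
      intro A hA
      have hAr := mem_powerset.1 hA
      have hnot : M + 1 ∉ A := fun h => by
        have := hAr h
        simp at this
      by_cases hl : lvC A = M + 1
      · have hmA := mm_pos hq hq1 A
        have hgA := hg A
        have e1 : ∑ i ∈ range (M + 1 + 1), (if i ∉ A ∧ ca A i then
            (if lvC A = M + 1 ∧ lvC (tgC (A, some i)) = M + 1 + 1 then
            (q * mm q A) * (g A + g (tgC (A, some i))) else 0) else 0) ≤
            (q * mm q A) * (g A + g (insert (M + 1) A)) := by
          have h2 : ∀ i ∈ range (M + 1 + 1), (if i ∉ A ∧ ca A i then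
              (if lvC A = M + 1 ∧ lvC (tgC (A, some i)) = M + 1 + 1 then
              (q * mm q A) * (g A + g (tgC (A, some i))) else 0) else 0) ≤
              if i = M + 1 then (q * mm q A) * (g A + g (insert (M + 1) A)) else 0 := by
            intro i hi
            have hnn : 0 ≤ (q * mm q A) * (g A + g (insert (M + 1) A)) := by
              have := hg (insert (M + 1) A)
              positivity
            have e0 : tgC (A, some i) = insert i A := rfl
            rw [e0]
            by_cases hi1 : i = M + 1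
            · subst hi1
              rw [if_pos rfl]
              split_ifs
              · exact le_rfl
              · exact hnn
              · exact hnn
            · rw [if_neg hi1]
              have h3 : ¬ (lvC A = M + 1 ∧ lvC (insert i A) = M + 1 + 1) := by
                rintro ⟨h4, h5⟩
                rw [lvC_insert, h4] at h5
                rw [mem_range] at hi
                omega
              rw [if_neg h3, ite_self]
          refine (Finset.sum_le_sum h2).trans (le_of_eq ?_)
          rw [Finset.sum_ite_eq' (range (M + 1 + 1)) (M + 1)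
            (fun _ => (q * mm q A) * (g A + g (insert (M + 1) A)))]
          rw [if_pos (by simp)]
        have e2 : (if lvC A = M + 1 ∧ lvC (tgC (A, none)) = M + 1 + 1 then
            (q * mm q A) * (g A + g (tgC (A, none))) else 0) =
            (q * mm q A) * (g A + g (pus A)) := by
          rw [if_pos]
          · rfl
          · refine ⟨hl, ?_⟩
            have : tgC (A, none) = pus A := rfl
            rw [this, lvC_pus, hl]
        have e3 : q * mm q A = (1 - q) * mm q (insert (M + 1) A) :=
          mm_succ hq1 (card_insert_of_notMem hnot)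
        have e4 : q * mm q A = (1 - q) * mm q (pus A) := mm_succ hq1 (card_pus A)
        rw [e2, if_pos hl, if_pos hl]
        have e5 : (q * mm q A) * (g A + g (insert (M + 1) A)) ≤
            mm q A * g A + mm q (insert (M + 1) A) * g (insert (M + 1) A) := by
          rw [mul_add]
          apply add_le_add
          · have := hmg A
            nlinarith
          · rw [e3]
            have := hmg (insert (M + 1) A)
            nlinarith
        have e6 : (q * mm q A) * (g A + g (pus A)) ≤
            mm q A * g A + mm q (pus A) * g (pus A) := by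
          rw [mul_add]
          apply add_le_add
          · have := hmg A
            nlinarith
          · rw [e4]
            have := hmg (pus A)
            nlinarith
        linarith
      · have h3 : ∀ e, ¬ (lvC A = M + 1 ∧ lvC (tgC e) = M + 1 + 1) := fun e h => hl h.1
        rw [if_neg (h3 _), if_neg hl, if_neg hl]
        have h4 : ∑ i ∈ range (M + 1 + 1), (if i ∉ A ∧ ca A i then
            (if lvC A = M + 1 ∧ lvC (tgC (A, some i)) = M + 1 + 1 then
            (q * mm q A) * (g A + g (tgC (A, some i))) else 0) else 0) = 0 := by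
          refine Finset.sum_eq_zero fun i _ => ?_
          rw [if_neg (h3 _), ite_self]
        rw [h4]
        have := hmg (insert (M + 1) A)
        linarith
    refine (Finset.sum_le_sum h1).trans ?_
    rw [Finset.sum_add_distrib, Finset.sum_add_distrib, ← Finset.mul_sum]
    have h2 := hmass M
    have h3 := hpus (M + 1)
    have h4 : ∑ A ∈ (range (M + 1)).powerset,
      mm q (insert (M + 1) A) * g (insert (M + 1) A) = D (M + 1) := rfl
    rw [h4]
    linarith
  have key := energy_lemma (X := Finset ℕ) (ι := {e // EPC e}) lvC (fun e => e.1.1)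
    (fun e => tgC e.1) (fun e => q * mm q e.1.1)
    (fun e => mul_nonneg hq.le (mm_pos hq hq1 _).le) EEC
    (by
      rintro M ⟨⟨A, o⟩, h⟩
      unfold EEC
      rw [Finset.mem_subtype, Finset.mem_product, mem_powerset, lvC_le]
      constructor
      · exact fun h => h.1
      · intro hA
        refine ⟨hA, ?_⟩
        simp only [mem_insertNone]
        intro i hi
        have h1 : i ≤ lvC A := ca_le (h i hi).2
        have h2 : lvC A ≤ M := lvC_le.2 hA
        rw [mem_range]
        omega)
    tgC_lev g hg
    (by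
      intro M H hH
      have h1 := hw M H (fun A hA => hH A (by rw [← lvC_le] at hA; omega))
      rw [sum_EEC M (fun e => q * mm q e.1 * ((g (tgC e) - g e.1) * (H (tgC e) - H e.1)))]
      exact h1)
    (by
      intro ε hε M₀
      have h1 : ∀ᶠ M in atTop, D M < ε / 4 := hDlim.eventually_lt_const (by linarith)
      obtain ⟨M₁, hM₁⟩ := eventually_atTop.1 h1
      refine ⟨max M₀ M₁ + 1, by omega, ?_⟩
      have h2 := hM₁ (max M₀ M₁) (le_max_right _ _)
      have h3 := hM₁ (max M₀ M₁ + 1) (by omega)
      have h4 := hbd (max M₀ M₁)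
      refine le_trans (le_of_eq ?_) (h4.trans (by linarith))
      rfl)
  intro A i hi hca
  have h1 := key ⟨(A, some i), by
    intro j hj
    simp only [Option.some.injEq] at hj
    subst hj
    exact ⟨hi, hca⟩⟩ (mul_pos hq (mm_pos hq hq1 _))
  exact h1

/-- a weakly harmonic `g ≥ 0` with finite total mass vanishes -/
theorem harmonic_zero (hq : 0 < q) (hq1 : q < 1) (g : Finset ℕ → ℝ) (hg : ∀ A, 0 ≤ g A)
    (hm : ∀ M, ∑ A ∈ (range M).powerset, mm q A * g A ≤ 1)
    (hw : ∀ (M : ℕ) (H : Finset ℕ → ℝ), (∀ A, ¬ A ⊆ range M → H A = 0) →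
        ∑ A ∈ (range M).powerset, (
          (∑ i ∈ range (M + 1), if i ∉ A ∧ ca A i then
            q * mm q A * ((g (insert i A) - g A) * (H (insert i A) - H A)) else 0)
          + q * mm q A * ((g (pus A) - g A) * (H (pus A) - H A))) = 0) :
    ∀ A, g A = 0 := by
  have ha : 0 < 1 - q := by linarith
  have hc := harmonic_const hq hq1 g hg hm hw
  have h1 : ∀ n, g (range n) = g ∅ := by
    intro n
    induction n with
    | zero => simp
    | succ n ih =>
      rw [Finset.range_add_one, hc (range n) n notMem_range_self ?_, ih]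
      rcases Nat.eq_zero_or_pos n with h | h
      · exact Or.inl h
      · exact Or.inr (Or.inl (by rw [mem_range]; omega))
  have h2 : ∀ A j, g (A ∪ range j) = g A := by
    intro A j
    induction j with
    | zero => simp
    | succ j ih =>
      by_cases hj : j ∈ A
      · have : A ∪ range (j + 1) = A ∪ range j := by
          rw [Finset.range_add_one, Finset.union_insert, Finset.insert_eq_of_mem]
          exact mem_union_left _ hj
        rw [this, ih]
      · rw [Finset.range_add_one, Finset.union_insert, hc (A ∪ range j) j ?_ ?_, ih]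
        · simp [hj]
        · rcases Nat.eq_zero_or_pos j with h | h
          · exact Or.inl h
          · exact Or.inr (Or.inl (mem_union_right _ (by rw [mem_range]; omega)))
  have h3 : ∀ A, g A = g ∅ := by
    intro A
    rw [← h2 A (lvC A), Finset.union_eq_right.2 (lvC_le.1 le_rfl), h1]
  have h4 : ∀ M : ℕ, g ∅ * (1 + q / (1 - q)) ^ M ≤ 1 := by
    intro M
    have h5 := hm M
    have h6 : ∑ A ∈ (range M).powerset, mm q A * g A = g ∅ * (1 + q / (1 - q)) ^ M := by
      have h7 := Finset.sum_pow_mul_eq_add_pow (q / (1 - q)) 1 (range M)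
      rw [card_range, add_comm] at h7
      rw [← h7, Finset.mul_sum]
      refine Finset.sum_congr rfl fun A _ => ?_
      rw [h3 A, one_pow, mul_one]
      unfold mm
      ring
    rw [← h6]
    exact h5
  have h5 : g ∅ = 0 := by
    by_contra hne
    have hpos : 0 < g ∅ := lt_of_le_of_ne (hg ∅) (Ne.symm hne)
    have h6 : 1 < 1 + q / (1 - q) := by
      have : 0 < q / (1 - q) := div_pos hq ha
      linarith
    obtain ⟨M, hM⟩ := pow_unbounded_of_one_lt (1 / g ∅) h6
    have h7 := h4 M
    rw [div_lt_iff₀ hpos] at hM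
    linarith
  intro A
  rw [h3 A, h5]

/-- **no free tail** -/
theorem Fam.zer_tendsto (f : Fam q) (hq : 0 < q) (hq1 : q < 1) (M : ℕ) :
    Tendsto (fun N => f.zer N M) atTop (𝓝 0) := by
  obtain ⟨g, hg0, hgl, hgm, hgw⟩ := f.g_limit hq hq1
  have hz := harmonic_zero hq hq1 g hg0 hgm hgw
  have h1 : ∀ N, M ≤ N → f.zer N M = ∑ A ∈ (range M).powerset, mm q A * f.g N A := by
    intro N hN
    unfold Fam.zer Fam.pr Ex
    rw [sum_cfg]
    have h2 : ∀ A ∈ (range N).powerset, (wt q (cfg N A) *
        (if (∀ k, k < N → M ≤ k → val (cfg N A) k = false) then f.f N (cfg N A) else 0)) =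
        if A ⊆ range M then mm q A * f.g N A else 0 := by
      intro A hA
      have hA' := mem_powerset.1 hA
      have h3 : (∀ k, k < N → M ≤ k → val (cfg N A) k = false) ↔ A ⊆ range M := by
        constructor
        · intro h k hk
          have h4 := mem_range.1 (hA' hk)
          rw [mem_range]
          by_contra h5
          have h6 := h k h4 (by omega)
          simp only [val, dif_pos h4, cfg, decide_eq_false_iff_not] at h6
          exact h6 hk
        · intro h k hk hMk
          simp only [val, dif_pos hk, cfg, decide_eq_false_iff_not]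
          intro h4
          have := mem_range.1 (h h4)
          omega
      rw [wt_cfg hq1 hA']
      by_cases h4 : A ⊆ range M
      · rw [if_pos (h3.2 h4), if_pos h4]
        unfold Fam.g
        ring
      · rw [if_neg (fun h => h4 (h3.1 h)), if_neg h4, mul_zero]
    rw [Finset.sum_congr rfl h2, ← Finset.sum_filter]
    refine Finset.sum_congr ?_ fun _ _ => rfl
    ext A
    rw [mem_filter, mem_powerset, mem_powerset]
    constructor
    · exact fun h => h.2
    · exact fun h => ⟨h.trans (Finset.range_subset_range.2 hN), h⟩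
  have h2 : Tendsto (fun N => ∑ A ∈ (range M).powerset, mm q A * f.g N A) atTop (𝓝 0) := by
    have h3 : (0 : ℝ) = ∑ A ∈ (range M).powerset, mm q A * g A := by
      symm
      refine Finset.sum_eq_zero fun A _ => ?_
      rw [hz A, mul_zero]
    rw [h3]
    exact tendsto_finsetSum _ fun A _ => (hgl A).const_mul _
  refine h2.congr' ?_
  filter_upwards [eventually_ge_atTop M] with N hN
  rw [h1 N hN]

end Pool.Agent.Lib.MP_4c13d6_pr
end

section

/-! GP-1: gaps (Lemmas 12, 13, 14). -/

open Finset Filter Topology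

namespace Pool.Agent.Lib.MP_4c13d6_pr

variable {q : ℝ}

namespace Fam

private theorem gp_congr (f : Fam q) {N : ℕ} {P Q : W N → Prop} [DecidablePred P]
    [DecidablePred Q] (h : ∀ w, P w ↔ Q w) : f.pr P = f.pr Q := by
  unfold Fam.pr
  exact Ex_congr fun w => if_congr (h w) rfl rfl

private theorem gp_nonneg (f : Fam q) (hq : 0 < q) (hq1 : q < 1) {N : ℕ} (P : W N → Prop)
    [DecidablePred P] : 0 ≤ f.pr P := by
  unfold Fam.pr
  refine Ex_nonneg hq.le hq1.le fun w => ?_
  split_ifs
  · exact f.nn N w
  · exact le_rfl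

private theorem gp_le_one (f : Fam q) (hq : 0 < q) (hq1 : q < 1) {N : ℕ} (P : W N → Prop)
    [DecidablePred P] : f.pr P ≤ 1 := by
  unfold Fam.pr
  rw [← f.Ex_f N]
  refine Ex_mono hq.le hq1.le fun w => ?_
  split_ifs
  · exact le_rfl
  · exact f.nn N w

private theorem gp_split (f : Fam q) {N : ℕ} {R P Q : W N → Prop} [DecidablePred R]
    [DecidablePred P] [DecidablePred Q] (h : ∀ w, R w ↔ P w ∨ Q w)
    (hd : ∀ w, P w → ¬ Q w) : f.pr R = f.pr P + f.pr Q := by
  unfold Fam.pr
  rw [← Ex_add]
  refine Ex_congr fun w => ?_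
  by_cases hP : P w
  · have hQ := hd w hP
    have hR : R w := (h w).2 (Or.inl hP)
    rw [if_pos hR, if_pos hP, if_neg hQ, add_zero]
  · by_cases hQ : Q w
    · have hR : R w := (h w).2 (Or.inr hQ)
      rw [if_pos hR, if_neg hP, if_pos hQ, zero_add]
    · have hR : ¬ R w := fun hR => ((h w).1 hR).elim hP hQ
      rw [if_neg hR, if_neg hP, if_neg hQ, add_zero]

theorem zer_nonneg (f : Fam q) (hq : 0 < q) (hq1 : q < 1) (N M : ℕ) : 0 ≤ f.zer N M :=
  gp_nonneg f hq hq1 _

theorem lst_nonneg (f : Fam q) (hq : 0 < q) (hq1 : q < 1) (N j : ℕ) : 0 ≤ f.lst N j :=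
  gp_nonneg f hq hq1 _

theorem zer_le_one (f : Fam q) (hq : 0 < q) (hq1 : q < 1) (N M : ℕ) : f.zer N M ≤ 1 :=
  gp_le_one f hq hq1 _

theorem lst_le_one (f : Fam q) (hq : 0 < q) (hq1 : q < 1) (N j : ℕ) : f.lst N j ≤ 1 :=
  gp_le_one f hq hq1 _

/-- the real inequality behind the recursion -/
private theorem gp_real {q x y z s1 s0 : ℝ} (hq : 0 < q) (hq1 : q < 1) (hx : 0 ≤ x) (hy : 0 ≤ y)
    (hz : 0 ≤ z) (h1 : (√(y / q) - √(x / (1 - q))) ^ 2 ≤ s1)
    (h2 : (√(y / q) - √(z / (1 - q))) ^ 2 ≤ s0) :
    √x ≤ √(1 - q) * (√(y + z) + √s1 + √s0) := by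
  have ha : 0 < 1 - q := by linarith
  have e1 : |√(y / q) - √(x / (1 - q))| ≤ √s1 := Real.abs_le_sqrt h1
  have e2 : |√(y / q) - √(z / (1 - q))| ≤ √s0 := Real.abs_le_sqrt h2
  rw [abs_le] at e1 e2
  have hX : √x = √(1 - q) * √(x / (1 - q)) := by
    rw [← Real.sqrt_mul ha.le]
    congr 1
    field_simp
  have hY2 : √(y / q) ^ 2 = y / q := Real.sq_sqrt (by positivity)
  have hZ2 : √(z / (1 - q)) ^ 2 = z / (1 - q) := Real.sq_sqrt (by positivity)
  have hs1 := Real.sqrt_nonneg s1
  have hs0 := Real.sqrt_nonneg s0
  have hyz := Real.sqrt_nonneg (y + z)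
  rw [hX]
  refine mul_le_mul_of_nonneg_left ?_ (Real.sqrt_nonneg _)
  set X := √(x / (1 - q)) with hXd
  set Y := √(y / q) with hYd
  set Z := √(z / (1 - q)) with hZd
  by_cases hc : X ≤ √s1 + √s0
  · linarith
  · rw [not_le] at hc
    have hYX : X - (√s1 + √s0) ≤ Y := by linarith
    have hZX : X - (√s1 + √s0) ≤ Z := by linarith
    have hpos : 0 < X - (√s1 + √s0) := by linarith
    have h3 : (X - (√s1 + √s0)) ^ 2 ≤ y + z := by
      have h4 : y = q * Y ^ 2 := by rw [hY2]; field_simp
      have h5 : z = (1 - q) * Z ^ 2 := by rw [hZ2]; field_simp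
      have h6 : (X - (√s1 + √s0)) ^ 2 ≤ Y ^ 2 := by
        apply pow_le_pow_left₀ hpos.le hYX
      have h7 : (X - (√s1 + √s0)) ^ 2 ≤ Z ^ 2 := by
        apply pow_le_pow_left₀ hpos.le hZX
      nlinarith
    have h8 : X - (√s1 + √s0) ≤ √(y + z) := Real.le_sqrt_of_sq_le h3
    linarith

/-- recursion for the law of the last infected coordinate -/
theorem lst_rec (f : Fam q) (hq : 0 < q) (hq1 : q < 1) {N j : ℕ} (hj : j + 1 < N) :
    √(f.lst N j) ≤ √(1 - q) * (√(f.lst N (j + 1)) + √(f.s N (j + 1)) + √(f.s N j)) := by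
  classical
  set i1 : Fin N := ⟨j + 1, hj⟩ with hi1
  set i0 : Fin N := ⟨j, by omega⟩ with hi0
  let rest : W N → Prop := fun w => ∀ k, k < N → j + 2 ≤ k → val w k = false
  let G1 : W N → Prop := fun w => val w j = true ∧ rest w
  let G2 : W N → Prop := fun w => val w (j + 1) = true ∧ rest w
  have hv1 : ∀ w : W N, w i1 = val w (j + 1) := fun w => (val_lt hj).symm
  have hv0 : ∀ w : W N, w i0 = val w j := fun w => (val_lt (show j < N by omega)).symm
  have hr1 : ∀ (w : W N) b, rest (Function.update w i1 b) ↔ rest w := by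
    intro w b
    constructor
    · intro h k hk hk2
      have := h k hk hk2
      rw [val_upd, if_neg (by simp only [hi1]; omega)] at this
      exact this
    · intro h k hk hk2
      rw [val_upd, if_neg (by simp only [hi1]; omega)]
      exact h k hk hk2
  have hr0 : ∀ (w : W N) b, rest (Function.update w i0 b) ↔ rest w := by
    intro w b
    constructor
    · intro h k hk hk2
      have := h k hk hk2
      rw [val_upd, if_neg (by simp only [hi0]; omega)] at this
      exact this
    · intro h k hk hk2
      rw [val_upd, if_neg (by simp only [hi0]; omega)]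
      exact h k hk hk2
  have hG1 : ∀ (w : W N) b, G1 (Function.update w i1 b) ↔ G1 w := by
    intro w b
    simp only [G1]
    rw [hr1, val_upd, if_neg (by simp only [hi1]; omega)]
  have hG2 : ∀ (w : W N) b, G2 (Function.update w i0 b) ↔ G2 w := by
    intro w b
    simp only [G2]
    rw [hr0, val_upd, if_neg (by simp only [hi0]; omega)]
  have hm1 := f.minkowski hq hq1 i1 G1 hG1
  have hm2 := f.minkowski hq hq1 i0 G2 hG2
  -- identification of the events
  have ex : f.pr (fun w : W N => G1 w ∧ w i1 = false) = f.lst N j := by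
    unfold Fam.lst
    refine gp_congr f fun w => ?_
    simp only [G1, rest]
    rw [hv1 w]
    constructor
    · rintro ⟨⟨h1, h2⟩, h3⟩
      refine ⟨h1, fun k hk hk2 => ?_⟩
      by_cases hkj : k = j + 1
      · rw [hkj]; exact h3
      · exact h2 k hk (by omega)
    · rintro ⟨h1, h2⟩
      exact ⟨⟨h1, fun k hk hk2 => h2 k hk (by omega)⟩, h2 (j + 1) hj (by omega)⟩
  have ey : f.pr (fun w : W N => G2 w ∧ w i0 = true) = f.pr (fun w : W N => G1 w ∧ w i1 = true) := by
    refine gp_congr f fun w => ?_
    simp only [G1, G2]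
    rw [hv1 w, hv0 w]
    tauto
  have eyz : f.lst N (j + 1) = f.pr (fun w : W N => G1 w ∧ w i1 = true) +
      f.pr (fun w : W N => G2 w ∧ w i0 = false) := by
    unfold Fam.lst
    refine gp_split f (fun w => ?_) (fun w => ?_)
    · simp only [G1, G2, rest]
      rw [hv1 w, hv0 w]
      constructor
      · rintro ⟨h1, h2⟩
        have h3 : ∀ k, k < N → j + 2 ≤ k → val w k = false := fun k hk hk2 => h2 k hk (by omega)
        cases hb : val w j
        · exact Or.inr ⟨⟨h1, h3⟩, rfl⟩
        · exact Or.inl ⟨⟨rfl, h3⟩, h1⟩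
      · rintro (⟨⟨h1, h2⟩, h3⟩ | ⟨⟨h1, h2⟩, h3⟩)
        · exact ⟨h3, fun k hk hk2 => h2 k hk (by omega)⟩
        · exact ⟨h1, fun k hk hk2 => h2 k hk (by omega)⟩
    · simp only [G1, G2]
      rw [hv0 w]
      rintro ⟨⟨h1, -⟩, -⟩ ⟨-, h2⟩
      rw [h1] at h2
      exact absurd h2 (by decide)
  have hs1 : Ex q (fun w => if G1 w then (dl (f.u N) i1 w) ^ 2 else 0) ≤ f.s N (j + 1) := by
    unfold Fam.s
    rw [dif_pos hj]
    refine Ex_mono hq.le hq1.le fun w => ?_
    by_cases h : G1 w
    · have hc : cc w (j + 1) := Or.inr (Or.inl h.1)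
      rw [if_pos h, if_pos hc]
    · rw [if_neg h]
      split_ifs
      · positivity
      · exact le_rfl
  have hs0 : Ex q (fun w => if G2 w then (dl (f.u N) i0 w) ^ 2 else 0) ≤ f.s N j := by
    unfold Fam.s
    rw [dif_pos (show j < N by omega)]
    refine Ex_mono hq.le hq1.le fun w => ?_
    by_cases h : G2 w
    · have hc : cc w j := Or.inr (Or.inr h.1)
      rw [if_pos h, if_pos hc]
    · rw [if_neg h]
      split_ifs
      · positivity
      · exact le_rfl
  rw [ey] at hm2
  rw [ex] at hm1
  rw [eyz]
  exact gp_real hq hq1 (f.lst_nonneg hq hq1 N j) (gp_nonneg f hq hq1 _) (gp_nonneg f hq hq1 _)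
    (hm1.trans hs1) (hm2.trans hs0)

/-- decomposition according to the last infected coordinate -/
theorem zer_decomp (f : Fam q) {N M K : ℕ} (h : M ≤ K) (hK : K ≤ N) :
    f.zer N K = f.zer N M + ∑ j ∈ Ico M K, f.lst N j := by
  induction K, h using Nat.le_induction with
  | base => simp
  | succ K hMK ih =>
    rw [Finset.sum_Ico_succ_top hMK, ← add_assoc, ← ih (by omega)]
    unfold Fam.zer Fam.lst
    refine gp_split f (fun w => ?_) (fun w => ?_)
    · constructor
      · intro h
        cases hb : val w K
        · left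
          intro k hk hk2
          by_cases hkK : k = K
          · rw [hkK]; exact hb
          · exact h k hk (by omega)
        · exact Or.inr ⟨rfl, fun k hk hk2 => h k hk (by omega)⟩
      · rintro (h | ⟨-, h⟩) k hk hk2
        · exact h k hk (by omega)
        · exact h k hk (by omega)
    · intro h1 h2
      have := h1 K (by omega) le_rfl
      rw [h2.1] at this
      exact absurd this (by decide)

/-- one step with constants -/
private theorem gp_step (f : Fam q) (hq : 0 < q) (hq1 : q < 1) {σ : ℕ → ℝ}
    (hσ : ∀ N i, f.s N i ≤ σ i) {N j : ℕ} (hj : j + 1 < N) :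
    f.lst N j ≤ (1 + (1 - q)) / 2 * f.lst N (j + 1) +
      2 * (1 - q) * (1 + 2 * (1 - q) / q) * (σ (j + 1) + σ j) := by
  have ha : 0 < 1 - q := by linarith
  have h1 := f.lst_rec hq hq1 hj
  have hl := f.lst_nonneg hq hq1 N j
  have hl' := f.lst_nonneg hq hq1 N (j + 1)
  have hs1 := f.s_nonneg hq hq1 N (j + 1)
  have hs0 := f.s_nonneg hq hq1 N j
  have e0 := Real.sq_sqrt hl
  have e1 := Real.sq_sqrt hl'
  have e2 := Real.sq_sqrt hs1
  have e3 := Real.sq_sqrt hs0
  have e4 := Real.sq_sqrt ha.le
  have h2 : √(f.lst N j) ^ 2 ≤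
      (√(1 - q) * (√(f.lst N (j + 1)) + √(f.s N (j + 1)) + √(f.s N j))) ^ 2 :=
    pow_le_pow_left₀ (Real.sqrt_nonneg _) h1 2
  rw [mul_pow, e0, e4] at h2
  have h3 : (√(f.lst N (j + 1)) + √(f.s N (j + 1)) + √(f.s N j)) ^ 2 ≤
      (1 + q / (2 * (1 - q))) * f.lst N (j + 1) +
        (1 + 2 * (1 - q) / q) * (2 * (f.s N (j + 1) + f.s N j)) := by
    set X := √(f.lst N (j + 1)) with hX
    set A := √(f.s N (j + 1)) with hA
    set B := √(f.s N j) with hB
    rw [← e1, ← e2, ← e3]
    have h4 : (A + B) ^ 2 ≤ 2 * (A ^ 2 + B ^ 2) := by nlinarith [sq_nonneg (A - B)]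
    have ht : 0 < q / (2 * (1 - q)) := by positivity
    have ht2 : 2 * (1 - q) / q = 1 / (q / (2 * (1 - q))) := by rw [one_div, inv_div]
    rw [ht2]
    set t := q / (2 * (1 - q)) with htd
    have h5 : 2 * X * (A + B) ≤ t * X ^ 2 + 1 / t * (A + B) ^ 2 := by
      have h6 : 0 ≤ (t * X - (A + B)) ^ 2 / t := by positivity
      have h7 : (t * X - (A + B)) ^ 2 / t = t * X ^ 2 + 1 / t * (A + B) ^ 2 - 2 * X * (A + B) := by
        field_simp
        ring
      linarith
    have h8 : 0 < 1 + 1 / t := by positivity
    nlinarith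
  have h9 : (1 - q) * (1 + q / (2 * (1 - q))) = (1 + (1 - q)) / 2 := by
    field_simp
    ring
  have h10 : f.s N (j + 1) + f.s N j ≤ σ (j + 1) + σ j := add_le_add (hσ _ _) (hσ _ _)
  have h11 : 0 < 1 + 2 * (1 - q) / q := by positivity
  calc f.lst N j ≤ (1 - q) * (√(f.lst N (j + 1)) + √(f.s N (j + 1)) + √(f.s N j)) ^ 2 := h2
    _ ≤ (1 - q) * ((1 + q / (2 * (1 - q))) * f.lst N (j + 1) +
        (1 + 2 * (1 - q) / q) * (2 * (f.s N (j + 1) + f.s N j))) :=
      mul_le_mul_of_nonneg_left h3 ha.le
    _ = (1 + (1 - q)) / 2 * f.lst N (j + 1) +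
        2 * (1 - q) * (1 + 2 * (1 - q) / q) * (f.s N (j + 1) + f.s N j) := by
      rw [← h9]; ring
    _ ≤ _ := by
      have h12 : 0 < 2 * (1 - q) * (1 + 2 * (1 - q) / q) := by positivity
      have := mul_le_mul_of_nonneg_left h10 h12.le
      linarith

/-- long healthy intervals at the far end of the window are unlikely -/
theorem zer_end (f : Fam q) (hq : 0 < q) (hq1 : q < 1) :
    ∀ ε > 0, ∃ L, ∀ᶠ N in atTop, f.zer N (N - L) ≤ ε := by
  intro ε hε
  have ha : 0 < 1 - q := by linarith
  obtain ⟨σ, hσ0, hσs, hσ⟩ := f.energy_summable hq hq1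
  set ρ : ℝ := (1 + (1 - q)) / 2 with hρ
  set C : ℝ := 2 * (1 - q) * (1 + 2 * (1 - q) / q) with hC
  have hρ0 : 0 < ρ := by rw [hρ]; linarith
  have hρ1 : 0 < 1 - ρ := by rw [hρ]; linarith
  have hC0 : 0 < C := by rw [hC]; positivity
  have hstep : ∀ N j, j + 1 < N → f.lst N j ≤ ρ * f.lst N (j + 1) + C * (σ (j + 1) + σ j) :=
    fun N j hj => gp_step f hq hq1 hσ hj
  set T : ℕ → ℝ := fun M => ∑' k, σ (k + M) with hT
  have hT0 : Tendsto T atTop (𝓝 0) := tendsto_sum_nat_add σ
  have hTs : ∀ M, Summable fun k => σ (k + M) := fun M => (summable_nat_add_iff M).2 hσs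
  have hTnn : ∀ M, 0 ≤ T M := fun M => tsum_nonneg fun k => hσ0 _
  have hTsum : ∀ M K, ∑ j ∈ Ico M K, σ j ≤ T M := by
    intro M K
    rw [Finset.sum_Ico_eq_sum_range]
    have : ∑ k ∈ range (K - M), σ (M + k) = ∑ k ∈ range (K - M), σ (k + M) :=
      Finset.sum_congr rfl fun k _ => by rw [add_comm]
    rw [this]
    exact (hTs M).sum_le_tsum _ fun k _ => hσ0 _
  have hTone : ∀ M j, M ≤ j → σ j ≤ T M := by
    intro M j hj
    have h1 := hTsum M (j + 1)
    have h2 : σ j ≤ ∑ i ∈ Ico M (j + 1), σ i :=
      Finset.single_le_sum (fun i _ => hσ0 i) (Finset.mem_Ico.2 ⟨hj, Nat.lt_succ_self j⟩)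
    exact h2.trans h1
  -- the bound for a single coordinate
  have hone : ∀ M N d, M + d + 1 ≤ N →
      f.lst N (N - 1 - d) ≤ ρ ^ d + 2 * C * T M / (1 - ρ) := by
    intro M N d
    induction d with
    | zero =>
      intro _
      have h1 := f.lst_le_one hq hq1 N (N - 1 - 0)
      have h2 : 0 ≤ 2 * C * T M / (1 - ρ) := by
        have := hTnn M
        positivity
      rw [pow_zero]
      linarith
    | succ d ih =>
      intro hd
      have h1 := ih (by omega)
      have h2 := hstep N (N - 1 - (d + 1)) (by omega)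
      have e1 : N - 1 - (d + 1) + 1 = N - 1 - d := by omega
      rw [e1] at h2
      have h3 := hTone M (N - 1 - d) (by omega)
      have h4 := hTone M (N - 1 - (d + 1)) (by omega)
      have h5 : ρ * f.lst N (N - 1 - d) ≤ ρ * (ρ ^ d + 2 * C * T M / (1 - ρ)) :=
        mul_le_mul_of_nonneg_left h1 hρ0.le
      have h6 : C * (σ (N - 1 - d) + σ (N - 1 - (d + 1))) ≤ C * (T M + T M) :=
        mul_le_mul_of_nonneg_left (add_le_add h3 h4) hC0.le
      have h7 : ρ * (ρ ^ d + 2 * C * T M / (1 - ρ)) + C * (T M + T M) =
          ρ ^ (d + 1) + 2 * C * T M / (1 - ρ) := by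
        rw [pow_succ]
        field_simp
        ring
      linarith
  -- the main bound
  have hmain : ∀ M N L, 1 ≤ L → M + L + 1 ≤ N → f.zer N (N - L) ≤
      f.zer N M + ρ ^ L / (1 - ρ) + 2 * C * T M / (1 - ρ) / (1 - ρ) := by
    intro M N L hL hN
    rw [f.zer_decomp (show M ≤ N - L by omega) (by omega)]
    set S := ∑ j ∈ Ico M (N - L), f.lst N j with hS
    have h1 : S ≤ ρ * (∑ j ∈ Ico M (N - L), f.lst N (j + 1)) +
        C * (∑ j ∈ Ico M (N - L), σ (j + 1) + ∑ j ∈ Ico M (N - L), σ j) := by
      rw [hS, Finset.mul_sum, ← Finset.sum_add_distrib, Finset.mul_sum, ← Finset.sum_add_distrib]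
      refine Finset.sum_le_sum fun j hj => ?_
      rw [Finset.mem_Ico] at hj
      exact hstep N j (by omega)
    have h2 : ∑ j ∈ Ico M (N - L), f.lst N (j + 1) ≤ S + f.lst N (N - L) := by
      rw [hS, ← Finset.sum_Ico_succ_top (show M ≤ N - L by omega),
        Finset.sum_Ico_add' (fun j => f.lst N j) M (N - L) 1]
      refine Finset.sum_le_sum_of_subset_of_nonneg ?_ fun j _ _ => f.lst_nonneg hq hq1 N j
      intro j hj
      rw [Finset.mem_Ico] at hj ⊢
      omega
    have h3 : ∑ j ∈ Ico M (N - L), σ (j + 1) ≤ T M := by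
      rw [Finset.sum_Ico_add' σ M (N - L) 1]
      refine (Finset.sum_le_sum_of_subset_of_nonneg ?_ fun j _ _ => hσ0 j).trans
        (hTsum M (N - L + 1))
      intro j hj
      rw [Finset.mem_Ico] at hj ⊢
      omega
    have h4 := hTsum M (N - L)
    have h5 := hone M N (L - 1) (by omega)
    have e1 : N - 1 - (L - 1) = N - L := by omega
    rw [e1] at h5
    have h6 : ρ * (∑ j ∈ Ico M (N - L), f.lst N (j + 1)) ≤ ρ * (S + f.lst N (N - L)) :=
      mul_le_mul_of_nonneg_left h2 hρ0.le
    have h7 : C * (∑ j ∈ Ico M (N - L), σ (j + 1) + ∑ j ∈ Ico M (N - L), σ j) ≤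
        C * (T M + T M) := mul_le_mul_of_nonneg_left (add_le_add h3 h4) hC0.le
    have h8 : ρ * f.lst N (N - L) ≤ ρ * (ρ ^ (L - 1) + 2 * C * T M / (1 - ρ)) :=
      mul_le_mul_of_nonneg_left h5 hρ0.le
    have e2 : ρ * ρ ^ (L - 1) = ρ ^ L := by
      rw [← pow_succ']
      congr 1
      omega
    have h9 : (1 - ρ) * S ≤ ρ ^ L + 2 * C * T M / (1 - ρ) := by
      have e3 : ρ * (2 * C * T M / (1 - ρ)) + C * (T M + T M) = 2 * C * T M / (1 - ρ) := by
        field_simp
        ring
      rw [mul_add, e2] at h8
      linarith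
    have h10 : S ≤ (ρ ^ L + 2 * C * T M / (1 - ρ)) / (1 - ρ) := by
      rw [le_div_iff₀ hρ1]
      linarith
    rw [add_div] at h10
    linarith
  -- choice of the parameters
  have hlimM : Tendsto (fun M => 2 * C * T M / (1 - ρ) / (1 - ρ)) atTop (𝓝 0) := by
    have h1 := ((hT0.const_mul (2 * C)).div_const (1 - ρ)).div_const (1 - ρ)
    simpa using h1
  obtain ⟨M, hM⟩ := (hlimM.eventually (ge_mem_nhds (show (0 : ℝ) < ε / 3 by positivity))).exists
  have hlimL : Tendsto (fun L : ℕ => ρ ^ L / (1 - ρ)) atTop (𝓝 0) := by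
    have h1 := (tendsto_pow_atTop_nhds_zero_of_lt_one hρ0.le (by linarith)).div_const (1 - ρ)
    simpa using h1
  obtain ⟨L, hL1, hL⟩ := ((eventually_ge_atTop 1).and
    (hlimL.eventually (ge_mem_nhds (show (0 : ℝ) < ε / 3 by positivity)))).exists
  refine ⟨L, ?_⟩
  filter_upwards [(f.zer_tendsto hq hq1 M).eventually
    (ge_mem_nhds (show (0 : ℝ) < ε / 3 by positivity)), eventually_ge_atTop (M + L + 1)]
    with N hN1 hN2
  have := hmain M N L hL1 hN2
  linarith

end Fam

end Pool.Agent.Lib.MP_4c13d6_pr
end
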