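import Pool.Agent.Lib.MP_4c13d6_pr.CDefs

/-! Part IV: entropy, log-Sobolev inequalities, blocks. -/

open Finset

namespace Pool.Agent.Lib.MP_4c13d6_pr

/-- entropy of `f` under the weights `p` -/
noncomputable def Ent {X : Type*} [Fintype X] (p f : X → ℝ) : ℝ :=
  ∑ x, p x * (f x * Real.log (f x)) - (∑ x, p x * f x) * Real.log (∑ x, p x * f x)

/-- variance of `f` under the weights `p` -/
noncomputable def Vr {X : Type*} [Fintype X] (p f : X → ℝ) : ℝ :=
  ∑ x, p x * f x ^ 2 - (∑ x, p x * f x) ^ 2

/-- log-Sobolev inequality for positive functions -/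
def LSI {X : Type*} [Fintype X] (p : X → ℝ) (D : (X → ℝ) → ℝ) (C : ℝ) : Prop :=
  ∀ g : X → ℝ, (∀ x, 0 < g x) → Ent p (fun x => g x ^ 2) ≤ C * D g

/-- weights of a probability vector -/
def IsProb {X : Type*} [Fintype X] (p : X → ℝ) : Prop := (∀ x, 0 ≤ p x) ∧ ∑ x, p x = 1

/-- product measure conditioned on at least one infected site -/
noncomputable def pb (q : ℝ) {l : ℕ} (w : W l) : ℝ :=
  if ∃ i, w i = true then wt q w / (1 - (1 - q) ^ l) else 0

/-- Dirichlet form of a block with healthy boundaries -/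
noncomputable def Db (q : ℝ) {l : ℕ} (g : W l → ℝ) : ℝ :=
  q * (1 - q) * ∑ i : Fin l, ∑ w, pb q w * (if kc false false w (i : ℕ) then (dl g i w) ^ 2 else 0)

/-- every block contains an infected site; consecutive blocks of lengths `ls`, starting at `y` -/
def GB : List ℕ → ℕ → (ℕ → Bool) → Prop
  | [], _, _ => True
  | l :: ls, y, w => (∃ i, y ≤ i ∧ i < y + l ∧ w i = true) ∧ GB ls (y + l) w

/-- the good event -/
def Gd (ls : List ℕ) {m : ℕ} (w : W m) : Prop := GB ls 0 (val w)

open Classical in
/-- product measure conditioned on the good event -/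
noncomputable def pG (q : ℝ) (ls : List ℕ) {m : ℕ} (w : W m) : ℝ :=
  if Gd ls w then wt q w / (∑ v : W m, if Gd ls v then wt q v else 0) else 0

open Classical in
/-- Dirichlet form of the chain whose moves leaving the good event are suppressed -/
noncomputable def DG (q : ℝ) (bL bR : Bool) (ls : List ℕ) {m : ℕ} (g : W m → ℝ) : ℝ :=
  q * (1 - q) * ∑ i : Fin m, ∑ w, pG q ls w *
    (if kc bL bR w (i : ℕ) ∧ Gd ls (Function.update w i true) ∧
        Gd ls (Function.update w i false) then (dl g i w) ^ 2 else 0)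

/-- stationary law -/
noncomputable def mu (q : ℝ) (bL bR : Bool) {m : ℕ} (w : W m) : ℝ :=
  if ok bL bR w then wt q w / (∑ v : W m, if ok bL bR v then wt q v else 0) else 0

/-- time scale -/
noncomputable def TT (v : ℝ) (bL bR : Bool) (m : ℕ) : ℝ :=
  if bL = true ∧ bR = true then m / (2 * v) else m / v

end Pool.Agent.Lib.MP_4c13d6_pr
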