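import Pool.Agent.Lib.MP_4c13d6_pr.Unique
import Pool.Agent.Lib.MP_4c13d6_pr.EnergyL

/-! DU-3: Theorem A. -/

open Finset Filter Topology

namespace Pool.Agent.Lib.MP_4c13d6_pr

variable {q : ℝ}

/-- `v` is the speed of the front from every environment, in local form -/
def IsSpeed (q v : ℝ) : Prop :=
  0 < v ∧ v < 1 ∧ ∀ ε > 0,
    (∃ (N : ℕ) (F : W N → ℝ), ∀ w : W (N + 1), v - ε ≤ psi q w + gen q F w) ∧
    (∃ (N : ℕ) (F : W N → ℝ), ∀ w : W (N + 1), psi q w + gen q F w ≤ v + ε)

private theorem thmA_bound (hq : 0 < q) (hq1 : q < 1) (N : ℕ) (F : W N → ℝ) :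
    ∃ w : W (N + 1), psi q w + gen q F w < 2 := by
  obtain ⟨w0, hw0⟩ := Finite.exists_max F
  refine ⟨app w0 true, ?_⟩
  have hini : ini (app w0 true) = w0 := ini_app w0 true
  have h1 : psi q (app w0 true) ≤ q := by
    unfold psi
    split_ifs <;> linarith
  have h2 : gen q F (app w0 true) ≤ 0 := by
    unfold gen
    rw [hini]
    have e1 : (∑ i : Fin N, if cc (app w0 true) i then
        q * F (Function.update w0 i true) + (1 - q) * F (Function.update w0 i false)
          - F w0 else 0) ≤ 0 := by
      refine Finset.sum_nonpos fun i _ => ?_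
      split_ifs
      · have a1 := hw0 (Function.update w0 i true)
        have a2 := hw0 (Function.update w0 i false)
        nlinarith
      · exact le_rfl
    have e2 : q * (F (psh w0) - F w0) ≤ 0 := by
      have a1 := hw0 (psh w0)
      nlinarith
    have e3 : (if val (app w0 true) 0 = true then (1 - q) * (F (tai (app w0 true)) - F w0)
        else 0) ≤ 0 := by
      split_ifs
      · have a1 := hw0 (tai (app w0 true))
        nlinarith
      · exact le_rfl
    linarith
  linarith

theorem theoremA (hq : 0 < q) (hq1 : q < 1) : ∃ v, IsSpeed q v := by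
  obtain ⟨f, -⟩ := exists_fam_le hq hq1 2 (thmA_bound hq hq1)
  refine ⟨f.drift, f.drift_pos hq hq1, by linarith [f.drift_le hq hq1], fun ε hε => ⟨?_, ?_⟩⟩
  · by_contra hcon
    push Not at hcon
    obtain ⟨g, hg⟩ := exists_fam_le hq hq1 (f.drift - ε) hcon
    have := drift_unique hq hq1 f g
    linarith
  · by_contra hcon
    push Not at hcon
    obtain ⟨g, hg⟩ := exists_fam_ge hq hq1 (f.drift + ε) hcon
    have := drift_unique hq hq1 f g
    linarith

end Pool.Agent.Lib.MP_4c13d6_pr
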