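import Pool.Agent.Lib.MP_4c13d6_pr.FDefs
import Pool.Agent.Lib.MP_4c13d6_pr.Res
import Pool.Agent.Lib.MP_4c13d6_pr.LDefs
import Pool.Agent.Lib.MP_4c13d6_pr.EnergyL
import Pool.Agent.Lib.MP_4c13d6_pr.ThmA

section

/-! FC-1: API for the generator of the front chain. -/

open Finset Real

namespace Pool.Agent.Lib.MP_4c13d6_pr

variable {q : ℝ} {z : Bool}

private theorem fg_none (H : FS → ℝ) : GG q z H none = q * (H (some []) - H none) := rfl

private theorem fg_some (H : FS → ℝ) (l : List Bool) : GG q z H (some l) =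
    (∑ i ∈ range l.length, if lc z l i then
        q * H (some (l.set i true)) + (1 - q) * H (some (l.set i false)) - H (some l) else 0)
    + q * (H (some (true :: l)) - H (some l))
    + (if lv z l 0 = true then (1 - q) * (H (bk l) - H (some l)) else 0) := rfl

theorem GG_const (c : ℝ) (s : FS) : GG q z (fun _ => c) s = 0 := by
  cases s with
  | none => rw [fg_none]; ring
  | some l =>
    rw [fg_some]
    have h1 : (∑ i ∈ range l.length, if lc z l i then q * c + (1 - q) * c - c else 0) = 0 := by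
      refine Finset.sum_eq_zero fun i _ => ?_
      split_ifs
      · ring
      · rfl
    rw [h1]
    split_ifs <;> ring

theorem GG_add (g h : FS → ℝ) (s : FS) :
    GG q z (fun t => g t + h t) s = GG q z g s + GG q z h s := by
  cases s with
  | none => rw [fg_none, fg_none, fg_none]; ring
  | some l =>
    rw [fg_some, fg_some, fg_some]
    have h1 : (∑ i ∈ range l.length, if lc z l i then
        q * (g (some (l.set i true)) + h (some (l.set i true)))
          + (1 - q) * (g (some (l.set i false)) + h (some (l.set i false)))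
          - (g (some l) + h (some l)) else 0) =
        (∑ i ∈ range l.length, if lc z l i then
          q * g (some (l.set i true)) + (1 - q) * g (some (l.set i false)) - g (some l) else 0) +
        (∑ i ∈ range l.length, if lc z l i then
          q * h (some (l.set i true)) + (1 - q) * h (some (l.set i false)) - h (some l) else 0) := by
      rw [← Finset.sum_add_distrib]
      refine Finset.sum_congr rfl fun i _ => ?_
      split_ifs
      · ring
      · ring
    rw [h1]
    split_ifs <;> ring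

theorem GG_smul (c : ℝ) (h : FS → ℝ) (s : FS) :
    GG q z (fun t => c * h t) s = c * GG q z h s := by
  cases s with
  | none => rw [fg_none, fg_none]; ring
  | some l =>
    rw [fg_some, fg_some]
    have h1 : (∑ i ∈ range l.length, if lc z l i then
        q * (c * h (some (l.set i true))) + (1 - q) * (c * h (some (l.set i false)))
          - c * h (some l) else 0) =
        c * (∑ i ∈ range l.length, if lc z l i then
          q * h (some (l.set i true)) + (1 - q) * h (some (l.set i false)) - h (some l) else 0) := by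
      rw [Finset.mul_sum]
      refine Finset.sum_congr rfl fun i _ => ?_
      split_ifs
      · ring
      · ring
    rw [h1]
    split_ifs <;> ring

theorem GG_sub (g h : FS → ℝ) (s : FS) :
    GG q z (fun t => g t - h t) s = GG q z g s - GG q z h s := by
  have h1 : (fun t => g t - h t) = fun t => g t + (-1) * h t := by
    funext t
    ring
  rw [h1, GG_add, GG_smul]
  ring

/-- the generator is monotone in the increments -/
theorem GG_mono (hq : 0 < q) (hq1 : q < 1) (g h : FS → ℝ) (s : FS)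
    (H : ∀ t, Nb s t → g t - g s ≤ h t - h s) : GG q z g s ≤ GG q z h s := by
  have ha : 0 < 1 - q := by linarith
  cases s with
  | none =>
    rw [fg_none, fg_none]
    exact mul_le_mul_of_nonneg_left (H _ Nb.first) hq.le
  | some l =>
    rw [fg_some, fg_some]
    refine add_le_add (add_le_add (Finset.sum_le_sum fun i hi => ?_) ?_) ?_
    · rw [Finset.mem_range] at hi
      split_ifs
      · have e1 := mul_le_mul_of_nonneg_left (H _ (Nb.flip l i true hi)) hq.le
        have e2 := mul_le_mul_of_nonneg_left (H _ (Nb.flip l i false hi)) ha.le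
        linarith
      · exact le_rfl
    · exact mul_le_mul_of_nonneg_left (H _ (Nb.push l)) hq.le
    · split_ifs
      · exact mul_le_mul_of_nonneg_left (H _ (Nb.back l)) ha.le
      · exact le_rfl

private theorem fg_exp (x : ℝ) : exp x - 1 - x ≤ x ^ 2 * exp |x| := by
  have h1 : exp x - 1 ≤ x * exp x := by
    have h2 := Real.add_one_le_exp (-x)
    have h3 : exp x * exp (-x) = 1 := by rw [← Real.exp_add]; simp
    have h4 := Real.exp_pos x
    nlinarith
  rcases le_total 0 x with hx | hx
  · rw [abs_of_nonneg hx]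
    have h5 := mul_le_mul_of_nonneg_left h1 hx
    nlinarith
  · have h6 : 1 ≤ exp |x| := Real.one_le_exp (abs_nonneg x)
    have h7 := Real.add_one_le_exp x
    have h8 : x * (exp x - 1) ≤ x ^ 2 := by nlinarith
    have h9 : x ^ 2 ≤ x ^ 2 * exp |x| := by
      have := sq_nonneg x
      nlinarith
    nlinarith

/-- exponential lemma, abstract form -/
private theorem fg_exp_main (hq : 0 < q) (hq1 : q < 1) (Y : FS → ℝ) (J θ c : ℝ) (hc : |c| = θ)
    (s : FS) (hJ : ∀ t, Nb s t → |Y t - Y s| ≤ J) :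
    GG q z (fun t => exp (c * Y t)) s ≤ exp (c * Y s) *
      (c * GG q z Y s + θ ^ 2 * exp (θ * J) * GG q z (fun t => (Y t - Y s) ^ 2) s) := by
  have hθ : 0 ≤ θ := by rw [← hc]; exact abs_nonneg c
  have key : GG q z (fun t => exp (c * Y s) *
      (c * Y t + θ ^ 2 * exp (θ * J) * (Y t - Y s) ^ 2)) s = exp (c * Y s) *
      (c * GG q z Y s + θ ^ 2 * exp (θ * J) * GG q z (fun t => (Y t - Y s) ^ 2) s) := by
    rw [GG_smul, GG_add, GG_smul, GG_smul]
  rw [← key]
  refine GG_mono hq hq1 _ _ s fun t ht => ?_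
  have h1 := hJ t ht
  obtain ⟨x, hx⟩ : ∃ x, x = c * (Y t - Y s) := ⟨_, rfl⟩
  have h2 : exp (c * Y t) = exp (c * Y s) * exp x := by
    rw [← Real.exp_add, hx]
    congr 1
    ring
  have h3 := fg_exp x
  have h4 : |x| ≤ θ * J := by
    rw [hx, abs_mul, hc]
    exact mul_le_mul_of_nonneg_left h1 hθ
  have h5 : exp |x| ≤ exp (θ * J) := Real.exp_le_exp.2 h4
  have h6 : x ^ 2 = θ ^ 2 * (Y t - Y s) ^ 2 := by
    rw [hx, mul_pow, ← hc, sq_abs]
  have h7 : x ^ 2 * exp |x| ≤ x ^ 2 * exp (θ * J) := mul_le_mul_of_nonneg_left h5 (sq_nonneg x)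
  have h8 := Real.exp_pos (c * Y s)
  have h9 : exp x - 1 ≤ x + θ ^ 2 * exp (θ * J) * (Y t - Y s) ^ 2 := by
    rw [h6] at h7 h3
    nlinarith
  have h10 := mul_le_mul_of_nonneg_left h9 h8.le
  show exp (c * Y t) - exp (c * Y s) ≤ exp (c * Y s) *
      (c * Y t + θ ^ 2 * exp (θ * J) * (Y t - Y s) ^ 2) - exp (c * Y s) *
      (c * Y s + θ ^ 2 * exp (θ * J) * (Y s - Y s) ^ 2)
  rw [h2]
  rw [hx] at h10 ⊢
  nlinarith

theorem GG_exp_neg (hq : 0 < q) (hq1 : q < 1) (Y : FS → ℝ) (J θ : ℝ) (hθ : 0 ≤ θ) (s : FS)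
    (hJ : ∀ t, Nb s t → |Y t - Y s| ≤ J) :
    GG q z (fun t => exp (-θ * Y t)) s ≤ exp (-θ * Y s) *
      (-θ * GG q z Y s + θ ^ 2 * exp (θ * J) * GG q z (fun t => (Y t - Y s) ^ 2) s) :=
  fg_exp_main hq hq1 Y J θ (-θ) (by rw [abs_neg, abs_of_nonneg hθ]) s hJ

theorem GG_exp_pos (hq : 0 < q) (hq1 : q < 1) (Y : FS → ℝ) (J θ : ℝ) (hθ : 0 ≤ θ) (s : FS)
    (hJ : ∀ t, Nb s t → |Y t - Y s| ≤ J) :
    GG q z (fun t => exp (θ * Y t)) s ≤ exp (θ * Y s) *
      (θ * GG q z Y s + θ ^ 2 * exp (θ * J) * GG q z (fun t => (Y t - Y s) ^ 2) s) :=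
  fg_exp_main hq hq1 Y J θ θ (abs_of_nonneg hθ) s hJ

end Pool.Agent.Lib.MP_4c13d6_pr
end

section

/-! FC-3: the function `u` of the level. -/

open Finset Real

namespace Pool.Agent.Lib.MP_4c13d6_pr

variable {q : ℝ} {z : Bool}

/-- the function `u` in terms of the index of the level -/
private noncomputable def fuT (q : ℝ) (N1 k : ℕ) : ℝ := ∑ j ∈ Ico k (N1 + 1), (2 / q) ^ (j + 1)

private theorem fuT_nonneg (hq : 0 < q) (N1 k : ℕ) : 0 ≤ fuT q N1 k :=
  Finset.sum_nonneg fun j _ => by positivity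

private theorem fuT_succ (N1 k : ℕ) (hk : k ≤ N1) :
    fuT q N1 k = (2 / q) ^ (k + 1) + fuT q N1 (k + 1) := by
  unfold fuT
  rw [Finset.sum_eq_sum_Ico_succ_bot (by omega)]

private theorem fuT_zero (N1 k : ℕ) (hk : N1 < k) : fuT q N1 k = 0 := by
  unfold fuT
  rw [Finset.Ico_eq_empty (by omega), Finset.sum_empty]

private theorem uf_none (N1 : ℕ) : uf q N1 none = fuT q N1 0 := by
  unfold uf fuT levZ
  simp

private theorem uf_some (N1 : ℕ) (l : List Bool) : uf q N1 (some l) = fuT q N1 (l.length + 1) := by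
  unfold uf fuT levZ
  have : ((l.length : ℤ) + 1).toNat = l.length + 1 := by omega
  simp only [this]

private theorem uf_bk (N1 : ℕ) (l : List Bool) : uf q N1 (bk l) = fuT q N1 l.length := by
  cases l with
  | nil => exact uf_none N1
  | cons b l =>
    show uf q N1 (some l) = _
    rw [uf_some, List.length_cons]

private theorem GG_none (N1 : ℕ) :
    GG q z (uf q N1) none = q * (fuT q N1 1 - fuT q N1 0) := by
  show q * (uf q N1 (some []) - uf q N1 none) = _
  rw [uf_some, uf_none, List.length_nil, zero_add]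

private theorem GG_some (N1 : ℕ) (l : List Bool) :
    GG q z (uf q N1) (some l) = q * (fuT q N1 (l.length + 2) - fuT q N1 (l.length + 1)) +
      (if lv z l 0 = true then (1 - q) * (fuT q N1 l.length - fuT q N1 (l.length + 1)) else 0) := by
  show (∑ i ∈ range l.length, if lc z l i then
        q * uf q N1 (some (l.set i true)) + (1 - q) * uf q N1 (some (l.set i false))
          - uf q N1 (some l) else 0)
    + q * (uf q N1 (some (true :: l)) - uf q N1 (some l))
    + (if lv z l 0 = true then (1 - q) * (uf q N1 (bk l) - uf q N1 (some l)) else 0) = _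
  have h0 : (∑ i ∈ range l.length, if lc z l i then
        q * uf q N1 (some (l.set i true)) + (1 - q) * uf q N1 (some (l.set i false))
          - uf q N1 (some l) else 0) = 0 := by
    apply Finset.sum_eq_zero
    intro i _
    split_ifs
    · rw [uf_some, uf_some, uf_some, List.length_set, List.length_set]
      ring
    · rfl
  rw [h0, zero_add, uf_some, uf_some, uf_bk, List.length_cons]

theorem uf_nonneg (hq : 0 < q) (N1 : ℕ) (s : FS) : 0 ≤ uf q N1 s :=
  Finset.sum_nonneg fun j _ => by positivity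

theorem uf_le (hq : 0 < q) (N1 : ℕ) (s : FS) :
    uf q N1 s ≤ ∑ j ∈ range (N1 + 1), (2 / q) ^ (j + 1) := by
  apply Finset.sum_le_sum_of_subset_of_nonneg
  · intro j hj
    rw [Finset.mem_Ico] at hj
    exact Finset.mem_range.2 hj.2
  · intro j _ _
    positivity

theorem GG_uf_small (hq : 0 < q) (hq1 : q < 1) (N1 : ℕ) (s : FS) (hs : levZ s < N1) :
    GG q z (uf q N1) s ≤ -1 := by
  have hqn : q ≠ 0 := hq.ne'
  cases s with
  | none =>
    rw [GG_none, fuT_succ N1 0 (Nat.zero_le _), zero_add]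
    have : q * (2 / q) ^ 1 = 2 := by field_simp
    have e : q * (fuT q N1 1 - ((2 / q) ^ 1 + fuT q N1 1)) = - (q * (2 / q) ^ 1) := by ring
    rw [e, this]
    norm_num
  | some l =>
    have hl : l.length < N1 := by
      have : (l.length : ℤ) < N1 := hs
      exact_mod_cast this
    have hA : 1 ≤ (2 / q) ^ (l.length + 1) := by
      apply one_le_pow₀
      rw [le_div_iff₀ hq]
      linarith
    have hB : q * (2 / q) ^ (l.length + 2) = 2 * (2 / q) ^ (l.length + 1) := by
      rw [pow_succ (2 / q) (l.length + 1)]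
      field_simp
    rw [GG_some, fuT_succ N1 l.length hl.le, fuT_succ N1 (l.length + 1) (by omega)]
    have e1 : q * (fuT q N1 (l.length + 2) - ((2 / q) ^ (l.length + 1 + 1)
        + fuT q N1 (l.length + 1 + 1))) = - (2 * (2 / q) ^ (l.length + 1)) := by
      rw [← hB]; ring
    rw [e1]
    split_ifs
    · have e2 : (1 - q) * ((2 / q) ^ (l.length + 1) + ((2 / q) ^ (l.length + 1 + 1)
          + fuT q N1 (l.length + 1 + 1)) - ((2 / q) ^ (l.length + 1 + 1)
          + fuT q N1 (l.length + 1 + 1))) = (1 - q) * (2 / q) ^ (l.length + 1) := by ring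
      rw [e2]
      nlinarith
    · linarith

theorem GG_uf_eq (hq : 0 < q) (hq1 : q < 1) (N1 : ℕ) (s : FS) (hs : levZ s = N1) :
    GG q z (uf q N1) s ≤ (2 / q) ^ (N1 + 1) := by
  cases s with
  | none =>
    have : (-1 : ℤ) = N1 := hs
    omega
  | some l =>
    have hl : l.length = N1 := by
      have : (l.length : ℤ) = N1 := hs
      exact_mod_cast this
    have hA : 0 ≤ (2 / q) ^ (N1 + 1) := by positivity
    rw [GG_some, hl, fuT_succ N1 N1 le_rfl, fuT_zero N1 (N1 + 1) (by omega),
      fuT_zero N1 (N1 + 2) (by omega)]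
    split_ifs
    · nlinarith
    · linarith

theorem GG_uf_large (N1 : ℕ) (s : FS) (hs : (N1 : ℤ) < levZ s) : GG q z (uf q N1) s = 0 := by
  cases s with
  | none =>
    have : (N1 : ℤ) < -1 := hs
    omega
  | some l =>
    have hl : N1 < l.length := by
      have : (N1 : ℤ) < l.length := hs
      exact_mod_cast this
    rw [GG_some, fuT_zero N1 l.length hl, fuT_zero N1 (l.length + 1) (by omega),
      fuT_zero N1 (l.length + 2) (by omega)]
    split_ifs <;> ring

end Pool.Agent.Lib.MP_4c13d6_pr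
end

section

/-! FC-2: local functions, the corrected position. -/

open Finset Real

namespace Pool.Agent.Lib.MP_4c13d6_pr

variable {q : ℝ} {z : Bool}

private theorem fl_val_some (N : ℕ) (l : List Bool) (k : ℕ) :
    val (pr N (some l)) k = if k < N then l.getD k false else false := by
  by_cases h : k < N
  · rw [val_lt h, if_pos h]; rfl
  · rw [val_ge (Nat.not_lt.1 h), if_neg h]

private theorem fl_val_none (N : ℕ) (k : ℕ) : val (pr N none) k = false := by
  by_cases h : k < N
  · rw [val_lt h]; rfl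
  · rw [val_ge (Nat.not_lt.1 h)]

private theorem fl_pr_res {N M : ℕ} (h : N ≤ M) (s : FS) : pr N s = res N (pr M s) := by
  ext k hk
  rw [val_res, if_pos hk]
  cases s with
  | none => rw [fl_val_none, fl_val_none]
  | some l => rw [fl_val_some, fl_val_some, if_pos hk, if_pos (by omega)]

private theorem fl_getD_set_ne {l : List Bool} {i k : ℕ} (b : Bool) (h : i ≠ k) :
    (l.set i b).getD k false = l.getD k false := by
  rw [List.getD_eq_getElem?_getD, List.getD_eq_getElem?_getD, List.getElem?_set_ne h]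

private theorem fl_getD_set_eq {l : List Bool} {i : ℕ} (b : Bool) (h : i < l.length) :
    (l.set i b).getD i false = b := by
  rw [List.getD_eq_getElem?_getD, List.getElem?_set_self h]
  rfl

private theorem fl_pr_set_ge {N : ℕ} {l : List Bool} {i : ℕ} (b : Bool) (h : N ≤ i) :
    pr N (some (l.set i b)) = pr N (some l) := by
  ext k hk
  rw [fl_val_some, fl_val_some, if_pos hk, if_pos hk, fl_getD_set_ne b (by omega)]

private theorem fl_pr_set_lt {N : ℕ} {l : List Bool} {i : ℕ} (b : Bool) (h : i < N)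
    (hl : i < l.length) :
    pr N (some (l.set i b)) = Function.update (pr N (some l)) ⟨i, h⟩ b := by
  ext k hk
  rw [val_upd, fl_val_some, fl_val_some, if_pos hk, if_pos hk]
  by_cases hik : k = i
  · subst hik
    rw [if_pos rfl, fl_getD_set_eq b hl]
  · rw [if_neg hik, fl_getD_set_ne b (by omega)]

theorem IsLoc.add {N : ℕ} {g h : FS → ℝ} (hg : IsLoc N g) (hh : IsLoc N h) :
    IsLoc N (fun s => g s + h s) := by
  obtain ⟨φ, hφ⟩ := hg
  obtain ⟨ψ, hψ⟩ := hh
  exact ⟨fun k w => φ k w + ψ k w, fun s => by simp only [hφ s, hψ s]⟩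

theorem IsLoc.smul {N : ℕ} {h : FS → ℝ} (c : ℝ) (hh : IsLoc N h) :
    IsLoc N (fun s => c * h s) := by
  obtain ⟨ψ, hψ⟩ := hh
  exact ⟨fun k w => c * ψ k w, fun s => by simp only [hψ s]⟩

theorem IsLoc.comp {N : ℕ} {h : FS → ℝ} (φ : ℝ → ℝ) (hh : IsLoc N h) :
    IsLoc N (fun s => φ (h s)) := by
  obtain ⟨ψ, hψ⟩ := hh
  exact ⟨fun k w => φ (ψ k w), fun s => by simp only [hψ s]⟩

theorem IsLoc.mono {N M : ℕ} {h : FS → ℝ} (hh : IsLoc N h) (hNM : N ≤ M) : IsLoc M h := by
  obtain ⟨ψ, hψ⟩ := hh
  exact ⟨fun k w => ψ k (res N w), fun s => by rw [hψ s, fl_pr_res hNM s]⟩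

theorem IsLoc_lev (N : ℕ) (φ : ℤ → ℝ) : IsLoc N (fun s => φ (levZ s)) :=
  ⟨fun k _ => φ k, fun _ => rfl⟩

theorem IsLoc_Yf {N : ℕ} (F : W N → ℝ) : IsLoc N (Yf F) := by
  refine ⟨fun k w => if k = -1 then -1 else (k : ℝ) + F w, fun s => ?_⟩
  cases s with
  | none =>
    have : levZ none = -1 := rfl
    show Yf F none = if levZ none = -1 then -1 else _
    rw [if_pos this]
    rfl
  | some l =>
    have h1 : levZ (some l) = (l.length : ℤ) := rfl
    have h2 : ¬ (levZ (some l) = -1) := by rw [h1]; omega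
    show Yf F (some l) = if levZ (some l) = -1 then -1 else _
    rw [if_neg h2, h1]
    show (l.length : ℝ) + F (pr N (some l)) = _
    push_cast
    rfl

private theorem fl_loc_set {N : ℕ} {h : FS → ℝ} (hh : IsLoc N h) {l : List Bool} {i : ℕ} (b : Bool)
    (hi : N ≤ i) : h (some (l.set i b)) = h (some l) := by
  obtain ⟨φ, hφ⟩ := hh
  rw [hφ, hφ (some l), fl_pr_set_ge b hi]
  have : levZ (some (l.set i b)) = levZ (some l) := by
    show (((l.set i b).length : ℕ) : ℤ) = (l.length : ℤ)
    rw [List.length_set]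
  rw [this]

private theorem fl_sum_le (L N : ℕ) (J : ℝ) (hJ0 : 0 ≤ J) :
    ∑ i ∈ range L, (if i < N then J else 0) ≤ N * J := by
  rw [← Finset.sum_filter, Finset.sum_const, nsmul_eq_mul]
  apply mul_le_mul_of_nonneg_right _ hJ0
  have : ((range L).filter (fun i => i < N)).card ≤ (range N).card := by
    apply Finset.card_le_card
    intro i hi
    rw [Finset.mem_filter] at hi
    exact Finset.mem_range.2 hi.2
  rw [Finset.card_range] at this
  exact_mod_cast this

/-- only `N+2` moves change a local function -/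
theorem GG_abs_le (hq : 0 < q) (hq1 : q < 1) {N : ℕ} {h : FS → ℝ} (hh : IsLoc N h) (s : FS)
    (J : ℝ) (hJ0 : 0 ≤ J) (hJ : ∀ t, Nb s t → |h t - h s| ≤ J) :
    |GG q z h s| ≤ (N + 2) * J := by
  have ha : 0 < 1 - q := by linarith
  have hN : (0 : ℝ) ≤ N := Nat.cast_nonneg N
  cases s with
  | none =>
    have h1 := hJ _ Nb.first
    show |q * (h (some []) - h none)| ≤ _
    rw [abs_mul, abs_of_pos hq]
    have h2 : q * |h (some []) - h none| ≤ 1 * J := by
      apply mul_le_mul hq1.le h1 (abs_nonneg _) zero_le_one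
    nlinarith
  | some l =>
    have hT : ∀ i ∈ range l.length, |(if lc z l i then
        q * h (some (l.set i true)) + (1 - q) * h (some (l.set i false)) - h (some l) else 0)| ≤
        if i < N then J else 0 := by
      intro i hi
      rw [Finset.mem_range] at hi
      by_cases hiN : i < N
      · rw [if_pos hiN]
        split_ifs
        · have e1 := hJ _ (Nb.flip l i true hi)
          have e2 := hJ _ (Nb.flip l i false hi)
          rw [abs_le] at e1 e2 ⊢
          constructor <;> nlinarith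
        · simpa using hJ0
      · rw [if_neg hiN, fl_loc_set hh true (by omega), fl_loc_set hh false (by omega)]
        have : q * h (some l) + (1 - q) * h (some l) - h (some l) = 0 := by ring
        rw [this]
        simp
    have h1 := (Finset.abs_sum_le_sum_abs _ _).trans
      ((Finset.sum_le_sum hT).trans (fl_sum_le l.length N J hJ0))
    have e1 := hJ _ (Nb.push l)
    have e2 := hJ _ (Nb.back l)
    have h2 : |q * (h (some (true :: l)) - h (some l))| ≤ q * J := by
      rw [abs_mul, abs_of_pos hq]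
      exact mul_le_mul_of_nonneg_left e1 hq.le
    have h3 : |(if lv z l 0 = true then (1 - q) * (h (bk l) - h (some l)) else 0)| ≤
        (1 - q) * J := by
      split_ifs
      · rw [abs_mul, abs_of_pos ha]
        exact mul_le_mul_of_nonneg_left e2 ha.le
      · simpa using mul_nonneg ha.le hJ0
    show |_ + _ + _| ≤ _
    refine (abs_add_le _ _).trans ((add_le_add (abs_add_le _ _) le_rfl).trans ?_)
    linarith

theorem GG_sq_le (hq : 0 < q) (hq1 : q < 1) {N : ℕ} {h : FS → ℝ} (hh : IsLoc N h) (s : FS)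
    (J : ℝ) (hJ0 : 0 ≤ J) (hJ : ∀ t, Nb s t → |h t - h s| ≤ J) :
    GG q z (fun t => (h t - h s) ^ 2) s ≤ (N + 2) * J ^ 2 := by
  have hl : IsLoc N (fun t => (h t - h s) ^ 2) := IsLoc.comp (fun x => (x - h s) ^ 2) hh
  refine (le_abs_self _).trans (GG_abs_le hq hq1 hl s (J ^ 2) (sq_nonneg J) ?_)
  intro t ht
  have h1 := hJ t ht
  have h2 : (h t - h s) ^ 2 - (h s - h s) ^ 2 = (h t - h s) ^ 2 := by ring
  rw [h2, abs_of_nonneg (sq_nonneg _), ← sq_abs]
  exact pow_le_pow_left₀ (abs_nonneg _) h1 2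

theorem levZ_ge (s : FS) : -1 ≤ levZ s := by
  cases s with
  | none => exact le_refl _
  | some l =>
    show (-1 : ℤ) ≤ (l.length : ℤ)
    omega

theorem levZ_nb {s t : FS} (h : Nb s t) : |levZ t - levZ s| ≤ 1 := by
  cases h with
  | flip l i b hi =>
    show |(((l.set i b).length : ℕ) : ℤ) - (l.length : ℤ)| ≤ 1
    rw [List.length_set]
    simp
  | push l =>
    show |((((true :: l).length : ℕ)) : ℤ) - (l.length : ℤ)| ≤ 1
    rw [List.length_cons]
    push_cast
    simp
  | back l =>
    cases l with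
    | nil =>
      show |(-1 : ℤ) - ((([] : List Bool).length : ℕ) : ℤ)| ≤ 1
      simp
    | cons b l =>
      show |((l.length : ℕ) : ℤ) - (((b :: l).length : ℕ) : ℤ)| ≤ 1
      rw [List.length_cons]
      push_cast
      simp
  | first =>
    show |((([] : List Bool).length : ℕ) : ℤ) - (-1)| ≤ 1
    simp

theorem Yf_sub_lev {N : ℕ} (F : W N → ℝ) (B : ℝ) (hB0 : 0 ≤ B) (hB : ∀ w, |F w| ≤ B) (s : FS) :
    |Yf F s - lev s| ≤ B := by
  cases s with
  | none =>
    show |(-1 : ℝ) - (((-1 : ℤ)) : ℝ)| ≤ B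
    simpa using hB0
  | some l =>
    show |((l.length : ℝ) + F (pr N (some l))) - (((l.length : ℕ) : ℤ) : ℝ)| ≤ B
    have : ((l.length : ℝ) + F (pr N (some l))) - (((l.length : ℕ) : ℤ) : ℝ) = F (pr N (some l)) := by
      push_cast
      ring
    rw [this]
    exact hB _

theorem Yf_nb {N : ℕ} (F : W N → ℝ) (B : ℝ) (hB0 : 0 ≤ B) (hB : ∀ w, |F w| ≤ B) {s t : FS}
    (h : Nb s t) : |Yf F t - Yf F s| ≤ 1 + 2 * B := by
  have h1 := Yf_sub_lev F B hB0 hB s
  have h2 := Yf_sub_lev F B hB0 hB t
  have h3 : |lev t - lev s| ≤ 1 := by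
    have := levZ_nb h
    unfold lev
    have h4 : ((|levZ t - levZ s| : ℤ) : ℝ) ≤ ((1 : ℤ) : ℝ) := by exact_mod_cast this
    push_cast at h4
    exact h4
  rw [abs_le] at *
  constructor <;> linarith [h1.1, h1.2, h2.1, h2.2, h3.1, h3.2]

private theorem fl_Yf_some {N : ℕ} (F : W N → ℝ) (l : List Bool) :
    Yf F (some l) = l.length + F (pr N (some l)) := rfl

/-- far from the boundary the generator of the corrected position is `ψ + gen F` -/
theorem GG_Yf (z : Bool) {N : ℕ} (F : W N → ℝ) (l : List Bool) (hl : N + 1 ≤ l.length) :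
    GG q z (Yf F) (some l) = psi q (pr (N + 1) (some l)) + gen q F (pr (N + 1) (some l)) := by
  set w := pr (N + 1) (some l) with hw
  have hval : ∀ k, k < N + 1 → val w k = l.getD k false := by
    intro k hk
    rw [hw, fl_val_some, if_pos hk]
  have hlv : ∀ k, k < N + 1 → lv z l k = val w k := by
    intro k hk
    unfold lv
    rw [if_neg (by omega), hval k hk]
  have hini : ini w = pr N (some l) := by
    rw [ini_eq_res, hw, ← fl_pr_res (by omega)]
  have hcc : ∀ i, i < N → (lc z l i ↔ cc w i) := by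
    intro i hi
    unfold lc cc
    rw [hlv (i - 1) (by omega), hlv (i + 1) (by omega)]
  have hflip : (∑ i ∈ range l.length, if lc z l i then
        q * Yf F (some (l.set i true)) + (1 - q) * Yf F (some (l.set i false)) - Yf F (some l)
        else 0) =
      ∑ i : Fin N, if cc w i then
        q * F (Function.update (ini w) i true) + (1 - q) * F (Function.update (ini w) i false)
        - F (ini w) else 0 := by
    have hsub : range N ⊆ range l.length := Finset.range_subset_range.2 (by omega)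
    rw [← Finset.sum_subset hsub, Finset.sum_range]
    · refine Finset.sum_congr rfl fun i _ => ?_
      have hi : (i : ℕ) < l.length := by have := i.isLt; omega
      rw [fl_Yf_some, fl_Yf_some, fl_Yf_some, List.length_set, List.length_set,
        fl_pr_set_lt true i.isLt hi, fl_pr_set_lt false i.isLt hi, hini]
      by_cases hc : lc z l i
      · rw [if_pos hc, if_pos ((hcc i i.isLt).1 hc)]
        ring
      · rw [if_neg hc, if_neg (fun h => hc ((hcc i i.isLt).2 h))]
    · intro i hi hiN
      rw [Finset.mem_range] at hi hiN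
      rw [fl_loc_set (IsLoc_Yf F) true (by omega), fl_loc_set (IsLoc_Yf F) false (by omega)]
      split_ifs
      · ring
      · rfl
  have hpush : Yf F (some (true :: l)) = l.length + 1 + F (psh (ini w)) := by
    rw [fl_Yf_some, List.length_cons]
    push_cast
    congr 2
    ext k hk
    rw [fl_val_some, if_pos hk, val_psh, if_pos hk]
    by_cases h0 : k = 0
    · rw [if_pos h0, h0]; rfl
    · rw [if_neg h0]
      obtain ⟨j, rfl⟩ : ∃ j, k = j + 1 := ⟨k - 1, by omega⟩
      rw [Nat.add_sub_cancel, val_ini_lt (by omega), hval j (by omega)]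
      rfl
  have hback : lv z l 0 = true → Yf F (bk l) = l.length - 1 + F (tai w) := by
    intro _
    cases l with
    | nil => simp at hl
    | cons b l' =>
      show Yf F (some l') = _
      rw [fl_Yf_some, List.length_cons]
      push_cast
      have : pr N (some l') = tai w := by
        ext k hk
        rw [fl_val_some, if_pos hk, val_tai, hval (k + 1) (by omega)]
        rfl
      rw [this]
      ring
  unfold GG gen psi
  simp only []
  rw [hflip, hpush, hlv 0 (by omega), fl_Yf_some]
  rw [hlv 0 (by omega)] at hback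
  by_cases h0 : val w 0 = true
  · rw [if_pos h0, if_pos h0, if_pos h0, hback h0, ← hini]
    ring
  · rw [if_neg h0, if_neg h0, if_neg h0, ← hini]
    ring

end Pool.Agent.Lib.MP_4c13d6_pr
end

section

/-! GE-2: cylinder probabilities, the stationary law, initial distances. -/

open Finset

namespace Pool.Agent.Lib.MP_4c13d6_pr

variable {q : ℝ}

open Classical in
private theorem geoB_cyl (m : ℕ) : ∀ y r : ℕ, y + r ≤ m →
    ∑ w : W m, (if ∀ k, y ≤ k → k < y + r → val w k = false then wt q w else 0)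
      = (1 - q) ^ r := by
  induction m with
  | zero =>
    intro y r h
    have hr : r = 0 := by omega
    subst hr
    have h1 : ∀ w : W 0, (if ∀ k, y ≤ k → k < y + 0 → val w k = false then wt q w else 0)
        = wt q w := by
      intro w
      rw [if_pos]
      intro k h1 h2
      omega
    simp_rw [h1]
    rw [sum_wt, pow_zero]
  | succ m ih =>
    intro y r h
    rcases Nat.lt_or_ge m (y + r) with hm | hm
    · have hyr : y + r = m + 1 := by omega
      cases r with
      | zero =>
        have h1 : ∀ w : W (m + 1), (if ∀ k, y ≤ k → k < y + 0 → val w k = false then wt q w else 0)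
            = wt q w := by
          intro w
          rw [if_pos]
          intro k h1 h2
          omega
        simp_rw [h1]
        rw [sum_wt, pow_zero]
      | succ r =>
        rw [sum_app]
        have hym : y + r = m := by omega
        have h1 : ∀ w : W m, ((if ∀ k, y ≤ k → k < y + (r + 1) → val (app w true) k = false then
            wt q (app w true) else 0) + (if ∀ k, y ≤ k → k < y + (r + 1) →
              val (app w false) k = false then wt q (app w false) else 0))
            = (if ∀ k, y ≤ k → k < y + r → val w k = false then wt q w else 0) * (1 - q) := by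
          intro w
          have h2 : ¬ ∀ k, y ≤ k → k < y + (r + 1) → val (app w true) k = false := by
            intro hc
            have := hc m (by omega) (by omega)
            rw [val_app_self] at this
            exact absurd this (by simp)
          rw [if_neg h2, zero_add]
          by_cases h3 : ∀ k, y ≤ k → k < y + r → val w k = false
          · rw [if_pos h3, if_pos, wt_app]
            · simp
            · intro k hk1 hk2
              rcases Nat.lt_or_ge k m with hkm | hkm
              · rw [val_app_lt hkm]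
                exact h3 k hk1 (by omega)
              · have : k = m := by omega
                subst this
                rw [val_app_self]
          · rw [if_neg h3, if_neg, zero_mul]
            intro hc
            apply h3
            intro k hk1 hk2
            have := hc k hk1 (by omega)
            rwa [val_app_lt (by omega)] at this
        simp_rw [h1]
        rw [← Finset.sum_mul, ih y r (by omega), pow_succ]
    · rw [sum_app]
      have h1 : ∀ w : W m, ((if ∀ k, y ≤ k → k < y + r → val (app w true) k = false then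
          wt q (app w true) else 0) + (if ∀ k, y ≤ k → k < y + r →
            val (app w false) k = false then wt q (app w false) else 0))
          = (if ∀ k, y ≤ k → k < y + r → val w k = false then wt q w else 0) := by
        intro w
        have h2 : ∀ b, (∀ k, y ≤ k → k < y + r → val (app w b) k = false) ↔
            ∀ k, y ≤ k → k < y + r → val w k = false := by
          intro b
          constructor
          · intro hc k hk1 hk2
            have := hc k hk1 hk2
            rwa [val_app_lt (by omega)] at this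
          · intro hc k hk1 hk2
            rw [val_app_lt (by omega)]
            exact hc k hk1 hk2
        by_cases h3 : ∀ k, y ≤ k → k < y + r → val w k = false
        · rw [if_pos h3, if_pos ((h2 true).2 h3), if_pos ((h2 false).2 h3), wt_app, wt_app]
          simp
          ring
        · rw [if_neg h3, if_neg (fun hc => h3 ((h2 true).1 hc)),
            if_neg (fun hc => h3 ((h2 false).1 hc)), add_zero]
      simp_rw [h1]
      exact ih y r hm

open Classical in
/-- probability that `r` consecutive sites are healthy -/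
theorem cylinder (y r m : ℕ) (h : y + r ≤ m) :
    ∑ w : W m, (if ∀ k, y ≤ k → k < y + r → val w k = false then wt q w else 0)
      = (1 - q) ^ r :=
  geoB_cyl m y r h

/-- the normalisation of the stationary law -/
theorem mu_norm (hq : 0 < q) (hq1 : q < 1) (bL bR : Bool) {m : ℕ} (hm : 1 ≤ m) :
    q ≤ ∑ v : W m, (if ok bL bR v then wt q v else 0) := by
  obtain ⟨n, rfl⟩ : ∃ n, m = n + 1 := ⟨m - 1, by omega⟩
  have h1 : ∑ v : W (n + 1), (if val v 0 = true then wt q v else 0) = q := by
    rw [sum_con]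
    have : ∀ w : W n, ((if val (con true w) 0 = true then wt q (con true w) else 0)
        + (if val (con false w) 0 = true then wt q (con false w) else 0)) = q * wt q w := by
      intro w
      rw [val_con_zero, val_con_zero, wt_con]
      simp
    simp_rw [this]
    rw [← Finset.mul_sum, sum_wt, mul_one]
  refine le_trans (le_of_eq h1.symm) ?_
  apply Finset.sum_le_sum
  intro v _
  have hw := wt_nonneg hq.le hq1.le v
  by_cases h2 : val v 0 = true
  · have h3 : ok bL bR v := by
      right; right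
      refine ⟨0, ?_⟩
      have := val_fin v 0
      rw [← this]
      exact h2
    rw [if_pos h2, if_pos h3]
  · rw [if_neg h2]
    split_ifs
    · exact hw
    · exact le_rfl

theorem mu_prob (hq : 0 < q) (hq1 : q < 1) (bL bR : Bool) {m : ℕ} (hm : 1 ≤ m) :
    IsProb (mu q bL bR : W m → ℝ) := by
  have hZ := mu_norm hq hq1 bL bR hm
  have hZpos : 0 < ∑ v : W m, (if ok bL bR v then wt q v else 0) := lt_of_lt_of_le hq hZ
  refine ⟨fun w => ?_, ?_⟩
  · unfold mu
    split_ifs
    · exact div_nonneg (wt_nonneg hq.le hq1.le w) hZpos.le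
    · exact le_rfl
  · have h1 : ∀ w : W m, mu q bL bR w = (if ok bL bR w then wt q w else 0) /
        (∑ v : W m, if ok bL bR v then wt q v else 0) := by
      intro w
      unfold mu
      split_ifs
      · rfl
      · rw [zero_div]
    simp_rw [h1]
    rw [← Finset.sum_div, div_self hZpos.ne']

theorem mu_rev (hq : 0 < q) (hq1 : q < 1) (bL bR : Bool) {m : ℕ} (w w' : W m) :
    mu q bL bR w * LM q bL bR m w w' = mu q bL bR w' * LM q bL bR m w' w := by
  by_cases h1 : ok bL bR w
  · by_cases h2 : ok bL bR w'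
    · unfold mu
      rw [if_pos h1, if_pos h2, div_mul_eq_mul_div, div_mul_eq_mul_div, LM_rev hq hq1]
    · rw [LM_ok w w' h1 h2]
      unfold mu
      rw [if_neg h2, mul_zero, zero_mul]
  · by_cases h2 : ok bL bR w'
    · rw [LM_ok w' w h2 h1]
      unfold mu
      rw [if_neg h1, mul_zero, zero_mul]
    · unfold mu
      rw [if_neg h1, if_neg h2, zero_mul, zero_mul]

/-- there is always an infected site nearby at the start -/
theorem not_far_start (bL bR : Bool) {m : ℕ} (w : W m) (hw : ok bL bR w) (x : ℕ) (hx : x < m) :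
    ¬ far bL bR w x (m + 1) := by
  intro hf
  rcases hw with h | h | ⟨i, hi⟩
  · have := hf (-1) (by rw [abs_lt]; push_cast; constructor <;> omega)
    rw [ev_left, h] at this
    exact absurd this (by simp)
  · have := hf m (by rw [abs_lt]; push_cast; constructor <;> omega)
    rw [ev_right, h] at this
    exact absurd this (by simp)
  · have hi2 := i.isLt
    have := hf (i : ℕ) (by rw [abs_lt]; push_cast; constructor <;> omega)
    rw [ev_site, hi] at this
    exact absurd this (by simp)

theorem not_far_start' {m : ℕ} (w : W m) (x : ℕ) (hx : x < m) :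
    ¬ far true true w x ((m + 1) / 2 + 1) := by
  intro hf
  rcases Nat.lt_or_ge x ((m + 1) / 2) with h | h
  · have := hf (-1) (by rw [abs_lt]; push_cast; constructor <;> omega)
    rw [ev_left] at this
    exact absurd this (by simp)
  · have := hf m (by rw [abs_lt]; push_cast; constructor <;> omega)
    rw [ev_right] at this
    exact absurd this (by simp)

end Pool.Agent.Lib.MP_4c13d6_pr
end

section

/-! FC-4: a bounded superharmonic function which pays for the boundary. -/

open Finset Real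

namespace Pool.Agent.Lib.MP_4c13d6_pr

variable {q : ℝ}

theorem exists_w (hq : 0 < q) (hq1 : q < 1) (z : Bool) {N : ℕ} (F : W N → ℝ) (c : ℝ) (hc : 0 < c)
    (hF : ∀ w : W (N + 1), c ≤ psi q w + gen q F w) (N0 : ℕ) :
    ∃ (N1 : ℕ) (w : FS → ℝ) (B : ℝ), N0 ≤ N1 ∧ IsLoc N w ∧ 0 ≤ B ∧ (∀ s, |w s| ≤ B) ∧
      (∀ s, GG q z w s ≤ 0) ∧ (∀ s, levZ s < N1 → GG q z w s ≤ -1) := by
  classical
  obtain ⟨Phi, hPhi0, hPhi⟩ : ∃ Phi : ℝ, 0 ≤ Phi ∧ ∀ w, |F w| ≤ Phi :=
    ⟨∑ w, |F w|, Finset.sum_nonneg fun _ _ => abs_nonneg _, fun w =>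
      Finset.single_le_sum (f := fun w => |F w|) (fun _ _ => abs_nonneg _) (Finset.mem_univ w)⟩
  obtain ⟨J, hJ⟩ : ∃ J : ℝ, J = 1 + 2 * Phi := ⟨_, rfl⟩
  have hJ0 : 0 < J := by rw [hJ]; linarith
  obtain ⟨K, hK⟩ : ∃ K : ℝ, K = N + 2 + Phi := ⟨_, rfl⟩
  have hN : (0 : ℝ) ≤ N := Nat.cast_nonneg N
  -- the parameter
  obtain ⟨θ, hθ0, hθ⟩ : ∃ θ : ℝ, 0 < θ ∧ θ * ((N + 2) * J ^ 2 * exp (θ * J)) ≤ c / 2 := by
    have hD : 0 < 2 * ((N + 2) * J ^ 2 * exp J) := by positivity
    refine ⟨min 1 (c / (2 * ((N + 2) * J ^ 2 * exp J))), lt_min one_pos (div_pos hc hD), ?_⟩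
    set θ := min 1 (c / (2 * ((N + 2) * J ^ 2 * exp J))) with hθd
    have h0 : 0 < θ := lt_min one_pos (div_pos hc hD)
    have h1 : θ ≤ 1 := min_le_left _ _
    have h2 : θ ≤ c / (2 * ((N + 2) * J ^ 2 * exp J)) := min_le_right _ _
    have h3 : exp (θ * J) ≤ exp J := Real.exp_le_exp.2 (by nlinarith)
    have h4 : θ * (2 * ((N + 2) * J ^ 2 * exp J)) ≤ c := (le_div_iff₀ hD).1 h2
    have h5 : (N + 2) * J ^ 2 * exp (θ * J) ≤ (N + 2) * J ^ 2 * exp J :=
      mul_le_mul_of_nonneg_left h3 (by positivity)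
    have h6 := mul_le_mul_of_nonneg_left h5 h0.le
    linarith
  have hYJ : ∀ s t, Nb s t → |Yf F t - Yf F s| ≤ J := by
    intro s t h
    rw [hJ]
    exact Yf_nb F Phi hPhi0 hPhi h
  let E : FS → ℝ := fun s => exp (-θ * (Yf F s - K))
  let w1 : FS → ℝ := fun s => min 1 (E s)
  have hE0 : ∀ s, 0 < E s := fun s => Real.exp_pos _
  have hw10 : ∀ s, 0 ≤ w1 s := fun s => le_min zero_le_one (hE0 s).le
  have hw11 : ∀ s, w1 s ≤ 1 := fun s => min_le_left _ _
  -- case (ii)
  have hcase2 : ∀ s, K < Yf F s → w1 s = E s ∧ GG q z w1 s ≤ -(θ * c / 2) * E s := by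
    intro s hs
    have hw1s : w1 s = E s := by
      refine min_eq_right ?_
      refine Real.exp_le_one_iff.2 ?_
      nlinarith
    refine ⟨hw1s, ?_⟩
    have h1 : GG q z w1 s ≤ GG q z E s := by
      refine GG_mono hq hq1 _ _ s fun t _ => ?_
      have : w1 t ≤ E t := min_le_right _ _
      rw [hw1s]
      linarith
    refine h1.trans ?_
    have h2 : E = fun t => exp (θ * K) * exp (-θ * Yf F t) := by
      funext t
      show exp (-θ * (Yf F t - K)) = _
      rw [← Real.exp_add]
      congr 1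
      ring
    have h3 : GG q z E s = exp (θ * K) * GG q z (fun t => exp (-θ * Yf F t)) s := by
      rw [h2, GG_smul]
    have h4 := GG_exp_neg (z := z) hq hq1 (Yf F) J θ hθ0.le s (hYJ s)
    have h5 := GG_sq_le (z := z) hq hq1 (IsLoc_Yf F) s J hJ0.le (hYJ s)
    -- the drift
    have h6 : c ≤ GG q z (Yf F) s := by
      cases s with
      | none =>
        exfalso
        have : Yf F none = -1 := rfl
        rw [this, hK] at hs
        linarith
      | some l =>
        have hlen : N + 1 ≤ l.length := by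
          have h7 : Yf F (some l) = l.length + F (pr N (some l)) := rfl
          have h8 := (abs_le.1 (hPhi (pr N (some l)))).2
          rw [h7, hK] at hs
          have h9 : (N : ℝ) + 1 < l.length := by linarith
          have h10 : ((N + 1 : ℕ) : ℝ) < (l.length : ℕ) := by push_cast; exact h9
          exact (Nat.cast_lt.1 h10).le
        rw [GG_Yf z F l hlen]
        exact hF _
    have hEs : E s = exp (θ * K) * exp (-θ * Yf F s) := congrFun h2 s
    rw [h3]
    have h7 : θ ^ 2 * exp (θ * J) * GG q z (fun t => (Yf F t - Yf F s) ^ 2) s ≤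
        θ * (c / 2) := by
      have h8 : θ ^ 2 * exp (θ * J) * GG q z (fun t => (Yf F t - Yf F s) ^ 2) s ≤
          θ ^ 2 * exp (θ * J) * ((N + 2) * J ^ 2) :=
        mul_le_mul_of_nonneg_left h5 (by positivity)
      have h9 : θ ^ 2 * exp (θ * J) * ((N + 2) * J ^ 2) =
          θ * (θ * ((N + 2) * J ^ 2 * exp (θ * J))) := by ring
      rw [h9] at h8
      exact h8.trans (mul_le_mul_of_nonneg_left hθ hθ0.le)
    have h8 : -θ * GG q z (Yf F) s +
        θ ^ 2 * exp (θ * J) * GG q z (fun t => (Yf F t - Yf F s) ^ 2) s ≤ -(θ * c / 2) := by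
      have := mul_le_mul_of_nonneg_left h6 hθ0.le
      linarith
    have h9 : GG q z (fun t => exp (-θ * Yf F t)) s ≤ exp (-θ * Yf F s) * (-(θ * c / 2)) :=
      h4.trans (mul_le_mul_of_nonneg_left h8 (Real.exp_pos _).le)
    have h10 := mul_le_mul_of_nonneg_left h9 (Real.exp_pos (θ * K)).le
    rw [hEs]
    refine h10.trans (le_of_eq ?_)
    ring
  have hle0 : ∀ s, GG q z w1 s ≤ 0 := by
    intro s
    rcases le_or_gt (Yf F s) K with hs | hs
    · have hw1s : w1 s = 1 := by
        refine min_eq_left ?_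
        refine Real.one_le_exp ?_
        nlinarith
      have h1 : GG q z w1 s ≤ GG q z (fun _ => (1 : ℝ)) s := by
        refine GG_mono hq hq1 _ _ s fun t _ => ?_
        rw [hw1s]
        have := hw11 t
        linarith
      rw [GG_const] at h1
      exact h1
    · refine (hcase2 s hs).2.trans ?_
      have := hE0 s
      have h2 : 0 < θ * c / 2 := by positivity
      nlinarith
  obtain ⟨N1, hN1⟩ : ∃ N1 : ℕ, N1 = max N0 (N + 4 + ⌈2 * Phi⌉₊) := ⟨_, rfl⟩
  have hN1a : N0 ≤ N1 := by rw [hN1]; exact le_max_left _ _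
  have hN1b : (N : ℝ) + 4 + 2 * Phi ≤ N1 := by
    have h1 : N + 4 + ⌈2 * Phi⌉₊ ≤ N1 := by rw [hN1]; exact le_max_right _ _
    have h2 : ((N + 4 + ⌈2 * Phi⌉₊ : ℕ) : ℝ) ≤ N1 := by exact_mod_cast h1
    have h3 := Nat.le_ceil (2 * Phi)
    push_cast at h2
    linarith
  obtain ⟨ws, hws⟩ : ∃ ws : ℝ, ws = exp (-θ * (N1 + Phi - K)) := ⟨_, rfl⟩
  have hws0 : 0 < ws := by rw [hws]; exact Real.exp_pos _
  have h2q : 0 < 2 / q := by positivity
  have hden : 0 < θ * c / 2 * ws := by positivity
  obtain ⟨α, hα⟩ : ∃ α : ℝ, α = (2 / q) ^ (N1 + 1) / (θ * c / 2 * ws) := ⟨_, rfl⟩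
  have hα0 : 0 < α := by rw [hα]; positivity
  have hαe : α * (θ * c / 2 * ws) = (2 / q) ^ (N1 + 1) := by
    rw [hα]
    exact div_mul_cancel₀ _ hden.ne'
  have hGG : ∀ s, GG q z (fun s => α * w1 s + uf q N1 s) s =
      α * GG q z w1 s + GG q z (uf q N1) s := by
    intro s
    rw [GG_add (fun s => α * w1 s) (uf q N1) s, GG_smul]
  have hsmall : ∀ s, levZ s < N1 → GG q z (fun s => α * w1 s + uf q N1 s) s ≤ -1 := by
    intro s hs
    rw [hGG]
    have h1 := GG_uf_small (z := z) hq hq1 N1 s hs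
    have h2 := mul_le_mul_of_nonneg_left (hle0 s) hα0.le
    linarith
  refine ⟨N1, fun s => α * w1 s + uf q N1 s, α + ∑ j ∈ range (N1 + 1), (2 / q) ^ (j + 1), hN1a,
    ?_, ?_, fun s => ?_, fun s => ?_, hsmall⟩
  · exact IsLoc.add (IsLoc.smul α (IsLoc.comp (fun y => min 1 (exp (-θ * (y - K))))
      (IsLoc_Yf F))) (IsLoc_lev N fun k => ∑ j ∈ Ico (k + 1).toNat (N1 + 1), (2 / q) ^ (j + 1))
  · have : 0 ≤ ∑ j ∈ range (N1 + 1), (2 / q) ^ (j + 1) :=
      Finset.sum_nonneg fun _ _ => (pow_pos h2q _).le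
    linarith
  · have h1 := uf_nonneg hq N1 s
    have h2 := uf_le hq N1 s
    have h3 := mul_nonneg hα0.le (hw10 s)
    have h4 := mul_le_mul_of_nonneg_left (hw11 s) hα0.le
    show |α * w1 s + uf q N1 s| ≤ _
    rw [abs_of_nonneg (by linarith)]
    linarith
  · rcases lt_trichotomy (levZ s) (N1 : ℤ) with h | h | h
    · exact (hsmall s h).trans (by norm_num)
    · rw [hGG]
      have h1 := GG_uf_eq (z := z) hq hq1 N1 s h
      have h2 := abs_le.1 (Yf_sub_lev F Phi hPhi0 hPhi s)
      have h3 : lev s = N1 := by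
        unfold lev
        rw [h]
        simp
      rw [h3] at h2
      have h4 : K < Yf F s := by rw [hK]; linarith [h2.1]
      obtain ⟨-, h5⟩ := hcase2 s h4
      have h6 : ws ≤ E s := by
        rw [hws]
        refine Real.exp_le_exp.2 ?_
        have := h2.2
        nlinarith
      have h7 : θ * c / 2 * ws ≤ θ * c / 2 * E s :=
        mul_le_mul_of_nonneg_left h6 (by positivity)
      have h8 := mul_le_mul_of_nonneg_left h5 hα0.le
      have h9 := mul_le_mul_of_nonneg_left h7 hα0.le
      rw [hαe] at h9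
      linarith
    · rw [hGG, GG_uf_large N1 s h]
      have h2 := mul_le_mul_of_nonneg_left (hle0 s) hα0.le
      linarith

end Pool.Agent.Lib.MP_4c13d6_pr
end

section

/-! FC-5: Theorem C. -/

open Finset Real

namespace Pool.Agent.Lib.MP_4c13d6_pr

variable {q : ℝ}

private lemma thmC_large {N1 : ℕ} {s : FS} (hs : ¬ levZ s < N1) :
    ∃ l : List Bool, s = some l ∧ N1 ≤ l.length := by
  cases s with
  | none =>
    exfalso
    apply hs
    have h1 : levZ (none : FS) = -1 := rfl
    rw [h1]
    omega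
  | some l =>
    refine ⟨l, rfl, ?_⟩
    have h1 : levZ (some l : FS) = (l.length : ℤ) := rfl
    rw [h1] at hs
    omega

private lemma thmC_theta {v e ε θ S G L E : ℝ} (hθ : 0 < θ) (heε : e ≤ ε)
    (hG : v - e / 4 ≤ G) (hE : 0 ≤ E) (hEL : θ * E * S ≤ 3 * e / 4) (hL : L ≤ S) :
    -θ * G + θ ^ 2 * E * L ≤ -(θ * (v - ε)) := by
  have h1 : θ ^ 2 * E * L ≤ θ ^ 2 * E * S := mul_le_mul_of_nonneg_left hL (by positivity)
  have h2 : θ ^ 2 * E * S = θ * (θ * E * S) := by ring
  have h3 : θ * (θ * E * S) ≤ θ * (3 * e / 4) := mul_le_mul_of_nonneg_left hEL hθ.le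
  have h4 : θ * (v - e / 4) ≤ θ * G := mul_le_mul_of_nonneg_left hG hθ.le
  have h5 : θ * (v - ε) ≤ θ * (v - e) := mul_le_mul_of_nonneg_left (by linarith) hθ.le
  nlinarith

private lemma thmC_theta' {v e ε θ S G L E : ℝ} (hθ : 0 < θ) (heε : e ≤ ε)
    (hG : G ≤ v + e / 4) (hE : 0 ≤ E) (hEL : θ * E * S ≤ 3 * e / 4) (hL : L ≤ S) :
    θ * G + θ ^ 2 * E * L ≤ θ * (v + ε) := by
  have h1 : θ ^ 2 * E * L ≤ θ ^ 2 * E * S := mul_le_mul_of_nonneg_left hL (by positivity)
  have h2 : θ ^ 2 * E * S = θ * (θ * E * S) := by ring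
  have h3 : θ * (θ * E * S) ≤ θ * (3 * e / 4) := mul_le_mul_of_nonneg_left hEL hθ.le
  have h4 : θ * G ≤ θ * (v + e / 4) := mul_le_mul_of_nonneg_left hG hθ.le
  have h5 : θ * (v + e) ≤ θ * (v + ε) := mul_le_mul_of_nonneg_left (by linarith) hθ.le
  nlinarith

theorem theoremC (hq : 0 < q) (hq1 : q < 1) {v : ℝ} (hv : IsSpeed q v) (z : Bool) (ε : ℝ)
    (hε : 0 < ε) :
    ∃ (θ₀ C : ℝ) (H1 H2 : FS → ℝ), 0 < θ₀ ∧ 0 ≤ C ∧ (∀ s, |H1 s| ≤ C) ∧ (∀ s, |H2 s| ≤ C) ∧
      ∀ θ, 0 < θ → θ ≤ θ₀ →
        (∀ s, GG q z (fun t => exp (-θ * (lev t + H1 t))) s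
          ≤ -(θ * (v - ε)) * exp (-θ * (lev s + H1 s))) ∧
        (∀ s, GG q z (fun t => exp (θ * (lev t + H2 t))) s
          ≤ θ * (v + ε) * exp (θ * (lev s + H2 s))) := by
  obtain ⟨hv0, hv1, hv2⟩ := hv
  set e := min ε v with he
  have he0 : 0 < e := lt_min hε hv0
  have heε : e ≤ ε := min_le_left _ _
  have hev : e ≤ v := min_le_right _ _
  obtain ⟨⟨Nm, Fm, hFm⟩, ⟨Np, Fp, hFp⟩⟩ := hv2 (e / 4) (by positivity)
  obtain ⟨N1, w, B, hN1, hwloc, hB, hwB, hw0, hw1⟩ :=
    exists_w hq hq1 z Fm (v - e / 4) (by linarith) hFm (max (Nm + 1) (Np + 1))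
  have hN1m : Nm + 1 ≤ N1 := (le_max_left _ _).trans hN1
  have hN1p : Np + 1 ≤ N1 := (le_max_right _ _).trans hN1
  obtain ⟨Φ, hΦ0, hΦm, hΦp⟩ : ∃ Φ : ℝ, 0 ≤ Φ ∧ (∀ w, |Fm w| ≤ Φ) ∧ (∀ w, |Fp w| ≤ Φ) := by
    refine ⟨∑ w, |Fm w| + ∑ w, |Fp w|, by positivity, fun w => ?_, fun w => ?_⟩
    · have h1 := Finset.single_le_sum (f := fun w => |Fm w|) (fun w _ => abs_nonneg _)
        (Finset.mem_univ w)
      have h2 : 0 ≤ ∑ w, |Fp w| := Finset.sum_nonneg fun w _ => abs_nonneg _
      linarith
    · have h1 := Finset.single_le_sum (f := fun w => |Fp w|) (fun w _ => abs_nonneg _)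
        (Finset.mem_univ w)
      have h2 : 0 ≤ ∑ w, |Fm w| := Finset.sum_nonneg fun w _ => abs_nonneg _
      linarith
  set M : ℕ := max Nm Np with hM
  have hMm : (Nm : ℝ) ≤ M := by exact_mod_cast le_max_left _ _
  have hMp : (Np : ℝ) ≤ M := by exact_mod_cast le_max_right _ _
  set C1 : ℝ := (M + 2) * (1 + 2 * Φ) with hC1
  have hC10 : 0 ≤ C1 := by positivity
  set β : ℝ := C1 + v + 1 with hβ
  have hβ0 : 0 ≤ β := by positivity
  set J : ℝ := 1 + 2 * Φ + 2 * (β * B) with hJ
  have hJ0 : 0 < J := by positivity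
  set S : ℝ := (M + 2) * J ^ 2 with hS
  have hS0 : 0 < S := by positivity
  set Y1 : FS → ℝ := fun s => Yf Fm s + (-β) * w s with hY1
  set Y2 : FS → ℝ := fun s => Yf Fp s + β * w s with hY2
  have hloc1 : IsLoc M Y1 :=
    ((IsLoc_Yf Fm).mono (le_max_left _ _)).add ((hwloc.mono (le_max_left _ _)).smul (-β))
  have hloc2 : IsLoc M Y2 :=
    ((IsLoc_Yf Fp).mono (le_max_right _ _)).add ((hwloc.mono (le_max_left _ _)).smul β)
  have hwd : ∀ s t, |w t - w s| ≤ 2 * B := by
    intro s t
    have h1 := abs_le.1 (hwB s)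
    have h2 := abs_le.1 (hwB t)
    rw [abs_le]
    constructor <;> linarith [h1.1, h1.2, h2.1, h2.2]
  have hβw : ∀ s t, |β * (w t - w s)| ≤ 2 * (β * B) := by
    intro s t
    rw [abs_mul, abs_of_nonneg hβ0]
    have := mul_le_mul_of_nonneg_left (hwd s t) hβ0
    linarith
  have hinc1 : ∀ s t, Nb s t → |Y1 t - Y1 s| ≤ J := by
    intro s t h
    have h1 := abs_le.1 (Yf_nb Fm Φ hΦ0 hΦm h)
    have h2 := abs_le.1 (hβw s t)
    simp only [hY1, hJ]
    rw [abs_le]
    constructor <;> linarith [h1.1, h1.2, h2.1, h2.2]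
  have hinc2 : ∀ s t, Nb s t → |Y2 t - Y2 s| ≤ J := by
    intro s t h
    have h1 := abs_le.1 (Yf_nb Fp Φ hΦ0 hΦp h)
    have h2 := abs_le.1 (hβw s t)
    simp only [hY2, hJ]
    rw [abs_le]
    constructor <;> linarith [h1.1, h1.2, h2.1, h2.2]
  have hG1 : ∀ s, GG q z Y1 s = GG q z (Yf Fm) s + (-β) * GG q z w s := by
    intro s
    rw [← GG_smul, ← GG_add]
  have hG2 : ∀ s, GG q z Y2 s = GG q z (Yf Fp) s + β * GG q z w s := by
    intro s
    rw [← GG_smul, ← GG_add]
  have hA1 : ∀ s, v - e / 4 ≤ GG q z Y1 s := by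
    intro s
    rw [hG1]
    by_cases hs : levZ s < N1
    · have h1 := hw1 s hs
      have h2 := abs_le.1 (GG_abs_le (z := z) hq hq1 (IsLoc_Yf Fm) s (1 + 2 * Φ) (by positivity)
        fun t ht => Yf_nb Fm Φ hΦ0 hΦm ht)
      have h3 : ((Nm : ℝ) + 2) * (1 + 2 * Φ) ≤ C1 :=
        mul_le_mul_of_nonneg_right (by linarith) (by positivity)
      have h4 : β * 1 ≤ β * (-GG q z w s) := mul_le_mul_of_nonneg_left (by linarith) hβ0
      linarith [h2.1]
    · obtain ⟨l, rfl, hl⟩ := thmC_large hs
      have h1 := hw0 (some l)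
      have h2 : 0 ≤ β * (-GG q z w (some l)) := mul_nonneg hβ0 (by linarith)
      have h3 := GG_Yf (q := q) z Fm l (by omega)
      have h4 := hFm (pr (Nm + 1) (some l))
      rw [h3]
      linarith
  have hA2 : ∀ s, GG q z Y2 s ≤ v + e / 4 := by
    intro s
    rw [hG2]
    by_cases hs : levZ s < N1
    · have h1 := hw1 s hs
      have h2 := abs_le.1 (GG_abs_le (z := z) hq hq1 (IsLoc_Yf Fp) s (1 + 2 * Φ) (by positivity)
        fun t ht => Yf_nb Fp Φ hΦ0 hΦp ht)
      have h3 : ((Np : ℝ) + 2) * (1 + 2 * Φ) ≤ C1 :=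
        mul_le_mul_of_nonneg_right (by linarith) (by positivity)
      have h4 : β * 1 ≤ β * (-GG q z w s) := mul_le_mul_of_nonneg_left (by linarith) hβ0
      linarith [h2.2]
    · obtain ⟨l, rfl, hl⟩ := thmC_large hs
      have h1 := hw0 (some l)
      have h2 : 0 ≤ β * (-GG q z w (some l)) := mul_nonneg hβ0 (by linarith)
      have h3 := GG_Yf (q := q) z Fp l (by omega)
      have h4 := hFp (pr (Np + 1) (some l))
      rw [h3]
      linarith
  have hexp : 0 < exp J := exp_pos J
  refine ⟨min 1 (3 * e / (4 * (exp J * S))), Φ + β * B, fun s => Y1 s - lev s,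
    fun s => Y2 s - lev s, lt_min one_pos (by positivity), by positivity, fun s => ?_,
    fun s => ?_, ?_⟩
  · have h1 := abs_le.1 (Yf_sub_lev Fm Φ hΦ0 hΦm s)
    have h2 : |β * w s| ≤ β * B := by
      rw [abs_mul, abs_of_nonneg hβ0]
      exact mul_le_mul_of_nonneg_left (hwB s) hβ0
    have h3 := abs_le.1 h2
    simp only [hY1]
    rw [abs_le]
    constructor <;> linarith [h1.1, h1.2, h3.1, h3.2]
  · have h1 := abs_le.1 (Yf_sub_lev Fp Φ hΦ0 hΦp s)
    have h2 : |β * w s| ≤ β * B := by
      rw [abs_mul, abs_of_nonneg hβ0]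
      exact mul_le_mul_of_nonneg_left (hwB s) hβ0
    have h3 := abs_le.1 h2
    simp only [hY2]
    rw [abs_le]
    constructor <;> linarith [h1.1, h1.2, h3.1, h3.2]
  intro θ hθ hθ0
  have hθ1 : θ ≤ 1 := hθ0.trans (min_le_left _ _)
  have hθ2 : θ ≤ 3 * e / (4 * (exp J * S)) := hθ0.trans (min_le_right _ _)
  have hEL : θ * exp (θ * J) * S ≤ 3 * e / 4 := by
    have h1 : exp (θ * J) ≤ exp J := exp_le_exp.2 (by nlinarith)
    have h2 : θ * (4 * (exp J * S)) ≤ 3 * e := (le_div_iff₀ (by positivity)).1 hθ2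
    have h3 : θ * exp (θ * J) * S ≤ θ * exp J * S :=
      mul_le_mul_of_nonneg_right (mul_le_mul_of_nonneg_left h1 hθ.le) hS0.le
    linarith
  have e1 : ∀ t, lev t + (Y1 t - lev t) = Y1 t := fun t => by ring
  have e2 : ∀ t, lev t + (Y2 t - lev t) = Y2 t := fun t => by ring
  simp only [e1, e2]
  constructor
  · intro s
    have h1 := GG_exp_neg (z := z) hq hq1 Y1 J θ hθ.le s fun t ht => hinc1 s t ht
    have h2 := GG_sq_le (z := z) hq hq1 hloc1 s J hJ0.le fun t ht => hinc1 s t ht
    have h3 := thmC_theta hθ heε (hA1 s) (exp_pos (θ * J)).le hEL h2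
    have h4 := mul_le_mul_of_nonneg_left h3 (exp_pos (-θ * Y1 s)).le
    linarith
  · intro s
    have h1 := GG_exp_pos (z := z) hq hq1 Y2 J θ hθ.le s fun t ht => hinc2 s t ht
    have h2 := GG_sq_le (z := z) hq hq1 hloc2 s J hJ0.le fun t ht => hinc2 s t ht
    have h3 := thmC_theta' hθ heε (hA2 s) (exp_pos (θ * J)).le hEL h2
    have h4 := mul_le_mul_of_nonneg_left h3 (exp_pos (θ * Y2 s)).le
    linarith

end Pool.Agent.Lib.MP_4c13d6_pr
end

section

/-! MK-3: Gronwall inequalities for finite Markov chains. -/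

open Finset Real

namespace Pool.Agent.Lib.MP_4c13d6_pr

variable {X : Type*} [Fintype X] [DecidableEq X] {Q : Matrix X X ℝ}

private theorem mkg_aux (φ φ' : ℝ → ℝ) (k : ℝ) (hd : ∀ t, HasDerivAt φ (φ' t) t)
    (h : ∀ t, 0 ≤ t → φ' t ≤ k * φ t) {t : ℝ} (ht : 0 ≤ t) : φ t ≤ exp (k * t) * φ 0 := by
  have hψ : ∀ s : ℝ, HasDerivAt (fun s => exp (-k * s) * φ s)
      (exp (-k * s) * (-k) * φ s + exp (-k * s) * φ' s) s := by
    intro s
    have h1 : HasDerivAt (fun s : ℝ => exp (-k * s)) (exp (-k * s) * (-k)) s := by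
      have := ((hasDerivAt_id s).const_mul (-k)).exp
      simpa using this
    exact h1.mul (hd s)
  have hanti : AntitoneOn (fun s => exp (-k * s) * φ s) (Set.Ici 0) := by
    apply antitoneOn_of_deriv_nonpos (convex_Ici 0)
    · exact fun s _ => (hψ s).continuousAt.continuousWithinAt
    · exact fun s _ => (hψ s).differentiableAt.differentiableWithinAt
    · intro s hs
      rw [interior_Ici] at hs
      rw [(hψ s).deriv]
      have h2 := h s (le_of_lt hs)
      have h3 := exp_pos (-k * s)
      have e : exp (-k * s) * (-k) * φ s + exp (-k * s) * φ' s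
          = exp (-k * s) * (φ' s - k * φ s) := by ring
      rw [e]
      exact mul_nonpos_of_nonneg_of_nonpos h3.le (by linarith)
  have h4 := hanti (Set.mem_Ici.mpr le_rfl) (Set.mem_Ici.mpr ht) ht
  simp only [mul_zero, exp_zero, one_mul] at h4
  have h5 : exp (k * t) * (exp (-k * t) * φ t) = φ t := by
    rw [← mul_assoc, ← exp_add]
    have : k * t + -k * t = 0 := by ring
    rw [this, exp_zero, one_mul]
  rw [← h5]
  exact mul_le_mul_of_nonneg_left h4 (exp_pos _).le

private theorem mkg_zero (f : X → ℝ) (x : X) : ∑ y, PP Q 0 x y * f y = f x := by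
  rw [PP_zero]
  simp [Matrix.one_apply]

/-- Gronwall inequality, contraction form -/
theorem gronwall_neg (hQ : IsGen Q) (c C : ℝ) (hc : 0 < c) (hC : 0 ≤ C) (f : X → ℝ)
    (hf : ∀ x, ∑ y, Q x y * f y ≤ -c * f x + C) {t : ℝ} (ht : 0 ≤ t) (x : X) :
    ∑ y, PP Q t x y * f y ≤ exp (-c * t) * f x + C / c := by
  have h := mkg_aux (fun s => (∑ y, PP Q s x y * f y) - C / c)
    (fun s => ∑ y, PP Q s x y * ∑ z, Q y z * f z) (-c)
    (fun s => (PP_deriv Q f x s).sub_const (C / c)) (by
      intro s hs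
      have h1 : ∑ y, PP Q s x y * ∑ z, Q y z * f z ≤ ∑ y, PP Q s x y * (-c * f y + C) :=
        Finset.sum_le_sum fun y _ => mul_le_mul_of_nonneg_left (hf y) (PP_nonneg hQ.1 hs x y)
      have h2 : ∑ y, PP Q s x y * (-c * f y + C) = -c * (∑ y, PP Q s x y * f y) + C := by
        have : ∀ y, PP Q s x y * (-c * f y + C)
            = -c * (PP Q s x y * f y) + PP Q s x y * C := by intro y; ring
        rw [Finset.sum_congr rfl (fun y _ => this y), Finset.sum_add_distrib, ← Finset.mul_sum,
          ← Finset.sum_mul, PP_row hQ.2, one_mul]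
      rw [h2] at h1
      have h3 : -c * ((∑ y, PP Q s x y * f y) - C / c) = -c * (∑ y, PP Q s x y * f y) + C := by
        field_simp
        ring
      rw [h3]
      exact h1) ht
  simp only [mkg_zero] at h
  have h4 : 0 ≤ exp (-c * t) * (C / c) := by positivity
  rw [mul_sub] at h
  linarith

/-- Gronwall inequality, growth form -/
theorem gronwall_pos (hQ : IsGen Q) (k : ℝ) (f : X → ℝ)
    (hf : ∀ x, ∑ y, Q x y * f y ≤ k * f x) {t : ℝ} (ht : 0 ≤ t) (x : X) :
    ∑ y, PP Q t x y * f y ≤ exp (k * t) * f x := by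
  have h := mkg_aux (fun s => (∑ y, PP Q s x y * f y))
    (fun s => ∑ y, PP Q s x y * ∑ z, Q y z * f z) k
    (fun s => PP_deriv Q f x s) (by
      intro s hs
      have h1 : ∑ y, PP Q s x y * ∑ z, Q y z * f z ≤ ∑ y, PP Q s x y * (k * f y) :=
        Finset.sum_le_sum fun y _ => mul_le_mul_of_nonneg_left (hf y) (PP_nonneg hQ.1 hs x y)
      refine h1.trans (le_of_eq ?_)
      rw [Finset.mul_sum]
      exact Finset.sum_congr rfl fun y _ => by ring) ht
  simp only [mkg_zero] at h
  exact h

/-- Markov inequality for `rowP` -/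
theorem rowP_le (hQ : IsGen Q) {t : ℝ} (ht : 0 ≤ t) (x : X) (A : X → Prop) (V : X → ℝ)
    (c : ℝ) (hc : 0 < c) (hV : ∀ y, PP Q t x y ≠ 0 → 0 ≤ V y)
    (hA : ∀ y, PP Q t x y ≠ 0 → A y → c ≤ V y) :
    rowP (PP Q t) x A ≤ (∑ y, PP Q t x y * V y) / c := by
  unfold rowP
  rw [Finset.sum_div]
  apply Finset.sum_le_sum
  intro y _
  by_cases h0 : PP Q t x y = 0
  · rw [h0]; simp
  · have hp : 0 ≤ PP Q t x y := PP_nonneg hQ.1 ht x y
    by_cases hAy : A y
    · rw [if_pos hAy, le_div_iff₀ hc]
      exact mul_le_mul_of_nonneg_left (hA y h0 hAy) hp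
    · rw [if_neg hAy]
      exact div_nonneg (mul_nonneg hp (hV y h0)) hc.le

end Pool.Agent.Lib.MP_4c13d6_pr
end
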