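import Pool.Agent.Lib.MP_4c13d6_pr.MK

/-! MK-2, first half: closed classes and killed chains (for `MKsub.lean`; the matrix
`fun x y => Q x.1 y.1` is `subM G Q`). -/

open Finset Real

namespace Pool.Agent.Lib.MP_4c13d6_pr

variable {X : Type*} [Fintype X] [DecidableEq X] {Q : Matrix X X ℝ} (G : X → Prop)
  [DecidablePred G]

/-- the interpolation `s ↦ ∑ z ∈ G, P^G_{t-s}(x,z) P_s(z,y)` is constant -/
private theorem mksubA_key (h : ∀ x y, G x → ¬ G y → Q x y = 0) (t : ℝ) (x : {x // G x})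
    (y : X) :
    ∑ z : {x // G x}, PP (fun x y : {x // G x} => Q x.1 y.1) t x z * (1 : Matrix X X ℝ) z.1 y
      = PP Q t x.1 y := by
  set Qs : Matrix {x // G x} {x // G x} ℝ := fun x y => Q x.1 y.1 with hQs
  have hsum : ∀ (f : X → ℝ) (z : {x // G x}),
      ∑ w : X, Q z.1 w * f w = ∑ w : {x // G x}, Qs z w * f w.1 := by
    intro f z
    rw [← Fintype.sum_subtype_add_sum_subtype (p := G) (fun w => Q z.1 w * f w)]
    have : ∑ w : {x // ¬ G x}, Q z.1 w.1 * f w.1 = 0 := by
      apply Finset.sum_eq_zero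
      intro w _
      rw [h z.1 w.1 z.2 w.2, zero_mul]
    rw [this, add_zero]
  have hd : ∀ s : ℝ, HasDerivAt
      (fun s => ∑ z : {x // G x}, PP Qs (t - s) x z * PP Q s z.1 y) 0 s := by
    intro s
    have h1 : ∀ z : {x // G x}, HasDerivAt (fun s => PP Qs (t - s) x z)
        (-(∑ w, PP Qs (t - s) x w * Qs w z)) s := by
      intro z
      have h2 := PP_deriv'' Qs x z (t - s)
      have h3 : HasDerivAt (fun s : ℝ => t - s) (-1) s := by
        simpa using (hasDerivAt_id s).const_sub t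
      have h4 := h2.comp s h3
      rw [mul_neg, mul_one] at h4
      exact h4
    have h5 : HasDerivAt (fun s => ∑ z : {x // G x}, PP Qs (t - s) x z * PP Q s z.1 y)
        (∑ z : {x // G x}, ((-(∑ w, PP Qs (t - s) x w * Qs w z)) * PP Q s z.1 y
          + PP Qs (t - s) x z * (∑ w, Q z.1 w * PP Q s w y))) s :=
      HasDerivAt.fun_sum fun z _ => (h1 z).mul (PP_deriv' Q z.1 y s)
    convert h5 using 1
    rw [Finset.sum_add_distrib]
    have e1 : ∑ z : {x // G x}, PP Qs (t - s) x z * (∑ w, Q z.1 w * PP Q s w y)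
        = ∑ z : {x // G x}, ∑ w : {x // G x}, PP Qs (t - s) x z * (Qs z w * PP Q s w.1 y) := by
      apply Finset.sum_congr rfl
      intro z _
      rw [hsum (fun w => PP Q s w y) z, Finset.mul_sum]
    have e2 : ∑ z : {x // G x}, (-(∑ w, PP Qs (t - s) x w * Qs w z)) * PP Q s z.1 y
        = - ∑ z : {x // G x}, ∑ w : {x // G x}, PP Qs (t - s) x z * (Qs z w * PP Q s w.1 y) := by
      rw [Finset.sum_comm, ← Finset.sum_neg_distrib]
      apply Finset.sum_congr rfl
      intro z _
      rw [neg_mul, Finset.sum_mul]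
      congr 1
      apply Finset.sum_congr rfl
      intro w _
      ring
    rw [e1, e2]
    ring
  have hc : ∀ a b : ℝ, (fun s => ∑ z : {x // G x}, PP Qs (t - s) x z * PP Q s z.1 y) a
      = (fun s => ∑ z : {x // G x}, PP Qs (t - s) x z * PP Q s z.1 y) b :=
    is_const_of_deriv_eq_zero (fun s => (hd s).differentiableAt) (fun s => (hd s).deriv)
  have h0 := hc 0 t
  simp only [sub_zero, sub_self, PP_zero] at h0
  rw [h0]
  simp [Matrix.one_apply]

theorem mksubA_closed (h : ∀ x y, G x → ¬ G y → Q x y = 0) (t : ℝ) (x y : X) (hx : G x)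
    (hy : ¬ G y) : PP Q t x y = 0 := by
  rw [← mksubA_key G h t ⟨x, hx⟩ y]
  apply Finset.sum_eq_zero
  intro z _
  have : z.1 ≠ y := by
    intro e
    exact hy (e ▸ z.2)
  rw [Matrix.one_apply_ne this, mul_zero]

theorem mksubA_eq (h : ∀ x y, G x → ¬ G y → Q x y = 0) (t : ℝ) (x y : {x // G x}) :
    PP (fun x y : {x // G x} => Q x.1 y.1) t x y = PP Q t x.1 y.1 := by
  rw [← mksubA_key G h t x y.1, Finset.sum_eq_single y]
  · rw [Matrix.one_apply_eq, mul_one]
  · intro z _ hz
    have : z.1 ≠ y.1 := fun e => hz (Subtype.ext e)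
    rw [Matrix.one_apply_ne this, mul_zero]
  · intro hy
    exact absurd (Finset.mem_univ y) hy

theorem mksubA_le (h : ∀ x y, x ≠ y → 0 ≤ Q x y) {t : ℝ} (ht : 0 ≤ t) (x y : {x // G x}) :
    PP (fun x y : {x // G x} => Q x.1 y.1) t x y ≤ PP Q t x.1 y.1 := by
  let Q' : Matrix X X ℝ := fun a b => if G a ∧ G b then Q a b else if a = b then Q a b else 0
  have hQ' : ∀ a b, Q' a b = if G a ∧ G b then Q a b else if a = b then Q a b else 0 :=
    fun _ _ => rfl
  have h1 : ∀ a b, G a → ¬ G b → Q' a b = 0 := by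
    intro a b ha hb
    rw [hQ', if_neg (fun hh => hb hh.2), if_neg]
    rintro rfl
    exact hb ha
  have h2 := mksubA_eq (Q := Q') G h1 t x y
  have h3 : (fun x y : {x // G x} => Q' x.1 y.1) = (fun x y : {x // G x} => Q x.1 y.1) := by
    funext a b
    rw [hQ', if_pos ⟨a.2, b.2⟩]
  rw [h3] at h2
  rw [h2]
  apply PP_mono _ _ ht
  · intro a b hab
    rw [hQ']
    split_ifs
    · exact h a b hab
    · exact le_rfl
  · intro a b
    rw [hQ']
    split_ifs with h4 h5
    · exact le_rfl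
    · exact le_rfl
    · exact h a b h5

end Pool.Agent.Lib.MP_4c13d6_pr
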