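import Mathlib
import Pool.Agent.Lib.MP_4c13d6_pr.Res
import Pool.Agent.Lib.MP_4c13d6_pr.EntA
import Pool.Agent.Lib.MP_4c13d6_pr.SWalkC
import Pool.Agent.Lib.MP_4c13d6_pr.Gap

section

/-! OV-1: `Var(log f) ≤ 6/λ₁` (Lemma 17). -/

open Finset

namespace Pool.Agent.Lib.MP_4c13d6_pr

variable {q : ℝ}

private theorem vl_cc_upd {N : ℕ} (v : W N) (i : Fin N) (b : Bool) :
    cc (Function.update v i b) i ↔ cc v i := by
  unfold cc
  by_cases h0 : (i : ℕ) = 0
  · simp [h0]
  · rw [val_upd, val_upd, if_neg (by omega), if_neg (by omega)]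

private theorem vl_cc_ini {N : ℕ} (w : W (N + 1)) (i : Fin N) (h : cc (ini w) i) : cc w i := by
  rcases h with h | h | h
  · exact Or.inl h
  · refine Or.inr (Or.inl ?_)
    rw [val_ini] at h
    split_ifs at h with h1
    exact h
  · refine Or.inr (Or.inr ?_)
    rw [val_ini] at h
    split_ifs at h with h1
    exact h

private theorem vl_cc_ini' {N : ℕ} (w : W (N + 1)) (i : Fin N) (hi : (i : ℕ) + 1 < N)
    (h : cc w i) : cc (ini w) i := by
  rcases h with h | h | h
  · exact Or.inl h
  · refine Or.inr (Or.inl ?_)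
    rw [val_ini_lt (by omega)]
    exact h
  · refine Or.inr (Or.inr ?_)
    rw [val_ini_lt hi]
    exact h

/-- one flip term -/
private theorem vl_flip (f : Fam q) (hq : 0 < q) (hq1 : q < 1) {N : ℕ} (i : Fin N) :
    q * (1 - q) * Ex q (fun w : W N => if cc w i then
        (dl (fun w : W N => Real.log (f.f N w)) i w) ^ 2 else 0) ≤
      Ex q (fun v : W N => f.f N v * (if cc v i then
        q * (1 / f.f N (Function.update v i true)) + (1 - q) * (1 / f.f N (Function.update v i false))
          - 1 / f.f N v else 0)) := by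
  rw [Ex_upd hq hq1 i (fun v : W N => f.f N v * (if cc v i then
        q * (1 / f.f N (Function.update v i true)) + (1 - q) * (1 / f.f N (Function.update v i false))
          - 1 / f.f N v else 0)), ← Ex_mul_left]
  refine Ex_mono hq.le hq1.le fun v => ?_
  have h1 := f.pos hq hq1 N (Function.update v i true)
  have h0 := f.pos hq hq1 N (Function.update v i false)
  simp only [Function.update_idem, vl_cc_upd]
  by_cases hc : cc v i
  · simp only [if_pos hc]
    have h2 := sub_mul_inv_ge h1 h0
    unfold dl
    have ha : 0 < 1 - q := by linarith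
    have h3 : q * (f.f N (Function.update v i true) * (q * (1 / f.f N (Function.update v i true)) +
          (1 - q) * (1 / f.f N (Function.update v i false)) -
          1 / f.f N (Function.update v i true))) +
        (1 - q) * (f.f N (Function.update v i false) *
          (q * (1 / f.f N (Function.update v i true)) +
          (1 - q) * (1 / f.f N (Function.update v i false)) -
          1 / f.f N (Function.update v i false))) =
        q * (1 - q) * ((f.f N (Function.update v i true) - f.f N (Function.update v i false)) *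
          (1 / f.f N (Function.update v i false) - 1 / f.f N (Function.update v i true))) := by
      ring
    rw [h3]
    exact mul_le_mul_of_nonneg_left h2 (by positivity)
  · simp only [if_neg hc]
    simp

theorem Fam.Dcl_log (f : Fam q) (hq : 0 < q) (hq1 : q < 1) (N : ℕ) :
    Dcl q (fun w : W N => Real.log (f.f N w)) ≤ 3 := by
  have ha : 0 < 1 - q := by linarith
  rcases N with _ | n
  · unfold Dcl
    simp
  obtain ⟨G, hG⟩ : ∃ G : W (n + 1) → ℝ, G = fun v => 1 / f.f (n + 1) v := ⟨_, rfl⟩
  have hGpos : ∀ v, 0 < G v := by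
    intro v
    rw [hG]
    have := f.pos hq hq1 (n + 1) v
    positivity
  have hfG : Ex q (fun w : W (n + 1 + 1) => f.f (n + 1 + 1) w * G (ini w)) = 1 := by
    rw [f.Ex_ini G, Ex_congr (h := fun _ => (1 : ℝ)), Ex_const]
    intro w
    have := f.pos hq hq1 (n + 1) w
    rw [hG]
    field_simp
  -- pointwise lower bound of the generator
  have hgen : ∀ w : W (n + 1 + 1),
      (∑ i : Fin (n + 1), if cc (ini w) i then
        q * G (Function.update (ini w) i true) + (1 - q) * G (Function.update (ini w) i false)
          - G (ini w) else 0) - 2 * G (ini w) ≤ gen q G w := by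
    intro w
    have e1 : ∀ i : Fin (n + 1), (if cc (ini w) i then
        q * G (Function.update (ini w) i true) + (1 - q) * G (Function.update (ini w) i false)
          - G (ini w) else 0) - (if i = Fin.last n then G (ini w) else 0) ≤
        (if cc w i then
        q * G (Function.update (ini w) i true) + (1 - q) * G (Function.update (ini w) i false)
          - G (ini w) else 0) := by
      intro i
      have hg := hGpos (ini w)
      have hg1 := hGpos (Function.update (ini w) i true)
      have hg0 := hGpos (Function.update (ini w) i false)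
      by_cases hc : cc (ini w) i
      · rw [if_pos hc, if_pos (vl_cc_ini w i hc)]
        split_ifs <;> linarith
      · rw [if_neg hc]
        by_cases hi : i = Fin.last n
        · rw [if_pos hi]
          split_ifs
          · have h1 : 0 < q * G (Function.update (ini w) i true) := mul_pos hq hg1
            have h2 : 0 < (1 - q) * G (Function.update (ini w) i false) := mul_pos ha hg0
            linarith
          · linarith
        · have hi' : (i : ℕ) + 1 < n + 1 := by
            have h1 : (i : ℕ) ≠ n := fun h => hi (Fin.ext h)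
            have := i.isLt
            omega
          rw [if_neg hi, if_neg (fun h => hc (vl_cc_ini' w i hi' h))]
          linarith
    have e2 := Finset.sum_le_sum fun i (_ : i ∈ (univ : Finset (Fin (n + 1)))) => e1 i
    rw [Finset.sum_sub_distrib, Finset.sum_ite_eq' univ (Fin.last n) (fun _ => G (ini w)),
      if_pos (Finset.mem_univ _)] at e2
    have e3 : -(q * G (ini w)) ≤ q * (G (psh (ini w)) - G (ini w)) := by
      have := mul_pos hq (hGpos (psh (ini w)))
      linarith
    have e4 : -((1 - q) * G (ini w)) ≤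
        (if val w 0 = true then (1 - q) * (G (tai w) - G (ini w)) else 0) := by
      have h1 := mul_pos ha (hGpos (tai w))
      have h2 := mul_pos ha (hGpos (ini w))
      split_ifs <;> linarith
    unfold gen
    linarith
  have hstat := f.stat (n + 1) G
  have hmono : Ex q (fun w : W (n + 1 + 1) => f.f (n + 1 + 1) w *
      ((∑ i : Fin (n + 1), if cc (ini w) i then
        q * G (Function.update (ini w) i true) + (1 - q) * G (Function.update (ini w) i false)
          - G (ini w) else 0) - 2 * G (ini w))) ≤ 0 := by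
    exact (Ex_mono hq.le hq1.le fun w =>
      mul_le_mul_of_nonneg_left (hgen w) (f.nn _ _)).trans (le_of_eq hstat)
  have hsplit : Ex q (fun w : W (n + 1 + 1) => f.f (n + 1 + 1) w *
      ((∑ i : Fin (n + 1), if cc (ini w) i then
        q * G (Function.update (ini w) i true) + (1 - q) * G (Function.update (ini w) i false)
          - G (ini w) else 0) - 2 * G (ini w))) =
      ∑ i : Fin (n + 1), Ex q (fun v : W (n + 1) => f.f (n + 1) v * (if cc v i then
        q * G (Function.update v i true) + (1 - q) * G (Function.update v i false)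
          - G v else 0)) - 2 := by
    have h1 : ∀ w : W (n + 1 + 1), f.f (n + 1 + 1) w *
      ((∑ i : Fin (n + 1), if cc (ini w) i then
        q * G (Function.update (ini w) i true) + (1 - q) * G (Function.update (ini w) i false)
          - G (ini w) else 0) - 2 * G (ini w)) =
      (∑ i : Fin (n + 1), f.f (n + 1 + 1) w * (if cc (ini w) i then
        q * G (Function.update (ini w) i true) + (1 - q) * G (Function.update (ini w) i false)
          - G (ini w) else 0)) - 2 * (f.f (n + 1 + 1) w * G (ini w)) := by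
      intro w
      rw [← Finset.mul_sum]
      ring
    rw [Ex_congr h1, Ex_sub, Ex_mul_left, hfG, Ex_sum]
    simp only [mul_one]
    congr 1
    refine Finset.sum_congr rfl fun i _ => ?_
    exact f.Ex_ini (fun v => if cc v i then
        q * G (Function.update v i true) + (1 - q) * G (Function.update v i false)
          - G v else 0)
  rw [hsplit] at hmono
  have hfin : Dcl q (fun w : W (n + 1) => Real.log (f.f (n + 1) w)) ≤
      ∑ i : Fin (n + 1), Ex q (fun v : W (n + 1) => f.f (n + 1) v * (if cc v i then
        q * G (Function.update v i true) + (1 - q) * G (Function.update v i false)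
          - G v else 0)) := by
    unfold Dcl
    rw [Finset.mul_sum]
    refine Finset.sum_le_sum fun i _ => ?_
    rw [hG]
    exact vl_flip f hq hq1 i
  linarith

theorem Fam.var_log (f : Fam q) (hq : 0 < q) (hq1 : q < 1) (N : ℕ) :
    lam1 q * Var q (fun w : W N => Real.log (f.f N w)) ≤ 6 := by
  have h1 := poincare_closed hq hq1 (fun w : W N => Real.log (f.f N w))
  have h2 := f.Dcl_log hq hq1 N
  linarith

end Pool.Agent.Lib.MP_4c13d6_pr
end

section

section

/-! MT-1: the minimum of two almost invariant measures is almost invariant. -/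

open Finset

namespace Pool.Agent.Lib.MP_4c13d6_pr

/-- `T` a linear operator with `T 1 = 0` and nonnegative off-diagonal entries (a Markov
generator); `a, b ≥ 0` two measures with `|a T H| ≤ A`, `|b T H| ≤ B` for `|H| ≤ 1`. -/
theorem min_almost_invariant {X : Type*} [Fintype X] [DecidableEq X]
    (T : (X → ℝ) →ₗ[ℝ] (X → ℝ)) (h1 : T (fun _ => 1) = 0)
    (hoff : ∀ x y, x ≠ y → 0 ≤ T (Pi.single y 1) x) (a b : X → ℝ) (A B : ℝ)
    (ha : ∀ H : X → ℝ, (∀ x, |H x| ≤ 1) → |∑ x, a x * T H x| ≤ A)
    (hb : ∀ H : X → ℝ, (∀ x, |H x| ≤ 1) → |∑ x, b x * T H x| ≤ B)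
    (H : X → ℝ) (hH : ∀ x, |H x| ≤ 1) :
    |∑ x, min (a x) (b x) * T H x| ≤ 2 * (A + B) := by
  -- the transposed operator
  let tr : (X → ℝ) → X → ℝ := fun c y => ∑ x, c x * T (Pi.single y 1) x
  have hTH : ∀ (H : X → ℝ) (x : X), T H x = ∑ y, H y * T (Pi.single y 1) x := by
    intro H x
    have e : H = ∑ y, H y • (Pi.single y (1 : ℝ) : X → ℝ) := by
      funext r
      simp [Finset.sum_apply, Pi.single_apply]
    conv_lhs => rw [e]
    rw [map_sum, Finset.sum_apply]
    refine Finset.sum_congr rfl fun y _ => ?_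
    rw [map_smul, Pi.smul_apply, smul_eq_mul]
  have htr : ∀ (c H : X → ℝ), ∑ x, c x * T H x = ∑ y, tr c y * H y := by
    intro c H
    simp_rw [hTH H, Finset.mul_sum, tr, Finset.sum_mul]
    rw [Finset.sum_comm]
    refine Finset.sum_congr rfl fun y _ => Finset.sum_congr rfl fun x _ => ?_
    ring
  have habs : ∀ (c : X → ℝ) (M : ℝ), (∀ H : X → ℝ, (∀ x, |H x| ≤ 1) → |∑ x, c x * T H x| ≤ M) →
      ∑ y, |tr c y| ≤ M := by
    intro c M hc
    have h2 := hc (fun y => if 0 ≤ tr c y then 1 else -1) (by
      intro x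
      split_ifs <;> simp)
    rw [htr] at h2
    have h3 : ∑ y, tr c y * (if 0 ≤ tr c y then (1 : ℝ) else -1) = ∑ y, |tr c y| := by
      refine Finset.sum_congr rfl fun y _ => ?_
      split_ifs with h
      · rw [mul_one, abs_of_nonneg h]
      · rw [abs_of_neg (not_le.1 h)]
        ring
    rw [h3] at h2
    exact (le_abs_self _).trans h2
  set m : X → ℝ := fun x => min (a x) (b x) with hm
  have hle : ∀ y, tr m y ≤ |tr a y| + |tr b y| := by
    intro y
    rcases le_total (a y) (b y) with h | h
    · have h2 : tr m y ≤ tr a y := by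
        refine Finset.sum_le_sum fun x _ => ?_
        by_cases hxy : x = y
        · subst hxy
          simp only [hm, min_eq_left h]
          exact le_rfl
        · exact mul_le_mul_of_nonneg_right (min_le_left _ _) (hoff x y hxy)
      have := le_abs_self (tr a y)
      have := abs_nonneg (tr b y)
      linarith
    · have h2 : tr m y ≤ tr b y := by
        refine Finset.sum_le_sum fun x _ => ?_
        by_cases hxy : x = y
        · subst hxy
          simp only [hm, min_eq_right h]
          exact le_rfl
        · exact mul_le_mul_of_nonneg_right (min_le_right _ _) (hoff x y hxy)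
      have := le_abs_self (tr b y)
      have := abs_nonneg (tr a y)
      linarith
  have hzero : ∑ y, tr m y = 0 := by
    have h2 := htr m (fun _ => 1)
    rw [h1] at h2
    simp only [Pi.zero_apply, mul_zero, Finset.sum_const_zero, mul_one] at h2
    exact h2.symm
  have hsum : ∑ y, |tr m y| ≤ 2 * (A + B) := by
    have h2 : ∀ y, |tr m y| ≤ 2 * (|tr a y| + |tr b y|) - tr m y := by
      intro y
      have h3 := hle y
      have h4 : 0 ≤ |tr a y| + |tr b y| := by positivity
      rcases le_total 0 (tr m y) with h | h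
      · rw [abs_of_nonneg h]
        linarith
      · rw [abs_of_nonpos h]
        linarith
    calc ∑ y, |tr m y| ≤ ∑ y, (2 * (|tr a y| + |tr b y|) - tr m y) :=
          Finset.sum_le_sum fun y _ => h2 y
      _ = 2 * (∑ y, |tr a y| + ∑ y, |tr b y|) := by
          rw [Finset.sum_sub_distrib, hzero, sub_zero, ← Finset.mul_sum, Finset.sum_add_distrib]
      _ ≤ 2 * (A + B) := by
          have := habs a A ha
          have := habs b B hb
          linarith
  change |∑ x, m x * T H x| ≤ _
  rw [htr]
  calc |∑ y, tr m y * H y| ≤ ∑ y, |tr m y * H y| := Finset.abs_sum_le_sum_abs _ _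
    _ ≤ ∑ y, |tr m y| := by
        refine Finset.sum_le_sum fun y _ => ?_
        rw [abs_mul]
        exact mul_le_of_le_one_right (abs_nonneg _) (hH y)
    _ ≤ _ := hsum

end Pool.Agent.Lib.MP_4c13d6_pr
end

section

/-! GP-2: the boundary energy tends to zero (Lemma 15). -/

open Finset Filter Topology

namespace Pool.Agent.Lib.MP_4c13d6_pr

variable {q : ℝ}

/-- the last infected coordinate below `n` is `n - d` -/
private def uzE (n d : ℕ) (w : W (n + 1)) : Prop :=
  val w (n - d) = true ∧ ∀ k, k < n → n - d < k → val w k = false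

open Classical in
private noncomputable def uzK (f : Fam q) (n d : ℕ) : ℝ :=
  Ex q (fun w : W (n + 1) => if uzE n d w then (dl (f.u (n + 1)) (Fin.last n) w) ^ 2 else 0)

private theorem uzK_nonneg (f : Fam q) (hq : 0 < q) (hq1 : q < 1) (n d : ℕ) : 0 ≤ uzK f n d := by
  classical
  unfold uzK
  apply Ex_nonneg hq.le hq1.le
  intro w
  split_ifs
  · positivity
  · exact le_rfl

private theorem uzK_one (f : Fam q) (hq : 0 < q) (hq1 : q < 1) (n : ℕ) :
    uzK f n 1 ≤ f.s (n + 1) n := by
  classical
  unfold uzK Fam.s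
  rw [dif_pos (Nat.lt_succ_self n)]
  apply Ex_mono hq.le hq1.le
  intro w
  by_cases h : uzE n 1 w
  · rw [if_pos h, if_pos (show cc w n from Or.inr (Or.inl h.1))]
    exact le_rfl
  · rw [if_neg h]
    split_ifs
    · positivity
    · exact le_rfl

private theorem uzK_succ (f : Fam q) (hq : 0 < q) (hq1 : q < 1) (n d : ℕ) (hd : 1 ≤ d)
    (hn : d + 1 ≤ n) :
    uzK f n (d + 1) ≤ 3 * (1 - q) * (uzK f n d / q + f.s (n + 1) (n - d) / min q (1 - q)) := by
  classical
  have ha : 0 < 1 - q := sub_pos.2 hq1
  set m := min q (1 - q) with hm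
  have hm0 : 0 < m := lt_min hq ha
  have hmq : m ≤ q := min_le_left _ _
  have hma : m ≤ 1 - q := min_le_right _ _
  have hi : n - d < n + 1 := by omega
  set i : Fin (n + 1) := ⟨n - d, hi⟩ with hidef
  have hiv : (i : ℕ) = n - d := rfl
  set u := f.u (n + 1) with hu
  set EV : W (n + 1) → Prop := fun w =>
    val w (n - (d + 1)) = true ∧ ∀ k, k < n → n - d < k → val w k = false with hEV
  set A : Bool → Bool → W (n + 1) → ℝ := fun r t w =>
    u (Function.update (Function.update w i r) (Fin.last n) t) with hA
  have hil : i ≠ Fin.last n := by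
    intro e
    have := congrArg Fin.val e
    rw [hiv, Fin.val_last] at this
    omega
  -- first identity
  have h1 : uzK f n (d + 1) =
      (1 - q) * Ex q (fun w => if EV w then (A false true w - A false false w) ^ 2 else 0) := by
    unfold uzK
    rw [Ex_upd hq hq1 i, ← Ex_mul_left]
    apply Ex_congr
    intro w
    have e1 : ¬ uzE n (d + 1) (Function.update w i true) := by
      rintro ⟨_, h⟩
      have := h (n - d) (by omega) (by omega)
      rw [val_upd, if_pos rfl] at this
      exact absurd this (by decide)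
    have e2 : uzE n (d + 1) (Function.update w i false) ↔ EV w := by
      unfold uzE
      rw [hEV]
      constructor
      · rintro ⟨h, h'⟩
        refine ⟨?_, ?_⟩
        · rw [val_upd, if_neg (by rw [hiv]; omega)] at h
          exact h
        · intro k hk hk2
          have := h' k hk (by omega)
          rw [val_upd, if_neg (by rw [hiv]; omega)] at this
          exact this
      · rintro ⟨h, h'⟩
        refine ⟨?_, ?_⟩
        · rw [val_upd, if_neg (by rw [hiv]; omega)]
          exact h
        · intro k hk hk2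
          rw [val_upd]
          split_ifs with h3
          · rfl
          · exact h' k hk (by rw [hiv] at h3; omega)
    rw [if_neg e1, mul_zero, zero_add]
    congr 1
    by_cases hE : EV w
    · rw [if_pos (e2.2 hE), if_pos hE]; rfl
    · rw [if_neg (fun h => hE (e2.1 h)), if_neg hE]
  -- second inequality
  have h2 : q * Ex q (fun w => if EV w then (A true true w - A true false w) ^ 2 else 0)
      ≤ uzK f n d := by
    unfold uzK
    rw [Ex_upd hq hq1 i (fun w : W (n + 1) => if uzE n d w then
      (dl (f.u (n + 1)) (Fin.last n) w) ^ 2 else 0), ← Ex_mul_left]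
    apply Ex_mono hq.le hq1.le
    intro w
    have e0 : 0 ≤ (1 - q) * (if uzE n d (Function.update w i false) then
        (dl (f.u (n + 1)) (Fin.last n) (Function.update w i false)) ^ 2 else 0) := by
      apply mul_nonneg ha.le
      split_ifs
      · positivity
      · exact le_rfl
    by_cases hE : EV w
    · have e2 : uzE n d (Function.update w i true) := by
        refine ⟨?_, ?_⟩
        · rw [val_upd, if_pos rfl]
        · intro k hk hk2
          rw [val_upd, if_neg (by rw [hiv]; omega)]
          exact hE.2 k hk hk2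
      rw [if_pos hE, if_pos e2]
      have e3 : dl (f.u (n + 1)) (Fin.last n) (Function.update w i true)
        = A true true w - A true false w := rfl
      rw [e3]
      linarith
    · rw [if_neg hE, mul_zero]
      apply add_nonneg _ e0
      apply mul_nonneg hq.le
      split_ifs
      · positivity
      · exact le_rfl
  -- third inequality
  have h3 : m * Ex q (fun w => if EV w then
        ((A true true w - A false true w) ^ 2 + (A true false w - A false false w) ^ 2) else 0)
      ≤ f.s (n + 1) (n - d) := by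
    unfold Fam.s
    rw [dif_pos hi, Ex_upd hq hq1 (Fin.last n) (fun w : W (n + 1) => if cc w (n - d) then
      (dl (f.u (n + 1)) ⟨n - d, hi⟩ w) ^ 2 else 0), ← Ex_mul_left]
    apply Ex_mono hq.le hq1.le
    intro w
    have e0 : ∀ (t : Bool), 0 ≤ (if cc (Function.update w (Fin.last n) t) (n - d) then
        (dl (f.u (n + 1)) ⟨n - d, hi⟩ (Function.update w (Fin.last n) t)) ^ 2 else 0) := by
      intro t
      split_ifs
      · positivity
      · exact le_rfl
    by_cases hE : EV w
    · have e2 : ∀ t, cc (Function.update w (Fin.last n) t) (n - d) := by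
        intro t
        right; left
        rw [val_upd, if_neg (by rw [Fin.val_last]; omega)]
        have : n - d - 1 = n - (d + 1) := by omega
        rw [this]
        exact hE.1
      have e3 : ∀ t, dl (f.u (n + 1)) ⟨n - d, hi⟩ (Function.update w (Fin.last n) t)
          = A true t w - A false t w := by
        intro t
        unfold dl
        rw [hA]
        simp only
        rw [Function.update_comm hil, Function.update_comm hil]
      rw [if_pos hE, if_pos (e2 true), if_pos (e2 false), e3 true, e3 false, mul_add]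
      exact add_le_add (mul_le_mul_of_nonneg_right hmq (sq_nonneg _))
        (mul_le_mul_of_nonneg_right hma (sq_nonneg _))
    · rw [if_neg hE, mul_zero]
      exact add_nonneg (mul_nonneg hq.le (e0 true)) (mul_nonneg ha.le (e0 false))
  -- combination
  have h4 : Ex q (fun w => if EV w then (A false true w - A false false w) ^ 2 else 0) ≤
      3 * (Ex q (fun w => if EV w then (A true true w - A true false w) ^ 2 else 0) +
        Ex q (fun w => if EV w then
        ((A true true w - A false true w) ^ 2 + (A true false w - A false false w) ^ 2) else 0)) := by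
    rw [← Ex_add, ← Ex_mul_left]
    apply Ex_mono hq.le hq1.le
    intro w
    by_cases hE : EV w
    · rw [if_pos hE, if_pos hE, if_pos hE]
      nlinarith [sq_nonneg ((A false true w - A true true w) - (A true true w - A true false w)),
        sq_nonneg ((A true true w - A true false w) - (A true false w - A false false w)),
        sq_nonneg ((A false true w - A true true w) - (A true false w - A false false w))]
    · rw [if_neg hE, if_neg hE, if_neg hE]
      norm_num
  rw [h1]
  have h5 : Ex q (fun w => if EV w then (A true true w - A true false w) ^ 2 else 0)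
      ≤ uzK f n d / q := by
    rw [le_div_iff₀ hq]
    linarith
  have h6 : Ex q (fun w => if EV w then
        ((A true true w - A false true w) ^ 2 + (A true false w - A false false w) ^ 2) else 0)
      ≤ f.s (n + 1) (n - d) / m := by
    rw [le_div_iff₀ hm0]
    linarith
  calc (1 - q) * Ex q (fun w => if EV w then (A false true w - A false false w) ^ 2 else 0)
      ≤ (1 - q) * (3 * (uzK f n d / q + f.s (n + 1) (n - d) / m)) := by
        apply mul_le_mul_of_nonneg_left _ ha.le
        linarith
    _ = 3 * (1 - q) * (uzK f n d / q + f.s (n + 1) (n - d) / m) := by ring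

private theorem uzK_tendsto (f : Fam q) (hq : 0 < q) (hq1 : q < 1) (d : ℕ) :
    Tendsto (fun n => uzK f n (d + 1)) atTop (𝓝 0) := by
  obtain ⟨σ, hσ0, hσ, hs⟩ := f.energy_summable hq hq1
  have hσt := hσ.tendsto_atTop_zero
  induction d with
  | zero =>
    refine tendsto_of_tendsto_of_tendsto_of_le_of_le' tendsto_const_nhds hσt ?_ ?_
    · exact Eventually.of_forall fun n => uzK_nonneg f hq hq1 n _
    · exact Eventually.of_forall fun n => (uzK_one f hq hq1 n).trans (hs _ _)
  | succ d ih =>
    have h1 : Tendsto (fun n => 3 * (1 - q) * (uzK f n (d + 1) / q +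
        σ (n - (d + 1)) / min q (1 - q))) atTop (𝓝 (3 * (1 - q) * (0 / q + 0 / min q (1 - q)))) := by
      apply Tendsto.const_mul
      apply Tendsto.add
      · exact ih.div_const _
      · exact (hσt.comp (tendsto_sub_atTop_nat (d + 1))).div_const _
    rw [zero_div, zero_div, add_zero, mul_zero] at h1
    refine tendsto_of_tendsto_of_tendsto_of_le_of_le' tendsto_const_nhds h1 ?_ ?_
    · exact Eventually.of_forall fun n => uzK_nonneg f hq hq1 n _
    · filter_upwards [eventually_ge_atTop (d + 1 + 1)] with n hn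
      refine (uzK_succ f hq hq1 n (d + 1) (by omega) hn).trans ?_
      have ha : 0 < 1 - q := sub_pos.2 hq1
      apply mul_le_mul_of_nonneg_left _ (by linarith)
      have := div_le_div_of_nonneg_right (hs (n + 1) (n - (d + 1))) (lt_min hq ha).le
      linarith

open Classical in
private theorem uz_rem (f : Fam q) (hq : 0 < q) (hq1 : q < 1) (n M : ℕ) :
    Ex q (fun w : W (n + 1) => if (∀ k, k < n → M ≤ k → val w k = false) then
      (dl (f.u (n + 1)) (Fin.last n) w) ^ 2 else 0) ≤ f.zer n M / min q (1 - q) := by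
  have ha : 0 < 1 - q := sub_pos.2 hq1
  set m := min q (1 - q) with hm
  have hm0 : 0 < m := lt_min hq ha
  have hmq : m ≤ q := min_le_left _ _
  have hma : m ≤ 1 - q := min_le_right _ _
  rw [le_div_iff₀ hm0, ← Ex_mul_right]
  have h1 : f.zer n M = Ex q (fun w : W (n + 1) => f.f (n + 1) w *
      (if (∀ k, k < n → M ≤ k → val (ini w) k = false) then 1 else 0)) := by
    rw [f.Ex_ini (fun v : W n => if (∀ k, k < n → M ≤ k → val v k = false) then (1 : ℝ) else 0)]
    unfold Fam.zer Fam.pr
    apply Ex_congr
    intro w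
    by_cases h : ∀ k, k < n → M ≤ k → val w k = false
    · rw [if_pos h, if_pos h, mul_one]
    · rw [if_neg h, if_neg h, mul_zero]
  rw [h1, Ex_upd hq hq1 (Fin.last n)
    (fun w : W (n + 1) => f.f (n + 1) w *
      (if (∀ k, k < n → M ≤ k → val (ini w) k = false) then 1 else 0))]
  apply Ex_mono hq.le hq1.le
  intro w
  have e1 : ∀ t, (∀ k, k < n → M ≤ k →
      val (ini (Function.update w (Fin.last n) t)) k = false) ↔
      (∀ k, k < n → M ≤ k → val w k = false) := by
    intro t
    refine forall_congr' fun k => forall_congr' fun hk => forall_congr' fun hM => ?_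
    rw [val_ini_lt hk, val_upd, if_neg (by rw [Fin.val_last]; omega)]
  by_cases h : ∀ k, k < n → M ≤ k → val w k = false
  · rw [if_pos h, if_pos ((e1 true).2 h), if_pos ((e1 false).2 h), mul_one, mul_one]
    unfold dl
    have hx := f.u_pos hq hq1 (n + 1) (Function.update w (Fin.last n) true)
    have hy := f.u_pos hq hq1 (n + 1) (Function.update w (Fin.last n) false)
    rw [← f.u_sq (n + 1) (Function.update w (Fin.last n) true),
      ← f.u_sq (n + 1) (Function.update w (Fin.last n) false)]
    set x := f.u (n + 1) (Function.update w (Fin.last n) true)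
    set y := f.u (n + 1) (Function.update w (Fin.last n) false)
    have h3 : (x - y) ^ 2 ≤ x ^ 2 + y ^ 2 := by nlinarith [mul_pos hx hy]
    calc (x - y) ^ 2 * m ≤ (x ^ 2 + y ^ 2) * m := mul_le_mul_of_nonneg_right h3 hm0.le
      _ = m * x ^ 2 + m * y ^ 2 := by ring
      _ ≤ q * x ^ 2 + (1 - q) * y ^ 2 := add_le_add
          (mul_le_mul_of_nonneg_right hmq (sq_nonneg _))
          (mul_le_mul_of_nonneg_right hma (sq_nonneg _))
  · rw [if_neg h, if_neg (fun h' => h ((e1 true).1 h')), if_neg (fun h' => h ((e1 false).1 h'))]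
    simp

private theorem uz_decomp (f : Fam q) (hq : 0 < q) (hq1 : q < 1) (n L : ℕ) :
    f.U n ≤ ∑ d ∈ range L, uzK f n (d + 1) + f.zer n (n - L) / min q (1 - q) := by
  classical
  have h1 : f.U n ≤ Ex q (fun w : W (n + 1) => ∑ d ∈ range L,
      (if uzE n (d + 1) w then (dl (f.u (n + 1)) (Fin.last n) w) ^ 2 else 0)
      + (if (∀ k, k < n → n - L ≤ k → val w k = false) then
      (dl (f.u (n + 1)) (Fin.last n) w) ^ 2 else 0)) := by
    unfold Fam.U
    apply Ex_mono hq.le hq1.le
    intro w
    have hnn : ∀ d ∈ range L, 0 ≤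
        (if uzE n (d + 1) w then (dl (f.u (n + 1)) (Fin.last n) w) ^ 2 else 0) := by
      intro d _
      split_ifs
      · positivity
      · exact le_rfl
    by_cases h : ∀ k, k < n → n - L ≤ k → val w k = false
    · rw [if_pos h]
      have := Finset.sum_nonneg hnn
      linarith
    · rw [if_neg h, add_zero]
      push Not at h
      obtain ⟨k, hk, hkL, hv⟩ := h
      -- the largest infected coordinate
      set S := (range n).filter (fun k => val w k = true) with hS
      have hSne : S.Nonempty := ⟨k, by
        rw [hS, mem_filter, mem_range]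
        exact ⟨hk, by simpa using hv⟩⟩
      set K := S.max' hSne with hK
      have hKS := S.max'_mem hSne
      rw [← hK] at hKS
      rw [hS, mem_filter, mem_range] at hKS
      have hkK : k ≤ K := S.le_max' k (by
        rw [hS, mem_filter, mem_range]
        exact ⟨hk, by simpa using hv⟩)
      have hE : uzE n (n - K - 1 + 1) w := by
        have e : n - (n - K - 1 + 1) = K := by omega
        refine ⟨by rw [e]; exact hKS.2, ?_⟩
        intro j hj hj2
        rw [e] at hj2
        by_contra hc
        have : j ≤ K := S.le_max' j (by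
          rw [hS, mem_filter, mem_range]
          exact ⟨hj, by simpa using hc⟩)
        omega
      have hmem : n - K - 1 ∈ range L := by
        rw [mem_range]; omega
      have h5 := Finset.single_le_sum hnn hmem
      rw [if_pos hE] at h5
      exact h5
  refine h1.trans ?_
  rw [Ex_add, Ex_sum]
  exact add_le_add le_rfl (uz_rem f hq hq1 n (n - L))

theorem Fam.U_tendsto (f : Fam q) (hq : 0 < q) (hq1 : q < 1) : Tendsto f.U atTop (𝓝 0) := by
  have ha : 0 < 1 - q := sub_pos.2 hq1
  have hm0 : 0 < min q (1 - q) := lt_min hq ha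
  have hU0 : ∀ n, 0 ≤ f.U n := by
    intro n
    unfold Fam.U
    exact Ex_nonneg hq.le hq1.le fun w => sq_nonneg _
  refine tendsto_order.2 ⟨fun b hb => Eventually.of_forall fun n => hb.trans_le (hU0 n), ?_⟩
  intro ε hε
  obtain ⟨L, hL⟩ := f.zer_end hq hq1 (ε / 2 * min q (1 - q)) (by positivity)
  have h1 : Tendsto (fun n => ∑ d ∈ range L, uzK f n (d + 1)) atTop
      (𝓝 (∑ d ∈ range L, (0 : ℝ))) :=
    tendsto_finsetSum _ fun d _ => uzK_tendsto f hq hq1 d
  rw [Finset.sum_const_zero] at h1
  have h2 := h1.eventually_lt_const (half_pos hε)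
  filter_upwards [hL, h2] with n hn1 hn2
  refine (uz_decomp f hq hq1 n L).trans_lt ?_
  have h3 : f.zer n (n - L) / min q (1 - q) ≤ ε / 2 := by
    rw [div_le_iff₀ hm0]
    exact hn1
  linarith

end Pool.Agent.Lib.MP_4c13d6_pr
end

section

/-! MT-2: the density of the first `M` coordinates is almost invariant for the projected
generator. -/

open Finset Filter Topology

namespace Pool.Agent.Lib.MP_4c13d6_pr

variable {q : ℝ}

/-- projected generator on windows of `M` coordinates -/
noncomputable def gM (q : ℝ) {M : ℕ} (H : W M → ℝ) (w : W M) : ℝ :=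
  q * gen q H (app w true) + (1 - q) * gen q H (app w false)

private theorem meetB_gen_add {N : ℕ} (F G : W N → ℝ) (w : W (N + 1)) :
    gen q (F + G) w = gen q F w + gen q G w := by
  have h := congrFun ((genL q N).map_add F G) w
  simpa only [genL_apply, Pi.add_apply] using h

private theorem meetB_gen_smul {N : ℕ} (c : ℝ) (F : W N → ℝ) (w : W (N + 1)) :
    gen q (c • F) w = c * gen q F w := by
  have h := congrFun ((genL q N).map_smul c F) w
  simpa only [genL_apply, Pi.smul_apply, smul_eq_mul] using h

/-- `gM` as a linear map -/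
noncomputable def gML (q : ℝ) (M : ℕ) : (W M → ℝ) →ₗ[ℝ] (W M → ℝ) where
  toFun H := gM q H
  map_add' F G := by
    funext w
    simp only [gM, Pi.add_apply, meetB_gen_add]
    ring
  map_smul' c F := by
    funext w
    simp only [gM, Pi.smul_apply, smul_eq_mul, meetB_gen_smul, RingHom.id_apply]
    ring

theorem gML_apply {M : ℕ} (H : W M → ℝ) (w : W M) : gML q M H w = gM q H w := rfl

theorem gML_one (M : ℕ) : gML q M (fun _ => 1) = 0 := by
  funext w
  rw [gML_apply, gM, gen_const, gen_const]
  simp

private theorem meetB_gen_nn (hq : 0 < q) (hq1 : q < 1) {N : ℕ} (F : W N → ℝ)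
    (hF : ∀ w, 0 ≤ F w) (v : W (N + 1)) (h0 : F (ini v) = 0) : 0 ≤ gen q F v := by
  have a0 := (sub_pos.2 hq1).le
  unfold gen
  rw [h0]
  refine add_nonneg (add_nonneg (Finset.sum_nonneg fun i _ => ?_) ?_) ?_
  · split_ifs
    · rw [sub_zero]
      exact add_nonneg (mul_nonneg hq.le (hF _)) (mul_nonneg a0 (hF _))
    · exact le_rfl
  · rw [sub_zero]
    exact mul_nonneg hq.le (hF _)
  · split_ifs
    · rw [sub_zero]
      exact mul_nonneg a0 (hF _)
    · exact le_rfl

theorem gML_off (hq : 0 < q) (hq1 : q < 1) {M : ℕ} (x y : W M) (h : x ≠ y) :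
    0 ≤ gML q M (Pi.single y 1) x := by
  have a0 := (sub_pos.2 hq1).le
  have hnn : ∀ w : W M, 0 ≤ (Pi.single y 1 : W M → ℝ) w := by
    intro w
    rw [Pi.single_apply]
    split_ifs <;> norm_num
  have hz : ∀ b, (Pi.single y 1 : W M → ℝ) (ini (app x b)) = 0 := by
    intro b
    rw [ini_app, Pi.single_apply, if_neg h]
  rw [gML_apply, gM]
  exact add_nonneg (mul_nonneg hq.le (meetB_gen_nn hq hq1 _ hnn _ (hz true)))
    (mul_nonneg a0 (meetB_gen_nn hq hq1 _ hnn _ (hz false)))

/-- locality -/
theorem gM_res {N M : ℕ} (h : N + 1 ≤ M) (F : W N → ℝ) (w : W M) :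
    gM q (fun v : W M => F (res N v)) w = gen q F (res (N + 1) w) := by
  have hN : N ≤ M := by omega
  have hr : ∀ b, res (N + 1) (app w b) = res (N + 1) w := by
    intro b
    apply ext_val
    intro k hk
    rw [val_res, val_res, if_pos hk, if_pos hk, val_app_lt (by omega)]
  rw [gM, gen_res hN, gen_res hN, hr, hr]
  ring

private theorem meetB_gen_diff (hq : 0 < q) (hq1 : q < 1) {M : ℕ} (H : W M → ℝ)
    (hH : ∀ w, |H w| ≤ 1) (w : W M) :
    |gen q H (app w true) - gen q H (app w false)| ≤ 4 := by
  have a0 := (sub_pos.2 hq1).le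
  have hup : ∀ v, H v ≤ 1 := fun v => (abs_le.1 (hH v)).2
  have hlo : ∀ v, -1 ≤ H v := fun v => (abs_le.1 (hH v)).1
  unfold gen
  simp only [ini_app]
  -- the flip terms
  have hflip : |(∑ i : Fin M, if cc (app w true) i then
      q * H (Function.update w i true) + (1 - q) * H (Function.update w i false) - H w else 0)
      - (∑ i : Fin M, if cc (app w false) i then
      q * H (Function.update w i true) + (1 - q) * H (Function.update w i false) - H w else 0)|
      ≤ 2 := by
    rw [← Finset.sum_sub_distrib]
    have hzero : ∀ i : Fin M, (i : ℕ) + 1 < M →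
        ((if cc (app w true) i then
          q * H (Function.update w i true) + (1 - q) * H (Function.update w i false) - H w else 0)
        - (if cc (app w false) i then
          q * H (Function.update w i true) + (1 - q) * H (Function.update w i false) - H w
          else 0)) = 0 := by
      intro i hi
      have hcc : cc (app w true) i ↔ cc (app w false) i := by
        unfold cc
        rw [val_app_lt hi, val_app_lt hi, val_app_lt (show (i : ℕ) - 1 < M by omega),
          val_app_lt (show (i : ℕ) - 1 < M by omega)]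
      by_cases hc : cc (app w false) i
      · rw [if_pos hc, if_pos (hcc.2 hc), sub_self]
      · rw [if_neg hc, if_neg (fun e => hc (hcc.1 e)), sub_self]
    have hone : ∀ i : Fin M,
        |((if cc (app w true) i then
          q * H (Function.update w i true) + (1 - q) * H (Function.update w i false) - H w else 0)
        - (if cc (app w false) i then
          q * H (Function.update w i true) + (1 - q) * H (Function.update w i false) - H w
          else 0))| ≤ 2 := by
      intro i
      have h1 := hup (Function.update w i true)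
      have h2 := hlo (Function.update w i true)
      have h3 := hup (Function.update w i false)
      have h4 := hlo (Function.update w i false)
      have h5 := hup w
      have h6 := hlo w
      have h7 : |q * H (Function.update w i true) + (1 - q) * H (Function.update w i false)
          - H w| ≤ 2 := by
        rw [abs_le]
        constructor <;> nlinarith
      split_ifs
      · simp
      · simpa using h7
      · rw [zero_sub, abs_neg]
        exact h7
      · simp
    rcases Nat.eq_zero_or_pos M with hM | hM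
    · subst hM
      simp
    · rw [Finset.sum_eq_single (⟨M - 1, by omega⟩ : Fin M)]
      · exact hone _
      · intro i _ hi
        apply hzero
        have h8 : (i : ℕ) ≠ M - 1 := fun e => hi (Fin.ext e)
        have h9 := i.isLt
        omega
      · intro h
        exact absurd (Finset.mem_univ _) h
  have hval : val (app w true) 0 = true ∨ ¬ val (app w true) 0 = true := em _
  -- the pop terms
  have hpop : |(if val (app w true) 0 = true then (1 - q) * (H (tai (app w true)) - H w) else 0)
      - (if val (app w false) 0 = true then (1 - q) * (H (tai (app w false)) - H w) else 0)|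
      ≤ 2 := by
    rcases Nat.eq_zero_or_pos M with hM | hM
    · subst hM
      have e1 : tai (app w true) = w := Subsingleton.elim _ _
      have e2 : tai (app w false) = w := Subsingleton.elim _ _
      rw [e1, e2]
      simp
    · rw [val_app_lt hM, val_app_lt hM]
      have h1 := hup (tai (app w true))
      have h2 := hlo (tai (app w true))
      have h3 := hup (tai (app w false))
      have h4 := hlo (tai (app w false))
      split_ifs
      · rw [abs_le]
        constructor <;> nlinarith
      · simp
  have hsum : ∀ (a a' b c c' : ℝ), |a - a'| ≤ 2 → |c - c'| ≤ 2 →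
      |a + b + c - (a' + b + c')| ≤ 4 := by
    intro a a' b c c' h1 h2
    have e : a + b + c - (a' + b + c') = (a - a') + (c - c') := by ring
    rw [e]
    refine (abs_add_le _ _).trans ?_
    linarith
  exact hsum _ _ _ _ _ hflip hpop

theorem Fam.defect (f : Fam q) (hq : 0 < q) (hq1 : q < 1) :
    ∃ δ : ℕ → ℝ, Tendsto δ atTop (𝓝 0) ∧ ∀ (M : ℕ) (H : W M → ℝ), (∀ w, |H w| ≤ 1) →
      |Ex q (fun w => f.f M w * gM q H w)| ≤ δ M := by
  have a0 : 0 < 1 - q := sub_pos.2 hq1
  refine ⟨fun M => 4 * (√(f.U M) * √(2 * (1 / q + 1 / (1 - q)))), ?_, ?_⟩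
  · have h1 := f.U_tendsto hq hq1
    have h2 : Tendsto (fun M => √(f.U M)) atTop (𝓝 0) := by
      have := (Real.continuous_sqrt.tendsto 0).comp h1
      rw [Real.sqrt_zero] at this
      exact this
    have h3 := (h2.mul_const (√(2 * (1 / q + 1 / (1 - q))))).const_mul 4
    simpa using h3
  · intro M H hH
    -- stationarity
    have hst := f.stat M H
    rw [Ex_app] at hst
    have hid : Ex q (fun w => f.f M w * gM q H w) =
        Ex q (fun w : W M => -(q * (1 - q)) * ((f.f (M + 1) (app w true) -
          f.f (M + 1) (app w false)) * (gen q H (app w true) - gen q H (app w false)))) := by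
      rw [← sub_zero (Ex q (fun w => f.f M w * gM q H w)), ← hst, ← Ex_sub]
      apply Ex_congr
      intro w
      rw [f.cons M w, gM]
      ring
    rw [hid]
    refine (abs_Ex_le hq.le hq1.le _).trans ?_
    have hb : ∀ w : W M, |(-(q * (1 - q)) * ((f.f (M + 1) (app w true) -
          f.f (M + 1) (app w false)) * (gen q H (app w true) - gen q H (app w false))))| ≤
        4 * (|f.u (M + 1) (app w true) - f.u (M + 1) (app w false)| *
          (f.u (M + 1) (app w true) + f.u (M + 1) (app w false))) := by
      intro w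
      have h1 := meetB_gen_diff hq hq1 H hH w
      have h2 : |-(q * (1 - q))| ≤ 1 := by
        rw [abs_neg, abs_of_nonneg (by positivity)]
        nlinarith
      have hu1 := (f.u_pos hq hq1 (M + 1) (app w true)).le
      have hu0 := (f.u_pos hq hq1 (M + 1) (app w false)).le
      have h3 : |f.f (M + 1) (app w true) - f.f (M + 1) (app w false)| =
          |f.u (M + 1) (app w true) - f.u (M + 1) (app w false)| *
          (f.u (M + 1) (app w true) + f.u (M + 1) (app w false)) := by
        rw [← f.u_sq, ← f.u_sq, ← abs_of_nonneg (add_nonneg hu1 hu0), ← abs_mul]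
        congr 1
        ring
      rw [abs_mul, abs_mul, h3]
      set X := |f.u (M + 1) (app w true) - f.u (M + 1) (app w false)| *
          (f.u (M + 1) (app w true) + f.u (M + 1) (app w false)) with hX
      have hX0 : 0 ≤ X := mul_nonneg (abs_nonneg _) (add_nonneg hu1 hu0)
      calc |-(q * (1 - q))| * (X * |gen q H (app w true) - gen q H (app w false)|)
          ≤ 1 * (X * 4) := by gcongr
        _ = 4 * X := by ring
    refine (Ex_mono hq.le hq1.le hb).trans ?_
    rw [Ex_mul_left]
    apply mul_le_mul_of_nonneg_left _ (by norm_num : (0 : ℝ) ≤ 4)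
    refine (Ex_cs' hq.le hq1.le _ _).trans ?_
    have hU : Ex q (fun w : W M => |f.u (M + 1) (app w true) - f.u (M + 1) (app w false)| ^ 2) =
        f.U M := by
      unfold Fam.U
      rw [Ex_app]
      apply Ex_congr
      intro w
      have e : ∀ b c, Function.update (app w b) (Fin.last M) c = app w c := by
        intro b c
        unfold app
        exact Fin.update_snoc_last (α := fun _ => Bool) b w c
      unfold dl
      rw [e, e, e, e, sq_abs]
      ring
    have hS : Ex q (fun w : W M => (f.u (M + 1) (app w true) +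
        f.u (M + 1) (app w false)) ^ 2) ≤ 2 * (1 / q + 1 / (1 - q)) := by
      have h1 : q * Ex q (fun w : W M => f.f (M + 1) (app w true)) +
          (1 - q) * Ex q (fun w : W M => f.f (M + 1) (app w false)) = 1 := by
        rw [← Ex_mul_left, ← Ex_mul_left, ← Ex_add]
        refine Eq.trans ?_ (f.Ex_f M)
        apply Ex_congr
        intro w
        exact (f.cons M w).symm
      have h2 : 0 ≤ Ex q (fun w : W M => f.f (M + 1) (app w true)) :=
        Ex_nonneg hq.le hq1.le fun w => f.nn _ _
      have h3 : 0 ≤ Ex q (fun w : W M => f.f (M + 1) (app w false)) :=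
        Ex_nonneg hq.le hq1.le fun w => f.nn _ _
      have h4 : Ex q (fun w : W M => f.f (M + 1) (app w true)) ≤ 1 / q := by
        rw [le_div_iff₀ hq]
        nlinarith
      have h5 : Ex q (fun w : W M => f.f (M + 1) (app w false)) ≤ 1 / (1 - q) := by
        rw [le_div_iff₀ a0]
        nlinarith
      have h6 : Ex q (fun w : W M => (f.u (M + 1) (app w true) +
          f.u (M + 1) (app w false)) ^ 2) ≤
          Ex q (fun w : W M => 2 * (f.f (M + 1) (app w true) + f.f (M + 1) (app w false))) := by
        apply Ex_mono hq.le hq1.le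
        intro w
        rw [← f.u_sq, ← f.u_sq]
        nlinarith [sq_nonneg (f.u (M + 1) (app w true) - f.u (M + 1) (app w false))]
      rw [Ex_mul_left, Ex_add] at h6
      linarith
    rw [hU]
    exact mul_le_mul_of_nonneg_left (Real.sqrt_le_sqrt hS) (Real.sqrt_nonneg _)

end Pool.Agent.Lib.MP_4c13d6_pr
end

section

/-! MT-3: the meet of two stationary families (Lemma 19). -/

open Finset Filter Topology

namespace Pool.Agent.Lib.MP_4c13d6_pr

variable {q : ℝ}

/-- minimum of the two densities -/
private noncomputable def mc (f g : Fam q) (N : ℕ) (w : W N) : ℝ := min (f.f N w) (g.f N w)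

/-- iterated averages of the minima -/
private noncomputable def mk (f g : Fam q) : ℕ → ∀ N, W N → ℝ
  | 0, N, w => mc f g N w
  | j + 1, N, w => q * mk f g j (N + 1) (app w true) + (1 - q) * mk f g j (N + 1) (app w false)

private theorem mc_nonneg (f g : Fam q) (N : ℕ) (w : W N) : 0 ≤ mc f g N w :=
  le_min (f.nn N w) (g.nn N w)

private theorem mk_nonneg (hq : 0 < q) (hq1 : q < 1) (f g : Fam q) (j : ℕ) :
    ∀ N (w : W N), 0 ≤ mk f g j N w := by
  induction j with
  | zero => exact fun N w => mc_nonneg f g N w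
  | succ j ih =>
    intro N w
    have h1 := ih (N + 1) (app w true)
    have h2 := ih (N + 1) (app w false)
    have h3 : 0 ≤ 1 - q := by linarith
    exact add_nonneg (mul_nonneg hq.le h1) (mul_nonneg h3 h2)

private theorem mk_anti (hq : 0 < q) (hq1 : q < 1) (f g : Fam q) (j : ℕ) :
    ∀ N (w : W N), mk f g (j + 1) N w ≤ mk f g j N w := by
  have h3 : 0 ≤ 1 - q := by linarith
  induction j with
  | zero =>
    intro N w
    change q * mc f g (N + 1) (app w true) + (1 - q) * mc f g (N + 1) (app w false) ≤ mc f g N w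
    refine le_min ?_ ?_
    · rw [f.cons N w]
      exact add_le_add (mul_le_mul_of_nonneg_left (min_le_left _ _) hq.le)
        (mul_le_mul_of_nonneg_left (min_le_left _ _) h3)
    · rw [g.cons N w]
      exact add_le_add (mul_le_mul_of_nonneg_left (min_le_right _ _) hq.le)
        (mul_le_mul_of_nonneg_left (min_le_right _ _) h3)
  | succ j ih =>
    intro N w
    exact add_le_add (mul_le_mul_of_nonneg_left (ih (N + 1) (app w true)) hq.le)
      (mul_le_mul_of_nonneg_left (ih (N + 1) (app w false)) h3)

private theorem mk_tendsto (hq : 0 < q) (hq1 : q < 1) (f g : Fam q) (N : ℕ) (w : W N) :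
    Tendsto (fun j => mk f g j N w) atTop (𝓝 (⨅ j, mk f g j N w)) :=
  tendsto_atTop_ciInf (antitone_nat_of_succ_le fun j => mk_anti hq hq1 f g j N w)
    ⟨0, by rintro _ ⟨j, rfl⟩; exact mk_nonneg hq hq1 f g j N w⟩

private theorem mk_Ex (f g : Fam q) (j : ℕ) :
    ∀ (N M : ℕ) (_ : M = N + j) (G : W N → ℝ), Ex q (fun w : W N => mk f g j N w * G w) =
      Ex q (fun w : W M => mc f g M w * G (res N w)) := by
  induction j with
  | zero =>
    intro N M hM G
    obtain rfl : M = N := by omega
    refine Ex_congr fun w => ?_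
    rw [res_self]
    rfl
  | succ j ih =>
    intro N M hM G
    have h1 := ih (N + 1) M (by omega) (fun w => G (ini w))
    have h2 : Ex q (fun w : W (N + 1) => mk f g j (N + 1) w * G (ini w)) =
        Ex q (fun w : W N => mk f g (j + 1) N w * G w) := by
      rw [Ex_app]
      refine Ex_congr fun w => ?_
      rw [ini_app, ini_app]
      change _ = (q * mk f g j (N + 1) (app w true) + (1 - q) * mk f g j (N + 1) (app w false)) *
        G w
      ring
    rw [← h2, h1]
    refine Ex_congr fun w => ?_
    rw [ini_res]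

private theorem mk_total (f g : Fam q) (m₀ : ℝ)
    (hm : ∀ N, m₀ ≤ Ex q (fun w : W N => min (f.f N w) (g.f N w))) (j : ℕ) (w : W 0) :
    m₀ ≤ mk f g j 0 w := by
  have h1 := mk_Ex f g j 0 (0 + j) rfl (fun _ => 1)
  simp only [mul_one] at h1
  have h2 : Ex q (fun w : W 0 => mk f g j 0 w) = mk f g j 0 w := by
    have h3 : ∀ v : W 0, mk f g j 0 v = mk f g j 0 w := fun v => by
      rw [Subsingleton.elim v w]
    rw [Ex_congr h3, Ex_const]
  rw [← h2, h1]
  exact hm _

private theorem mc_bound (hq : 0 < q) (hq1 : q < 1) (f g : Fam q) (δf δg : ℕ → ℝ)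
    (hf : ∀ (M : ℕ) (H : W M → ℝ), (∀ w, |H w| ≤ 1) →
      |Ex q (fun w => f.f M w * gM q H w)| ≤ δf M)
    (hg : ∀ (M : ℕ) (H : W M → ℝ), (∀ w, |H w| ≤ 1) →
      |Ex q (fun w => g.f M w * gM q H w)| ≤ δg M)
    (M : ℕ) (H : W M → ℝ) (B : ℝ) (hB : 0 < B) (hH : ∀ w, |H w| ≤ B) :
    |Ex q (fun w => mc f g M w * gM q H w)| ≤ 2 * (δf M + δg M) * B := by
  have hw := fun w : W M => wt_nonneg hq.le hq1.le w
  have h1 := min_almost_invariant (gML q M) (gML_one M) (fun x y h => gML_off hq hq1 x y h)
    (fun w => wt q w * f.f M w) (fun w => wt q w * g.f M w) (δf M) (δg M)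
    (fun H hH => by
      have := hf M H hH
      unfold Ex at this
      simpa only [mul_assoc, gML_apply] using this)
    (fun H hH => by
      have := hg M H hH
      unfold Ex at this
      simpa only [mul_assoc, gML_apply] using this)
    (B⁻¹ • H) (fun w => by
      rw [Pi.smul_apply, smul_eq_mul, abs_mul, abs_of_pos (inv_pos.2 hB), inv_mul_le_iff₀ hB,
        mul_one]
      exact hH w)
  have h2 : ∑ x, min (wt q x * f.f M x) (wt q x * g.f M x) * gML q M (B⁻¹ • H) x =
      B⁻¹ * Ex q (fun w => mc f g M w * gM q H w) := by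
    rw [map_smul]
    unfold Ex
    rw [Finset.mul_sum]
    refine Finset.sum_congr rfl fun w _ => ?_
    rw [← mul_min_of_nonneg _ _ (hw w), Pi.smul_apply, smul_eq_mul, gML_apply]
    unfold mc
    ring
  rw [h2, abs_mul, abs_of_pos (inv_pos.2 hB), inv_mul_le_iff₀ hB] at h1
  linarith

theorem meet (hq : 0 < q) (hq1 : q < 1) (f g : Fam q) (m₀ : ℝ)
    (hm : ∀ N, m₀ ≤ Ex q (fun w : W N => min (f.f N w) (g.f N w))) :
    ∃ κ : ∀ N, W N → ℝ, (∀ N w, 0 ≤ κ N w) ∧ (∀ N w, κ N w ≤ f.f N w) ∧
      (∀ N w, κ N w ≤ g.f N w) ∧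
      (∀ N w, κ N w = q * κ (N + 1) (app w true) + (1 - q) * κ (N + 1) (app w false)) ∧
      (∀ (N : ℕ) (F : W N → ℝ), Ex q (fun w : W (N + 1) => κ (N + 1) w * gen q F w) = 0) ∧
      (∀ w, m₀ ≤ κ 0 w) := by
  have hle : ∀ N (w : W N), (⨅ j, mk f g j N w) ≤ mc f g N w := fun N w =>
    ciInf_le (f := fun j => mk f g j N w)
      ⟨0, by rintro _ ⟨j, rfl⟩; exact mk_nonneg hq hq1 f g j N w⟩ 0
  refine ⟨fun N w => ⨅ j, mk f g j N w, fun N w => ?_, fun N w => ?_, fun N w => ?_,
    fun N w => ?_, fun N F => ?_, fun w => ?_⟩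
  · exact le_ciInf fun j => mk_nonneg hq hq1 f g j N w
  · exact (hle N w).trans (min_le_left _ _)
  · exact (hle N w).trans (min_le_right _ _)
  · have h1 : Tendsto (fun j => mk f g (j + 1) N w) atTop (𝓝 (⨅ j, mk f g j N w)) :=
      (tendsto_add_atTop_iff_nat (f := fun j => mk f g j N w) 1).2 (mk_tendsto hq hq1 f g N w)
    have h2 : Tendsto (fun j => mk f g (j + 1) N w) atTop
        (𝓝 (q * (⨅ j, mk f g j (N + 1) (app w true)) +
          (1 - q) * (⨅ j, mk f g j (N + 1) (app w false)))) :=
      ((mk_tendsto hq hq1 f g (N + 1) (app w true)).const_mul q).add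
        ((mk_tendsto hq hq1 f g (N + 1) (app w false)).const_mul (1 - q))
    exact tendsto_nhds_unique h1 h2
  · -- stationarity
    obtain ⟨δf, hδf, hf⟩ := f.defect hq hq1
    obtain ⟨δg, hδg, hg⟩ := g.defect hq hq1
    obtain ⟨B, hB, hFB⟩ : ∃ B : ℝ, 0 < B ∧ ∀ w, |F w| ≤ B := by
      refine ⟨1 + ∑ w, |F w|, by positivity, fun w => ?_⟩
      have := Finset.single_le_sum (f := fun w => |F w|) (fun _ _ => abs_nonneg _)
        (Finset.mem_univ w)
      linarith
    have h1 : Tendsto (fun j => Ex q (fun w : W (N + 1) => mk f g j (N + 1) w * gen q F w)) atTop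
        (𝓝 (Ex q (fun w : W (N + 1) => (⨅ j, mk f g j (N + 1) w) * gen q F w))) := by
      unfold Ex
      refine tendsto_finsetSum _ fun w _ => ?_
      exact ((mk_tendsto hq hq1 f g (N + 1) w).mul_const _).const_mul _
    have h2 : Tendsto (fun j => Ex q (fun w : W (N + 1) => mk f g j (N + 1) w * gen q F w)) atTop
        (𝓝 0) := by
      have h3 : ∀ j, |Ex q (fun w : W (N + 1) => mk f g j (N + 1) w * gen q F w)| ≤
          2 * (δf (j + (N + 1)) + δg (j + (N + 1))) * B := by
        intro j
        rw [mk_Ex f g j (N + 1) (j + (N + 1)) (by omega)]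
        have h4 := mc_bound hq hq1 f g δf δg hf hg (j + (N + 1))
          (fun v => F (res N v)) B hB (fun v => hFB _)
        have h5 : ∀ w : W (j + (N + 1)), gM q (fun v : W (j + (N + 1)) => F (res N v)) w =
          gen q F (res (N + 1) w) := fun w => gM_res (by omega) F w
        simpa only [h5] using h4
      have h6 : Tendsto (fun j => 2 * (δf (j + (N + 1)) + δg (j + (N + 1))) * B) atTop (𝓝 0) := by
        have h7 : Tendsto (fun j => 2 * (δf j + δg j) * B) atTop (𝓝 0) := by
          have := ((hδf.add hδg).const_mul 2).mul_const B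
          simpa using this
        exact (tendsto_add_atTop_iff_nat (f := fun j => 2 * (δf j + δg j) * B) (N + 1)).2 h7
      rw [tendsto_zero_iff_abs_tendsto_zero]
      exact squeeze_zero (fun _ => abs_nonneg _) h3 h6
    exact tendsto_nhds_unique h1 h2
  · exact le_ciInf fun j => mk_total f g m₀ hm j w

end Pool.Agent.Lib.MP_4c13d6_pr
end

section

/-! GP-3: the affinity with the product measure is bounded below (Lemma 16). -/

open Finset Filter Topology

namespace Pool.Agent.Lib.MP_4c13d6_pr

variable {q : ℝ}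

namespace Fam

theorem Ex_u_anti (f : Fam q) (hq : 0 < q) (hq1 : q < 1) : Antitone (fun N => Ex q (f.u N)) := by
  refine antitone_nat_of_succ_le fun N => ?_
  show Ex q (f.u (N + 1)) ≤ Ex q (f.u N)
  rw [Ex_app]
  refine Ex_mono hq.le hq1.le fun w => ?_
  unfold Fam.u
  rw [f.cons N w]
  apply Real.le_sqrt_of_sq_le
  have hx := Real.sq_sqrt (f.nn (N + 1) (app w true))
  have hy := Real.sq_sqrt (f.nn (N + 1) (app w false))
  have h := mul_nonneg (mul_nonneg hq.le (sub_pos.2 hq1).le)
    (sq_nonneg (√(f.f (N + 1) (app w true)) - √(f.f (N + 1) (app w false))))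
  set X := √(f.f (N + 1) (app w true))
  set Y := √(f.f (N + 1) (app w false))
  rw [← hx, ← hy]
  nlinarith

private theorem aff_s_le_U (f : Fam q) (hq : 0 < q) (hq1 : q < 1) (n : ℕ) :
    f.s (n + 1) n ≤ f.U n := by
  unfold Fam.s Fam.U
  rw [dif_pos (Nat.lt_succ_self n)]
  refine Ex_mono hq.le hq1.le fun w => ?_
  split_ifs
  · exact le_rfl
  · exact sq_nonneg _

private theorem aff_Dop_le (f : Fam q) (hq : 0 < q) (hq1 : q < 1) (n : ℕ) :
    Dop q (f.u (n + 1)) ≤ q * (1 - q) * ∑ i ∈ range n, f.s (n + 1) i + 2 * f.U n := by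
  have ha : 0 < 1 - q := by linarith
  have hU := U_nonneg f hq hq1 n
  have h1 : Dcl q (f.u (n + 1)) = q * (1 - q) * (∑ i ∈ range n, f.s (n + 1) i + f.s (n + 1) n) := by
    unfold Dcl
    rw [← Finset.sum_range_succ, ← Fin.sum_univ_eq_sum_range (fun i => f.s (n + 1) i)]
    congr 1
    refine Finset.sum_congr rfl fun i _ => ?_
    unfold Fam.s
    rw [dif_pos i.isLt]
  have h2 : Ex q (fun w => if cc w n then 0 else (dl (f.u (n + 1)) (Fin.last n) w) ^ 2) ≤ f.U n := by
    unfold Fam.U
    refine Ex_mono hq.le hq1.le fun w => ?_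
    split_ifs
    · exact sq_nonneg _
    · exact le_rfl
  have h3 := aff_s_le_U f hq hq1 n
  have hqa : q * (1 - q) ≤ 1 := by nlinarith
  have hqa0 : 0 ≤ q * (1 - q) := mul_nonneg hq.le ha.le
  have hqqa : q ^ 2 * (1 - q) ≤ 1 := by nlinarith
  have hqqa0 : 0 ≤ q ^ 2 * (1 - q) := mul_nonneg (sq_nonneg q) ha.le
  have h4 : q * (1 - q) * f.s (n + 1) n ≤ f.U n := by
    calc q * (1 - q) * f.s (n + 1) n ≤ q * (1 - q) * f.U n := mul_le_mul_of_nonneg_left h3 hqa0
      _ ≤ 1 * f.U n := mul_le_mul_of_nonneg_right hqa hU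
      _ = f.U n := one_mul _
  have h5 : q ^ 2 * (1 - q) *
      Ex q (fun w => if cc w n then 0 else (dl (f.u (n + 1)) (Fin.last n) w) ^ 2) ≤ f.U n := by
    calc _ ≤ q ^ 2 * (1 - q) * f.U n := mul_le_mul_of_nonneg_left h2 hqqa0
      _ ≤ 1 * f.U n := mul_le_mul_of_nonneg_right hqqa hU
      _ = f.U n := one_mul _
  unfold Dop
  rw [h1]
  linarith

private theorem aff_err (f : Fam q) (hq : 0 < q) (hq1 : q < 1) (C : ℝ) :
    Tendsto (fun n => C + (2 * √(f.U n) + 2 * (1 - q) * f.U (n + 1) + 8 * f.U n)) atTop (𝓝 C) := by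
  have hU := f.U_tendsto hq hq1
  have hU1 : Tendsto (fun n => f.U (n + 1)) atTop (𝓝 0) := hU.comp (tendsto_add_atTop_nat 1)
  have hs : Tendsto (fun n => √(f.U n)) atTop (𝓝 0) := by
    have := hU.sqrt
    rwa [Real.sqrt_zero] at this
  have h := (((hs.const_mul 2).add (hU1.const_mul (2 * (1 - q)))).add (hU.const_mul 8)).const_add C
  simpa using h

theorem aff (f : Fam q) (hq : 0 < q) (hq1 : q < 1) (N : ℕ) : 1 / 2 ≤ Ex q (f.u N) := by
  have ha : 0 < 1 - q := by linarith
  have hA : ∀ N, 0 ≤ Ex q (f.u N) := fun N =>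
    Ex_nonneg hq.le hq1.le fun w => (f.u_pos hq hq1 N w).le
  have hR := f.pos hq hq1 1 (fun _ => true)
  have hRq := f.R_le hq hq1
  have hfb := front_bound (a := 1 - q) (R := f.f 1 (fun _ => true)) (by linarith) (by linarith) hR
    (by rw [sub_sub_cancel]; exact hRq)
  have hlam : 0 < lam1 q := by
    unfold lam1
    have h1 : √(1 - q) < 1 := by
      rw [Real.sqrt_lt' one_pos]
      linarith
    have h2 : 0 < (1 - √(1 - q)) ^ 2 := by
      have : 0 < 1 - √(1 - q) := by linarith
      positivity
    have h3 : 0 < 2 - q := by linarith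
    positivity
  have key : ∀ n : ℕ, 4 * lam1 q * (1 - (Ex q (f.u (n + 1))) ^ 2) ≤
      q * (√2 * (1 - √(1 - q)) ^ 2) +
        (2 * √(f.U n) + 2 * (1 - q) * f.U (n + 1) + 8 * f.U n) := by
    intro n
    have h1 := poincare_open hq hq1 (f.u (n + 1))
    have h2 := aff_Dop_le f hq hq1 n
    have h3 := entropy_ineq f hq hq1 n
    have h4 : Var q (f.u (n + 1)) = 1 - (Ex q (f.u (n + 1))) ^ 2 := by
      unfold Var
      have : Ex q (fun w => f.u (n + 1) w ^ 2) = 1 := by
        rw [← f.Ex_f (n + 1)]
        exact Ex_congr fun w => f.u_sq (n + 1) w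
      rw [this]
    rw [h4] at h1
    have h5 := mul_le_mul_of_nonneg_left hfb hq.le
    nlinarith
  have key2 : 4 * lam1 q * (1 - (Ex q (f.u N)) ^ 2) ≤ q * (√2 * (1 - √(1 - q)) ^ 2) := by
    refine ge_of_tendsto (aff_err f hq hq1 _) ?_
    filter_upwards [eventually_ge_atTop N] with n hn
    refine le_trans ?_ (key n)
    have h1 : Ex q (f.u (n + 1)) ≤ Ex q (f.u N) := Ex_u_anti f hq hq1 (by omega : N ≤ n + 1)
    have h2 : (Ex q (f.u (n + 1))) ^ 2 ≤ (Ex q (f.u N)) ^ 2 := by
      have := hA (n + 1)
      nlinarith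
    have h3 : 0 ≤ 4 * lam1 q := by linarith
    exact mul_le_mul_of_nonneg_left (by linarith) h3
  by_contra hcon
  push Not at hcon
  have hA0 := hA N
  set A := Ex q (f.u N) with hAdef
  have hA2 : A ^ 2 < 1 / 4 := by nlinarith
  have hs2 : √2 ≤ 1.5 := by
    rw [Real.sqrt_le_iff]
    norm_num
  have hd : 0 < q * (1 - √(1 - q)) ^ 2 := by
    have h1 : √(1 - q) < 1 := by
      rw [Real.sqrt_lt' one_pos]
      linarith
    have : 0 < 1 - √(1 - q) := by linarith
    positivity
  have hlam2 : q * (1 - √(1 - q)) ^ 2 / 2 ≤ lam1 q := by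
    unfold lam1
    apply div_le_div_of_nonneg_left hd.le (by linarith) (by linarith)
  have h6 : 4 * (q * (1 - √(1 - q)) ^ 2 / 2) * (1 - A ^ 2) ≤ 4 * lam1 q * (1 - A ^ 2) := by
    apply mul_le_mul_of_nonneg_right _ (by linarith)
    linarith
  have h7 : q * (√2 * (1 - √(1 - q)) ^ 2) ≤ 1.5 * (q * (1 - √(1 - q)) ^ 2) := by
    nlinarith
  nlinarith

theorem drift_pos (f : Fam q) (hq : 0 < q) (hq1 : q < 1) : 0 < f.drift := by
  have ha : 0 < 1 - q := by linarith
  have hR := f.pos hq hq1 1 (fun _ => true)
  have hR0 := f.pos hq hq1 1 (fun _ => false)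
  by_contra hcon
  push Not at hcon
  have h1 : 1 ≤ (1 - q) * f.f 1 (fun _ => true) := by
    unfold Fam.drift at hcon
    have h : q * (1 - (1 - q) * f.f 1 (fun _ => true)) ≤ 0 := by linarith
    by_contra h2
    push Not at h2
    have := mul_pos hq (sub_pos.2 h2)
    linarith
  have h2 := front_nonpos ha (by linarith) hR (Or.inr h1)
  have key : 4 * q * (1 - q) * (√(f.f 1 (fun _ => true)) - √(f.f 1 (fun _ => false))) ^ 2 ≤ 0 := by
    refine ge_of_tendsto (aff_err f hq hq1 0) ?_
    filter_upwards [eventually_ge_atTop 1] with n hn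
    have h3 := entropy_ineq f hq hq1 n
    have h4 := s_zero_ge f hq hq1 (N := n + 1) (by omega)
    have h5 : f.s (n + 1) 0 ≤ ∑ i ∈ range n, f.s (n + 1) i :=
      Finset.single_le_sum (f := fun i => f.s (n + 1) i) (fun i _ => s_nonneg f hq hq1 (n + 1) i)
        (by simp; omega)
    have h6 : 0 ≤ 4 * q * (1 - q) := by positivity
    have h7 := mul_le_mul_of_nonneg_left (h4.trans h5) h6
    have h8 := mul_nonpos_of_nonneg_of_nonpos hq.le h2
    have h9 := U_nonneg f hq hq1 n
    linarith
  have h10 := f.R_add
  have h11 : 1 < f.f 1 (fun _ => true) := by nlinarith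
  have h12 : f.f 1 (fun _ => false) < 1 := by
    by_contra h
    push Not at h
    nlinarith
  have h13 : √(f.f 1 (fun _ => false)) < √(f.f 1 (fun _ => true)) :=
    Real.sqrt_lt_sqrt hR0.le (by linarith)
  have h14 : 0 < (√(f.f 1 (fun _ => true)) - √(f.f 1 (fun _ => false))) ^ 2 := by
    have := sub_pos.2 h13
    positivity
  have h15 : 0 < 4 * q * (1 - q) := by positivity
  have := mul_pos h15 h14
  linarith

theorem drift_le (f : Fam q) (hq : 0 < q) (hq1 : q < 1) : f.drift ≤ q := by
  have h := mul_nonneg (sub_pos.2 hq1).le (mul_nonneg hq.le (f.nn 1 (fun _ => true)))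
  unfold Fam.drift
  linarith

end Fam

end Pool.Agent.Lib.MP_4c13d6_pr
end

section

/-! OV-2: uniform overlap of two stationary families (Lemma 18). -/

open Finset

namespace Pool.Agent.Lib.MP_4c13d6_pr

variable {q : ℝ}

private theorem ov_lam1_pos (hq : 0 < q) (hq1 : q < 1) : 0 < lam1 q := by
  unfold lam1
  have h1 : √(1 - q) < 1 := by
    rw [Real.sqrt_lt' one_pos]
    linarith
  have h2 : 0 < (1 - √(1 - q)) ^ 2 := by
    have : 0 < 1 - √(1 - q) := by linarith
    positivity
  have h3 : 0 < 2 - q := by linarith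
  positivity

private theorem ov_centered {N : ℕ} (X : W N → ℝ) (m : ℝ) (hm : Ex q X = m) :
    Ex q (fun w => (X w - m) ^ 2) = Var q X := by
  have h : ∀ w, (X w - m) ^ 2 = (X w ^ 2 + (-2 * m) * X w) + m ^ 2 := by intro w; ring
  rw [Ex_congr h, Ex_add, Ex_add, Ex_mul_left, Ex_const, hm, Var, hm]
  ring

private theorem ov_centered_le (f : Fam q) (hq : 0 < q) (hq1 : q < 1) (N : ℕ) :
    Ex q (fun w : W N => (Real.log (f.f N w) - Ex q (fun w : W N => Real.log (f.f N w))) ^ 2) ≤
      6 / lam1 q := by
  rw [ov_centered _ _ rfl, le_div_iff₀ (ov_lam1_pos hq hq1), mul_comm]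
  exact f.var_log hq hq1 N

/-- the mean of `log f` is bounded below -/
private theorem ov_mean (f : Fam q) (hq : 0 < q) (hq1 : q < 1) (N : ℕ) :
    2 * Real.log (1 / 4) - 4 * √(6 / lam1 q) ≤ Ex q (fun w : W N => Real.log (f.f N w)) := by
  set C : ℝ := 6 / lam1 q with hC
  have hCpos : 0 < C := by
    have := ov_lam1_pos hq hq1
    positivity
  have hs : 0 < √C := Real.sqrt_pos.2 hCpos
  have hs2 : √C ^ 2 = C := Real.sq_sqrt hCpos.le
  set X : W N → ℝ := fun w => Real.log (f.f N w) with hX
  set m : ℝ := Ex q X with hm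
  have hvar : Ex q (fun w => (X w - m) ^ 2) ≤ C := ov_centered_le f hq hq1 N
  set t : ℝ := 4 * √C with ht
  have htpos : 0 < t := by positivity
  have ht2 : t ^ 2 = 16 * C := by rw [ht, mul_pow, hs2]; norm_num
  set I : W N → ℝ := fun w => if m + t < X w then 1 else 0 with hI
  have hIle : ∀ w, I w ^ 2 ≤ (1 / t ^ 2) * (X w - m) ^ 2 := by
    intro w
    simp only [hI]
    split_ifs with h
    · rw [one_pow, one_div, inv_mul_eq_div, le_div_iff₀ (by positivity), one_mul]
      have : t < X w - m := by linarith
      exact pow_le_pow_left₀ htpos.le this.le 2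
    · have : (0 : ℝ) ^ 2 = 0 := by norm_num
      rw [this]
      positivity
  have hI2 : Ex q (fun w => I w ^ 2) ≤ 1 / 16 := by
    refine (Ex_mono hq.le hq1.le hIle).trans ?_
    rw [Ex_mul_left, ht2]
    calc 1 / (16 * C) * Ex q (fun w => (X w - m) ^ 2) ≤ 1 / (16 * C) * C := by
          gcongr
      _ = 1 / 16 := by field_simp
  have hu : ∀ w, f.u N w = Real.exp (X w / 2) := by
    intro w
    unfold Fam.u
    rw [hX]
    simp only
    rw [← Real.log_sqrt (f.nn N w), Real.exp_log (Real.sqrt_pos.2 (f.pos hq hq1 N w))]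
  have hpt : ∀ w, f.u N w ≤ Real.exp ((m + t) / 2) + f.u N w * I w := by
    intro w
    simp only [hI]
    split_ifs with h
    · have := Real.exp_pos ((m + t) / 2)
      linarith
    · rw [mul_zero, add_zero, hu]
      apply Real.exp_le_exp.2
      linarith
  have h1 : Ex q (f.u N) ≤ Real.exp ((m + t) / 2) + Ex q (fun w => f.u N w * I w) := by
    refine (Ex_mono hq.le hq1.le hpt).trans ?_
    rw [Ex_add, Ex_const]
  have h2 := Ex_cs' hq.le hq1.le (f.u N) I
  have h3 : Ex q (fun w => f.u N w ^ 2) = 1 := by
    rw [Ex_congr (fun w => f.u_sq N w)]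
    exact f.Ex_f N
  have h4 : √(Ex q (fun w => I w ^ 2)) ≤ 1 / 4 := by
    rw [Real.sqrt_le_left (by norm_num)]
    linarith
  rw [h3, Real.sqrt_one, one_mul] at h2
  have h5 := f.aff hq hq1 N
  have h6 : 1 / 4 ≤ Real.exp ((m + t) / 2) := by linarith
  have h7 := Real.log_le_log (by norm_num) h6
  rw [Real.log_exp] at h7
  linarith

theorem overlap (hq : 0 < q) (hq1 : q < 1) : ∃ m₀ : ℝ, 0 < m₀ ∧ ∀ (f g : Fam q) (N : ℕ),
    m₀ ≤ Ex q (fun w : W N => min (f.f N w) (g.f N w)) := by
  set C : ℝ := 6 / lam1 q with hC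
  have hCpos : 0 < C := by
    have := ov_lam1_pos hq hq1
    positivity
  have hs : 0 < √C := Real.sqrt_pos.2 hCpos
  have hs2 : √C ^ 2 = C := Real.sq_sqrt hCpos.le
  set b : ℝ := 2 * Real.log (1 / 4) - 4 * √C - 2 * √C with hb
  refine ⟨Real.exp b / 2, by positivity, fun f g N => ?_⟩
  set X : W N → ℝ := fun w => Real.log (f.f N w) with hX
  set Y : W N → ℝ := fun w => Real.log (g.f N w) with hY
  have hvX : Ex q (fun w => (X w - Ex q X) ^ 2) ≤ C := ov_centered_le f hq hq1 N
  have hvY : Ex q (fun w => (Y w - Ex q Y) ^ 2) ≤ C := ov_centered_le g hq hq1 N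
  have hmX : 2 * Real.log (1 / 4) - 4 * √C ≤ Ex q X := ov_mean f hq hq1 N
  have hmY : 2 * Real.log (1 / 4) - 4 * √C ≤ Ex q Y := ov_mean g hq hq1 N
  have hpt : ∀ w : W N, Real.exp b * (1 - (1 / (4 * C)) * (X w - Ex q X) ^ 2
      - (1 / (4 * C)) * (Y w - Ex q Y) ^ 2) ≤ min (f.f N w) (g.f N w) := by
    intro w
    have hf := f.pos hq hq1 N w
    have hg := g.pos hq hq1 N w
    have hx2 : 0 ≤ (1 / (4 * C)) * (X w - Ex q X) ^ 2 := by positivity
    have hy2 : 0 ≤ (1 / (4 * C)) * (Y w - Ex q Y) ^ 2 := by positivity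
    have hfar : ∀ z m : ℝ, 2 * Real.log (1 / 4) - 4 * √C ≤ m → z < b →
        1 ≤ (1 / (4 * C)) * (z - m) ^ 2 := by
      intro z m h1 h2
      rw [one_div, inv_mul_eq_div, le_div_iff₀ (by positivity), one_mul]
      have h3 : 2 * √C ≤ m - z := by linarith
      have h4 := pow_le_pow_left₀ (by positivity) h3 2
      rw [mul_pow, hs2] at h4
      nlinarith
    by_cases h1 : b ≤ X w
    · by_cases h2 : b ≤ Y w
      · have h3 : Real.exp b ≤ f.f N w := by
          rw [← Real.exp_log hf]; exact Real.exp_le_exp.2 h1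
        have h4 : Real.exp b ≤ g.f N w := by
          rw [← Real.exp_log hg]; exact Real.exp_le_exp.2 h2
        refine le_trans ?_ (le_min h3 h4)
        have := Real.exp_pos b
        nlinarith
      · have h3 := hfar (Y w) (Ex q Y) hmY (not_le.1 h2)
        refine le_trans ?_ (le_min hf.le hg.le)
        have := Real.exp_pos b
        apply mul_nonpos_of_nonneg_of_nonpos this.le
        linarith
    · have h3 := hfar (X w) (Ex q X) hmX (not_le.1 h1)
      refine le_trans ?_ (le_min hf.le hg.le)
      have := Real.exp_pos b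
      apply mul_nonpos_of_nonneg_of_nonpos this.le
      linarith
  refine le_trans ?_ (Ex_mono hq.le hq1.le hpt)
  rw [Ex_mul_left, Ex_sub, Ex_sub, Ex_const, Ex_mul_left, Ex_mul_left]
  have h5 : 1 / (4 * C) * Ex q (fun w => (X w - Ex q X) ^ 2) ≤ 1 / 4 := by
    calc 1 / (4 * C) * Ex q (fun w => (X w - Ex q X) ^ 2) ≤ 1 / (4 * C) * C := by gcongr
      _ = 1 / 4 := by field_simp
  have h6 : 1 / (4 * C) * Ex q (fun w => (Y w - Ex q Y) ^ 2) ≤ 1 / 4 := by
    calc 1 / (4 * C) * Ex q (fun w => (Y w - Ex q Y) ^ 2) ≤ 1 / (4 * C) * C := by gcongr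
      _ = 1 / 4 := by field_simp
  have h7 := Real.exp_pos b
  nlinarith

end Pool.Agent.Lib.MP_4c13d6_pr
end

section

/-! MT-4: all stationary families have the same drift (Lemma 20). -/

open Finset Filter Topology

namespace Pool.Agent.Lib.MP_4c13d6_pr

variable {q : ℝ}

private theorem unique_split (hq : 0 < q) (hq1 : q < 1) (F : Fam q) (κ : ∀ N, W N → ℝ)
    (k : ℝ) (hk : 0 < k)
    (h0 : ∀ N w, 0 ≤ κ N w) (hle : ∀ N w, κ N w ≤ F.f N w)
    (hcons : ∀ N w, κ N w = q * κ (N + 1) (app w true) + (1 - q) * κ (N + 1) (app w false))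
    (hstat : ∀ (N : ℕ) (G : W N → ℝ), Ex q (fun w : W (N + 1) => κ (N + 1) w * gen q G w) = 0)
    (hkk : ∀ w, κ 0 w = k) :
    ∃ K F1 : Fam q, (∀ N w, K.f N w = k⁻¹ * κ N w) ∧
      F.drift = k * K.drift + (1 - k) * F1.drift := by
  have hk' : k ≠ 0 := hk.ne'
  let K : Fam q :=
    { f := fun N w => k⁻¹ * κ N w
      nn := fun N w => mul_nonneg (inv_nonneg.2 hk.le) (h0 N w)
      one := fun w => by rw [hkk w]; exact inv_mul_cancel₀ hk'
      cons := fun N w => by rw [hcons N w]; ring
      stat := fun N G => by
        have e : ∀ w : W (N + 1), k⁻¹ * κ (N + 1) w * gen q G w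
            = k⁻¹ * (κ (N + 1) w * gen q G w) := fun w => by ring
        rw [Ex_congr e, Ex_mul_left, hstat N G, mul_zero] }
  have hk1 : k ≤ 1 := by
    have := hle 0 (fun _ => true)
    rw [hkk, F.one] at this
    exact this
  rcases hk1.eq_or_lt with h | h
  · refine ⟨K, F, fun N w => rfl, ?_⟩
    have e1 := hcons 0 (fun _ => true)
    have e2 := F.cons 0 (fun _ => true)
    rw [hkk, h] at e1
    rw [F.one] at e2
    have t1 := hle 1 (app (fun _ => true) true)
    have t2 := hle 1 (app (fun _ => true) false)
    have e3 : κ 1 (app (fun _ => true) true) = F.f 1 (app (fun _ => true) true) := by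
      apply le_antisymm t1
      by_contra hc
      rw [not_le] at hc
      have u1 : q * κ 1 (app (fun _ => true) true) < q * F.f 1 (app (fun _ => true) true) :=
        mul_lt_mul_of_pos_left hc hq
      have u2 : (1 - q) * κ 1 (app (fun _ => true) false)
          ≤ (1 - q) * F.f 1 (app (fun _ => true) false) :=
        mul_le_mul_of_nonneg_left t2 (by linarith)
      linarith
    have e4 : (app (fun _ => true) true : W 1) = fun _ => true := by
      funext i
      have : i = Fin.last 0 := by
        apply Fin.ext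
        have := i.isLt
        simp only [Fin.val_last]
        omega
      subst this
      exact Fin.snoc_last (α := fun _ => Bool) _ _
    rw [e4] at e3
    have e5 : K.f 1 (fun _ => true) = F.f 1 (fun _ => true) := by
      show k⁻¹ * κ 1 (fun _ => true) = _
      rw [e3, h]; ring
    have e6 : K.drift = F.drift := by
      unfold Fam.drift
      rw [e5]
    rw [e6]; ring
  · have h1k : 0 < 1 - k := by linarith
    let F1 : Fam q :=
      { f := fun N w => (1 - k)⁻¹ * (F.f N w - κ N w)
        nn := fun N w => mul_nonneg (inv_nonneg.2 h1k.le) (sub_nonneg.2 (hle N w))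
        one := fun w => by
          show (1 - k)⁻¹ * (F.f 0 w - κ 0 w) = 1
          rw [hkk w, F.one w]; exact inv_mul_cancel₀ h1k.ne'
        cons := fun N w => by
          show (1 - k)⁻¹ * (F.f N w - κ N w)
            = q * ((1 - k)⁻¹ * (F.f (N + 1) (app w true) - κ (N + 1) (app w true)))
              + (1 - q) * ((1 - k)⁻¹ * (F.f (N + 1) (app w false) - κ (N + 1) (app w false)))
          rw [hcons N w, F.cons N w]; ring
        stat := fun N G => by
          have e : ∀ w : W (N + 1), (1 - k)⁻¹ * (F.f (N + 1) w - κ (N + 1) w) * gen q G w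
              = (1 - k)⁻¹ * (F.f (N + 1) w * gen q G w - κ (N + 1) w * gen q G w) :=
            fun w => by ring
          rw [Ex_congr e, Ex_mul_left, Ex_sub, hstat N G, F.stat N G]
          ring }
    refine ⟨K, F1, fun N w => rfl, ?_⟩
    have a1 : K.f 1 (fun _ => true) = k⁻¹ * κ 1 (fun _ => true) := rfl
    have a2 : F1.f 1 (fun _ => true)
      = (1 - k)⁻¹ * (F.f 1 (fun _ => true) - κ 1 (fun _ => true)) := rfl
    unfold Fam.drift
    rw [a1, a2]
    have h2 : 1 - k ≠ 0 := h1k.ne'
    field_simp
    ring

theorem drift_unique (hq : 0 < q) (hq1 : q < 1) (f g : Fam q) : f.drift = g.drift := by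
  obtain ⟨m₀, hm0, hm⟩ := overlap hq hq1
  have hne : (Set.range (fun F : Fam q => F.drift)).Nonempty := ⟨_, f, rfl⟩
  have hba : BddAbove (Set.range (fun F : Fam q => F.drift)) :=
    ⟨q, by rintro _ ⟨F, rfl⟩; exact F.drift_le hq hq1⟩
  have hbb : BddBelow (Set.range (fun F : Fam q => F.drift)) :=
    ⟨0, by rintro _ ⟨F, rfl⟩; exact (F.drift_pos hq hq1).le⟩
  obtain ⟨V, hV⟩ : ∃ V, V = sSup (Set.range (fun F : Fam q => F.drift)) := ⟨_, rfl⟩
  obtain ⟨v, hv⟩ : ∃ v, v = sInf (Set.range (fun F : Fam q => F.drift)) := ⟨_, rfl⟩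
  have hVub : ∀ F : Fam q, F.drift ≤ V := fun F => by
    rw [hV]; exact le_csSup hba ⟨F, rfl⟩
  have hvlb : ∀ F : Fam q, v ≤ F.drift := fun F => by
    rw [hv]; exact csInf_le hbb ⟨F, rfl⟩
  have key : ∀ δ : ℝ, 0 < δ → m₀ * (V - v) ≤ 2 * δ := by
    intro δ hδ
    obtain ⟨_, ⟨F0, rfl⟩, hF0⟩ := exists_lt_of_lt_csSup hne (show V - δ < _ by rw [← hV]; linarith)
    obtain ⟨_, ⟨G0, rfl⟩, hG0⟩ := exists_lt_of_csInf_lt hne (show _ < v + δ by rw [← hv]; linarith)
    simp only at hF0 hG0
    obtain ⟨κ, k1, k2, k3, k4, k5, k6⟩ := meet hq hq1 F0 G0 m₀ (hm F0 G0)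
    have hkk : ∀ w, κ 0 w = κ 0 (fun _ => true) := fun w => congrArg _ (Subsingleton.elim _ _)
    have hmk := k6 (fun _ => true)
    generalize κ 0 (fun _ => true) = k at hkk hmk
    have hk : 0 < k := lt_of_lt_of_le hm0 hmk
    obtain ⟨K, F1, hK, e1⟩ := unique_split hq hq1 F0 κ k hk k1 k2 k4 k5 hkk
    obtain ⟨K', G1, hK', e2⟩ := unique_split hq hq1 G0 κ k hk k1 k3 k4 k5 hkk
    have hKK : K'.drift = K.drift := by
      unfold Fam.drift
      rw [hK, hK']
    rw [hKK] at e2
    have hk1 : k ≤ 1 := by
      have := k2 0 (fun _ => true)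
      rw [hkk, F0.one] at this
      exact this
    have b1 : (1 - k) * F1.drift ≤ (1 - k) * V :=
      mul_le_mul_of_nonneg_left (hVub F1) (by linarith)
    have b2 : (1 - k) * v ≤ (1 - k) * G1.drift :=
      mul_le_mul_of_nonneg_left (hvlb G1) (by linarith)
    have b3 : m₀ * (V - K.drift) ≤ k * (V - K.drift) :=
      mul_le_mul_of_nonneg_right hmk (by linarith [hVub K])
    have b4 : m₀ * (K.drift - v) ≤ k * (K.drift - v) :=
      mul_le_mul_of_nonneg_right hmk (by linarith [hvlb K])
    nlinarith
  have hle : V ≤ v := by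
    by_contra hc
    rw [not_le] at hc
    have h1 : 0 < m₀ * (V - v) := mul_pos hm0 (by linarith)
    have := key (m₀ * (V - v) / 4) (by positivity)
    linarith
  linarith [hVub f, hVub g, hvlb f, hvlb g]

end Pool.Agent.Lib.MP_4c13d6_pr
end
end
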