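import Pool.Agent.Lib.MP_4c13d6_pr.LDefs
import Pool.Agent.Lib.MP_4c13d6_pr.EnergyL
import Pool.Agent.Lib.MP_4c13d6_pr.EntA
import Pool.Agent.Lib.MP_4c13d6_pr.BlocksL
import Pool.Agent.Lib.MP_4c13d6_pr.MKsub
import Pool.Agent.Lib.MP_4c13d6_pr.Basic
import Pool.Agent.Lib.MP_4c13d6_pr.MKg
import Pool.Agent.Lib.MP_4c13d6_pr.Emb

section

section

/-! KL-1: total variation and entropy. -/

open Finset

namespace Pool.Agent.Lib.MP_4c13d6_pr

private theorem kla_pt {x : ℝ} (hx : 0 < x) : (√x - 1) ^ 2 ≤ x * Real.log x - x + 1 := by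
  set r := √x with hr
  have hr0 : 0 < r := Real.sqrt_pos.2 hx
  have hx2 : x = r ^ 2 := (Real.sq_sqrt hx.le).symm
  have hl : Real.log x = 2 * Real.log r := by
    rw [hx2, Real.log_pow]; norm_num
  have h1 := Real.one_sub_inv_le_log_of_pos hr0
  have h2 : 0 ≤ r * Real.log r - r + 1 := by
    have h3 := mul_le_mul_of_nonneg_left h1 hr0.le
    rw [mul_sub, mul_one, mul_inv_cancel₀ hr0.ne'] at h3
    linarith
  rw [hl, hx2]
  nlinarith [mul_nonneg hr0.le h2]

theorem tv_sq_le_ent {X : Type*} [Fintype X] (p : X → ℝ) (hp : IsProb p) (h : X → ℝ)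
    (hh : ∀ x, 0 < h x) (h1 : ∑ x, p x * h x = 1) :
    (∑ x, p x * |h x - 1|) ^ 2 ≤ 4 * Ent p h := by
  obtain ⟨hp0, hp1⟩ := hp
  have hE : Ent p h = ∑ x, p x * (h x * Real.log (h x)) := by
    rw [Ent, h1]; simp
  have hA : ∑ x, p x * (√(h x) - 1) ^ 2 ≤ Ent p h := by
    have h2 : ∑ x, p x * (√(h x) - 1) ^ 2 ≤ ∑ x, p x * (h x * Real.log (h x) - h x + 1) :=
      Finset.sum_le_sum fun x _ => mul_le_mul_of_nonneg_left (kla_pt (hh x)) (hp0 x)
    have h3 : ∑ x, p x * (h x * Real.log (h x) - h x + 1) =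
        ∑ x, p x * (h x * Real.log (h x)) - ∑ x, p x * h x + ∑ x, p x := by
      rw [← Finset.sum_sub_distrib, ← Finset.sum_add_distrib]
      exact Finset.sum_congr rfl fun x _ => by ring
    rw [h3, h1, hp1] at h2
    rw [hE]; linarith
  have hB : ∑ x, p x * (√(h x) + 1) ^ 2 ≤ 4 := by
    have h2 : ∑ x, p x * (√(h x) + 1) ^ 2 ≤ ∑ x, p x * (2 * (h x + 1)) := by
      refine Finset.sum_le_sum fun x _ => mul_le_mul_of_nonneg_left ?_ (hp0 x)
      have := Real.sq_sqrt (hh x).le
      nlinarith [sq_nonneg (√(h x) - 1)]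
    have h3 : ∑ x, p x * (2 * (h x + 1)) = 2 * (∑ x, p x * h x + ∑ x, p x) := by
      rw [← Finset.sum_add_distrib, Finset.mul_sum]
      exact Finset.sum_congr rfl fun x _ => by ring
    rw [h3, h1, hp1] at h2
    linarith
  have hC : (∑ x, p x * |h x - 1|) ^ 2 ≤
      (∑ x, p x * (√(h x) - 1) ^ 2) * ∑ x, p x * (√(h x) + 1) ^ 2 := by
    have h2 := Finset.sum_mul_sq_le_sq_mul_sq Finset.univ
      (fun x => √(p x) * |√(h x) - 1|) (fun x => √(p x) * (√(h x) + 1))
    have e1 : ∀ x, √(p x) * |√(h x) - 1| * (√(p x) * (√(h x) + 1)) = p x * |h x - 1| := by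
      intro x
      have hs := Real.sq_sqrt (hh x).le
      have hq := Real.mul_self_sqrt (hp0 x)
      have : |h x - 1| = |√(h x) - 1| * (√(h x) + 1) := by
        rw [← abs_of_pos (show 0 < √(h x) + 1 by positivity), ← abs_mul]
        congr 1
        nlinarith
      rw [this]
      calc _ = (√(p x) * √(p x)) * (|√(h x) - 1| * (√(h x) + 1)) := by ring
        _ = _ := by rw [hq]
    have e2 : ∀ x, (√(p x) * |√(h x) - 1|) ^ 2 = p x * (√(h x) - 1) ^ 2 := by
      intro x; rw [mul_pow, sq_abs, Real.sq_sqrt (hp0 x)]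
    have e3 : ∀ x, (√(p x) * (√(h x) + 1)) ^ 2 = p x * (√(h x) + 1) ^ 2 := by
      intro x; rw [mul_pow, Real.sq_sqrt (hp0 x)]
    simp only [e1, e2, e3] at h2
    exact h2
  have hA0 : 0 ≤ ∑ x, p x * (√(h x) - 1) ^ 2 :=
    Finset.sum_nonneg fun x _ => mul_nonneg (hp0 x) (sq_nonneg _)
  calc _ ≤ _ := hC
    _ ≤ (∑ x, p x * (√(h x) - 1) ^ 2) * 4 := mul_le_mul_of_nonneg_left hB hA0
    _ ≤ 4 * Ent p h := by linarith

end Pool.Agent.Lib.MP_4c13d6_pr
end

section

/-! KL-2: entropy decay for reversible chains. -/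

open Finset

namespace Pool.Agent.Lib.MP_4c13d6_pr

variable {X : Type*} [Fintype X] [DecidableEq X] {Q : Matrix X X ℝ}

/-- Dirichlet form of a reversible chain -/
noncomputable def DQ (π : X → ℝ) (Q : Matrix X X ℝ) (g : X → ℝ) : ℝ :=
  1 / 2 * ∑ x, ∑ y, π x * Q x y * (g x - g y) ^ 2

section normed

attribute [local instance] Matrix.linftyOpNormedRing Matrix.linftyOpNormedAlgebra

private noncomputable def klbEnt (x y : X) : Matrix X X ℝ →L[ℝ] ℝ :=
  LinearMap.toContinuousLinearMap (Matrix.entryLinearMap ℝ ℝ x y)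

private theorem klb_hasSum (M : Matrix X X ℝ) (x y : X) :
    HasSum (fun n : ℕ => ((n.factorial : ℝ)⁻¹) * (M ^ n) x y) (NormedSpace.exp M x y) := by
  have h := NormedSpace.exp_series_hasSum_exp' (𝕂 := ℝ) M
  exact (klbEnt x y).hasSum h

end normed

private theorem klb_pow (π : X → ℝ) (M : Matrix X X ℝ) (h : ∀ x y, π x * M x y = π y * M y x)
    (n : ℕ) (x y : X) : π x * (M ^ n) x y = π y * (M ^ n) y x := by
  induction n generalizing x y with
  | zero =>
    rw [pow_zero, Matrix.one_apply, Matrix.one_apply]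
    by_cases hxy : x = y
    · rw [hxy]
    · rw [if_neg hxy, if_neg (Ne.symm hxy)]
      ring
  | succ n ih =>
    have e1 : (M ^ (n + 1)) x y = ∑ z, (M ^ n) x z * M z y := by
      rw [pow_succ, Matrix.mul_apply]
    have e2 : (M ^ (n + 1)) y x = ∑ z, M y z * (M ^ n) z x := by
      rw [pow_succ', Matrix.mul_apply]
    rw [e1, e2, Finset.mul_sum, Finset.mul_sum]
    refine Finset.sum_congr rfl fun z _ => ?_
    calc π x * ((M ^ n) x z * M z y) = (π x * (M ^ n) x z) * M z y := by ring
      _ = (π z * (M ^ n) z x) * M z y := by rw [ih]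
      _ = (π z * M z y) * (M ^ n) z x := by ring
      _ = (π y * M y z) * (M ^ n) z x := by rw [h]
      _ = _ := by ring

theorem PP_rev (π : X → ℝ) (h : ∀ x y, π x * Q x y = π y * Q y x) (t : ℝ) (x y : X) :
    π x * PP Q t x y = π y * PP Q t y x := by
  unfold PP
  have h1 : ∀ x y, π x * (t • Q) x y = π y * (t • Q) y x := by
    intro x y
    rw [Matrix.smul_apply, Matrix.smul_apply, smul_eq_mul, smul_eq_mul]
    have := h x y
    calc π x * (t * Q x y) = t * (π x * Q x y) := by ring
      _ = t * (π y * Q y x) := by rw [this]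
      _ = _ := by ring
  have h2 := (klb_hasSum (t • Q) x y).mul_left (π x)
  have h3 := (klb_hasSum (t • Q) y x).mul_left (π y)
  refine h2.unique ?_
  convert h3 using 2 with n
  rename_i n
  have h4 := klb_pow π (t • Q) h1 n x y
  calc π x * (((n.factorial : ℝ)⁻¹) * ((t • Q) ^ n) x y)
      = ((n.factorial : ℝ)⁻¹) * (π x * ((t • Q) ^ n) x y) := by ring
    _ = ((n.factorial : ℝ)⁻¹) * (π y * ((t • Q) ^ n) y x) := by rw [h4]
    _ = _ := by ring

theorem PP_inv (hQ : IsGen Q) (π : X → ℝ) (h : ∀ x y, π x * Q x y = π y * Q y x) (t : ℝ) (y : X) :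
    ∑ x, π x * PP Q t x y = π y := by
  rw [Finset.sum_congr rfl fun x _ => PP_rev π h t x y, ← Finset.mul_sum, PP_row hQ.2, mul_one]

/-- entropy dissipation -/
theorem diss (hQ : IsGen Q) (π : X → ℝ) (hπ : ∀ x, 0 < π x)
    (h : ∀ x y, π x * Q x y = π y * Q y x) (f : X → ℝ) (hf : ∀ x, 0 < f x) :
    ∑ x, π x * ((∑ y, Q x y * f y) * Real.log (f x)) ≤ - (4 * DQ π Q (fun x => √(f x))) := by
  set L : X → ℝ := fun x => Real.log (f x) with hL
  set S : ℝ := ∑ x, π x * ((∑ y, Q x y * f y) * L x) with hS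
  have e1 : S = ∑ x, ∑ y, π x * Q x y * ((f y - f x) * L x) := by
    rw [hS]
    refine Finset.sum_congr rfl fun x _ => ?_
    have h1 : ∑ y, Q x y * f y = ∑ y, Q x y * (f y - f x) := by
      simp only [mul_sub, Finset.sum_sub_distrib]
      rw [← Finset.sum_mul, hQ.2 x]
      ring
    rw [h1, Finset.sum_mul, Finset.mul_sum]
    exact Finset.sum_congr rfl fun y _ => by ring
  have e2 : S = ∑ x, ∑ y, π x * Q x y * ((f x - f y) * L y) := by
    rw [e1, Finset.sum_comm]
    refine Finset.sum_congr rfl fun x _ => Finset.sum_congr rfl fun y _ => ?_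
    rw [h y x]
  have e3 : S + S ≤ ∑ x, ∑ y, π x * Q x y * (-(4 * (√(f x) - √(f y)) ^ 2)) := by
    nth_rewrite 1 [e1]
    rw [e2, ← Finset.sum_add_distrib]
    refine Finset.sum_le_sum fun x _ => ?_
    rw [← Finset.sum_add_distrib]
    refine Finset.sum_le_sum fun y _ => ?_
    rw [← mul_add]
    by_cases hxy : x = y
    · subst hxy
      simp
    · refine mul_le_mul_of_nonneg_left ?_ (mul_nonneg (hπ x).le (hQ.1 x y hxy))
      have h1 := sub_mul_log_ge (hf x) (hf y)
      have h2 : (f y - f x) * L x + (f x - f y) * L y =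
          -((f x - f y) * (Real.log (f x) - Real.log (f y))) := by
        simp only [hL]
        ring
      rw [h2]
      linarith
  have e4 : ∑ x, ∑ y, π x * Q x y * (-(4 * (√(f x) - √(f y)) ^ 2)) =
      -(8 * DQ π Q (fun x => √(f x))) := by
    unfold DQ
    have h1 : ∀ x y, π x * Q x y * (-(4 * (√(f x) - √(f y)) ^ 2)) =
        (-4) * (π x * Q x y * (√(f x) - √(f y)) ^ 2) := fun x y => by ring
    simp only [h1, ← Finset.mul_sum]
    ring
  linarith

private theorem klb_sum_zero (hQ : IsGen Q) (π : X → ℝ)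
    (h : ∀ x y, π x * Q x y = π y * Q y x) (f : X → ℝ) :
    ∑ y, π y * ∑ z, Q y z * f z = 0 := by
  simp only [Finset.mul_sum]
  rw [Finset.sum_comm]
  refine Finset.sum_eq_zero fun z _ => ?_
  have h1 : ∀ y, π y * (Q y z * f z) = (π z * f z) * Q z y := by
    intro y
    calc π y * (Q y z * f z) = (π y * Q y z) * f z := by ring
      _ = (π z * Q z y) * f z := by rw [h]
      _ = _ := by ring
  simp only [h1]
  rw [← Finset.mul_sum, hQ.2 z, mul_zero]

theorem LSI_tv (hQ : IsGen Q) (π : X → ℝ) (hπ : IsProb π) (c : ℝ) (hc : 0 < c)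
    (hπc : ∀ x, c ≤ π x) (h : ∀ x y, π x * Q x y = π y * Q y x) (C : ℝ) (hC : 0 < C)
    (hL : LSI π (DQ π Q) C) {t : ℝ} (ht : 0 ≤ t) (x : X) :
    (∑ y, |PP Q t x y - π y|) ^ 2 ≤ 16 * Real.exp (-4 * t / C) * Real.log (1 / c) := by
  have hπ0 : ∀ x, 0 < π x := fun x => hc.trans_le (hπc x)
  have hc1 : c ≤ 1 := by
    have h1 : π x ≤ ∑ x, π x := Finset.single_le_sum (f := π) (fun x _ => (hπ0 x).le)
      (Finset.mem_univ x)
    rw [hπ.2] at h1
    exact (hπc x).trans h1
  set F : ℝ → X → ℝ := fun s y => 1 / 2 + PP Q s y x / (2 * π x) with hF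
  have hF2 : ∀ s y, F s y = 1 / 2 + PP Q s x y / (2 * π y) := by
    intro s y
    have h1 := PP_rev π h s x y
    have h2 := (hπ0 x).ne'
    have h3 := (hπ0 y).ne'
    simp only [hF]
    congr 1
    field_simp
    linarith
  have hFpos : ∀ s, 0 ≤ s → ∀ y, 0 < F s y := by
    intro s hs y
    have h1 := PP_nonneg hQ.1 hs y x
    have h2 := hπ0 x
    have h3 : 0 ≤ PP Q s y x / (2 * π x) := by positivity
    simp only [hF]
    linarith
  have hFsum : ∀ s, ∑ y, π y * F s y = 1 := by
    intro s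
    have h1 : ∀ y, π y * F s y = π y * (1 / 2) + (π y * PP Q s y x) * (1 / (2 * π x)) := by
      intro y
      simp only [hF]
      ring
    simp only [h1]
    rw [Finset.sum_add_distrib, ← Finset.sum_mul, ← Finset.sum_mul, PP_inv hQ π h, hπ.2]
    have h2 := (hπ0 x).ne'
    field_simp
    norm_num
  have hFder : ∀ s y, HasDerivAt (fun s => F s y) (∑ z, Q y z * F s z) s := by
    intro s y
    have h1 := ((PP_deriv' Q y x s).div_const (2 * π x)).const_add (1 / 2)
    have h2 : ∑ z, Q y z * F s z = (∑ z, Q y z * PP Q s z x) / (2 * π x) := by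
      simp only [hF, mul_add, Finset.sum_add_distrib]
      rw [← Finset.sum_mul, hQ.2 y, zero_mul, zero_add, Finset.sum_div]
      exact Finset.sum_congr rfl fun z _ => by ring
    rw [h2]
    exact h1
  set H : ℝ → ℝ := fun s => ∑ y, π y * (F s y * Real.log (F s y)) with hH
  have hHent : ∀ s, Ent π (F s) = H s := by
    intro s
    unfold Ent
    rw [hFsum s, Real.log_one, mul_zero, sub_zero]
  have hHder : ∀ s, 0 ≤ s → HasDerivAt H
      (∑ y, π y * ((∑ z, Q y z * F s z) * Real.log (F s y))) s := by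
    intro s hs
    have h1 : ∀ y, HasDerivAt (fun s => π y * (F s y * Real.log (F s y)))
        (π y * ((Real.log (F s y) + 1) * (∑ z, Q y z * F s z))) s := by
      intro y
      refine HasDerivAt.const_mul _ ?_
      exact (Real.hasDerivAt_mul_log (hFpos s hs y).ne').comp s (hFder s y)
    have h2 : HasDerivAt H (∑ y, π y * ((Real.log (F s y) + 1) * (∑ z, Q y z * F s z))) s :=
      HasDerivAt.fun_sum fun y _ => h1 y
    have h3 : ∑ y, π y * ((Real.log (F s y) + 1) * (∑ z, Q y z * F s z)) =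
        ∑ y, π y * ((∑ z, Q y z * F s z) * Real.log (F s y)) := by
      have h4 := klb_sum_zero hQ π h (F s)
      have h5 : ∀ y, π y * ((Real.log (F s y) + 1) * (∑ z, Q y z * F s z)) =
          π y * ((∑ z, Q y z * F s z) * Real.log (F s y)) + π y * ∑ z, Q y z * F s z := by
        intro y
        ring
      simp only [h5]
      rw [Finset.sum_add_distrib, h4, add_zero]
    rw [h3] at h2
    exact h2
  have hHle : ∀ s, 0 ≤ s →
      ∑ y, π y * ((∑ z, Q y z * F s z) * Real.log (F s y)) ≤ -(4 / C * H s) := by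
    intro s hs
    have h1 := diss hQ π hπ0 h (F s) (hFpos s hs)
    have h2 := hL (fun y => √(F s y)) (fun y => Real.sqrt_pos.2 (hFpos s hs y))
    have h3 : (fun y => (√(F s y)) ^ 2) = F s := by
      funext y
      exact Real.sq_sqrt (hFpos s hs y).le
    simp only [h3] at h2
    rw [hHent] at h2
    have h4 : H s / C ≤ DQ π Q (fun y => √(F s y)) := by
      rw [div_le_iff₀ hC]
      linarith
    have h5 : 4 / C * H s = 4 * (H s / C) := by ring
    rw [h5]
    linarith
  set G : ℝ → ℝ := fun s => Real.exp (4 * s / C) * H s with hG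
  have hGder : ∀ s, 0 ≤ s → HasDerivAt G (Real.exp (4 * s / C) * (4 / C) * H s +
      Real.exp (4 * s / C) * (∑ y, π y * ((∑ z, Q y z * F s z) * Real.log (F s y)))) s := by
    intro s hs
    have h1 : HasDerivAt (fun s : ℝ => 4 * s / C) (4 / C) s := by
      have := ((hasDerivAt_id s).const_mul 4).div_const C
      simpa using this
    exact h1.exp.mul (hHder s hs)
  have hanti : AntitoneOn G (Set.Ici 0) := by
    refine antitoneOn_of_deriv_nonpos (convex_Ici 0) ?_ ?_ ?_
    · exact fun s hs => (hGder s hs).continuousAt.continuousWithinAt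
    · intro s hs
      rw [interior_Ici] at hs
      exact (hGder s (le_of_lt hs)).differentiableAt.differentiableWithinAt
    · intro s hs
      rw [interior_Ici] at hs
      have hs0 : 0 ≤ s := le_of_lt hs
      rw [(hGder s hs0).deriv]
      have h1 := mul_le_mul_of_nonneg_left (hHle s hs0) (Real.exp_pos (4 * s / C)).le
      linarith
  have hG0 := hanti (Set.mem_Ici.2 le_rfl) (Set.mem_Ici.2 ht) ht
  have hH0 : H 0 ≤ Real.log (1 / c) := by
    have h1 : ∀ y, F 0 y ≤ 1 / c := by
      intro y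
      have h2 : PP Q 0 y x ≤ 1 := by
        rw [PP_zero, Matrix.one_apply]
        split_ifs <;> norm_num
      have h3 : PP Q 0 y x / (2 * π x) ≤ 1 / (2 * c) := by
        have := hπc x
        exact div_le_div₀ zero_le_one h2 (by positivity) (by linarith)
      have h4 : 1 / 2 + 1 / (2 * c) ≤ 1 / c := by
        have h5 : 1 ≤ 1 / c := by
          rw [le_div_iff₀ hc]
          linarith
        have h6 : 1 / (2 * c) = 1 / c / 2 := by
          field_simp
        rw [h6]
        linarith
      simp only [hF]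
      linarith
    have h2 : ∀ y, π y * (F 0 y * Real.log (F 0 y)) ≤ (π y * F 0 y) * Real.log (1 / c) := by
      intro y
      have h3 := hFpos 0 le_rfl y
      have h4 := Real.log_le_log h3 (h1 y)
      have h5 : 0 ≤ π y * F 0 y := mul_nonneg (hπ0 y).le h3.le
      have h6 := mul_le_mul_of_nonneg_left h4 h5
      linarith
    have h3 := Finset.sum_le_sum fun (y : X) (_ : y ∈ Finset.univ) => h2 y
    rw [← Finset.sum_mul, hFsum 0, one_mul] at h3
    exact h3
  have hHt : H t ≤ Real.exp (-4 * t / C) * Real.log (1 / c) := by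
    simp only [hG, mul_zero, zero_div, Real.exp_zero, one_mul] at hG0
    have h1 : Real.exp (4 * t / C) * H t ≤ Real.log (1 / c) := hG0.trans hH0
    have h2 := mul_le_mul_of_nonneg_left h1 (Real.exp_pos (-4 * t / C)).le
    have h3 : Real.exp (-4 * t / C) * (Real.exp (4 * t / C) * H t) = H t := by
      rw [← mul_assoc, ← Real.exp_add]
      have : -4 * t / C + 4 * t / C = 0 := by ring
      rw [this, Real.exp_zero, one_mul]
    linarith
  have htv := tv_sq_le_ent π hπ (F t) (hFpos t ht) (hFsum t)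
  rw [hHent] at htv
  have hterm : ∀ y, π y * |F t y - 1| = 1 / 2 * |PP Q t x y - π y| := by
    intro y
    have h1 : F t y - 1 = (1 / (2 * π y)) * (PP Q t x y - π y) := by
      rw [hF2]
      have := (hπ0 y).ne'
      field_simp
      ring
    have h2 := hπ0 y
    rw [h1, abs_mul, abs_of_pos (by positivity)]
    field_simp
  simp only [hterm] at htv
  rw [← Finset.mul_sum] at htv
  linarith

end Pool.Agent.Lib.MP_4c13d6_pr
end

section

/-! GE-1: blocks and long healthy intervals. -/

open Finset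

namespace Pool.Agent.Lib.MP_4c13d6_pr

variable {q : ℝ}

theorem exists_blocks (K m : ℕ) (h : 2 * K + 2 ≤ m) :
    ∃ ls : List ℕ, ls.sum = m ∧ ∀ l ∈ ls, 2 * K + 2 ≤ l ∧ l ≤ 4 * K + 4 := by
  have hr : m % (2 * K + 2) < 2 * K + 2 := Nat.mod_lt _ (by omega)
  have hd := Nat.mod_add_div m (2 * K + 2)
  have hk : 1 ≤ m / (2 * K + 2) := (Nat.one_le_div_iff (by omega)).mpr h
  obtain ⟨k, hk'⟩ : ∃ k, m / (2 * K + 2) = k + 1 := ⟨m / (2 * K + 2) - 1, by omega⟩
  refine ⟨(2 * K + 2 + m % (2 * K + 2)) :: List.replicate k (2 * K + 2), ?_, ?_⟩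
  · rw [List.sum_cons, List.sum_replicate, smul_eq_mul]
    rw [hk'] at hd
    nlinarith [hd]
  · intro l hl
    rw [List.mem_cons] at hl
    rcases hl with rfl | hl
    · omega
    · rw [List.eq_of_mem_replicate hl]
      omega

private theorem GB_fail (w w' : ℕ → Bool) (ls : List ℕ) : ∀ (y : ℕ), ¬ GB ls y w' →
    ∃ y' l, l ∈ ls ∧ y ≤ y' ∧ y' + l ≤ y + ls.sum ∧ (∀ i, y' ≤ i → i < y' + l → w' i = false) ∧
      (GB ls y w → ∃ i, y' ≤ i ∧ i < y' + l ∧ w i = true) := by
  induction ls with
  | nil => intro y h; exact absurd trivial h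
  | cons l ls ih =>
    intro y h
    by_cases h1 : ∃ i, y ≤ i ∧ i < y + l ∧ w' i = true
    · have h2 : ¬ GB ls (y + l) w' := fun h3 => h ⟨h1, h3⟩
      obtain ⟨y', l', hl', hy, hs, ha, hg⟩ := ih (y + l) h2
      refine ⟨y', l', List.mem_cons_of_mem _ hl', by omega, ?_, ha, fun hw => hg hw.2⟩
      rw [List.sum_cons]; omega
    · refine ⟨y, l, List.mem_cons_self, le_rfl, ?_, ?_, fun hw => hw.1⟩
      · rw [List.sum_cons]; omega
      · intro i hi1 hi2
        by_contra hc
        exact h1 ⟨i, hi1, hi2, by simpa using hc⟩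

private theorem far_block (bL bR : Bool) (K : ℕ) {m : ℕ} (w : W m) (y l : ℕ) (hl : 2 * K + 2 ≤ l)
    (hy : y + l ≤ m) (h : ∀ k, y + 1 ≤ k → k + 3 ≤ y + l → val w k = false) :
    far bL bR w (y + K) K := by
  intro k hk
  rw [abs_lt] at hk
  push_cast at hk
  have h0 : 0 ≤ k := by omega
  obtain ⟨n, rfl⟩ : ∃ n : ℕ, k = n := ⟨k.toNat, by omega⟩
  rw [ev_nat w n (by omega)]
  exact h n (by omega) (by omega)

/-- an empty block gives a long healthy interval -/
theorem far_of_not_Gd (bL bR : Bool) (K : ℕ) (ls : List ℕ) {m : ℕ} (hm : ls.sum = m)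
    (hls : ∀ l ∈ ls, 2 * K + 2 ≤ l) (w : W m) (hw : ¬ Gd ls w) :
    ∃ x, x < m ∧ far bL bR w x K := by
  obtain ⟨y, l, hl, h0, hs, ha, -⟩ := GB_fail (val w) (val w) ls 0 hw
  have hl2 := hls l hl
  refine ⟨y + K, by omega, far_block bL bR K w y l hl2 (by omega) ?_⟩
  intro k h1 h2
  exact ha k (by omega) (by omega)

/-- a legal move leaving the good event needs a long healthy interval -/
theorem far_of_exit (bL bR : Bool) (K : ℕ) (ls : List ℕ) {m : ℕ} (hm : ls.sum = m)
    (hls : ∀ l ∈ ls, 2 * K + 2 ≤ l) (w : W m) (hw : Gd ls w) (i : Fin m) (b : Bool)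
    (hk : kc bL bR w (i : ℕ)) (hb : ¬ Gd ls (Function.update w i b)) :
    ∃ x, x < m ∧ far bL bR w x K := by
  obtain ⟨y, l, hl, h0, hs, ha, hg⟩ := GB_fail (val w) (val (Function.update w i b)) ls 0 hb
  have hl2 := hls l hl
  obtain ⟨j, hj1, hj2, hj3⟩ := hg hw
  have hji : j = (i : ℕ) := by
    by_contra hne
    have := ha j hj1 hj2
    rw [val_upd, if_neg hne, hj3] at this
    exact Bool.noConfusion this
  subst hji
  have hoth : ∀ k, y ≤ k → k < y + l → k ≠ (i : ℕ) → val w k = false := by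
    intro k h1 h2 h3
    have := ha k h1 h2
    rwa [val_upd, if_neg h3] at this
  have him := i.isLt
  have hend : (i : ℕ) = y ∨ (i : ℕ) + 1 = y + l := by
    by_contra hc
    push Not at hc
    rcases hk with hk | hk
    · have e : ((i : ℕ) : ℤ) - 1 = (((i : ℕ) - 1 : ℕ) : ℤ) := by omega
      rw [e, ev_nat w _ (by omega), hoth _ (by omega) (by omega) (by omega)] at hk
      exact Bool.noConfusion hk
    · have e : ((i : ℕ) : ℤ) + 1 = (((i : ℕ) + 1 : ℕ) : ℤ) := by omega
      rw [e, ev_nat w _ (by omega), hoth _ (by omega) (by omega) (by omega)] at hk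
      exact Bool.noConfusion hk
  refine ⟨y + K, by omega, far_block bL bR K w y l hl2 (by omega) ?_⟩
  intro k h1 h2
  exact hoth k (by omega) (by omega) (by omega)

open Classical in
/-- exit rate of the good event -/
theorem exit_rate (hq : 0 < q) (hq1 : q < 1) (bL bR : Bool) (K : ℕ) (ls : List ℕ) {m : ℕ}
    (hm : ls.sum = m) (hls : ∀ l ∈ ls, 2 * K + 2 ≤ l) (w : W m) (hw : Gd ls w) :
    ∑ z : W m, (if Gd ls z then 0 else LM q bL bR m w z)
      ≤ m * ∑ x ∈ range m, (if far bL bR w x K then 1 else 0) := by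
  have e1 : ∑ z : W m, (if Gd ls z then 0 else LM q bL bR m w z)
      = LL q bL bR (fun z => if Gd ls z then (0 : ℝ) else 1) w := by
    rw [← LM_mul]
    apply Finset.sum_congr rfl
    intro z _
    split_ifs <;> ring
  rw [e1]
  unfold LL
  have hS : (0 : ℝ) ≤ ∑ x ∈ range m, (if far bL bR w x K then (1 : ℝ) else 0) :=
    Finset.sum_nonneg fun x _ => by split_ifs <;> norm_num
  have key : ∀ i : Fin m, (if kc bL bR w (i : ℕ) then
      q * (fun z => if Gd ls z then (0 : ℝ) else 1) (Function.update w i true)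
        + (1 - q) * (fun z => if Gd ls z then (0 : ℝ) else 1) (Function.update w i false)
        - (fun z => if Gd ls z then (0 : ℝ) else 1) w else 0)
      ≤ ∑ x ∈ range m, (if far bL bR w x K then (1 : ℝ) else 0) := by
    intro i
    by_cases hk : kc bL bR w (i : ℕ)
    · rw [if_pos hk]
      simp only [if_pos hw, sub_zero]
      by_cases hb : Gd ls (Function.update w i true) ∧ Gd ls (Function.update w i false)
      · rw [if_pos hb.1, if_pos hb.2]
        simp only [mul_zero, add_zero]
        exact hS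
      · obtain ⟨b, hb⟩ : ∃ b, ¬ Gd ls (Function.update w i b) := by
          by_contra hc
          push Not at hc
          exact hb ⟨hc true, hc false⟩
        obtain ⟨x, hx, hf⟩ := far_of_exit bL bR K ls hm hls w hw i b hk hb
        have h1 : (1 : ℝ) ≤ ∑ x ∈ range m, (if far bL bR w x K then (1 : ℝ) else 0) := by
          have h2 := Finset.single_le_sum
            (f := fun x => if far bL bR w x K then (1 : ℝ) else 0)
            (fun x _ => by split_ifs <;> norm_num) (Finset.mem_range.mpr hx)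
          simpa [hf] using h2
        refine le_trans ?_ h1
        have h3 : (if Gd ls (Function.update w i true) then (0 : ℝ) else 1) ≤ 1 := by
          split_ifs <;> norm_num
        have h4 : (if Gd ls (Function.update w i false) then (0 : ℝ) else 1) ≤ 1 := by
          split_ifs <;> norm_num
        nlinarith [mul_le_mul_of_nonneg_left h3 hq.le,
          mul_le_mul_of_nonneg_left h4 (sub_nonneg.mpr hq1.le)]
    · rw [if_neg hk]
      exact hS
  calc _ ≤ ∑ _i : Fin m, ∑ x ∈ range m, (if far bL bR w x K then (1 : ℝ) else 0) :=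
        Finset.sum_le_sum fun i _ => key i
    _ = _ := by
        rw [Finset.sum_const, Finset.card_univ, Fintype.card_fin, nsmul_eq_mul]

/-- a good configuration has an infected site -/
theorem ok_of_Gd (bL bR : Bool) (ls : List ℕ) {m : ℕ} (hls : ls ≠ []) (hm : ls.sum = m) (w : W m)
    (hw : Gd ls w) : ok bL bR w := by
  cases ls with
  | nil => exact absurd rfl hls
  | cons l ls =>
    obtain ⟨⟨i, h1, h2, h3⟩, -⟩ := hw
    have him : i < m := by
      by_contra hc
      rw [val_ge (by omega)] at h3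
      exact Bool.noConfusion h3
    rw [val_lt him] at h3
    exact Or.inr (Or.inr ⟨_, h3⟩)

end Pool.Agent.Lib.MP_4c13d6_pr
end
end

section

section

/-! LS-6: the reflected chain on the good event mixes fast. -/

open Finset

namespace Pool.Agent.Lib.MP_4c13d6_pr

variable {q : ℝ}

private theorem ls_sum_sub {X : Type*} [Fintype X] (P : X → Prop) [DecidablePred P]
    (f : X → ℝ) : ∑ x : {x // P x}, f x.1 = ∑ x, if P x then f x else 0 := by
  rw [← Finset.sum_filter]
  exact (Finset.sum_subtype _ (by simp) f).symm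

open Classical in
/-- weighted sums against `pG` -/
private theorem ls_pG_sum (ls : List ℕ) {m : ℕ} (φ : W m → ℝ) :
    ∑ w, pG q ls w * φ w = (∑ v : W m, if Gd ls v then wt q v else 0)⁻¹ *
      Ex q (fun w => if Gd ls w then φ w else 0) := by
  unfold Ex
  rw [Finset.mul_sum]
  refine Finset.sum_congr rfl fun w _ => ?_
  unfold pG
  dsimp only
  by_cases h : Gd ls w
  · rw [if_pos h, if_pos h, div_eq_mul_inv]; ring
  · rw [if_neg h, if_neg h]; ring

open Classical in
theorem DQ_refl (hq : 0 < q) (hq1 : q < 1) (bL bR : Bool) (ls : List ℕ) {m : ℕ} (g : W m → ℝ) :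
    DG q bL bR ls g = DQ (fun x : {w : W m // Gd ls w} => pG q ls x.1)
      (reflM (Gd ls) (LM q bL bR m)) (fun x => g x.1) := by
  -- the right hand side
  have h1 : DQ (fun x : {w : W m // Gd ls w} => pG q ls x.1)
      (reflM (Gd ls) (LM q bL bR m)) (fun x => g x.1) =
      1 / 2 * ∑ x : {w : W m // Gd ls w}, pG q ls x.1 * ∑ i : Fin m,
        (if kc bL bR x.1 (i : ℕ) then
          q * (if Gd ls (Function.update x.1 i true) then
            (g x.1 - g (Function.update x.1 i true)) ^ 2 else 0) +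
          (1 - q) * (if Gd ls (Function.update x.1 i false) then
            (g x.1 - g (Function.update x.1 i false)) ^ 2 else 0) else 0) := by
    unfold DQ
    congr 1
    refine Finset.sum_congr rfl fun x _ => ?_
    have e1 : ∀ y : {w : W m // Gd ls w}, pG q ls x.1 *
        reflM (Gd ls) (LM q bL bR m) x y * (g x.1 - g y.1) ^ 2 =
        pG q ls x.1 * (LM q bL bR m x.1 y.1 * (g x.1 - g y.1) ^ 2) := by
      intro y
      unfold reflM
      split_ifs with h
      · subst h; simp
      · ring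
    rw [Finset.sum_congr rfl fun y _ => e1 y, ← Finset.mul_sum]
    congr 1
    rw [ls_sum_sub (Gd ls) (fun y => LM q bL bR m x.1 y * (g x.1 - g y) ^ 2)]
    have e2 : ∀ y : W m, (if Gd ls y then LM q bL bR m x.1 y * (g x.1 - g y) ^ 2 else 0) =
        LM q bL bR m x.1 y * (if Gd ls y then (g x.1 - g y) ^ 2 else 0) := by
      intro y
      split_ifs <;> ring
    rw [Finset.sum_congr rfl fun y _ => e2 y,
      LM_mul (fun y => if Gd ls y then (g x.1 - g y) ^ 2 else 0)]
    unfold LL
    refine Finset.sum_congr rfl fun i _ => ?_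
    dsimp only
    have e3 : (if Gd ls x.1 then (g x.1 - g x.1) ^ 2 else 0) = 0 := by simp
    rw [e3, sub_zero]
  rw [h1]
  have h2 : ∑ x : {w : W m // Gd ls w}, pG q ls x.1 * ∑ i : Fin m,
        (if kc bL bR x.1 (i : ℕ) then
          q * (if Gd ls (Function.update x.1 i true) then
            (g x.1 - g (Function.update x.1 i true)) ^ 2 else 0) +
          (1 - q) * (if Gd ls (Function.update x.1 i false) then
            (g x.1 - g (Function.update x.1 i false)) ^ 2 else 0) else 0) =
      ∑ i : Fin m, ∑ x : W m, pG q ls x *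
        (if kc bL bR x (i : ℕ) then
          q * (if Gd ls (Function.update x i true) then
            (g x - g (Function.update x i true)) ^ 2 else 0) +
          (1 - q) * (if Gd ls (Function.update x i false) then
            (g x - g (Function.update x i false)) ^ 2 else 0) else 0) := by
    rw [ls_sum_sub (Gd ls) (fun x : W m => pG q ls x * ∑ i : Fin m,
        (if kc bL bR x (i : ℕ) then
          q * (if Gd ls (Function.update x i true) then
            (g x - g (Function.update x i true)) ^ 2 else 0) +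
          (1 - q) * (if Gd ls (Function.update x i false) then
            (g x - g (Function.update x i false)) ^ 2 else 0) else 0)), Finset.sum_comm]
    refine Finset.sum_congr rfl fun x _ => ?_
    rw [← Finset.mul_sum]
    split_ifs with h
    · rfl
    · have : pG q ls x = 0 := by unfold pG; rw [if_neg h]
      rw [this, zero_mul]
  rw [h2]
  unfold DG
  rw [Finset.mul_sum, Finset.mul_sum]
  refine Finset.sum_congr rfl fun i _ => ?_
  rw [ls_pG_sum, ls_pG_sum]
  set Z := ∑ v : W m, if Gd ls v then wt q v else 0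
  have h3 : ∀ (a b : ℝ), q * (1 - q) * a = 1 / 2 * b → q * (1 - q) * (Z⁻¹ * a) =
      1 / 2 * (Z⁻¹ * b) := by
    intro a b hab
    calc q * (1 - q) * (Z⁻¹ * a) = Z⁻¹ * (q * (1 - q) * a) := by ring
      _ = Z⁻¹ * (1 / 2 * b) := by rw [hab]
      _ = _ := by ring
  apply h3
  rw [Ex_upd hq hq1 i (fun w => if Gd ls w then
      (if kc bL bR w (i : ℕ) ∧ Gd ls (Function.update w i true) ∧
        Gd ls (Function.update w i false) then (dl g i w) ^ 2 else 0) else 0),
    Ex_upd hq hq1 i (fun w => if Gd ls w then (if kc bL bR w (i : ℕ) then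
          q * (if Gd ls (Function.update w i true) then
            (g w - g (Function.update w i true)) ^ 2 else 0) +
          (1 - q) * (if Gd ls (Function.update w i false) then
            (g w - g (Function.update w i false)) ^ 2 else 0) else 0) else 0),
    ← Ex_mul_left, ← Ex_mul_left]
  apply Ex_congr
  intro w
  simp only [Function.update_idem, dl, kc_upd]
  by_cases hk : kc bL bR w (i : ℕ) <;> by_cases ht : Gd ls (Function.update w i true) <;>
    by_cases hf : Gd ls (Function.update w i false) <;> (simp [hk, ht, hf]; try ring)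

private theorem ls_wt_ge (hq : 0 < q) (hq1 : q < 1) {m : ℕ} (w : W m) :
    (min q (1 - q)) ^ m ≤ wt q w := by
  unfold wt
  have h0 : 0 ≤ min q (1 - q) := le_min hq.le (by linarith)
  calc (min q (1 - q)) ^ m = ∏ _i : Fin m, min q (1 - q) := by simp
    _ ≤ _ := by
      apply Finset.prod_le_prod
      · intro i _; exact h0
      · intro i _
        split_ifs
        · exact min_le_left _ _
        · exact min_le_right _ _

open Classical in
theorem refl_tv (hq : 0 < q) (hq1 : q < 1) : ∃ C : ℝ, 0 < C ∧ ∀ (bL bR : Bool) (B : ℕ)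
    (ls : List ℕ) (m : ℕ), (∀ l ∈ ls, 1 ≤ l ∧ l ≤ B) → ls.sum = m → 1 ≤ m →
    ∀ (x : {w : W m // Gd ls w}) (t : ℝ), 0 ≤ t →
      (∑ y : {w : W m // Gd ls w}, |PP (reflM (Gd ls) (LM q bL bR m)) t x y - pG q ls y.1|) ^ 2
        ≤ C * m * Real.exp (-t / (C * B ^ 3)) := by
  obtain ⟨C0, hC0, hL⟩ := blocks_LSI hq hq1
  set κ : ℝ := min q (1 - q) with hκ
  have hκ0 : 0 < κ := lt_min hq (by linarith)
  have hκ1 : κ < 1 := (min_le_left _ _).trans_lt hq1
  have hlog : 0 < Real.log (1 / κ) := Real.log_pos (by rw [lt_div_iff₀ hκ0, one_mul]; exact hκ1)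
  refine ⟨max (16 * Real.log (1 / κ)) (C0 / 4) + 1, by positivity, ?_⟩
  intro bL bR B ls m hls hsum hm x t ht
  set C : ℝ := max (16 * Real.log (1 / κ)) (C0 / 4) + 1 with hC
  have hCpos : 0 < C := by positivity
  have hC1 : 16 * Real.log (1 / κ) ≤ C := (le_max_left _ _).trans (le_add_of_nonneg_right zero_le_one)
  have hC2 : C0 ≤ 4 * C := by
    have : C0 / 4 ≤ C := (le_max_right _ _).trans (le_add_of_nonneg_right zero_le_one)
    rw [div_le_iff₀ (by norm_num)] at this
    linarith
  have hB : 1 ≤ B := by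
    rcases ls with _ | ⟨l, ls'⟩
    · simp at hsum; omega
    · have := hls l (by simp)
      omega
  have hB' : (1 : ℝ) ≤ B := by exact_mod_cast hB
  have hB3 : (0 : ℝ) < (B : ℝ) ^ 3 := by positivity
  -- the measure
  set π : {w : W m // Gd ls w} → ℝ := fun y => pG q ls y.1 with hπ
  have hp := pG_prob hq hq1 ls (fun l hl => (hls l hl).1) hsum
  have hpG0 : ∀ w : W m, ¬ Gd ls w → pG q ls w = 0 := by
    intro w hw; unfold pG; rw [if_neg hw]
  have hsumG : ∀ f : W m → ℝ, ∑ y : {w : W m // Gd ls w}, pG q ls y.1 * f y.1 =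
      ∑ w, pG q ls w * f w := by
    intro f
    rw [ls_sum_sub (Gd ls) (fun w => pG q ls w * f w)]
    refine Finset.sum_congr rfl fun w _ => ?_
    split_ifs with h
    · rfl
    · rw [hpG0 w h, zero_mul]
  have hprob : IsProb π := by
    refine ⟨fun y => hp.1 y.1, ?_⟩
    have := hsumG (fun _ => 1)
    simp only [mul_one] at this
    rw [hπ, this, hp.2]
  set Z := ∑ v : W m, if Gd ls v then wt q v else 0 with hZ
  have hZpos : 0 < Z := by
    apply Finset.sum_pos'
    · intro v _
      split_ifs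
      · exact (wt_pos hq hq1 v).le
      · exact le_refl _
    · exact ⟨x.1, Finset.mem_univ _, by rw [if_pos x.2]; exact wt_pos hq hq1 x.1⟩
  have hZ1 : Z ≤ 1 := by
    rw [← sum_wt q m]
    apply Finset.sum_le_sum
    intro v _
    split_ifs
    · exact le_refl _
    · exact (wt_pos hq hq1 v).le
  have hpGeq : ∀ y : {w : W m // Gd ls w}, π y = wt q y.1 / Z := by
    intro y
    simp only [hπ]
    unfold pG
    rw [if_pos y.2]
  have hc : ∀ y, κ ^ m ≤ π y := by
    intro y
    rw [hpGeq]
    refine (ls_wt_ge hq hq1 y.1).trans ?_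
    rw [le_div_iff₀ hZpos]
    nlinarith [(wt_pos hq hq1 y.1)]
  have hrev : ∀ y z, π y * reflM (Gd ls) (LM q bL bR m) y z =
      π z * reflM (Gd ls) (LM q bL bR m) z y := by
    intro y z
    by_cases h : y = z
    · rw [h]
    · have h' : ¬ z = y := fun e => h e.symm
      rw [hpGeq, hpGeq]
      unfold reflM
      rw [if_neg h, if_neg h']
      have := LM_rev (bL := bL) (bR := bR) hq hq1 y.1 z.1
      rw [div_mul_eq_mul_div, div_mul_eq_mul_div, this]
  have hgen : IsGen (reflM (Gd ls) (LM q bL bR m)) := reflM_gen (Gd ls) (LM_gen hq hq1)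
  have hLSI : LSI π (DQ π (reflM (Gd ls) (LM q bL bR m))) (C0 * B ^ 3) := by
    intro g hg
    let g' : W m → ℝ := fun w => if h : Gd ls w then g ⟨w, h⟩ else 1
    have hg' : ∀ w, 0 < g' w := by
      intro w
      simp only [g']
      split_ifs with h
      · exact hg _
      · norm_num
    have hgg : ∀ y : {w : W m // Gd ls w}, g' y.1 = g y := by
      intro y
      simp only [g']
      rw [dif_pos y.2]
    have h1 := hL bL bR B ls m hls hsum g' hg'
    have h2 : Ent (pG q ls) (fun w => g' w ^ 2) = Ent π (fun y => g y ^ 2) := by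
      unfold Ent
      have a1 : ∑ y, π y * (g y ^ 2 * Real.log (g y ^ 2)) =
          ∑ w, pG q ls w * (g' w ^ 2 * Real.log (g' w ^ 2)) := by
        rw [← hsumG (fun w => g' w ^ 2 * Real.log (g' w ^ 2))]
        refine Finset.sum_congr rfl fun y _ => ?_
        rw [hgg]
      have a2 : ∑ y, π y * g y ^ 2 = ∑ w, pG q ls w * g' w ^ 2 := by
        rw [← hsumG (fun w => g' w ^ 2)]
        refine Finset.sum_congr rfl fun y _ => ?_
        rw [hgg]
      rw [a1, a2]
    have h3 : DG q bL bR ls g' = DQ π (reflM (Gd ls) (LM q bL bR m)) g := by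
      rw [DQ_refl hq hq1]
      congr 1
      funext y
      exact hgg y
    rw [h2, h3] at h1
    exact h1
  have hfin := LSI_tv hgen π hprob (κ ^ m) (pow_pos hκ0 m) hc hrev (C0 * B ^ 3)
    (by positivity) hLSI ht x
  refine hfin.trans ?_
  have hlogm : Real.log (1 / κ ^ m) = m * Real.log (1 / κ) := by
    rw [one_div, one_div, ← inv_pow, Real.log_pow]
  rw [hlogm]
  have hm' : (0 : ℝ) ≤ m := Nat.cast_nonneg m
  have hexp : Real.exp (-4 * t / (C0 * B ^ 3)) ≤ Real.exp (-t / (C * B ^ 3)) := by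
    apply Real.exp_le_exp.2
    have : t / (C * B ^ 3) ≤ 4 * t / (C0 * B ^ 3) := by
      rw [div_le_div_iff₀ (by positivity) (by positivity)]
      have : t * (C0 * B ^ 3) ≤ t * (4 * C * B ^ 3) := by
        apply mul_le_mul_of_nonneg_left _ ht
        exact mul_le_mul_of_nonneg_right hC2 hB3.le
      linarith
    have e1 : -4 * t / (C0 * B ^ 3) = -(4 * t / (C0 * B ^ 3)) := by ring
    have e2 : -t / (C * B ^ 3) = -(t / (C * B ^ 3)) := by ring
    rw [e1, e2]
    linarith
  calc 16 * Real.exp (-4 * t / (C0 * B ^ 3)) * (m * Real.log (1 / κ))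
      = (16 * Real.log (1 / κ)) * m * Real.exp (-4 * t / (C0 * B ^ 3)) := by ring
    _ ≤ C * m * Real.exp (-4 * t / (C0 * B ^ 3)) := by
        apply mul_le_mul_of_nonneg_right _ (Real.exp_pos _).le
        exact mul_le_mul_of_nonneg_right hC1 hm'
    _ ≤ C * m * Real.exp (-t / (C * B ^ 3)) := by
        apply mul_le_mul_of_nonneg_left hexp
        positivity

end Pool.Agent.Lib.MP_4c13d6_pr
end

section

/-! AS-1: total variation from a bound for the gaps. -/

open Finset

namespace Pool.Agent.Lib.MP_4c13d6_pr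

variable {q : ℝ}

section abstract_part

variable {X : Type*} [Fintype X] [DecidableEq X] {Q : Matrix X X ℝ} (G : X → Prop)
  [DecidablePred G]

omit [DecidableEq X] in
private theorem ua_split (g : X → ℝ) :
    ∑ z, g z = ∑ y : {x // G x}, g y.1 + ∑ z, (if G z then 0 else g z) := by
  have h1 : ∑ y : {x // G x}, g y.1 = ∑ z, (if G z then g z else 0) := by
    rw [← Finset.sum_filter]
    exact (Finset.sum_subtype (Finset.univ.filter G) (by simp) g).symm
  rw [h1, ← Finset.sum_add_distrib]
  refine Finset.sum_congr rfl fun z _ => ?_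
  split_ifs
  · rw [add_zero]
  · rw [zero_add]

omit [DecidableEq X] in
private theorem ua_conv (P1 P2 : Matrix X X ℝ) (π : X → ℝ) (w : X) (h0 : ∀ z, 0 ≤ P1 w z)
    (h1 : ∑ z, P1 w z = 1) :
    ∑ z, |(P1 * P2) w z - π z| ≤ ∑ x, P1 w x * ∑ z, |P2 x z - π z| := by
  have h2 : ∀ z, |(P1 * P2) w z - π z| ≤ ∑ x, P1 w x * |P2 x z - π z| := by
    intro z
    have h3 : (P1 * P2) w z - π z = ∑ x, P1 w x * (P2 x z - π z) := by
      simp only [mul_sub, Finset.sum_sub_distrib, ← Finset.sum_mul, h1, one_mul, Matrix.mul_apply]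
    rw [h3]
    refine (Finset.abs_sum_le_sum_abs _ _).trans (le_of_eq ?_)
    refine Finset.sum_congr rfl fun x _ => ?_
    rw [abs_mul, abs_of_nonneg (h0 x)]
  refine (Finset.sum_le_sum fun z _ => h2 z).trans (le_of_eq ?_)
  rw [Finset.sum_comm]
  refine Finset.sum_congr rfl fun x _ => ?_
  rw [Finset.mul_sum]

omit [DecidableEq X] in
private theorem ua_good (P : Matrix X X ℝ) (R : Matrix {x // G x} {x // G x} ℝ) (π pg : X → ℝ)
    (x : {x // G x}) (h0 : ∀ z, 0 ≤ P x.1 z) (hπ : ∀ z, 0 ≤ π z) (hπ1 : ∑ z, π z = 1)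
    (hpg : ∀ y : {x // G x}, π y.1 ≤ pg y.1) (hpg1 : ∑ y : {x // G x}, pg y.1 = 1) :
    ∑ z, |P x.1 z - π z| ≤ (∑ y : {x // G x}, |P x.1 y.1 - R x y|
        + ∑ z, (if G z then 0 else P x.1 z))
      + ∑ y : {x // G x}, |R x y - pg y.1| + 2 * ∑ z, (if G z then 0 else π z) := by
  rw [ua_split G (fun z => |P x.1 z - π z|)]
  have h1 : ∑ y : {x // G x}, |P x.1 y.1 - π y.1| ≤ ∑ y : {x // G x}, |P x.1 y.1 - R x y|
      + ∑ y : {x // G x}, |R x y - pg y.1| + ∑ y : {x // G x}, (pg y.1 - π y.1) := by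
    rw [← Finset.sum_add_distrib, ← Finset.sum_add_distrib]
    refine Finset.sum_le_sum fun y _ => ?_
    have h2 : P x.1 y.1 - π y.1 = (P x.1 y.1 - R x y) + (R x y - pg y.1) + (pg y.1 - π y.1) := by
      ring
    rw [h2]
    refine (abs_add_three _ _ _).trans ?_
    rw [abs_of_nonneg (sub_nonneg.2 (hpg y))]
  have h3 : ∑ y : {x // G x}, (pg y.1 - π y.1) = ∑ z, (if G z then 0 else π z) := by
    rw [Finset.sum_sub_distrib, hpg1, ← hπ1, ua_split G π]
    ring
  have h4 : ∑ z, (if G z then 0 else |P x.1 z - π z|) ≤ ∑ z, (if G z then 0 else P x.1 z)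
      + ∑ z, (if G z then 0 else π z) := by
    rw [← Finset.sum_add_distrib]
    refine Finset.sum_le_sum fun z _ => ?_
    split_ifs
    · simp
    · refine (abs_sub _ _).trans ?_
      rw [abs_of_nonneg (h0 z), abs_of_nonneg (hπ z)]
  rw [h3] at h1
  linarith

private theorem ua_cont (x y : X) : Continuous (fun t => PP Q t x y) :=
  continuous_iff_continuousAt.2 fun t => (PP_deriv' Q x y t).continuousAt

private theorem ua_int (hQ : IsGen Q) (w : X) (out : {x // G x} → ℝ) (hout : ∀ y, 0 ≤ out y)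
    {t₁ t₂ c : ℝ} (ht₁ : 0 ≤ t₁) (ht₂ : 0 ≤ t₂)
    (hc : ∀ s, 0 ≤ s → ∑ y : {x // G x}, PP Q (t₁ + s) w y.1 * out y ≤ c) :
    ∑ x : {x // G x}, PP Q t₁ w x.1 *
        (∫ s in (0 : ℝ)..t₂, ∑ y : {x // G x}, PP Q s x.1 y.1 * out y) ≤ t₂ * c := by
  have hcont : ∀ x : {x // G x}, Continuous
      (fun s => PP Q t₁ w x.1 * ∑ y : {x // G x}, PP Q s x.1 y.1 * out y) := fun x =>
    continuous_const.mul (continuous_finsetSum _ fun y _ => (ua_cont _ _).mul continuous_const)
  have h1 : ∑ x : {x // G x}, PP Q t₁ w x.1 *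
        (∫ s in (0 : ℝ)..t₂, ∑ y : {x // G x}, PP Q s x.1 y.1 * out y)
      = ∫ s in (0 : ℝ)..t₂, ∑ x : {x // G x}, PP Q t₁ w x.1 *
          ∑ y : {x // G x}, PP Q s x.1 y.1 * out y := by
    rw [intervalIntegral.integral_finsetSum
      (fun x _ => (hcont x).intervalIntegrable _ _)]
    refine Finset.sum_congr rfl fun x _ => ?_
    rw [intervalIntegral.integral_const_mul]
  rw [h1]
  have h2 : ∀ s ∈ Set.Icc (0 : ℝ) t₂, ∑ x : {x // G x}, PP Q t₁ w x.1 *
          ∑ y : {x // G x}, PP Q s x.1 y.1 * out y ≤ c := by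
    intro s hs
    refine le_trans ?_ (hc s hs.1)
    have h3 : ∑ y : {x // G x}, PP Q (t₁ + s) w y.1 * out y
        = ∑ x : X, PP Q t₁ w x * ∑ y : {x // G x}, PP Q s x y.1 * out y := by
      rw [PP_add]
      simp only [Matrix.mul_apply, Finset.sum_mul, Finset.mul_sum]
      rw [Finset.sum_comm]
      refine Finset.sum_congr rfl fun x _ => Finset.sum_congr rfl fun y _ => ?_
      ring
    rw [h3, ua_split G (fun x => PP Q t₁ w x * ∑ y : {x // G x}, PP Q s x y.1 * out y)]
    refine le_add_of_nonneg_right (Finset.sum_nonneg fun z _ => ?_)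
    split_ifs
    · exact le_rfl
    · exact mul_nonneg (PP_nonneg hQ.1 ht₁ _ _) (Finset.sum_nonneg fun y _ =>
        mul_nonneg (PP_nonneg hQ.1 hs.1 _ _) (hout y))
  have h4 : ∫ s in (0 : ℝ)..t₂, ∑ x : {x // G x}, PP Q t₁ w x.1 *
          ∑ y : {x // G x}, PP Q s x.1 y.1 * out y ≤ ∫ _ in (0 : ℝ)..t₂, c := by
    refine intervalIntegral.integral_mono_on ht₂ ?_ ?_ h2
    · exact (continuous_finsetSum _ fun x _ => hcont x).intervalIntegrable _ _
    · exact continuous_const.intervalIntegrable _ _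
  refine h4.trans (le_of_eq ?_)
  rw [intervalIntegral.integral_const, smul_eq_mul, sub_zero]

/-- the abstract estimate -/
private theorem ua_main (hQ : IsGen Q) (w : X) (R : Matrix {x // G x} {x // G x} ℝ)
    (out : {x // G x} → ℝ) (hout : ∀ y, 0 ≤ out y) (π pg : X → ℝ)
    (hπ : ∀ z, 0 ≤ π z) (hπ1 : ∑ z, π z = 1)
    (hpg : ∀ y : {x // G x}, π y.1 ≤ pg y.1) (hpg1 : ∑ y : {x // G x}, pg y.1 = 1)
    {t₁ t₂ c e s : ℝ} (ht₁ : 0 ≤ t₁) (ht₂ : 0 ≤ t₂)
    (hc : ∀ s, 0 ≤ s → ∑ y : {x // G x}, PP Q (t₁ + s) w y.1 * out y ≤ c)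
    (hR : ∀ x : {x // G x}, ∑ y : {x // G x}, |PP Q t₂ x.1 y.1 - R x y|
      + ∑ z : X, (if G z then 0 else PP Q t₂ x.1 z)
      ≤ 2 * ∫ s in (0 : ℝ)..t₂, ∑ y : {x // G x}, PP Q s x.1 y.1 * out y)
    (hs : ∀ x : {x // G x}, ∑ y : {x // G x}, |R x y - pg y.1| ≤ s) (hs0 : 0 ≤ s)
    (he : ∑ z, (if G z then 0 else PP Q t₁ w z) ≤ e)
    (he' : ∑ z, (if G z then 0 else π z) ≤ e) :
    ∑ z, |PP Q (t₁ + t₂) w z - π z| ≤ 4 * e + 2 * (t₂ * c) + s := by
  have hP0 : ∀ z, 0 ≤ PP Q t₁ w z := fun z => PP_nonneg hQ.1 ht₁ w z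
  have hP1 : ∑ z, PP Q t₁ w z = 1 := PP_row hQ.2 t₁ w
  have hmu0 : 0 ≤ ∑ z, (if G z then 0 else π z) := Finset.sum_nonneg fun z _ => by
    split_ifs
    · exact le_rfl
    · exact hπ z
  rw [PP_add]
  refine (ua_conv (PP Q t₁) (PP Q t₂) π w hP0 hP1).trans ?_
  rw [ua_split G (fun x => PP Q t₁ w x * ∑ z, |PP Q t₂ x z - π z|)]
  -- the good part
  have h1 : ∑ x : {x // G x}, PP Q t₁ w x.1 * ∑ z, |PP Q t₂ x.1 z - π z|
      ≤ 2 * (t₂ * c) + s + 2 * e := by
    have h2 : ∀ x : {x // G x}, PP Q t₁ w x.1 * ∑ z, |PP Q t₂ x.1 z - π z|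
        ≤ 2 * (PP Q t₁ w x.1 *
          (∫ s in (0 : ℝ)..t₂, ∑ y : {x // G x}, PP Q s x.1 y.1 * out y))
          + PP Q t₁ w x.1 * (s + 2 * e) := by
      intro x
      have h3 := ua_good G (PP Q t₂) R π pg x (fun z => PP_nonneg hQ.1 ht₂ _ _) hπ hπ1 hpg hpg1
      have h4 := hR x
      have h5 := hs x
      have h6 : ∑ z, |PP Q t₂ x.1 z - π z|
          ≤ 2 * (∫ s in (0 : ℝ)..t₂, ∑ y : {x // G x}, PP Q s x.1 y.1 * out y)
            + (s + 2 * e) := by
        linarith
      have h7 := mul_le_mul_of_nonneg_left h6 (hP0 x.1)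
      linarith
    refine (Finset.sum_le_sum fun x _ => h2 x).trans ?_
    rw [Finset.sum_add_distrib, ← Finset.mul_sum, ← Finset.sum_mul]
    have h8 := ua_int G hQ w out hout ht₁ ht₂ hc
    have h9 : ∑ x : {x // G x}, PP Q t₁ w x.1 ≤ 1 := by
      rw [← hP1, ua_split G (fun z => PP Q t₁ w z)]
      refine le_add_of_nonneg_right (Finset.sum_nonneg fun z _ => ?_)
      split_ifs
      · exact le_rfl
      · exact hP0 z
    have h10 : (∑ x : {x // G x}, PP Q t₁ w x.1) * (s + 2 * e) ≤ 1 * (s + 2 * e) :=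
      mul_le_mul_of_nonneg_right h9 (by linarith)
    linarith
  -- the bad part
  have h11 : ∑ x, (if G x then 0 else PP Q t₁ w x * ∑ z, |PP Q t₂ x z - π z|) ≤ 2 * e := by
    have h12 : ∀ x, (if G x then 0 else PP Q t₁ w x * ∑ z, |PP Q t₂ x z - π z|)
        ≤ 2 * (if G x then 0 else PP Q t₁ w x) := by
      intro x
      split_ifs
      · simp
      · have h13 : ∑ z, |PP Q t₂ x z - π z| ≤ 2 := by
          have h14 : ∑ z, |PP Q t₂ x z - π z| ≤ ∑ z, (PP Q t₂ x z + π z) := by
            refine Finset.sum_le_sum fun z _ => ?_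
            refine (abs_sub _ _).trans ?_
            rw [abs_of_nonneg (PP_nonneg hQ.1 ht₂ x z), abs_of_nonneg (hπ z)]
          rw [Finset.sum_add_distrib, hπ1, PP_row hQ.2] at h14
          linarith
        have h15 := mul_le_mul_of_nonneg_left h13 (hP0 x)
        linarith
    refine (Finset.sum_le_sum fun x _ => h12 x).trans ?_
    rw [← Finset.mul_sum]
    linarith
  linarith

end abstract_part

/-- deterministic part: total variation at time `t₁ + t₂` from a bound for the gaps after `t₁` -/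
theorem tv_of_gaps (hq : 0 < q) (hq1 : q < 1) : ∃ C : ℝ, 0 < C ∧ ∀ (bL bR : Bool) (m K : ℕ)
    (w : W m) (t₁ t₂ β : ℝ), 2 * K + 2 ≤ m → 0 ≤ t₁ → 0 ≤ t₂ → 0 ≤ β → ok bL bR w →
    (∀ w', ok bL bR w' → ∀ t, t₁ ≤ t → ∀ x, x < m →
      rowP (PP (LM q bL bR m) t) w' (fun z => far bL bR z x K) ≤ β) →
    ∑ z, |PP (LM q bL bR m) (t₁ + t₂) w z - mu q bL bR z|
      ≤ 4 * m * β + 2 * t₂ * m ^ 2 * β
        + √(C * m * Real.exp (-t₂ / (C * (K + 1) ^ 3))) := by
  classical
  obtain ⟨C₀, hC₀, hrefl⟩ := refl_tv (q := q) hq hq1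
  refine ⟨64 * C₀, by positivity, ?_⟩
  intro bL bR m K w t₁ t₂ β hm ht₁ ht₂ hβ hw hgap
  have hQ : IsGen (LM q bL bR m) := LM_gen hq hq1
  obtain ⟨ls, hsum, hls⟩ := exists_blocks K m hm
  have hm1 : 1 ≤ m := by omega
  have hlsne : ls ≠ [] := by
    rintro rfl
    simp at hsum
    omega
  have hls2 : ∀ l ∈ ls, 2 * K + 2 ≤ l := fun l hl => (hls l hl).1
  have hls1 : ∀ l ∈ ls, 1 ≤ l := fun l hl => by have := hls2 l hl; omega
  have hGok : ∀ z : W m, Gd ls z → ok bL bR z := fun z hz =>
    ok_of_Gd bL bR ls hlsne hsum z hz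
  -- the sum of the probabilities of long gaps
  have hfar : ∀ w', ok bL bR w' → ∀ t, t₁ ≤ t →
      ∑ z, PP (LM q bL bR m) t w' z * ∑ x ∈ range m, (if far bL bR z x K then (1 : ℝ) else 0)
        ≤ m * β := by
    intro w' hw' t ht
    have h1 : ∑ z, PP (LM q bL bR m) t w' z *
        ∑ x ∈ range m, (if far bL bR z x K then (1 : ℝ) else 0)
        = ∑ x ∈ range m, rowP (PP (LM q bL bR m) t) w' (fun z => far bL bR z x K) := by
      simp only [Finset.mul_sum, rowP]
      rw [Finset.sum_comm]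
      refine Finset.sum_congr rfl fun x _ => Finset.sum_congr rfl fun z _ => ?_
      split_ifs
      · rw [mul_one]
      · rw [mul_zero]
    rw [h1]
    refine (Finset.sum_le_sum fun x hx => hgap w' hw' t ht x (Finset.mem_range.1 hx)).trans ?_
    rw [Finset.sum_const, Finset.card_range, nsmul_eq_mul]
  have hfar0 : ∀ z : W m, 0 ≤ ∑ x ∈ range m, (if far bL bR z x K then (1 : ℝ) else 0) :=
    fun z => Finset.sum_nonneg fun x _ => by
      split_ifs
      · exact zero_le_one
      · exact le_rfl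
  -- leaving the good event
  have hNG : ∀ w', ok bL bR w' → ∀ t, t₁ ≤ t →
      ∑ z, (if Gd ls z then 0 else PP (LM q bL bR m) t w' z) ≤ m * β := by
    intro w' hw' t ht
    refine le_trans (Finset.sum_le_sum fun z _ => ?_) (hfar w' hw' t ht)
    have hp := PP_nonneg hQ.1 (ht₁.trans ht) w' z
    split_ifs with hz
    · exact mul_nonneg hp (hfar0 z)
    · obtain ⟨x, hx, hxf⟩ := far_of_not_Gd bL bR K ls hsum hls2 z hz
      have h1 : (1 : ℝ) ≤ ∑ x ∈ range m, (if far bL bR z x K then (1 : ℝ) else 0) := by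
        refine le_trans ?_ (Finset.single_le_sum (f := fun x =>
          (if far bL bR z x K then (1 : ℝ) else 0)) (fun y _ => ?_) (Finset.mem_range.2 hx))
        · simp only [if_pos hxf]
          exact le_rfl
        · split_ifs
          · exact zero_le_one
          · exact le_rfl
      exact le_mul_of_one_le_right hp h1
  -- the stationary law
  have hmu := mu_prob (q := q) hq hq1 bL bR hm1
  have hmuNG : ∑ z : W m, (if Gd ls z then 0 else mu q bL bR z) ≤ m * β := by
    have h1 : ∑ z : W m, (if Gd ls z then 0 else mu q bL bR z)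
        = ∑ w' : W m, mu q bL bR w' * ∑ z, (if Gd ls z then 0 else PP (LM q bL bR m) t₁ w' z) := by
      simp only [Finset.mul_sum]
      rw [Finset.sum_comm]
      refine Finset.sum_congr rfl fun z _ => ?_
      split_ifs
      · simp
      · exact (PP_inv hQ (mu q bL bR) (fun x y => mu_rev hq hq1 bL bR x y) t₁ z).symm
    rw [h1]
    have h2 : ∀ w' : W m, mu q bL bR w' * ∑ z, (if Gd ls z then 0 else PP (LM q bL bR m) t₁ w' z)
        ≤ mu q bL bR w' * (m * β) := by
      intro w'
      by_cases hw' : ok bL bR w'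
      · exact mul_le_mul_of_nonneg_left (hNG w' hw' t₁ le_rfl) (hmu.1 w')
      · have h3 : mu q bL bR w' = 0 := by
          unfold mu
          rw [if_neg hw']
        rw [h3, zero_mul, zero_mul]
    refine (Finset.sum_le_sum fun w' _ => h2 w').trans ?_
    rw [← Finset.sum_mul, hmu.2, one_mul]
  -- comparison of the two laws
  have hpGp := pG_prob (q := q) hq hq1 ls hls1 hsum
  have hpg1 : ∑ y : {z : W m // Gd ls z}, pG q ls y.1 = 1 := by
    have h1 := hpGp.2
    rw [ua_split (Gd ls) (fun z => pG q ls z)] at h1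
    have h2 : ∑ z : W m, (if Gd ls z then 0 else pG q ls z) = 0 := by
      refine Finset.sum_eq_zero fun z _ => ?_
      split_ifs with hz
      · rfl
      · unfold pG
        rw [if_neg hz]
    rw [h2, add_zero] at h1
    exact h1
  have hwt : ∀ z : W m, 0 ≤ wt q z := fun z => wt_nonneg hq.le hq1.le z
  have hpg : ∀ y : {z : W m // Gd ls z}, mu q bL bR y.1 ≤ pG q ls y.1 := by
    intro y
    have hZG : 0 < ∑ v : W m, (if Gd ls v then wt q v else 0) := by
      have h0 : 0 ≤ ∑ v : W m, (if Gd ls v then wt q v else 0) :=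
        Finset.sum_nonneg fun v _ => by
          split_ifs
          · exact hwt v
          · exact le_rfl
      rcases h0.lt_or_eq with h | h
      · exact h
      · exfalso
        have h1 : ∑ z : W m, pG q ls z = 0 := by
          refine Finset.sum_eq_zero fun z _ => ?_
          unfold pG
          rw [← h, div_zero, ite_self]
        rw [hpGp.2] at h1
        exact one_ne_zero h1
    have hle : ∑ v : W m, (if Gd ls v then wt q v else 0)
        ≤ ∑ v : W m, (if ok bL bR v then wt q v else 0) := by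
      refine Finset.sum_le_sum fun v _ => ?_
      by_cases hv : Gd ls v
      · rw [if_pos hv, if_pos (hGok v hv)]
      · rw [if_neg hv]
        split_ifs
        · exact hwt v
        · exact le_rfl
    unfold mu pG
    rw [if_pos (hGok y.1 y.2), if_pos y.2]
    exact div_le_div_of_nonneg_left (hwt _) hZG hle
  -- exit rate
  have hout0 : ∀ y : {z : W m // Gd ls z},
      0 ≤ ∑ z : W m, (if Gd ls z then 0 else LM q bL bR m y.1 z) := by
    intro y
    refine Finset.sum_nonneg fun z _ => ?_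
    split_ifs with hz
    · exact le_rfl
    · exact hQ.1 _ _ (fun h => hz (h ▸ y.2))
  have hc : ∀ s, 0 ≤ s → ∑ y : {z : W m // Gd ls z}, PP (LM q bL bR m) (t₁ + s) w y.1 *
      (∑ z : W m, (if Gd ls z then 0 else LM q bL bR m y.1 z)) ≤ m * (m * β) := by
    intro s hs
    have h1 : ∀ y : {z : W m // Gd ls z}, PP (LM q bL bR m) (t₁ + s) w y.1 *
        (∑ z : W m, (if Gd ls z then 0 else LM q bL bR m y.1 z))
        ≤ m * (PP (LM q bL bR m) (t₁ + s) w y.1 *
          ∑ x ∈ range m, (if far bL bR y.1 x K then (1 : ℝ) else 0)) := by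
      intro y
      have h2 := mul_le_mul_of_nonneg_left (exit_rate hq hq1 bL bR K ls hsum hls2 y.1 y.2)
        (PP_nonneg hQ.1 (add_nonneg ht₁ hs) w y.1)
      refine h2.trans (le_of_eq ?_)
      ring
    refine (Finset.sum_le_sum fun y _ => h1 y).trans ?_
    rw [← Finset.mul_sum]
    refine mul_le_mul_of_nonneg_left ?_ (Nat.cast_nonneg m)
    refine le_trans ?_ (hfar w hw (t₁ + s) (by linarith))
    rw [ua_split (Gd ls) (fun z => PP (LM q bL bR m) (t₁ + s) w z *
      ∑ x ∈ range m, (if far bL bR z x K then (1 : ℝ) else 0))]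
    refine le_add_of_nonneg_right (Finset.sum_nonneg fun z _ => ?_)
    split_ifs
    · exact le_rfl
    · exact mul_nonneg (PP_nonneg hQ.1 (add_nonneg ht₁ hs) w z) (hfar0 z)
  -- the reflected chain
  have hB : ∀ l ∈ ls, 1 ≤ l ∧ l ≤ 4 * K + 4 := fun l hl => ⟨hls1 l hl, (hls l hl).2⟩
  have hs : ∀ x : {z : W m // Gd ls z}, ∑ y : {z : W m // Gd ls z},
      |PP (reflM (Gd ls) (LM q bL bR m)) t₂ x y - pG q ls y.1|
      ≤ √(64 * C₀ * m * Real.exp (-t₂ / (64 * C₀ * (K + 1) ^ 3))) := by
    intro x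
    have h1 := hrefl bL bR (4 * K + 4) ls m hB hsum hm1 x t₂ ht₂
    apply Real.le_sqrt_of_sq_le
    refine h1.trans ?_
    have h2 : C₀ * ((4 * K + 4 : ℕ) : ℝ) ^ 3 = 64 * C₀ * ((K : ℝ) + 1) ^ 3 := by
      push_cast
      ring
    rw [h2]
    refine mul_le_mul_of_nonneg_right ?_ (Real.exp_pos _).le
    refine mul_le_mul_of_nonneg_right ?_ (Nat.cast_nonneg m)
    linarith
  have hfin := ua_main (Gd ls) hQ w (PP (reflM (Gd ls) (LM q bL bR m)) t₂)
    (fun y => ∑ z : W m, (if Gd ls z then 0 else LM q bL bR m y.1 z)) hout0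
    (mu q bL bR) (pG q ls) hmu.1 hmu.2 hpg hpg1 ht₁ ht₂ hc
    (fun x => chain_vs_refl (Gd ls) hQ ht₂ x) hs (Real.sqrt_nonneg _)
    (hNG w hw t₁ le_rfl) hmuNG
  refine hfin.trans (le_of_eq ?_)
  ring

end Pool.Agent.Lib.MP_4c13d6_pr
end

section

/-! CH-3: exponential tails of the distance to the nearest infected site (Lemma 24). -/

open Finset Real

namespace Pool.Agent.Lib.MP_4c13d6_pr

variable {q : ℝ}

/-! ### existence of infected sites -/

private theorem gapU_ok_ev {m : ℕ} {bL bR : Bool} {w : W m} (h : ok bL bR w) :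
    ∃ k : ℤ, -1 ≤ k ∧ k ≤ m ∧ ev bL bR w k = true := by
  rcases h with h | h | ⟨i, hi⟩
  · exact ⟨-1, le_rfl, by omega, by rw [ev_left]; exact h⟩
  · exact ⟨m, by omega, le_rfl, by rw [ev_right]; exact h⟩
  · refine ⟨(i : ℕ), by omega, ?_, ?_⟩
    · have := i.isLt
      omega
    · rw [ev_site]; exact hi

private theorem gapU_range {m : ℕ} {bL bR : Bool} {w : W m} {k : ℤ}
    (h : ev bL bR w k = true) : -1 ≤ k ∧ k ≤ m := by
  by_contra hcon
  have h2 : ev bL bR w k = false := by
    apply ev_out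
    omega
  rw [h2] at h
  exact absurd h (by simp)

private theorem gapU_ev_ok {m : ℕ} {bL bR : Bool} {w : W m} {k : ℤ}
    (h : ev bL bR w k = true) : ok bL bR w := by
  obtain ⟨h1, h2⟩ := gapU_range h
  by_cases h3 : k = -1
  · left
    rw [h3, ev_left] at h
    exact h
  by_cases h4 : k = m
  · right; left
    rw [h4, ev_right] at h
    exact h
  · right; right
    obtain ⟨n, rfl⟩ := Int.eq_ofNat_of_zero_le (show 0 ≤ k by omega)
    have hn : n < m := by
      have : (n : ℤ) < m := by omega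
      exact_mod_cast this
    refine ⟨⟨n, hn⟩, ?_⟩
    have := ev_site (bL := bL) (bR := bR) w ⟨n, hn⟩
    simp only at this
    rw [← this]
    exact h

/-! ### one side -/

/-- contribution of one side -/
private noncomputable def gapU_Phi (θ C : ℝ) (H : FS → ℝ) (m x : ℕ) : Option FS → ℝ
  | some s => exp (θ * (x - lev s - H s))
  | none => exp (θ * (m + 2 + C))

private theorem gapU_Phi_pos (θ C : ℝ) (H : FS → ℝ) (m x : ℕ) (s : Option FS) :
    0 < gapU_Phi θ C H m x s := by
  cases s <;> exact exp_pos _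

private theorem gapU_Phi_lt {θ C : ℝ} (hθ : 0 < θ) {H : FS → ℝ} (hH : ∀ s, |H s| ≤ C)
    {m : ℕ} {bL bR : Bool} (w : W m) {x : ℕ} (hx : x < m) {s : FS}
    (hs : stt bL w (x + 1) = some s) :
    gapU_Phi θ C H m x (some s) < gapU_Phi θ C H m x none := by
  obtain ⟨h1, -, -, -⟩ := stt_some (bR := bR) w (x + 1) hx s hs
  show exp (θ * (x - lev s - H s)) < exp (θ * (m + 2 + C))
  apply exp_lt_exp.2
  apply mul_lt_mul_of_pos_left _ hθ
  have h2 := (abs_le.1 (hH s)).1
  have h3 : (-1 : ℝ) ≤ lev s := by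
    unfold lev
    exact_mod_cast h1
  have h4 : (x : ℝ) < m := by exact_mod_cast hx
  linarith

private theorem gapU_upper {θ C : ℝ} (hθ : 0 < θ) {H : FS → ℝ} (hH : ∀ s, |H s| ≤ C)
    {m : ℕ} {bL bR : Bool} (w : W m) {x : ℕ} (hx : x < m) {k : ℤ} (hk : k ≤ x)
    (hev : ev bL bR w k = true) :
    gapU_Phi θ C H m x (stt bL w (x + 1)) ≤ exp (θ * (x - k + C)) := by
  cases hs : stt bL w (x + 1) with
  | none =>
    have := stt_none (bR := bR) w (x + 1) hx hs k (by push_cast; omega)
    rw [this] at hev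
    exact absurd hev (by simp)
  | some s =>
    obtain ⟨h1, h2, h3, h4⟩ := stt_some (bR := bR) w (x + 1) hx s hs
    have h5 : k ≤ levZ s := by
      by_contra hcon
      have := h4 k (by omega) (by push_cast; omega)
      rw [this] at hev
      exact absurd hev (by simp)
    show exp (θ * (x - lev s - H s)) ≤ exp (θ * (x - k + C))
    apply exp_le_exp.2
    apply mul_le_mul_of_nonneg_left _ hθ.le
    have h6 := (abs_le.1 (hH s)).1
    have h7 : (k : ℝ) ≤ lev s := by
      unfold lev
      exact_mod_cast h5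
    linarith

private theorem gapU_lower {θ C : ℝ} (hθ : 0 < θ) (hC : 0 ≤ C) {H : FS → ℝ}
    (hH : ∀ s, |H s| ≤ C)
    {m : ℕ} {bL bR : Bool} (w : W m) {x : ℕ} (hx : x < m) {r : ℕ} (hr : r ≤ m + 1)
    (hf : far bL bR w x r) :
    exp (θ * (r - C)) ≤ gapU_Phi θ C H m x (stt bL w (x + 1)) := by
  cases hs : stt bL w (x + 1) with
  | none =>
    show exp (θ * (r - C)) ≤ exp (θ * (m + 2 + C))
    apply exp_le_exp.2
    apply mul_le_mul_of_nonneg_left _ hθ.le
    have : (r : ℝ) ≤ m + 1 := by exact_mod_cast hr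
    linarith
  | some s =>
    obtain ⟨h1, h2, h3, h4⟩ := stt_some (bR := bR) w (x + 1) hx s hs
    have h5 : (r : ℤ) ≤ x - levZ s := by
      by_contra hcon
      have h6 := hf (levZ s) (by
        rw [abs_lt]
        push_cast at h2
        constructor <;> omega)
      rw [h6] at h3
      exact absurd h3 (by simp)
    show exp (θ * (r - C)) ≤ exp (θ * (x - lev s - H s))
    apply exp_le_exp.2
    apply mul_le_mul_of_nonneg_left _ hθ.le
    have h6 := (abs_le.1 (hH s)).2
    have h7 : (r : ℝ) ≤ x - lev s := by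
      unfold lev
      exact_mod_cast h5
    linarith

private theorem gapU_gen {θ C c : ℝ} {H : FS → ℝ} {m : ℕ} {bL bR : Bool}
    (hG : ∀ s, GG q bL (fun t => exp (-θ * (lev t + H t))) s ≤ -c * exp (-θ * (lev s + H s)))
    (w : W m) {x : ℕ} (hx : x < m) (h1 : val w x = false)
    (h2 : ev bL bR w (x + 1) = false) {s : FS} (hs : stt bL w (x + 1) = some s) :
    LL q bL bR (fun v => gapU_Phi θ C H m x (stt bL v (x + 1))) w ≤
      -c * gapU_Phi θ C H m x (stt bL w (x + 1)) := by
  rw [LL_stt w x hx h1 h2 s hs, hs]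
  have e : ∀ t : FS, gapU_Phi θ C H m x (some t) = exp (θ * x) * exp (-θ * (lev t + H t)) := by
    intro t
    show exp (θ * (x - lev t - H t)) = _
    rw [← exp_add]
    congr 1
    ring
  have e2 : (fun t => gapU_Phi θ C H m x (some t))
      = fun t => exp (θ * x) * exp (-θ * (lev t + H t)) := funext e
  rw [e2, GG_smul, e s]
  have := mul_le_mul_of_nonneg_left (hG s) (exp_pos (θ * x)).le
  linarith

/-- uniform version of Theorem C for both boundary types -/
private theorem gapU_thmC (hq : 0 < q) (hq1 : q < 1) {v : ℝ} (hv : IsSpeed q v) (ε : ℝ)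
    (hε : 0 < ε) : ∃ (θ C : ℝ) (H : Bool → FS → ℝ), 0 < θ ∧ 0 ≤ C ∧ (∀ z s, |H z s| ≤ C) ∧
      ∀ z s, GG q z (fun t => exp (-θ * (lev t + H z t))) s
          ≤ -(θ * (v - ε)) * exp (-θ * (lev s + H z s)) := by
  obtain ⟨θt, Ct, Ht, _, hθt, hCt, hHt, _, hGt⟩ := theoremC hq hq1 hv true ε hε
  obtain ⟨θf, Cf, Hf, _, hθf, hCf, hHf, _, hGf⟩ := theoremC hq hq1 hv false ε hε
  refine ⟨min θt θf, max Ct Cf, fun z => if z = true then Ht else Hf, lt_min hθt hθf,
    le_max_of_le_left hCt, ?_, ?_⟩
  · intro z s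
    cases z
    · exact (hHf s).trans (le_max_right _ _)
    · exact (hHt s).trans (le_max_left _ _)
  · intro z s
    cases z
    · exact (hGf _ (lt_min hθt hθf) (min_le_right _ _)).1 s
    · exact (hGt _ (lt_min hθt hθf) (min_le_left _ _)).1 s

/-- Lyapunov function -/
theorem exists_V (hq : 0 < q) (hq1 : q < 1) {v : ℝ} (hv : IsSpeed q v) (ε : ℝ) (hε : 0 < ε)
    (hεv : ε < v) :
    ∃ θ C : ℝ, 0 < θ ∧ 0 < C ∧ ∀ (m : ℕ) (bL bR : Bool) (x : ℕ), x < m →
      ∃ V : W m → ℝ, (∀ w, 0 ≤ V w) ∧
        (∀ w r, ok bL bR w → far bL bR w x r → exp (θ * (r - C)) ≤ V w) ∧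
        (∀ w (D : ℕ), ¬ far bL bR w x (D + 1) → V w ≤ exp (θ * (D + C))) ∧
        (∀ w, LL q bL bR V w ≤ -(θ * (v - ε)) * V w + C * m) := by
  obtain ⟨θ, C0, H, hθ, hC0, hH, hG⟩ := gapU_thmC hq hq1 hv ε hε
  have hvε : 0 < v - ε := by linarith
  obtain ⟨C, hC⟩ : ∃ C, C = C0 + exp (θ * (2 + C0)) + θ * (v - ε) * exp (θ * (1 + C0)) :=
    ⟨_, rfl⟩
  have hC1 : 0 < exp (θ * (2 + C0)) := exp_pos _
  have hC2 : 0 ≤ θ * (v - ε) * exp (θ * (1 + C0)) := by positivity
  have hCC0 : C0 ≤ C := by linarith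
  refine ⟨θ, C, hθ, by linarith, ?_⟩
  intro m bL bR x hx
  obtain ⟨x', hx'⟩ : ∃ x', x' = m - 1 - x := ⟨_, rfl⟩
  have hx'm : x' < m := by omega
  have hxx : (x' : ℤ) = m - 1 - x := by omega
  -- the two sides
  obtain ⟨A, hA⟩ : ∃ A : W m → ℝ, A = fun w => gapU_Phi θ C0 (H bL) m x (stt bL w (x + 1)) :=
    ⟨_, rfl⟩
  obtain ⟨B, hB⟩ : ∃ B : W m → ℝ,
      B = fun w => gapU_Phi θ C0 (H bR) m x' (stt bR (mir w) (x' + 1)) := ⟨_, rfl⟩
  have hApos : ∀ w, 0 < A w := fun w => by rw [hA]; exact gapU_Phi_pos _ _ _ _ _ _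
  have hBpos : ∀ w, 0 < B w := fun w => by rw [hB]; exact gapU_Phi_pos _ _ _ _ _ _
  have hmir : ∀ (w : W m) (k : ℤ), ev bR bL (mir w) (m - 1 - k) = ev bL bR w k := by
    intro w k
    rw [ev_mir]
    congr 1
    ring
  -- upper bound
  have hup : ∀ (w : W m) (D : ℕ), ¬ far bL bR w x (D + 1) →
      min (A w) (B w) ≤ exp (θ * (D + C0)) := by
    intro w D hf
    unfold far at hf
    push Not at hf
    obtain ⟨k, hk1, hk2⟩ := hf
    have hk2' : ev bL bR w k = true := by simpa using hk2
    rw [abs_lt] at hk1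
    push_cast at hk1
    rcases le_total k x with hkx | hkx
    · have h1 := gapU_upper (bR := bR) hθ (hH bL) w hx hkx hk2'
      have h2 : A w ≤ exp (θ * (x - k + C0)) := by rw [hA]; exact h1
      refine (min_le_left _ _).trans (h2.trans ?_)
      apply exp_le_exp.2
      apply mul_le_mul_of_nonneg_left _ hθ.le
      have : (x : ℤ) - k ≤ D := by omega
      have : (x : ℝ) - k ≤ D := by exact_mod_cast this
      linarith
    · have h0 : ev bR bL (mir w) (m - 1 - k) = true := by rw [hmir]; exact hk2'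
      have h1 := gapU_upper (bR := bL) hθ (hH bR) (mir w) hx'm
        (show (m : ℤ) - 1 - k ≤ x' by omega) h0
      have h2 : B w ≤ exp (θ * (x' - ((m - 1 - k : ℤ) : ℝ) + C0)) := by rw [hB]; exact h1
      refine (min_le_right _ _).trans (h2.trans ?_)
      apply exp_le_exp.2
      apply mul_le_mul_of_nonneg_left _ hθ.le
      have : (x' : ℤ) - (m - 1 - k) ≤ D := by omega
      have : (x' : ℝ) - ((m - 1 - k : ℤ) : ℝ) ≤ D := by exact_mod_cast this
      linarith
  -- lower bound
  have hlow : ∀ (w : W m) (r : ℕ), ok bL bR w → far bL bR w x r →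
      exp (θ * (r - C0)) ≤ min (A w) (B w) := by
    intro w r hok hf
    obtain ⟨k, hk1, hk2, hk3⟩ := gapU_ok_ev hok
    have hr : r ≤ m + 1 := by
      by_contra hcon
      have := hf k (by rw [abs_lt]; constructor <;> omega)
      rw [this] at hk3
      exact absurd hk3 (by simp)
    apply le_min
    · rw [hA]
      exact gapU_lower hθ hC0 (hH bL) w hx hr hf
    · rw [hB]
      refine gapU_lower (bR := bL) hθ hC0 (hH bR) (mir w) hx'm hr ?_
      intro j hj
      rw [ev_mir]
      apply hf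
      rw [abs_lt] at hj ⊢
      constructor <;> omega
  classical
  refine ⟨fun w => if ok bL bR w then min (A w) (B w) else 0, ?_, ?_, ?_, ?_⟩
  · intro w
    simp only
    split_ifs
    · exact le_min (hApos w).le (hBpos w).le
    · exact le_rfl
  · intro w r hok hf
    simp only [if_pos hok]
    refine le_trans ?_ (hlow w r hok hf)
    apply exp_le_exp.2
    apply mul_le_mul_of_nonneg_left _ hθ.le
    linarith
  · intro w D hf
    simp only
    split_ifs
    · refine (hup w D hf).trans ?_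
      apply exp_le_exp.2
      apply mul_le_mul_of_nonneg_left _ hθ.le
      linarith
    · exact (exp_pos _).le
  · intro w
    obtain ⟨V, hV⟩ : ∃ V : W m → ℝ, V = fun w => if ok bL bR w then min (A w) (B w) else 0 :=
      ⟨_, rfl⟩
    rw [← hV]
    have hm1 : (1 : ℝ) ≤ m := by
      have : 1 ≤ m := by omega
      exact_mod_cast this
    have hCpos : 0 < C := by linarith
    have hCm : 0 ≤ C * m := by positivity
    by_cases hok : ok bL bR w
    swap
    · have h1 : V w = 0 := by rw [hV]; simp only [if_neg hok]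
      rw [LL_not_ok _ w hok, h1]
      linarith
    have hVw : V w = min (A w) (B w) := by rw [hV]; simp only [if_pos hok]
    by_cases hfar : far bL bR w x 2
    · -- the front chain dominates
      have hcongr : LL q bL bR V w = LL q bL bR (fun w => min (A w) (B w)) w := by
        apply LL_congr
        · exact hVw
        · intro i b hk
          rw [hV]
          simp only [if_pos (ok_step w hok i b hk)]
      have hev0 : ev bL bR w x = false := hfar x (by simp)
      have hev1 : ev bL bR w (x + 1) = false := hfar (x + 1) (by simp)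
      have hev2 : ev bL bR w (x - 1) = false := hfar (x - 1) (by simp)
      have hval : val w x = false := by rw [← ev_nat (bL := bL) (bR := bR) w x hx]; exact hev0
      have hval' : val (mir w) x' = false := by
        rw [← ev_nat (bL := bR) (bR := bL) (mir w) x' hx'm, hxx, hmir]
        exact hev0
      have hev1' : ev bR bL (mir w) (x' + 1) = false := by
        have : (x' : ℤ) + 1 = m - 1 - (x - 1) := by omega
        rw [this, hmir]
        exact hev2
      have hmain : LL q bL bR (fun w => min (A w) (B w)) w ≤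
          -(θ * (v - ε)) * min (A w) (B w) := by
        rcases le_total (A w) (B w) with hAB | hAB
        · rw [min_eq_left hAB]
          refine (LL_mono hq hq1 _ A w ?_).trans ?_
          · intro i b _
            rw [min_eq_left hAB]
            exact sub_le_sub_right (min_le_left _ _) _
          · cases hs : stt bL w (x + 1) with
            | some s =>
              have := gapU_gen (C := C0) (hG bL) w hx hval hev1 hs
              rw [hA]
              exact this
            | none =>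
              exfalso
              have hAw : A w = gapU_Phi θ C0 (H bR) m x' none := by
                rw [hA]; simp only [hs]; rfl
              cases hs' : stt bR (mir w) (x' + 1) with
              | some s =>
                have h1 := gapU_Phi_lt (bR := bL) hθ (hH bR) (mir w) hx'm hs'
                have hBw : B w = gapU_Phi θ C0 (H bR) m x' (some s) := by
                  rw [hB]; simp only [hs']
                rw [← hBw, ← hAw] at h1
                linarith
              | none =>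
                obtain ⟨k, hk1, hk2, hk3⟩ := gapU_ok_ev hok
                rcases le_total k x with hkx | hkx
                · have := stt_none (bR := bR) w (x + 1) hx hs k (by push_cast; omega)
                  rw [this] at hk3
                  exact absurd hk3 (by simp)
                · have := stt_none (bR := bL) (mir w) (x' + 1) hx'm hs' (m - 1 - k)
                    (by push_cast; omega)
                  rw [hmir] at this
                  rw [this] at hk3
                  exact absurd hk3 (by simp)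
        · rw [min_eq_right hAB]
          refine (LL_mono hq hq1 _ B w ?_).trans ?_
          · intro i b _
            rw [min_eq_right hAB]
            exact sub_le_sub_right (min_le_right _ _) _
          · cases hs' : stt bR (mir w) (x' + 1) with
            | some s =>
              have h1 := gapU_gen (C := C0) (bR := bL) (hG bR) (mir w) hx'm hval' hev1' hs'
              rw [hB]
              have h2 := LL_mir (q := q) (bL := bL) (bR := bR)
                (fun v => gapU_Phi θ C0 (H bR) m x' (stt bR v (x' + 1))) w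
              rw [h2]
              exact h1
            | none =>
              exfalso
              have hBw : B w = gapU_Phi θ C0 (H bL) m x none := by
                rw [hB]; simp only [hs']; rfl
              cases hs : stt bL w (x + 1) with
              | some s =>
                have h1 := gapU_Phi_lt (bR := bR) hθ (hH bL) w hx hs
                have hAw : A w = gapU_Phi θ C0 (H bL) m x (some s) := by
                  rw [hA]; simp only [hs]
                rw [← hBw, ← hAw] at h1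
                linarith
              | none =>
                obtain ⟨k, hk1, hk2, hk3⟩ := gapU_ok_ev hok
                rcases le_total k x with hkx | hkx
                · have := stt_none (bR := bR) w (x + 1) hx hs k (by push_cast; omega)
                  rw [this] at hk3
                  exact absurd hk3 (by simp)
                · have := stt_none (bR := bL) (mir w) (x' + 1) hx'm hs' (m - 1 - k)
                    (by push_cast; omega)
                  rw [hmir] at this
                  rw [this] at hk3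
                  exact absurd hk3 (by simp)
      rw [hcongr, hVw]
      linarith
    · -- an infected site next to `x`
      have h1 : V w ≤ exp (θ * (1 + C0)) := by
        rw [hVw]
        have := hup w 1 hfar
        push_cast at this
        exact this
      have h0 : 0 ≤ V w := by rw [hVw]; exact le_min (hApos w).le (hBpos w).le
      have h2 : ∀ (i : Fin m) (b : Bool), kc bL bR w (i : ℕ) →
          V (Function.update w i b) ≤ exp (θ * (2 + C0)) := by
        intro i b hk
        have hnf : ¬ far bL bR (Function.update w i b) x (2 + 1) := by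
          intro hf3
          unfold far at hfar
          push Not at hfar
          obtain ⟨k, hk1, hk2⟩ := hfar
          have hk2' : ev bL bR w k = true := by simpa using hk2
          rw [abs_lt] at hk1
          push_cast at hk1
          have h3 := hf3 k (by rw [abs_lt]; push_cast; constructor <;> omega)
          rw [ev_upd] at h3
          by_cases hki : k = (i : ℕ)
          · rcases hk with hk | hk
            · have h4 := hf3 ((i : ℕ) - 1) (by rw [abs_lt]; push_cast; constructor <;> omega)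
              rw [ev_upd, if_neg (by omega), hk] at h4
              exact absurd h4 (by simp)
            · have h4 := hf3 ((i : ℕ) + 1) (by rw [abs_lt]; push_cast; constructor <;> omega)
              rw [ev_upd, if_neg (by omega), hk] at h4
              exact absurd h4 (by simp)
          · rw [if_neg hki, hk2'] at h3
            exact absurd h3 (by simp)
        have h5 := hup (Function.update w i b) 2 hnf
        have h6 : V (Function.update w i b) =
            min (A (Function.update w i b)) (B (Function.update w i b)) := by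
          rw [hV]; simp only [if_pos (ok_step w hok i b hk)]
        rw [h6]
        push_cast at h5
        exact h5
      have h3 : LL q bL bR V w ≤ m * exp (θ * (2 + C0)) := by
        unfold LL
        have : ∀ i ∈ (univ : Finset (Fin m)), (if kc bL bR w ((i : ℕ) : ℤ) then
            q * V (Function.update w i true) + (1 - q) * V (Function.update w i false) - V w
            else 0) ≤ exp (θ * (2 + C0)) := by
          intro i _
          split_ifs with hk
          · have a1 := h2 i true hk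
            have a2 := h2 i false hk
            have a3 := mul_le_mul_of_nonneg_left a1 hq.le
            have a4 := mul_le_mul_of_nonneg_left a2 (sub_nonneg.2 hq1.le)
            linarith
          · exact (exp_pos _).le
        refine (Finset.sum_le_sum this).trans ?_
        rw [Finset.sum_const, Finset.card_univ, Fintype.card_fin, nsmul_eq_mul]
      have h4 : θ * (v - ε) * V w ≤ θ * (v - ε) * exp (θ * (1 + C0)) :=
        mul_le_mul_of_nonneg_left h1 (by positivity)
      have h5 : θ * (v - ε) * exp (θ * (1 + C0)) ≤ m * (θ * (v - ε) * exp (θ * (1 + C0))) := by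
        have := mul_le_mul_of_nonneg_right hm1 hC2
        linarith
      have h6 : 0 ≤ C0 * m := by positivity
      rw [hC]
      nlinarith [h3, h4, h5, h6]

/-- **upper bound for the gaps** -/
theorem gap_upper (hq : 0 < q) (hq1 : q < 1) {v : ℝ} (hv : IsSpeed q v) (ε : ℝ) (hε : 0 < ε)
    (hεv : ε < v) :
    ∃ θ C : ℝ, 0 < θ ∧ 0 < C ∧ ∀ (m : ℕ) (bL bR : Bool) (x : ℕ), x < m →
      ∀ (w : W m) (D : ℕ), ¬ far bL bR w x (D + 1) → ∀ t : ℝ, 0 ≤ t → ∀ K : ℕ,
        rowP (PP (LM q bL bR m) t) w (fun w' => far bL bR w' x K)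
          ≤ C * m * exp (-θ * K) * (1 + exp (θ * (D - (v - ε) * t))) := by
  obtain ⟨θ, C, hθ, hC, hmain⟩ := exists_V hq hq1 hv ε hε hεv
  have hvε : 0 < v - ε := by linarith
  have hc : 0 < θ * (v - ε) := by positivity
  refine ⟨θ, exp (θ * C) * (exp (θ * C) + C / (θ * (v - ε))), hθ, by positivity, ?_⟩
  intro m bL bR x hx w D hfar t ht K
  obtain ⟨V, hV0, hVlow, hVup, hVgen⟩ := hmain m bL bR x hx
  have hm1 : (1 : ℝ) ≤ m := by
    have : 1 ≤ m := by omega
    exact_mod_cast this
  have hok : ok bL bR w := by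
    unfold far at hfar
    push Not at hfar
    obtain ⟨k, -, hk2⟩ := hfar
    exact gapU_ev_ok (by simpa using hk2)
  have hgen : IsGen (LM q bL bR m) := LM_gen hq hq1
  have h1 : ∑ y, PP (LM q bL bR m) t w y * V y ≤
      exp (-(θ * (v - ε)) * t) * V w + C * m / (θ * (v - ε)) := by
    apply gronwall_neg hgen (θ * (v - ε)) (C * m) hc (by positivity) V _ ht w
    intro y
    rw [LM_mul]
    exact hVgen y
  have h2 := rowP_le hgen ht w (fun w' => far bL bR w' x K) V (exp (θ * (K - C)))
    (exp_pos _) (fun y _ => hV0 y) (by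
      intro y hy hfy
      apply hVlow y K _ hfy
      by_contra hcon
      exact hy (PP_closed (ok bL bR) (fun a b ha hb => LM_ok a b ha hb) t w y hok hcon))
  refine h2.trans ?_
  rw [div_le_iff₀ (exp_pos _)]
  have h3 : exp (-(θ * (v - ε)) * t) * V w ≤ exp (-(θ * (v - ε)) * t) * exp (θ * (D + C)) :=
    mul_le_mul_of_nonneg_left (hVup w D hfar) (exp_pos _).le
  have h4 : exp (-(θ * (v - ε)) * t) * exp (θ * (D + C)) =
      exp (θ * C) * exp (θ * (D - (v - ε) * t)) := by
    rw [← exp_add, ← exp_add]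
    congr 1
    ring
  have h5 : exp (-θ * K) * exp (θ * (K - C)) * exp (θ * C) = 1 := by
    rw [← exp_add, ← exp_add, ← exp_zero]
    congr 1
    ring
  obtain ⟨E, hE⟩ : ∃ E, E = exp (θ * (D - (v - ε) * t)) := ⟨_, rfl⟩
  have hEpos : 0 < E := by rw [hE]; exact exp_pos _
  obtain ⟨G, hGd⟩ : ∃ G, G = exp (θ * C) := ⟨_, rfl⟩
  have hGpos : 0 < G := by rw [hGd]; exact exp_pos _
  rw [← hE, ← hGd] at h4
  rw [← hGd] at h5
  rw [← hE, ← hGd]
  have h6 : ∑ y, PP (LM q bL bR m) t w y * V y ≤ G * E + C * m / (θ * (v - ε)) := by linarith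
  have h7 : G * (G + C / (θ * (v - ε))) * m * exp (-θ * K) * (1 + E) * exp (θ * (K - C))
      = (exp (-θ * K) * exp (θ * (K - C)) * G) * ((G + C / (θ * (v - ε))) * m * (1 + E)) := by
    ring
  rw [h7, h5, one_mul]
  have h8 : 0 ≤ C / (θ * (v - ε)) := by positivity
  have h9 : C * m / (θ * (v - ε)) = C / (θ * (v - ε)) * m := by ring
  rw [h9] at h6
  have h10 : G * E ≤ G * m * (1 + E) := by
    have a1 : E ≤ m * (1 + E) := by nlinarith
    calc G * E ≤ G * (m * (1 + E)) := mul_le_mul_of_nonneg_left a1 hGpos.le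
      _ = _ := by ring
  have h11 : C / (θ * (v - ε)) * m ≤ C / (θ * (v - ε)) * m * (1 + E) := by
    have : 0 ≤ C / (θ * (v - ε)) * m := by positivity
    nlinarith
  linarith

end Pool.Agent.Lib.MP_4c13d6_pr
end

section

/-! AS-2: the upper bound for the mixing time. -/

open Finset

namespace Pool.Agent.Lib.MP_4c13d6_pr

variable {q : ℝ}

section upperAux

open Filter Topology

private theorem upper_log {a : ℝ} (ha : 0 < a) :
    ∀ᶠ m : ℕ in atTop, ((⌈a * Real.log m⌉₊ : ℝ) + 1) ^ 3 ≤ √(m : ℝ) := by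
  have h1 : Tendsto (fun x : ℝ => a * (Real.log x / x ^ (1 / 6 : ℝ)) + 2 * (x ^ (1 / 6 : ℝ))⁻¹)
      atTop (𝓝 0) := by
    have h2 : Tendsto (fun x : ℝ => Real.log x / x ^ (1 / 6 : ℝ)) atTop (𝓝 0) :=
      (isLittleO_log_rpow_atTop (by norm_num : (0 : ℝ) < 1 / 6)).tendsto_div_nhds_zero
    have h3 : Tendsto (fun x : ℝ => (x ^ (1 / 6 : ℝ))⁻¹) atTop (𝓝 0) :=
      (tendsto_rpow_atTop (by norm_num : (0 : ℝ) < 1 / 6)).inv_tendsto_atTop
    have := (h2.const_mul a).add (h3.const_mul 2)
    simpa using this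
  have h4 := (h1.comp tendsto_natCast_atTop_atTop).eventually (gt_mem_nhds one_pos)
  filter_upwards [h4, eventually_ge_atTop 1] with m hm hm1
  have hmp : (0 : ℝ) < m := by exact_mod_cast hm1
  have hm1' : (1 : ℝ) ≤ m := by exact_mod_cast hm1
  have hp : 0 < (m : ℝ) ^ (1 / 6 : ℝ) := Real.rpow_pos_of_pos hmp _
  have h5 : a * Real.log m + 2 ≤ (m : ℝ) ^ (1 / 6 : ℝ) := by
    have h6 : (a * (Real.log m / (m : ℝ) ^ (1 / 6 : ℝ)) + 2 * ((m : ℝ) ^ (1 / 6 : ℝ))⁻¹) *
        (m : ℝ) ^ (1 / 6 : ℝ) ≤ 1 * (m : ℝ) ^ (1 / 6 : ℝ) :=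
      mul_le_mul_of_nonneg_right hm.le hp.le
    have h7 : (a * (Real.log m / (m : ℝ) ^ (1 / 6 : ℝ)) + 2 * ((m : ℝ) ^ (1 / 6 : ℝ))⁻¹) *
        (m : ℝ) ^ (1 / 6 : ℝ) = a * Real.log m + 2 := by
      field_simp
    rw [h7, one_mul] at h6
    exact h6
  have h8 : (⌈a * Real.log m⌉₊ : ℝ) < a * Real.log m + 1 :=
    Nat.ceil_lt_add_one (mul_nonneg ha.le (Real.log_nonneg hm1'))
  have h9 : (⌈a * Real.log m⌉₊ : ℝ) + 1 ≤ (m : ℝ) ^ (1 / 6 : ℝ) := by linarith
  calc ((⌈a * Real.log m⌉₊ : ℝ) + 1) ^ 3 ≤ ((m : ℝ) ^ (1 / 6 : ℝ)) ^ 3 :=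
        pow_le_pow_left₀ (by positivity) h9 3
    _ = √(m : ℝ) := by
        rw [← Real.rpow_natCast, ← Real.rpow_mul hmp.le, Real.sqrt_eq_rpow]
        norm_num

private theorem upper_exp {c : ℝ} (hc : 0 < c) :
    Tendsto (fun m : ℕ => (m : ℝ) * Real.exp (-(c * √(m : ℝ)))) atTop (𝓝 0) := by
  have h1 : Tendsto (fun m : ℕ => c * √(m : ℝ)) atTop atTop :=
    (Real.tendsto_sqrt_atTop.comp tendsto_natCast_atTop_atTop).const_mul_atTop hc
  have h2 := (Real.tendsto_pow_mul_exp_neg_atTop_nhds_zero 2).comp h1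
  have h3 := h2.const_mul (1 / c ^ 2)
  rw [mul_zero] at h3
  refine h3.congr fun m => ?_
  simp only [Function.comp_apply]
  rw [mul_pow, Real.sq_sqrt (Nat.cast_nonneg m)]
  field_simp

end upperAux

theorem upper (hq : 0 < q) (hq1 : q < 1) {v : ℝ} (hv : IsSpeed q v) :
    ∀ δ : ℝ, 0 < δ → ∃ m₀ : ℕ, ∀ m, m₀ ≤ m → ∀ (bL bR : Bool) (w : W m), ok bL bR w →
      ∀ t : ℝ, (1 + δ) * TT v bL bR m ≤ t →
      ∑ z, |PP (LM q bL bR m) t w z - mu q bL bR z| ≤ δ := by
  intro δ hδ
  have hv0 : 0 < v := hv.1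
  set ε : ℝ := v * (δ / (2 * (2 + δ))) with hε
  have hε0 : 0 < ε := by positivity
  have hεv : ε < v := by
    rw [hε]
    have : δ / (2 * (2 + δ)) < 1 := by
      rw [div_lt_one (by positivity)]; linarith
    calc v * (δ / (2 * (2 + δ))) < v * 1 := mul_lt_mul_of_pos_left this hv0
      _ = v := mul_one v
  have hve : (v - ε) * (1 + δ / 2) = v * (1 + δ / 4) := by
    rw [hε]; field_simp; ring
  have hve0 : 0 < v - ε := by linarith
  obtain ⟨θ, C, hθ, hC, hgap⟩ := gap_upper hq hq1 hv ε hε0 hεv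
  obtain ⟨C', hC', htv⟩ := tv_of_gaps hq hq1
  set c : ℝ := δ / (4 * v * C') with hc
  have hc0 : 0 < c := by positivity
  -- smallness
  have ev1 := upper_log (a := 5 / θ) (by positivity)
  have ev2 : ∀ᶠ m : ℕ in Filter.atTop, C' * ((m : ℝ) * Real.exp (-(c * √(m : ℝ)))) <
      (δ / 3) ^ 2 := by
    have h1 := (upper_exp hc0).const_mul C'
    rw [mul_zero] at h1
    exact h1.eventually (gt_mem_nhds (by positivity))
  have ev3 : ∀ᶠ m : ℕ in Filter.atTop, 8 * C / (m : ℝ) < δ / 3 :=
    (tendsto_const_div_atTop_nhds_zero_nat (8 * C)).eventually (gt_mem_nhds (by positivity))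
  have ev4 : ∀ᶠ m : ℕ in Filter.atTop, 2 * C * δ / v / (m : ℝ) < δ / 3 :=
    (tendsto_const_div_atTop_nhds_zero_nat (2 * C * δ / v)).eventually
      (gt_mem_nhds (by positivity))
  have ev5 : ∀ᶠ m : ℕ in Filter.atTop, 4 / δ ≤ (m : ℝ) :=
    tendsto_natCast_atTop_atTop.eventually (Filter.eventually_ge_atTop (4 / δ))
  obtain ⟨m₀, hm₀⟩ := Filter.eventually_atTop.1
    (ev1.and (ev2.and (ev3.and (ev4.and (ev5.and (Filter.eventually_ge_atTop 4))))))
  refine ⟨m₀, fun m hm bL bR w hw t ht => ?_⟩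
  obtain ⟨h1, h2, h3, h4, h5, h6⟩ := hm₀ m hm
  have hm4 : (4 : ℝ) ≤ m := by exact_mod_cast h6
  have hmp : (0 : ℝ) < m := by linarith
  set K : ℕ := ⌈5 / θ * Real.log m⌉₊ with hK
  have hs : √(m : ℝ) * √(m : ℝ) = m := Real.mul_self_sqrt hmp.le
  have hs2 : 2 ≤ √(m : ℝ) := by
    rw [show (2 : ℝ) = √4 by
      rw [show (4 : ℝ) = 2 ^ 2 by norm_num, Real.sqrt_sq (by norm_num)]]
    exact Real.sqrt_le_sqrt hm4
  have hspos : 0 < √(m : ℝ) := by linarith
  have hK0 : (0 : ℝ) ≤ K := Nat.cast_nonneg K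
  -- size of `K`
  have hKm : 2 * K + 2 ≤ m := by
    have e1 : (K : ℝ) + 1 ≤ ((K : ℝ) + 1) ^ 3 := by nlinarith [mul_nonneg hK0 hK0]
    have e2 : 2 * ((K : ℝ) + 1) ≤ m := by nlinarith
    have e3 : ((2 * K + 2 : ℕ) : ℝ) ≤ (m : ℕ) := by push_cast; linarith
    exact_mod_cast e3
  -- the time scale
  set T : ℝ := TT v bL bR m with hT
  have hTu : T ≤ m / v := by
    rw [hT, TT]
    split_ifs
    · apply div_le_div_of_nonneg_left hmp.le hv0
      linarith
    · exact le_rfl
  have hTl : m / (2 * v) ≤ T := by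
    rw [hT, TT]
    split_ifs
    · exact le_rfl
    · apply div_le_div_of_nonneg_left hmp.le hv0
      linarith
  have hT0 : 0 < T := lt_of_lt_of_le (by positivity) hTl
  set β : ℝ := 2 * C / (m : ℝ) ^ 4 with hβ
  have hβ0 : 0 ≤ β := by positivity
  have hexpK : Real.exp (-θ * K) ≤ 1 / (m : ℝ) ^ 5 := by
    have e1 : 5 / θ * Real.log m ≤ K := Nat.le_ceil _
    have e2 : 5 * Real.log m ≤ θ * K := by
      calc 5 * Real.log m = θ * (5 / θ * Real.log m) := by field_simp
        _ ≤ θ * K := mul_le_mul_of_nonneg_left e1 hθ.le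
    calc Real.exp (-θ * K) ≤ Real.exp (-(5 * Real.log m)) := by
          apply Real.exp_le_exp.2; linarith
      _ = 1 / (m : ℝ) ^ 5 := by
          rw [Real.exp_neg, show 5 * Real.log m = Real.log ((m : ℝ) ^ 5) by
            rw [Real.log_pow]; norm_num, Real.exp_log (by positivity), one_div]
  have hmain := htv bL bR m K w (t - δ / 2 * T) (δ / 2 * T) β hKm (by nlinarith) (by positivity)
    hβ0 hw (by
      intro w' hw' s hs' x hx
      have hsl : (1 + δ / 2) * T ≤ s := by nlinarith
      have hs0 : 0 ≤ s := le_trans (by positivity) hsl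
      have hvs : v * (1 + δ / 4) * T ≤ (v - ε) * s := by
        calc v * (1 + δ / 4) * T = (v - ε) * ((1 + δ / 2) * T) := by rw [← hve]; ring
          _ ≤ (v - ε) * s := mul_le_mul_of_nonneg_left hsl hve0.le
      obtain ⟨D, hD, hDs⟩ : ∃ D : ℕ, ¬ far bL bR w' x (D + 1) ∧ (D : ℝ) ≤ (v - ε) * s := by
        by_cases hb : bL = true ∧ bR = true
        · obtain ⟨rfl, rfl⟩ := hb
          refine ⟨(m + 1) / 2, not_far_start' w' x hx, ?_⟩
          have e1 : (((m + 1) / 2 : ℕ) : ℝ) ≤ ((m : ℝ) + 1) / 2 := by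
            have := @Nat.cast_div_le ℝ _ _ _ (m + 1) 2
            push_cast at this
            exact this
          have e2 : T = m / (2 * v) := by
            rw [hT, TT, if_pos ⟨rfl, rfl⟩]
          have e3 : v * (1 + δ / 4) * T = (1 + δ / 4) * m / 2 := by
            rw [e2]; field_simp
          have e4 : 4 ≤ δ * m := by
            have := (div_le_iff₀ hδ).1 h5
            linarith
          calc (((m + 1) / 2 : ℕ) : ℝ) ≤ ((m : ℝ) + 1) / 2 := e1
            _ ≤ (1 + δ / 4) * m / 2 := by nlinarith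
            _ = v * (1 + δ / 4) * T := e3.symm
            _ ≤ (v - ε) * s := hvs
        · refine ⟨m, not_far_start bL bR w' hw' x hx, ?_⟩
          have e2 : T = m / v := by
            rw [hT, TT, if_neg hb]
          have e3 : v * (1 + δ / 4) * T = (1 + δ / 4) * m := by
            rw [e2]; field_simp
          calc (m : ℝ) ≤ (1 + δ / 4) * m := by nlinarith
            _ = v * (1 + δ / 4) * T := e3.symm
            _ ≤ (v - ε) * s := hvs
      have hg := hgap m bL bR x hx w' D hD s hs0 K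
      have hexp1 : Real.exp (θ * (D - (v - ε) * s)) ≤ 1 := by
        rw [← Real.exp_zero]
        apply Real.exp_le_exp.2
        exact mul_nonpos_of_nonneg_of_nonpos hθ.le (by linarith)
      calc _ ≤ C * m * Real.exp (-θ * K) * (1 + Real.exp (θ * (D - (v - ε) * s))) := hg
        _ ≤ C * m * (1 / (m : ℝ) ^ 5) * (1 + 1) := by gcongr
        _ = β := by rw [hβ]; field_simp; ring)
  rw [sub_add_cancel] at hmain
  refine hmain.trans ?_
  -- first term
  have b1 : 4 * m * β ≤ δ / 3 := by
    have e1 : 4 * m * β = 8 * C / (m : ℝ) ^ 3 := by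
      rw [hβ]; field_simp; ring
    rw [e1]
    refine le_trans ?_ h3.le
    apply div_le_div_of_nonneg_left (by positivity) hmp
    calc (m : ℝ) = m ^ 1 := (pow_one _).symm
      _ ≤ (m : ℝ) ^ 3 := pow_le_pow_right₀ (by linarith) (by norm_num)
  have b2 : 2 * (δ / 2 * T) * m ^ 2 * β ≤ δ / 3 := by
    refine le_trans ?_ h4.le
    calc 2 * (δ / 2 * T) * m ^ 2 * β ≤ 2 * (δ / 2 * (m / v)) * m ^ 2 * β := by gcongr
      _ = 2 * C * δ / v / (m : ℝ) := by rw [hβ]; field_simp
  have b3 : √(C' * m * Real.exp (-(δ / 2 * T) / (C' * (K + 1) ^ 3))) ≤ δ / 3 := by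
    rw [Real.sqrt_le_left (by positivity)]
    refine le_trans ?_ h2.le
    rw [mul_assoc]
    apply mul_le_mul_of_nonneg_left _ hC'.le
    apply mul_le_mul_of_nonneg_left _ hmp.le
    apply Real.exp_le_exp.2
    rw [neg_div, neg_le_neg_iff, le_div_iff₀ (by positivity)]
    calc c * √(m : ℝ) * (C' * ((K : ℝ) + 1) ^ 3) ≤ c * √(m : ℝ) * (C' * √(m : ℝ)) := by gcongr
      _ = c * C' * (√(m : ℝ) * √(m : ℝ)) := by ring
      _ = δ / 2 * (m / (2 * v)) := by rw [hs, hc]; field_simp; ring
      _ ≤ δ / 2 * T := by gcongr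
  linarith

end Pool.Agent.Lib.MP_4c13d6_pr
end
end
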